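import Mathlib

/-!
The space `c_0(V)`, its absorption property, and the transfer to spaces containing a
one-complemented copy of `c_0(V)`.
-/

open Filter Topology TopologicalSpace
open scoped ZeroAtInfty

noncomputable section

namespace BMAbs

universe u v

/-- `c_0(V)`: the null sequences in `V` with the supremum norm. -/
abbrev cz (V : Type u) [NormedAddCommGroup V] : Type u := C₀(ℕ, V)

section Basic

variable {V : Type u} [NormedAddCommGroup V] [NormedSpace ℝ V]

/-- A null sequence as an element of `c_0(V)`. -/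
def mk0 (f : ℕ → V) (hf : Tendsto f atTop (𝓝 0)) : cz V where
  toFun := f
  continuous_toFun := continuous_of_discreteTopology
  zero_at_infty' := by
    rw [Filter.cocompact_eq_cofinite, Nat.cofinite_eq_atTop]
    exact hf

omit [NormedSpace ℝ V] in
@[simp] theorem mk0_apply (f : ℕ → V) (hf : Tendsto f atTop (𝓝 0)) (n : ℕ) : mk0 f hf n = f n :=
  rfl

omit [NormedSpace ℝ V] in
theorem tendsto_cz (f : cz V) : Tendsto (fun n => f n) atTop (𝓝 0) := by
  have h := f.zero_at_infty'
  rwa [Filter.cocompact_eq_cofinite, Nat.cofinite_eq_atTop] at h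

omit [NormedSpace ℝ V] in
theorem norm_apply_le (f : cz V) (n : ℕ) : ‖f n‖ ≤ ‖f‖ := by
  have h := BoundedContinuousFunction.norm_coe_le_norm f.toBCF n
  rwa [ZeroAtInftyContinuousMap.norm_toBCF_eq_norm] at h

omit [NormedSpace ℝ V] in
theorem norm_cz_le (f : cz V) {C : ℝ} (hC : 0 ≤ C) (h : ∀ n, ‖f n‖ ≤ C) : ‖f‖ ≤ C := by
  rw [← ZeroAtInftyContinuousMap.norm_toBCF_eq_norm]
  exact (BoundedContinuousFunction.norm_le hC).2 h

/-- The sequence `v, f 0, f 1, ...`. -/
def consFun (v : V) (f : ℕ → V) : ℕ → V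
  | 0 => v
  | n + 1 => f n

omit [NormedSpace ℝ V] in
theorem tendsto_consFun (v : V) (f : cz V) : Tendsto (consFun v f) atTop (𝓝 0) := by
  rw [← tendsto_add_atTop_iff_nat 1]
  exact tendsto_cz f

/-- `V × c_0(V)` is isometric to `c_0(V)`. -/
def consL : (V × cz V) ≃ₗᵢ[ℝ] cz V where
  toFun p := mk0 (consFun p.1 p.2) (tendsto_consFun p.1 p.2)
  map_add' p q := by
    ext n
    cases n <;> rfl
  map_smul' c p := by
    ext n
    cases n <;> rfl
  invFun f := (f 0, mk0 (fun n => f (n + 1)) ((tendsto_add_atTop_iff_nat 1).2 (tendsto_cz f)))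
  left_inv p := by
    refine Prod.ext rfl ?_
    ext n
    rfl
  right_inv f := by
    ext n
    cases n <;> rfl
  norm_map' p := by
    show ‖mk0 (consFun p.1 p.2) (tendsto_consFun p.1 p.2)‖ = ‖p‖
    apply le_antisymm
    · refine norm_cz_le _ (norm_nonneg _) (fun n => ?_)
      cases n with
      | zero => exact norm_fst_le p
      | succ n => exact (norm_apply_le p.2 n).trans (norm_snd_le p)
    · refine max_le ?_ ?_
      · exact norm_apply_le (mk0 (consFun p.1 p.2) (tendsto_consFun p.1 p.2)) 0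
      · refine norm_cz_le _ (norm_nonneg _) (fun n => ?_)
        exact norm_apply_le (mk0 (consFun p.1 p.2) (tendsto_consFun p.1 p.2)) (n + 1)

/-- The embedding of `V` as constant coordinate `0`. -/
theorem consL_apply_zero (p : V × cz V) : consL p 0 = p.1 := rfl

theorem consL_apply_succ (p : V × cz V) (n : ℕ) : consL p (n + 1) = p.2 n := rfl

/-- Finite sequences as elements of `c_0(V)`. -/
def finSeq (n : ℕ) (a : Fin n → V) : cz V :=
  mk0 (fun m => if h : m < n then a ⟨m, h⟩ else 0) (by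
    refine tendsto_const_nhds.congr' ?_
    filter_upwards [eventually_ge_atTop n] with m hm
    rw [dif_neg (not_lt.2 hm)])

omit [NormedSpace ℝ V] in
theorem finSeq_apply (n : ℕ) (a : Fin n → V) (m : ℕ) :
    finSeq n a m = if h : m < n then a ⟨m, h⟩ else 0 := rfl

omit [NormedSpace ℝ V] in
theorem continuous_finSeq (n : ℕ) : Continuous (finSeq (V := V) n) := by
  have hL : LipschitzWith 1 (finSeq (V := V) n) := by
    refine LipschitzWith.of_dist_le_mul (fun a b => ?_)
    rw [NNReal.coe_one, one_mul, dist_eq_norm, dist_eq_norm]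
    refine norm_cz_le _ (norm_nonneg _) (fun m => ?_)
    show ‖finSeq n a m - finSeq n b m‖ ≤ _
    rw [finSeq_apply, finSeq_apply]
    split_ifs with h
    · exact norm_le_pi_norm (a - b) ⟨m, h⟩
    · simp
  exact hL.continuous

omit [NormedSpace ℝ V] in
theorem exists_finSeq_near (f : cz V) {ε : ℝ} (hε : 0 < ε) :
    ∃ n, ‖f - finSeq n (fun i => f i)‖ ≤ ε := by
  have h := (tendsto_cz f).norm
  rw [norm_zero] at h
  obtain ⟨n, hn⟩ := (h.eventually (gt_mem_nhds hε)).exists_forall_of_atTop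
  refine ⟨n, norm_cz_le _ hε.le (fun m => ?_)⟩
  show ‖f m - finSeq n (fun i => f i) m‖ ≤ ε
  rw [finSeq_apply]
  split_ifs with h
  · simp [hε.le]
  · rw [sub_zero]
    exact (hn m (not_lt.1 h)).le

instance instSeparable [SeparableSpace V] : SeparableSpace (cz V) := by
  have h1 : IsSeparable (⋃ n, Set.range (finSeq (V := V) n)) :=
    IsSeparable.iUnion fun n => isSeparable_range (continuous_finSeq n)
  have h2 : Dense (⋃ n, Set.range (finSeq (V := V) n)) := by
    intro f
    rw [Metric.mem_closure_iff]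
    intro ε hε
    obtain ⟨n, hn⟩ := exists_finSeq_near f (half_pos hε)
    refine ⟨finSeq n (fun i => f i), Set.mem_iUnion.2 ⟨n, Set.mem_range_self _⟩, ?_⟩
    rw [dist_eq_norm]
    linarith
  have h3 : IsSeparable (Set.univ : Set (cz V)) := by
    rw [← h2.closure_eq]
    exact h1.closure
  exact isSeparable_univ_iff.1 h3

theorem nontrivial_cz [Nontrivial V] : Nontrivial (cz V) := by
  obtain ⟨v, hv⟩ := exists_ne (0 : V)
  refine ⟨⟨consL (v, 0), 0, fun h => hv ?_⟩⟩
  have := congrArg (fun f : cz V => f 0) h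
  exact this

theorem tendsto_map {V' : Type v} [NormedAddCommGroup V'] [NormedSpace ℝ V'] (e : V ≃ₗᵢ[ℝ] V')
    (f : cz V) : Tendsto (fun n => e (f n)) atTop (𝓝 0) := by
  have h := (e.continuous.tendsto 0).comp (tendsto_cz f)
  rwa [map_zero] at h

/-- A linear isometry equivalence of `V` induces one of `c_0(V)`. -/
def mapL {V' : Type v} [NormedAddCommGroup V'] [NormedSpace ℝ V'] (e : V ≃ₗᵢ[ℝ] V') :
    cz V ≃ₗᵢ[ℝ] cz V' where
  toFun f := mk0 (fun n => e (f n)) (tendsto_map e f)
  map_add' f g := by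
    ext n
    show e (f n + g n) = e (f n) + e (g n)
    exact map_add _ _ _
  map_smul' c f := by
    ext n
    show e (c • f n) = c • e (f n)
    exact map_smul _ _ _
  invFun f := mk0 (fun n => e.symm (f n)) (tendsto_map e.symm f)
  left_inv f := by
    ext n
    exact e.symm_apply_apply _
  right_inv f := by
    ext n
    exact e.apply_symm_apply _
  norm_map' f := by
    show ‖mk0 (fun n => e (f n)) (tendsto_map e f)‖ = ‖f‖
    apply le_antisymm
    · refine norm_cz_le _ (norm_nonneg _) (fun n => ?_)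
      show ‖e (f n)‖ ≤ ‖f‖
      rw [e.norm_map]
      exact norm_apply_le f n
    · refine norm_cz_le _ (norm_nonneg _) (fun n => ?_)
      rw [← e.norm_map]
      exact norm_apply_le (mk0 (fun n => e (f n)) (tendsto_map e f)) n

end Basic

section Absorption

variable {V : Type*} [NormedAddCommGroup V] [NormedSpace ℝ V]
  {Z : Type*} [NormedAddCommGroup Z] [NormedSpace ℝ Z]
  {W : Type*} [NormedAddCommGroup W] [NormedSpace ℝ W]

/-- If `V × Z` is isometric to `Z` and `Z` is one-complemented in `W`, then `V × W` is isomorphic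
to `W` with constants `3` and `3`. -/
theorem absorb (c : (V × Z) ≃ₗᵢ[ℝ] Z) (j : Z →L[ℝ] W) (π : W →L[ℝ] Z) (hj : ∀ z, ‖j z‖ ≤ ‖z‖)
    (hπ : ∀ w, ‖π w‖ ≤ ‖w‖) (hπj : ∀ z, π (j z) = z) :
    ∃ T : (V × W) ≃L[ℝ] W, (∀ p, ‖T p‖ ≤ 3 * ‖p‖) ∧ ∀ w, ‖T.symm w‖ ≤ 3 * ‖w‖ := by
  let f : (V × W) →ₗ[ℝ] W :=
    { toFun := fun p => j (c (p.1, π p.2)) + (p.2 - j (π p.2))
      map_add' := fun p q => by
        have h1 : ((p + q).1, π (p + q).2) = (p.1, π p.2) + (q.1, π q.2) := by
          refine Prod.ext rfl ?_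
          show π (p.2 + q.2) = π p.2 + π q.2
          exact map_add _ _ _
        rw [h1, map_add, map_add]
        show j (c (p.1, π p.2)) + j (c (q.1, π q.2)) + ((p.2 + q.2) - j (π (p.2 + q.2))) = _
        rw [map_add, map_add]
        abel
      map_smul' := fun r p => by
        have h1 : ((r • p).1, π (r • p).2) = r • (p.1, π p.2) := by
          refine Prod.ext rfl ?_
          show π (r • p.2) = r • π p.2
          exact map_smul _ _ _
        rw [h1, map_smul, map_smul]
        show r • j (c (p.1, π p.2)) + ((r • p.2) - j (π (r • p.2))) = _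
        rw [map_smul, map_smul]
        simp only [RingHom.id_apply, smul_add, smul_sub] }
  let g : W →ₗ[ℝ] (V × W) :=
    { toFun := fun w => ((c.symm (π w)).1, j (c.symm (π w)).2 + (w - j (π w)))
      map_add' := fun w w' => by
        refine Prod.ext ?_ ?_
        · show (c.symm (π (w + w'))).1 = (c.symm (π w)).1 + (c.symm (π w')).1
          rw [map_add, map_add]
          rfl
        · show j (c.symm (π (w + w'))).2 + ((w + w') - j (π (w + w'))) =
            (j (c.symm (π w)).2 + (w - j (π w))) + (j (c.symm (π w')).2 + (w' - j (π w')))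
          rw [map_add, map_add, map_add]
          show j ((c.symm (π w)).2 + (c.symm (π w')).2) + _ = _
          rw [map_add]
          abel
      map_smul' := fun r w => by
        refine Prod.ext ?_ ?_
        · show (c.symm (π (r • w))).1 = r • (c.symm (π w)).1
          rw [map_smul, map_smul]
          rfl
        · show j (c.symm (π (r • w))).2 + ((r • w) - j (π (r • w))) =
            r • (j (c.symm (π w)).2 + (w - j (π w)))
          rw [map_smul, map_smul, map_smul]
          show j (r • (c.symm (π w)).2) + _ = _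
          rw [map_smul, smul_add, smul_sub] }
  have hπ0 : ∀ w, π (w - j (π w)) = 0 := fun w => by rw [map_sub, hπj, sub_self]
  have hfg : ∀ w, f (g w) = w := by
    intro w
    have h1 : π (g w).2 = (c.symm (π w)).2 := by
      show π (j (c.symm (π w)).2 + (w - j (π w))) = _
      rw [map_add, hπj, hπ0, add_zero]
    show j (c ((g w).1, π (g w).2)) + ((g w).2 - j (π (g w).2)) = w
    rw [h1]
    have h2 : ((g w).1, (c.symm (π w)).2) = c.symm (π w) := rfl
    rw [h2, c.apply_symm_apply]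
    show j (π w) + ((j (c.symm (π w)).2 + (w - j (π w))) - j (c.symm (π w)).2) = w
    abel
  have hgf : ∀ p, g (f p) = p := by
    intro p
    have h1 : π (f p) = c (p.1, π p.2) := by
      show π (j (c (p.1, π p.2)) + (p.2 - j (π p.2))) = _
      rw [map_add, hπj, hπ0, add_zero]
    show ((c.symm (π (f p))).1, j (c.symm (π (f p))).2 + (f p - j (π (f p)))) = p
    rw [h1, c.symm_apply_apply]
    refine Prod.ext rfl ?_
    show j (π p.2) + ((j (c (p.1, π p.2)) + (p.2 - j (π p.2))) - j (c (p.1, π p.2))) = p.2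
    abel
  have hf : ∀ p, ‖f p‖ ≤ 3 * ‖p‖ := by
    intro p
    have h1 : ‖j (c (p.1, π p.2))‖ ≤ ‖p‖ := by
      refine (hj _).trans ?_
      rw [c.norm_map]
      exact max_le (norm_fst_le p) ((hπ p.2).trans (norm_snd_le p))
    have h2 : ‖j (π p.2)‖ ≤ ‖p‖ := (hj _).trans ((hπ p.2).trans (norm_snd_le p))
    have h3 : ‖p.2‖ ≤ ‖p‖ := norm_snd_le p
    have h4 : ‖f p‖ ≤ ‖j (c (p.1, π p.2))‖ + (‖p.2‖ + ‖j (π p.2)‖) :=
      (norm_add_le _ _).trans (add_le_add le_rfl (norm_sub_le _ _))
    linarith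
  have hg : ∀ w, ‖g w‖ ≤ 3 * ‖w‖ := by
    intro w
    have h0 : ‖c.symm (π w)‖ ≤ ‖w‖ := by
      rw [c.symm.norm_map]
      exact hπ w
    refine max_le ?_ ?_
    · have h1 : ‖(c.symm (π w)).1‖ ≤ ‖w‖ := (norm_fst_le _).trans h0
      show ‖(c.symm (π w)).1‖ ≤ _
      linarith [norm_nonneg w]
    · show ‖j (c.symm (π w)).2 + (w - j (π w))‖ ≤ _
      have h1 : ‖j (c.symm (π w)).2‖ ≤ ‖w‖ := (hj _).trans ((norm_snd_le _).trans h0)
      have h2 : ‖j (π w)‖ ≤ ‖w‖ := (hj _).trans (hπ w)
      have h3 : ‖j (c.symm (π w)).2 + (w - j (π w))‖ ≤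
          ‖j (c.symm (π w)).2‖ + (‖w‖ + ‖j (π w)‖) :=
        (norm_add_le _ _).trans (add_le_add le_rfl (norm_sub_le _ _))
      linarith
  let e : (V × W) ≃ₗ[ℝ] W := LinearEquiv.ofLinearMap f g (LinearMap.ext hfg) (LinearMap.ext hgf)
  exact ⟨e.toContinuousLinearEquivOfBounds 3 3 hf hg, hf, hg⟩

/-- Absorption for spaces containing a one-complemented isometric copy of `c_0(V)`. -/
theorem absorb_cz (e : Z ≃ₗᵢ[ℝ] cz V) (j : Z →L[ℝ] W) (π : W →L[ℝ] Z) (hj : ∀ z, ‖j z‖ ≤ ‖z‖)
    (hπ : ∀ w, ‖π w‖ ≤ ‖w‖) (hπj : ∀ z, π (j z) = z) :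
    ∃ T : (V × W) ≃L[ℝ] W, (∀ p, ‖T p‖ ≤ 3 * ‖p‖) ∧ ∀ w, ‖T.symm w‖ ≤ 3 * ‖w‖ := by
  let c1 : (V × Z) ≃ₗᵢ[ℝ] (V × cz V) :=
    { (LinearEquiv.refl ℝ V).prodCongr e.toLinearEquiv with
      norm_map' := fun p => by
        show max ‖p.1‖ ‖e p.2‖ = max ‖p.1‖ ‖p.2‖
        rw [e.norm_map] }
  exact absorb ((c1.trans consL).trans e.symm) j π hj hπ hπj

end Absorption

end BMAbs

end
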