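import Pool.Agent.Work.MP_89a7db_an.Dia.Defs

/-!
# Cell DIAM, module M2: the ambient space, 1.1 - 1.3
-/

set_option autoImplicit false
set_option linter.unusedSectionVars false

namespace Pool.Agent.DIAM

open Set Filter Topology Pool.Agent.Dia
open scoped ENNReal

noncomputable section

variable {W : Type} [LinearOrder W]
variable {Z : W × ℕ → Type} [∀ k, NormedAddCommGroup (Z k)] [∀ k, NormedSpace ℝ (Z k)]

theorem add_ap (x y : L Z) (k : W × ℕ) : (x + y) k = x k + y k := rfl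
theorem sub_ap (x y : L Z) (k : W × ℕ) : (x - y) k = x k - y k := rfl
theorem neg_ap (x : L Z) (k : W × ℕ) : (-x) k = -(x k) := rfl
theorem smul_ap (c : ℝ) (x : L Z) (k : W × ℕ) : (c • x) k = c • x k := rfl
theorem zero_ap (k : W × ℕ) : (0 : L Z) k = 0 := rfl

theorem sum_ap {ι : Type*} (s : Finset ι) (f : ι → L Z) (k : W × ℕ) :
    (∑ i ∈ s, f i) k = ∑ i ∈ s, f i k := by
  rw [lp.coeFn_sum, Finset.sum_apply]

theorem cut_mem {S : Set (W × ℕ)} {x : L Z} {k : W × ℕ} (h : k ∈ S) : cut S x k = x k := by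
  classical
  rw [cut_apply, if_pos h]

theorem cut_notMem {S : Set (W × ℕ)} {x : L Z} {k : W × ℕ} (h : k ∉ S) : cut S x k = 0 := by
  classical
  rw [cut_apply, if_neg h]

theorem norm_cut_le (S : Set (W × ℕ)) (x : L Z) : ‖cut S x‖ ≤ ‖x‖ := by
  refine (norm_le_iff _ (norm_nonneg _)).2 fun k => ?_
  by_cases h : k ∈ S
  · rw [cut_mem h]; exact norm_coord_le x k
  · rw [cut_notMem h]; simp

theorem norm_coord_le_cut {S : Set (W × ℕ)} {k : W × ℕ} (h : k ∈ S) (x : L Z) :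
    ‖x k‖ ≤ ‖cut S x‖ := by
  have := norm_coord_le (cut S x) k
  rwa [cut_mem h] at this

theorem norm_sg (k : W × ℕ) (z : Z k) : ‖sg k z‖ = ‖z‖ := by
  refine le_antisymm ((norm_le_iff _ (norm_nonneg _)).2 fun j => ?_) ?_
  · by_cases h : j = k
    · subst h; rw [sg_self]
    · rw [sg_ne k z h]; simp
  · have := norm_coord_le (sg k z) k
    rwa [sg_self] at this

/-- `|th m (sg k z)| ≤ ‖z‖`. -/
theorem Datum.abs_th_sg_le {a : W} (d : Datum Z a) (m : ℕ) (k : W × ℕ) (z : Z k) :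
    |d.th m (sg k z)| ≤ ‖z‖ :=
  (d.abs_th_le m _).trans ((norm_coord_le _ _).trans (norm_sg k z).le)

/-- The functional sums: `∑_{m < N} |φ (w m)| ≤ ‖φ‖`. -/
theorem Datum.sum_abs_le {a : W} (d : Datum Z a) (φ : StrongDual ℝ (L Z)) (N : ℕ) :
    ∑ m ∈ Finset.range N, |φ (d.w m)| ≤ ‖φ‖ := by
  have h1 : ∑ m ∈ Finset.range N, |φ (d.w m)| =
      φ (∑ m ∈ Finset.range N, (SignType.sign (φ (d.w m)) : ℝ) • d.w m) := by
    rw [map_sum]
    refine Finset.sum_congr rfl fun m _ => ?_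
    rw [map_smul, smul_eq_mul, sign_mul_self]
  rw [h1]
  have h2 : ‖∑ m ∈ Finset.range N, (SignType.sign (φ (d.w m)) : ℝ) • d.w m‖ ≤ 1 := by
    refine d.w1 N _ fun m => ?_
    rcases lt_trichotomy (φ (d.w m)) 0 with h | h | h <;> simp [h]
  calc φ _ ≤ ‖φ‖ * ‖∑ m ∈ Finset.range N, (SignType.sign (φ (d.w m)) : ℝ) • d.w m‖ :=
        (le_abs_self _).trans (φ.le_opNorm _)
    _ ≤ ‖φ‖ * 1 := by gcongr
    _ = ‖φ‖ := mul_one _

theorem Datum.summable_abs {a : W} (d : Datum Z a) (φ : StrongDual ℝ (L Z)) :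
    Summable fun m => |φ (d.w m)| :=
  summable_of_sum_range_le (fun _ => abs_nonneg _) (d.sum_abs_le φ)

theorem Datum.tsum_abs_le {a : W} (d : Datum Z a) (φ : StrongDual ℝ (L Z)) :
    ∑' m, |φ (d.w m)| ≤ ‖φ‖ :=
  Real.tsum_le_of_sum_range_le (fun _ => abs_nonneg _) (d.sum_abs_le φ)

theorem Datum.norm_th_le {a : W} (d : Datum Z a) (m : ℕ) : ‖d.th m‖ ≤ 1 := by
  refine ContinuousLinearMap.opNorm_le_bound _ zero_le_one fun x => ?_
  rw [one_mul]
  exact (d.abs_th_le m x).trans (norm_coord_le x _)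

/-- `|w m| ≤ 1` -/
theorem Datum.norm_w_le {a : W} (d : Datum Z a) (m : ℕ) : ‖d.w m‖ ≤ 1 := by
  have h := d.w1 (m + 1) (fun l => if l = m then 1 else 0) (fun l => by split_ifs <;> simp)
  rwa [Finset.sum_eq_single m (fun b _ hb => by simp [hb]) (fun h => by simp at h), if_pos rfl,
    one_smul] at h

variable [∀ k, CompleteSpace (Z k)]

theorem Datum.summable_ps {a : W} (d : Datum Z a) (t : ℕ → ℝ) {T : ℝ}
    (ht : ∀ m, |t m| ≤ T) (k : W × ℕ) : Summable fun m => t m • d.w m k := by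
  refine Summable.of_norm_bounded ((d.w2 k).mul_left T) fun m => ?_
  rw [norm_smul]
  gcongr
  exact ht m

theorem Datum.norm_ps_le {a : W} (d : Datum Z a) (t : ℕ → ℝ) {T : ℝ} (hT : 0 ≤ T)
    (ht : ∀ m, |t m| ≤ T) : ‖d.ps t T hT ht‖ ≤ T :=
  (norm_le_iff _ hT).2 fun k => d.norm_tsum_le t hT ht k

theorem Datum.ps_eq_zero {a : W} (d : Datum Z a) (t : ℕ → ℝ) {T : ℝ} (hT : 0 ≤ T)
    (ht : ∀ m, |t m| ≤ T) {k : W × ℕ} (hk : a ≤ k.1) : d.ps t T hT ht k = 0 := by
  rw [d.ps_apply]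
  have : ∀ m, t m • d.w m k = 0 := fun m => by rw [d.supp m k hk, smul_zero]
  simp [this]

theorem Datum.T_ge {a : W} (d : Datum Z a) (x : L Z) {k : W × ℕ} (hk : a ≤ k.1) :
    d.T x k = 0 := by
  rw [d.T_apply]
  have : ∀ m, d.th m x • d.w m k = 0 := fun m => by rw [d.supp m k hk, smul_zero]
  simp [this]

theorem Datum.A_apply {a : W} (d : Datum Z a) (x : L Z) : d.A x = cut (geS a) x + d.T x := rfl

theorem Datum.P_apply {a : W} (d : Datum Z a) (x : L Z) : d.P x = x - d.A x := rfl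

theorem Datum.A_ge {a : W} (d : Datum Z a) (x : L Z) {k : W × ℕ} (hk : a ≤ k.1) :
    d.A x k = x k := by
  rw [d.A_apply, add_ap, d.T_ge x hk, cut_mem (show k ∈ geS a from hk), add_zero]

theorem Datum.A_lt {a : W} (d : Datum Z a) (x : L Z) {k : W × ℕ} (hk : k.1 < a) :
    d.A x k = d.T x k := by
  rw [d.A_apply, add_ap, cut_notMem (show k ∉ geS a from not_le.2 hk), zero_add]

theorem Datum.P_ge {a : W} (d : Datum Z a) (x : L Z) {k : W × ℕ} (hk : a ≤ k.1) :
    d.P x k = 0 := by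
  rw [d.P_apply, sub_ap, d.A_ge x hk, sub_self]

theorem Datum.P_lt {a : W} (d : Datum Z a) (x : L Z) {k : W × ℕ} (hk : k.1 < a) :
    d.P x k = x k - d.T x k := by
  rw [d.P_apply, sub_ap, d.A_lt x hk]

/-- 1.1 -/
theorem Datum.norm_T_le {a : W} (d : Datum Z a) (x : L Z) : ‖d.T x‖ ≤ ‖cut (geS a) x‖ := by
  refine (norm_le_iff _ (norm_nonneg _)).2 fun k => ?_
  exact d.norm_tsum_le _ (norm_nonneg _) (fun m => (d.abs_th_le m x).trans
    (norm_coord_le_cut (show (a, d.i m) ∈ geS a from le_rfl) x)) k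

theorem Datum.norm_A {a : W} (d : Datum Z a) (x : L Z) : ‖d.A x‖ = ‖cut (geS a) x‖ := by
  refine le_antisymm ((norm_le_iff _ (norm_nonneg _)).2 fun k => ?_)
    ((norm_le_iff _ (norm_nonneg _)).2 fun k => ?_)
  · rcases lt_or_ge k.1 a with hk | hk
    · rw [d.A_lt x hk]; exact (norm_coord_le _ _).trans (d.norm_T_le x)
    · rw [d.A_ge x hk]; exact norm_coord_le_cut (show k ∈ geS a from hk) x
  · rcases lt_or_ge k.1 a with hk | hk
    · rw [cut_notMem (show k ∉ geS a from not_le.2 hk)]; simp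
    · rw [cut_mem (show k ∈ geS a from hk), ← d.A_ge x hk]; exact norm_coord_le _ _

theorem Datum.th_congr {a : W} (d : Datum Z a) {x y : L Z} (h : ∀ k : W × ℕ, k.1 = a → x k = y k)
    (m : ℕ) : d.th m x = d.th m y := by
  rw [d.th_apply, d.th_apply, h (a, d.i m) rfl]

theorem Datum.T_congr {a : W} (d : Datum Z a) {x y : L Z} (h : ∀ k : W × ℕ, k.1 = a → x k = y k) :
    d.T x = d.T y := by
  apply lp.ext; funext k
  rw [d.T_apply, d.T_apply]
  exact tsum_congr fun m => by rw [d.th_congr h m]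

/-- `P_a x` depends only on the coordinates of stage `≤ a`. -/
theorem Datum.P_congr {a : W} (d : Datum Z a) {x y : L Z}
    (h : ∀ k : W × ℕ, k.1 ≤ a → x k = y k) : d.P x = d.P y := by
  apply lp.ext; funext k
  rcases lt_or_ge k.1 a with hk | hk
  · rw [d.P_lt x hk, d.P_lt y hk, h k hk.le, d.T_congr fun j hj => h j hj.le]
  · rw [d.P_ge x hk, d.P_ge y hk]

theorem norm_cut_ge_le_sub {a : W} {x y : L Z} (hy : ∀ k : W × ℕ, a ≤ k.1 → y k = 0) :
    ‖cut (geS a) x‖ ≤ ‖x - y‖ := by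
  refine (norm_le_iff _ (norm_nonneg _)).2 fun k => ?_
  rcases lt_or_ge k.1 a with hk | hk
  · rw [cut_notMem (show k ∉ geS a from not_le.2 hk)]; simp
  · rw [cut_mem (show k ∈ geS a from hk)]
    have := norm_coord_le (x - y) k
    rwa [sub_ap, hy k hk, sub_zero] at this

/-! ### P_b of pointwise sums (Fubini) -/

theorem Datum.th_ps {a b : W} (d : Datum Z a) (e : Datum Z b) (t : ℕ → ℝ) {T : ℝ} (hT : 0 ≤ T)
    (ht : ∀ m, |t m| ≤ T) (l : ℕ) :
    e.th l (d.ps t T hT ht) = ∑' m, t m * e.th l (d.w m) := by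
  rw [e.th_apply, d.ps_apply, (e.θ l).map_tsum (d.summable_ps t ht _)]
  exact tsum_congr fun m => by rw [map_smul, smul_eq_mul]; rfl

theorem Datum.summable_double {a b : W} (d : Datum Z a) (e : Datum Z b) (t : ℕ → ℝ) {T : ℝ}
    (hT : 0 ≤ T) (ht : ∀ m, |t m| ≤ T) (k : W × ℕ) :
    Summable fun p : ℕ × ℕ => (t p.2 * e.th p.1 (d.w p.2)) • e.w p.1 k := by
  refine Summable.of_norm ?_
  rw [summable_prod_of_nonneg (fun _ => norm_nonneg _)]
  have hle : ∀ l m, ‖(t m * e.th l (d.w m)) • e.w l k‖ ≤ T * |e.th l (d.w m)| * ‖e.w l k‖ := by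
    intro l m
    rw [norm_smul, norm_mul, Real.norm_eq_abs, Real.norm_eq_abs]
    gcongr
    exact ht m
  have hs : ∀ l, Summable fun m => T * |e.th l (d.w m)| * ‖e.w l k‖ := fun l =>
    ((d.summable_abs (e.th l)).mul_left T).mul_right ‖e.w l k‖
  have hin : ∀ l, Summable fun m => ‖(t m * e.th l (d.w m)) • e.w l k‖ := fun l =>
    Summable.of_nonneg_of_le (fun _ => norm_nonneg _) (hle l) (hs l)
  refine ⟨hin, ?_⟩
  refine Summable.of_nonneg_of_le (fun l => tsum_nonneg fun _ => norm_nonneg _) (fun l => ?_)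
    ((e.w2 k).mul_left T)
  calc ∑' m, ‖(t m * e.th l (d.w m)) • e.w l k‖
      ≤ ∑' m, T * |e.th l (d.w m)| * ‖e.w l k‖ := (hin l).tsum_le_tsum (hle l) (hs l)
    _ = T * (∑' m, |e.th l (d.w m)|) * ‖e.w l k‖ := by
        rw [tsum_mul_right, tsum_mul_left]
    _ ≤ T * 1 * ‖e.w l k‖ := by
        gcongr
        exact (d.tsum_abs_le _).trans (e.norm_th_le l)
    _ = T * ‖e.w l k‖ := by rw [mul_one]

theorem Datum.smul_T_w {a b : W} (d : Datum Z a) (e : Datum Z b) (t : ℕ → ℝ) (m : ℕ)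
    (k : W × ℕ) :
    t m • (e.T (d.w m)) k = ∑' l, (t m * e.th l (d.w m)) • e.w l k := by
  rw [e.T_apply, ← ((e.summable (d.w m) k).of_norm).tsum_const_smul (t m)]
  exact tsum_congr fun l => by rw [mul_smul]

theorem Datum.T_ps {a b : W} (d : Datum Z a) (e : Datum Z b) (t : ℕ → ℝ) {T : ℝ} (hT : 0 ≤ T)
    (ht : ∀ m, |t m| ≤ T) (k : W × ℕ) :
    e.T (d.ps t T hT ht) k = ∑' m, t m • (e.T (d.w m)) k := by
  rw [e.T_apply]
  calc ∑' l, e.th l (d.ps t T hT ht) • e.w l k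
      = ∑' l, ∑' m, (t m * e.th l (d.w m)) • e.w l k := by
        refine tsum_congr fun l => ?_
        rw [d.th_ps e t hT ht l]
        refine (Summable.tsum_smul_const ?_ _).symm
        refine Summable.of_norm_bounded ((d.summable_abs (e.th l)).mul_left T) fun m => ?_
        rw [norm_mul, Real.norm_eq_abs, Real.norm_eq_abs]
        gcongr
        exact ht m
    _ = ∑' m, ∑' l, (t m * e.th l (d.w m)) • e.w l k :=
        (Summable.tsum_comm (f := fun l m => (t m * e.th l (d.w m)) • e.w l k)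
          (d.summable_double e t hT ht k)).symm
    _ = ∑' m, t m • (e.T (d.w m)) k := tsum_congr fun m => (d.smul_T_w e t m k).symm

theorem Datum.summable_T_w {a b : W} (d : Datum Z a) (e : Datum Z b) (t : ℕ → ℝ) {T : ℝ}
    (hT : 0 ≤ T) (ht : ∀ m, |t m| ≤ T) (k : W × ℕ) :
    Summable fun m => t m • (e.T (d.w m)) k := by
  have h3 := ((d.summable_double e t hT ht k).comp_injective
    (Equiv.prodComm ℕ ℕ).injective).prod
  exact h3.congr fun m => (d.smul_T_w e t m k).symm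

theorem Datum.P_ps {a b : W} (d : Datum Z a) (e : Datum Z b) (t : ℕ → ℝ) {T : ℝ} (hT : 0 ≤ T)
    (ht : ∀ m, |t m| ≤ T) (k : W × ℕ) :
    e.P (d.ps t T hT ht) k = ∑' m, t m • (e.P (d.w m)) k := by
  rcases lt_or_ge k.1 b with hk | hk
  · rw [e.P_lt _ hk, d.ps_apply, d.T_ps e t hT ht,
      ← (d.summable_ps t ht k).tsum_sub (d.summable_T_w e t hT ht k)]
    exact tsum_congr fun m => by rw [e.P_lt _ hk, smul_sub]
  · rw [e.P_ge _ hk]
    have : ∀ m, t m • (e.P (d.w m)) k = 0 := fun m => by rw [e.P_ge _ hk, smul_zero]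
    simp [this]

/-- If `P_b w m = 0` for `m ≥ n` then `P_b` of the pointwise sum is the finite sum. -/
theorem Datum.P_ps_eq {a b : W} (d : Datum Z a) (e : Datum Z b) (t : ℕ → ℝ) {T : ℝ} (hT : 0 ≤ T)
    (ht : ∀ m, |t m| ≤ T) {n : ℕ} (hn : ∀ m ≥ n, e.P (d.w m) = 0) :
    e.P (d.ps t T hT ht) = ∑ m ∈ Finset.range n, t m • e.P (d.w m) := by
  apply lp.ext; funext k
  rw [d.P_ps e t hT ht k, sum_ap]
  rw [tsum_eq_sum (s := Finset.range n)]
  · exact Finset.sum_congr rfl fun m _ => rfl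
  · intro m hm
    rw [hn m (by simpa using hm), zero_ap, smul_zero]

theorem Datum.P_ps_zero {a b : W} (d : Datum Z a) (e : Datum Z b) (t : ℕ → ℝ) {T : ℝ} (hT : 0 ≤ T)
    (ht : ∀ m, |t m| ≤ T) {n : ℕ} (hn : ∀ m ≥ n, e.P (d.w m) = 0) (h0 : ∀ m < n, t m = 0) :
    e.P (d.ps t T hT ht) = 0 := by
  rw [d.P_ps_eq e t hT ht hn]
  exact Finset.sum_eq_zero fun m hm => by rw [h0 m (Finset.mem_range.1 hm), zero_smul]

/-! ### The generators -/

theorem J_eq (D : ∀ a, Datum Z a) (k : W × ℕ) (z : Z k) :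
    J D k z = sg k z + (D k.1).T (sg k z) := rfl

theorem J_self (D : ∀ a, Datum Z a) (k : W × ℕ) (z : Z k) : J D k z k = z := by
  rw [J_eq, add_ap, sg_self, (D k.1).T_ge _ le_rfl, add_zero]

theorem J_ge (D : ∀ a, Datum Z a) (k : W × ℕ) (z : Z k) {j : W × ℕ} (h : k.1 ≤ j.1)
    (hj : j ≠ k) : J D k z j = 0 := by
  rw [J_eq, add_ap, sg_ne k z hj, (D k.1).T_ge _ h, add_zero]

theorem J_lt (D : ∀ a, Datum Z a) (k : W × ℕ) (z : Z k) {j : W × ℕ} (h : j.1 < k.1) :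
    J D k z j = ∑' m, (D k.1).th m (sg k z) • (D k.1).w m j := by
  rw [J_eq, add_ap, sg_ne k z (by rintro rfl; exact lt_irrefl _ h), zero_add]; rfl

/-- the tail coefficients of `J_k^(n) z` -/
def tc (D : ∀ a, Datum Z a) (k : W × ℕ) (n : ℕ) (z : Z k) (m : ℕ) : ℝ :=
  if m < n then 0 else (D k.1).th m (sg k z)

theorem abs_tc_le (D : ∀ a, Datum Z a) (k : W × ℕ) (n : ℕ) (z : Z k) (m : ℕ) :
    |tc D k n z m| ≤ ‖z‖ := by
  unfold tc
  split_ifs
  · simp
  · exact (D k.1).abs_th_sg_le m k z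

theorem Jn_eq_ps (D : ∀ a, Datum Z a) (k : W × ℕ) (n : ℕ) (z : Z k) :
    Jn D k n z = sg k z + (D k.1).ps (tc D k n z) ‖z‖ (norm_nonneg _) (abs_tc_le D k n z) := by
  apply lp.ext; funext j
  unfold Jn
  rw [J_eq, sub_ap, add_ap, add_ap, sum_ap, add_sub_assoc]
  congr 1
  rw [(D k.1).T_apply, (D k.1).ps_apply]
  have hs := ((D k.1).summable (sg k z) j).of_norm
  rw [sub_eq_iff_eq_add]
  have hs1 := (D k.1).summable_ps (tc D k n z) (abs_tc_le D k n z) j
  have h2 : ∑ m ∈ Finset.range n, ((D k.1).th m (sg k z) • (D k.1).w m) j =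
      ∑' m, (if m < n then (D k.1).th m (sg k z) • (D k.1).w m j else 0) := by
    rw [tsum_eq_sum (s := Finset.range n)]
    · exact Finset.sum_congr rfl fun m hm => by rw [if_pos (Finset.mem_range.1 hm)]; rfl
    · intro m hm
      rw [if_neg (by simpa using hm)]
  have hs3 : Summable fun m => (if m < n then (D k.1).th m (sg k z) • (D k.1).w m j else 0) :=
    summable_of_ne_finset_zero (s := Finset.range n) fun m hm => by
      rw [if_neg (by simpa using hm)]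
  rw [h2, ← hs1.tsum_add hs3]
  refine tsum_congr fun m => ?_
  unfold tc
  split_ifs <;> simp

theorem Jn_self (D : ∀ a, Datum Z a) (k : W × ℕ) (n : ℕ) (z : Z k) : Jn D k n z k = z := by
  rw [Jn_eq_ps, add_ap, sg_self, (D k.1).ps_eq_zero _ _ _ le_rfl, add_zero]

theorem Jn_ge (D : ∀ a, Datum Z a) (k : W × ℕ) (n : ℕ) (z : Z k) {j : W × ℕ} (h : k.1 ≤ j.1)
    (hj : j ≠ k) : Jn D k n z j = 0 := by
  rw [Jn_eq_ps, add_ap, sg_ne k z hj, (D k.1).ps_eq_zero _ _ _ h, add_zero]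

theorem Jn_lt (D : ∀ a, Datum Z a) (k : W × ℕ) (n : ℕ) (z : Z k) {j : W × ℕ} (h : j.1 < k.1) :
    Jn D k n z j = ∑' m, tc D k n z m • (D k.1).w m j := by
  rw [Jn_eq_ps, add_ap, sg_ne k z (by rintro rfl; exact lt_irrefl _ h), zero_add]; rfl

theorem norm_Jn_le (D : ∀ a, Datum Z a) (k : W × ℕ) (n : ℕ) (z : Z k) : ‖Jn D k n z‖ ≤ ‖z‖ := by
  refine (norm_le_iff _ (norm_nonneg _)).2 fun j => ?_
  rcases lt_or_ge j.1 k.1 with h | h
  · rw [Jn_lt D k n z h]
    exact (D k.1).norm_tsum_le _ (norm_nonneg _) (abs_tc_le D k n z) j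
  · by_cases hj : j = k
    · subst hj; rw [Jn_self]
    · rw [Jn_ge D k n z h hj]; simp

theorem Jn_zero (D : ∀ a, Datum Z a) (k : W × ℕ) (z : Z k) : Jn D k 0 z = J D k z := by
  simp [Jn]

theorem norm_J_le (D : ∀ a, Datum Z a) (k : W × ℕ) (z : Z k) : ‖J D k z‖ ≤ ‖z‖ := by
  rw [← Jn_zero]; exact norm_Jn_le D k 0 z

theorem J_mem (D : ∀ a, Datum Z a) {k : W × ℕ} {a : W} (h : k.1 < a) (z : Z k) :
    J D k z ∈ XS D a :=
  Submodule.le_topologicalClosure _ (Submodule.subset_span ⟨k, h, z, rfl⟩)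

theorem isClosed_XS (D : ∀ a, Datum Z a) (a : W) : IsClosed (XS D a : Set (L Z)) :=
  Submodule.isClosed_topologicalClosure _

/-- Closed induction on `X_a`. -/
theorem XS_le_of {D : ∀ a, Datum Z a} {a : W} {p : Submodule ℝ (L Z)}
    (hp : IsClosed (p : Set (L Z))) (h : ∀ k : W × ℕ, k.1 < a → ∀ z : Z k, J D k z ∈ p) :
    XS D a ≤ p := by
  refine Submodule.topologicalClosure_minimal _ (Submodule.span_le.2 ?_) hp
  rintro _ ⟨k, hk, z, rfl⟩
  exact h k hk z

/-- Elements of `X_a` vanish at the coordinates of stage `≥ a`. -/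
theorem XS_supp (D : ∀ a, Datum Z a) {a : W} {x : L Z} (hx : x ∈ XS D a) {j : W × ℕ}
    (hj : a ≤ j.1) : x j = 0 := by
  have h := XS_le_of (D := D) (a := a) (p := ((pr j : L Z →L[ℝ] Z j) : L Z →ₗ[ℝ] Z j).ker)
    ((pr j).isClosed_ker) (fun k hk z => ?_) hx
  · exact h
  · show J D k z j = 0
    exact J_ge D k z (hk.le.trans hj) (by rintro rfl; exact absurd hk (not_lt.2 hj))

theorem P_of_mem (D : ∀ a, Datum Z a) {a : W} {x : L Z} (hx : x ∈ XS D a) : (D a).P x = x := by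
  have h0 : (D a).A x = 0 := by
    rw [← norm_eq_zero, (D a).norm_A, norm_eq_zero]
    apply lp.ext; funext k
    rcases lt_or_ge k.1 a with hk | hk
    · rw [cut_notMem (show k ∉ geS a from not_le.2 hk)]; rfl
    · rw [cut_mem (show k ∈ geS a from hk), XS_supp D hx hk]; rfl
  rw [(D a).P_apply, h0, sub_zero]

/-- (W0), (W3), (W4) at the stage `b`. -/
structure Reg (D : ∀ a, Datum Z a) (b : W) : Prop where
  w0 : CW0 D b (D b)
  w3 : CW3 D b (D b)
  w4 : CW4 D b (D b)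

theorem Jn_mem {D : ∀ a, Datum Z a} {k : W × ℕ} (hr : CW0 D k.1 (D k.1)) {a : W} (h : k.1 < a)
    (n : ℕ) (z : Z k) : Jn D k n z ∈ XS D a := by
  unfold Jn
  refine (XS D a).sub_mem (J_mem D h z) ((XS D a).sum_mem fun m _ => ?_)
  exact (XS D a).smul_mem _ (XS_mono D h.le (hr m))

theorem P_J_eq (D : ∀ a, Datum Z a) (k : W × ℕ) (z : Z k) : (D k.1).P (J D k z) = 0 := by
  apply lp.ext; funext j
  rcases lt_or_ge j.1 k.1 with hj | hj
  · rw [(D k.1).P_lt _ hj, J_eq, add_ap, sg_ne k z (by rintro rfl; exact lt_irrefl _ hj), zero_add,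
      (D k.1).T_congr (x := sg k z + (D k.1).T (sg k z)) (y := sg k z)
        (fun i hi => by rw [add_ap, (D k.1).T_ge _ hi.ge, add_zero]), sub_self]
    rfl
  · rw [(D k.1).P_ge _ hj]; rfl

/-- `P_b J_k z` for `b < |k|`, and the same for the tails. -/
theorem P_Jn_lt (D : ∀ a, Datum Z a) {k : W × ℕ} {b : W} (hb : b < k.1) (n : ℕ) (z : Z k) :
    (D b).P (Jn D k n z) =
      (D b).P ((D k.1).ps (tc D k n z) ‖z‖ (norm_nonneg _) (abs_tc_le D k n z)) := by
  refine (D b).P_congr fun j hj => ?_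
  rw [Jn_eq_ps, add_ap, sg_ne k z (by rintro rfl; exact absurd hb (not_lt.2 hj)), zero_add]

theorem P_Jn_zero {D : ∀ a, Datum Z a} {k : W × ℕ} {b : W} (hb : b < k.1) {n : ℕ}
    (hn : ∀ m ≥ n, (D b).P ((D k.1).w m) = 0) (z : Z k) : (D b).P (Jn D k n z) = 0 := by
  rw [P_Jn_lt D hb]
  refine (D k.1).P_ps_zero (D b) _ _ _ hn fun m hm => ?_
  unfold tc; rw [if_pos hm]

/-- 1.2: `P_a X ⊆ X_a`. -/
theorem P_mem [WellFoundedLT W] {D : ∀ a, Datum Z a} (a : W) {c : W}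
    (hD : ∀ b < c, CW0 D b (D b) ∧ CW3 D b (D b)) {x : L Z} (hx : x ∈ XS D c) :
    (D a).P x ∈ XS D a := by
  induction c using WellFoundedLT.induction generalizing x with
  | ind c ih =>
    have h := XS_le_of (D := D) (a := c)
      (p := (XS D a).comap ((D a).P : L Z →ₗ[ℝ] L Z))
      ((isClosed_XS D a).preimage (D a).P.continuous) (fun k hk z => ?_) hx
    · exact h
    · show (D a).P (J D k z) ∈ XS D a
      rcases lt_trichotomy k.1 a with h1 | h1 | h1
      · rw [P_of_mem D (J_mem D h1 z)]; exact J_mem D h1 z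
      · have e : (D a).P (J D k z) = 0 := by rw [← h1]; exact P_J_eq D k z
        rw [e]; exact (XS D a).zero_mem
      · obtain ⟨n, hn⟩ := (hD k.1 hk).2 a h1
        rw [← Jn_zero, P_Jn_lt D h1, (D k.1).P_ps_eq (D a) _ _ _ hn]
        refine (XS D a).sum_mem fun m _ => (XS D a).smul_mem _ ?_
        exact ih k.1 hk (fun b hb => hD b (hb.trans hk)) ((hD k.1 hk).1 m)

theorem mem_XX [Nonempty W] {D : ∀ a, Datum Z a} {x : L Z} :
    x ∈ XX D ↔ ∃ a, x ∈ XS D a := by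
  constructor
  · rintro (h | rfl)
    · exact h
    · exact ⟨Classical.arbitrary W, (XS D _).zero_mem⟩
  · exact fun h => Or.inl h

theorem XS_le_XX (D : ∀ a, Datum Z a) (a : W) : XS D a ≤ XX D := fun _ h => Or.inl ⟨a, h⟩

theorem P_mem_of_mem_XX [WellFoundedLT W] {D : ∀ a, Datum Z a}
    (hD : ∀ b, CW0 D b (D b) ∧ CW3 D b (D b)) (a : W) {x : L Z} (hx : x ∈ XX D) :
    (D a).P x ∈ XS D a := by
  rcases hx with ⟨c, hc⟩ | rfl
  · exact P_mem a (fun b _ => hD b) hc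
  · rw [map_zero]; exact (XS D a).zero_mem

theorem XX_supp [OmegaOne W] {D : ∀ a, Datum Z a} {x : L Z} (hx : x ∈ XX D) :
    ∃ a, ∀ k : W × ℕ, a ≤ k.1 → x k = 0 := by
  have : Nonempty W := nonempty' W
  obtain ⟨a, ha⟩ := mem_XX.1 hx
  exact ⟨a, fun k hk => XS_supp D ha hk⟩

/-- `X` is closed. -/
theorem isClosed_XX [OmegaOne W] (D : ∀ a, Datum Z a) : IsClosed (XX D : Set (L Z)) := by
  have : Nonempty W := nonempty' W
  refine IsSeqClosed.isClosed fun u x hu hx => ?_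
  have h1 : ∀ n, ∃ a, u n ∈ XS D a := fun n => mem_XX.1 (hu n)
  choose a ha using h1
  obtain ⟨b, hb⟩ := exists_gt_fun a
  refine mem_XX.2 ⟨b, (isClosed_XS D b).mem_of_tendsto hx (Eventually.of_forall fun n => ?_)⟩
  exact XS_mono D (hb n).le (ha n)

/-! ### 1.3 -/

theorem mem_XQ {D : ∀ a, Datum Z a} {Q : Finset W} {x : L Z} :
    x ∈ XQ D Q ↔ x ∈ XX D ∧ ∀ b ∈ Q, (D b).P x = 0 := by
  simp [XQ, Submodule.mem_iInf, LinearMap.mem_ker]

/-- The approximations `x_n = P_b x + ∑_{m < n} th_m x w_m` of `x|K_b` -/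
def apx (D : ∀ a, Datum Z a) (b : W) (x : L Z) (n : ℕ) : L Z :=
  (D b).P x + ∑ m ∈ Finset.range n, (D b).th m x • (D b).w m

/-- the tail coefficients -/
def xc (D : ∀ a, Datum Z a) (b : W) (x : L Z) (n m : ℕ) : ℝ :=
  if m < n then 0 else (D b).th m x

theorem abs_xc_le (D : ∀ a, Datum Z a) (b : W) (x : L Z) (n m : ℕ) : |xc D b x n m| ≤ ‖x‖ := by
  unfold xc
  split_ifs
  · simp
  · exact ((D b).abs_th_le m x).trans (norm_coord_le x _)

theorem T_eq_add_ps (D : ∀ a, Datum Z a) (b : W) (x : L Z) (n : ℕ) :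
    (D b).T x = ∑ m ∈ Finset.range n, (D b).th m x • (D b).w m
      + (D b).ps (xc D b x n) ‖x‖ (norm_nonneg _) (abs_xc_le D b x n) := by
  apply lp.ext; funext j
  rw [add_ap, sum_ap, (D b).T_apply, (D b).ps_apply]
  have hs1 := (D b).summable_ps (xc D b x n) (abs_xc_le D b x n) j
  have h2 : ∑ m ∈ Finset.range n, ((D b).th m x • (D b).w m) j =
      ∑' m, (if m < n then (D b).th m x • (D b).w m j else 0) := by
    rw [tsum_eq_sum (s := Finset.range n)]
    · exact Finset.sum_congr rfl fun m hm => by rw [if_pos (Finset.mem_range.1 hm)]; rfl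
    · intro m hm
      rw [if_neg (by simpa using hm)]
  have hs3 : Summable fun m => (if m < n then (D b).th m x • (D b).w m j else 0) :=
    summable_of_ne_finset_zero (s := Finset.range n) fun m hm => by
      rw [if_neg (by simpa using hm)]
  rw [h2, ← hs3.tsum_add hs1]
  refine tsum_congr fun m => ?_
  unfold xc
  split_ifs <;> simp

theorem apx_eq (D : ∀ a, Datum Z a) (b : W) (x : L Z) (n : ℕ) :
    apx D b x n = cut (ltS b) x
      - (D b).ps (xc D b x n) ‖x‖ (norm_nonneg _) (abs_xc_le D b x n) := by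
  apply lp.ext; funext j
  have h := congrArg (fun y : L Z => y j) (T_eq_add_ps D b x n)
  simp only [add_ap] at h
  unfold apx
  rw [add_ap, sub_ap]
  rcases lt_or_ge j.1 b with hj | hj
  · rw [(D b).P_lt x hj, cut_mem (show j ∈ ltS b from hj), h]
    abel
  · rw [(D b).P_ge x hj, cut_notMem (show j ∉ ltS b from not_lt.2 hj),
      (D b).ps_eq_zero _ _ _ hj, sum_ap, zero_add, sub_zero]
    exact Finset.sum_eq_zero fun m _ => by rw [smul_ap, (D b).supp m j hj, smul_zero]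

/-- `lam|K_b` applied to `x` is `lam` applied to `x|K_b`. -/
theorem pair_res (S : Set (W × ℕ)) (l : Lam Z) (x : L Z) : pair (res S l) x = pair l (cut S x) := by
  classical
  rw [pair_apply, pair_apply]
  refine tsum_congr fun k => ?_
  rw [res_apply, cut_apply]
  split_ifs <;> simp

theorem pair_pl (k : W × ℕ) (ζ : StrongDual ℝ (Z k)) (x : L Z) : pair (pl k ζ) x = ζ (x k) := by
  rw [pair_apply, tsum_eq_single k]
  · rw [pl_self]
  · intro j hj
    rw [pl_ne k ζ hj]; rfl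

/-- Bounded pointwise convergence implies convergence of the pairing. -/
theorem tendsto_pair {ι : Type*} {f : Filter ι} (l : Lam Z) {u : ι → L Z} {x : L Z} {C : ℝ}
    (hC : ∀ᶠ i in f, ‖u i‖ ≤ C) (h : ∀ k, Tendsto (fun i => u i k) f (𝓝 (x k))) :
    Tendsto (fun i => pair l (u i)) f (𝓝 (pair l x)) := by
  simp only [pair_apply]
  refine tendsto_tsum_of_dominated_convergence (bound := fun k => ‖l k‖ * C)
    ((summable_norm l).mul_right C) (fun k => ?_) ?_
  · exact ((l k).continuous.tendsto _).comp (h k)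
  · filter_upwards [hC] with i hi k
    exact ((l k).le_opNorm _).trans (by gcongr; exact (norm_coord_le _ k).trans hi)

theorem tendsto_ps_zero {b : W} (D : ∀ a, Datum Z a) (x : L Z) (j : W × ℕ) :
    Tendsto (fun n => (D b).ps (xc D b x n) ‖x‖ (norm_nonneg _) (abs_xc_le D b x n) j) atTop
      (𝓝 0) := by
  have h1 : ∀ n, (D b).ps (xc D b x n) ‖x‖ (norm_nonneg _) (abs_xc_le D b x n) j =
      (D b).T x j - ∑ m ∈ Finset.range n, (D b).th m x • (D b).w m j := by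
    intro n
    have h := congrArg (fun y : L Z => y j) (T_eq_add_ps D b x n)
    simp only [add_ap, sum_ap] at h
    rw [h]
    simp only [smul_ap]
    abel
  simp only [h1]
  have h2 := (((D b).summable x j).of_norm).hasSum.tendsto_sum_nat
  have h3 := (tendsto_const_nhds (x := (D b).T x j)).sub h2
  rwa [← (D b).T_apply, sub_self] at h3

/-- 1.3 (F1): if `lam` vanishes on `X_b ∩ X^Q`, `Q < b`, then `lam|K_b` vanishes on `X^Q`. -/
theorem F1 [WellFoundedLT W] {D : ∀ a, Datum Z a}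
    (hD : ∀ b, CW0 D b (D b) ∧ CW3 D b (D b)) {b : W} {Q : Finset W} (hQ : ∀ q ∈ Q, q < b)
    {l : Lam Z} (hl : ∀ y, y ∈ XS D b → y ∈ XQ D Q → pair l y = 0) {x : L Z}
    (hx : x ∈ XQ D Q) : pair (res (ltS b) l) x = 0 := by
  obtain ⟨hxX, hxQ⟩ := mem_XQ.1 hx
  -- for large n, x_n is in X_b and X^Q
  have hmem : ∀ n, apx D b x n ∈ XS D b := fun n =>
    (XS D b).add_mem (P_mem_of_mem_XX hD b hxX)
      ((XS D b).sum_mem fun m _ => (XS D b).smul_mem _ ((hD b).1 m))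
  have hq : ∀ q ∈ Q, ∃ n0, ∀ n ≥ n0, (D q).P (apx D b x n) = 0 := by
    intro q hqQ
    obtain ⟨n0, hn0⟩ := (hD b).2 q (hQ q hqQ)
    refine ⟨n0, fun n hn => ?_⟩
    rw [apx_eq, map_sub, (D b).P_ps_zero (D q) _ _ _ (n := n) (fun m hm => hn0 m (hn.trans hm))
      (fun m hm => by unfold xc; rw [if_pos hm]), sub_zero]
    rw [← hxQ q hqQ]
    refine (D q).P_congr fun j hj => ?_
    rw [cut_mem (show j ∈ ltS b from hj.trans_lt (hQ q hqQ))]
  have hq2 : ∃ n0, ∀ n ≥ n0, ∀ q ∈ Q, (D q).P (apx D b x n) = 0 := by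
    choose! n0 hn0 using hq
    refine ⟨Q.sup n0, fun n hn q hqQ => hn0 q hqQ n ((Finset.le_sup hqQ).trans hn)⟩
  obtain ⟨n0, hn0⟩ := hq2
  have h0 : ∀ n ≥ n0, pair l (apx D b x n) = 0 := fun n hn =>
    hl _ (hmem n) (mem_XQ.2 ⟨XS_le_XX D b (hmem n), hn0 n hn⟩)
  have hlim : Tendsto (fun n => pair l (apx D b x n)) atTop (𝓝 (pair l (cut (ltS b) x))) := by
    refine tendsto_pair l (C := 2 * ‖x‖) (Eventually.of_forall fun n => ?_) fun j => ?_
    · rw [apx_eq]
      calc _ ≤ ‖cut (ltS b) x‖ + ‖(D b).ps (xc D b x n) ‖x‖ (norm_nonneg _) (abs_xc_le D b x n)‖ :=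
            norm_sub_le _ _
        _ ≤ ‖x‖ + ‖x‖ := add_le_add (norm_cut_le _ _) ((D b).norm_ps_le _ _ _)
        _ = 2 * ‖x‖ := by ring
    · simp only [apx_eq, sub_ap]
      have := (tendsto_const_nhds (x := (cut (ltS b) x) j)).sub (tendsto_ps_zero (b := b) D x j)
      simpa using this
  have hlim2 : Tendsto (fun n => pair l (apx D b x n)) atTop (𝓝 0) :=
    tendsto_const_nhds.congr' ((eventually_ge_atTop n0).mono fun n hn => (h0 n hn).symm)
  rw [pair_res]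
  exact tendsto_nhds_unique hlim hlim2

/-! ### systems -/

theorem Sys.reg {fb : Fib Z} {gs : W → W → Lam Z} {lg : W → (ℕ → Lam Z) × ℝ}
    (S : Sys fb gs lg) (b : W) : Reg S.D b :=
  ⟨(S.adm b).w0, (S.adm b).w3, (S.adm b).w4⟩

theorem Sys.w03 {fb : Fib Z} {gs : W → W → Lam Z} {lg : W → (ℕ → Lam Z) × ℝ}
    (S : Sys fb gs lg) (b : W) : CW0 S.D b (S.D b) ∧ CW3 S.D b (S.D b) :=
  ⟨(S.adm b).w0, (S.adm b).w3⟩

/-- Norm of a restriction of a functional. -/
theorem norm_res_le (A : Set (W × ℕ)) (l : Lam Z) : ‖res A l‖ ≤ ‖l‖ := by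
  classical
  rw [norm_eq_tsum, norm_eq_tsum]
  refine Summable.tsum_le_tsum (fun k => ?_) (summable_norm _) (summable_norm l)
  rw [res_apply]
  split_ifs
  · exact le_rfl
  · simp

theorem norm_pl (k : W × ℕ) (ζ : StrongDual ℝ (Z k)) : ‖pl k ζ‖ = ‖ζ‖ := by
  rw [norm_eq_tsum, tsum_eq_single k]
  · rw [pl_self]
  · intro j hj
    rw [pl_ne k ζ hj, norm_zero]

theorem abs_pair_le (l : Lam Z) (x : L Z) : |pair l x| ≤ ‖l‖ * ‖x‖ := norm_pair_le l x

end

end Pool.Agent.DIAM
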