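import Pool.Agent.Work.MP_89a7db_an.Dia.Amb

/-!
# Cell DIAM, module M8: facts 1.6 and (C0)
-/

set_option autoImplicit false
set_option linter.unusedSectionVars false

namespace Pool.Agent.DIAM

open Set Filter Topology
open scoped ENNReal

noncomputable section

variable {W : Type} [LinearOrder W]
variable {Z : W × ℕ → Type} [∀ k, NormedAddCommGroup (Z k)] [∀ k, NormedSpace ℝ (Z k)]
variable [∀ k, CompleteSpace (Z k)]

/-- below the stage: `x = P x + T x`. -/
theorem Datum.decomp {a : W} (d : Datum Z a) (x : L Z) {k : W × ℕ} (hk : k.1 < a) :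
    x k = d.P x k + d.T x k := by
  have h1 : d.P x = x - (cut (geS a) x + d.T x) := rfl
  have h2 : cut (geS a) x k = 0 := by
    classical
    rw [cut_apply]
    exact if_neg (not_le.2 hk)
  rw [h1]
  show x k = (x k - (cut (geS a) x k + d.T x k)) + d.T x k
  rw [h2, zero_add, sub_add_cancel]

/-- a functional of norm `≤ 1` on one fibre, applied to `T x`, with one term separated -/
theorem Datum.abs_T_sub_le {a : W} (d : Datum Z a) (x : L Z) {k : W × ℕ}
    (ζ : StrongDual ℝ (Z k)) (m : ℕ) :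
    |ζ (d.T x k) - d.th m x * ζ (d.w m k)|
      ≤ ‖x‖ * ∑' l, if l = m then 0 else |ζ (d.w l k)| := by
  classical
  have hw : Summable fun l => |ζ (d.w l k)| :=
    Summable.of_nonneg_of_le (fun _ => abs_nonneg _) (fun l => ζ.le_opNorm _)
      ((d.w2 k).mul_left ‖ζ‖)
  have hw' : Summable fun l => if l = m then 0 else |ζ (d.w l k)| :=
    Summable.of_nonneg_of_le (fun l => by split_ifs <;> simp) (fun l => by
      split_ifs
      · exact abs_nonneg _
      · exact le_rfl) hw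
  have hs : Summable fun l => d.th l x * ζ (d.w l k) := by
    refine Summable.of_norm_bounded (hw.mul_left ‖x‖) fun l => ?_
    rw [norm_mul]
    exact mul_le_mul_of_nonneg_right ((d.abs_th_le l x).trans (norm_coord_le x _)) (abs_nonneg _)
  have h1 : ζ (d.T x k) = ∑' l, d.th l x * ζ (d.w l k) := by
    rw [d.T_apply, ζ.map_tsum ((d.summable x k).of_norm)]
    exact tsum_congr fun l => by rw [map_smul, smul_eq_mul]
  have h2 : ∑' l, d.th l x * ζ (d.w l k) - d.th m x * ζ (d.w m k)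
      = ∑' l, if l = m then 0 else d.th l x * ζ (d.w l k) := by
    rw [hs.tsum_eq_add_tsum_ite m]
    ring
  rw [h1, h2, ← tsum_mul_left, ← Real.norm_eq_abs]
  refine tsum_of_norm_bounded (hw'.mul_left ‖x‖).hasSum fun l => ?_
  split_ifs
  · simp
  · rw [norm_mul]
    exact mul_le_mul_of_nonneg_right ((d.abs_th_le l x).trans (norm_coord_le x _)) (abs_nonneg _)

variable {D : ∀ a, Datum Z a}

/-- 1.6 -/
theorem tendsto_T0 {a : W} (d : Datum Z a) {i : ℕ} {z : StrongDual ℝ (Z (a, i))} {m : ℕ → ℕ}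
    {κ : ℕ → W × ℕ} {ζ : ∀ j, StrongDual ℝ (Z (κ j))}
    (hth : ∀ j x, d.th (m j) x = z (x (a, i))) (hκ : ∀ j, (κ j).1 < a)
    (hy : ∀ y ∈ XS D a, Tendsto (fun j => ζ j (y (κ j))) atTop (𝓝 0))
    (h1 : Tendsto (fun j => ζ j (d.w (m j) (κ j))) atTop (𝓝 1))
    (h2 : Tendsto (fun j => ∑' l, if l = m j then 0 else |ζ j (d.w l (κ j))|) atTop (𝓝 0))
    {x : L Z} (hx : d.P x ∈ XS D a) :
    Tendsto (fun j => ζ j (x (κ j))) atTop (𝓝 (z (x (a, i)))) := by
  have e1 : Tendsto (fun j => ζ j (d.T x (κ j)) - d.th (m j) x * ζ j (d.w (m j) (κ j))) atTop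
      (𝓝 0) := by
    refine squeeze_zero_norm (fun j => ?_) (by simpa using h2.const_mul ‖x‖)
    exact d.abs_T_sub_le x (ζ j) (m j)
  have e2 : Tendsto (fun j => d.th (m j) x * ζ j (d.w (m j) (κ j))) atTop (𝓝 (z (x (a, i)))) := by
    have := h1.const_mul (z (x (a, i)))
    rw [mul_one] at this
    exact this.congr fun j => by rw [hth]
  have e3 := ((hy _ hx).add e1).add e2
  rw [zero_add, zero_add] at e3
  refine e3.congr fun j => ?_
  have := d.decomp x (hκ j)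
  rw [this, map_add]
  ring

/-- a dense sequence of the dual ball is norming -/
theorem Fib.norm_le (fb : Fib Z) {k : W × ℕ} {z : Z k} {r : ℝ}
    (h : ∀ n, fb.ds k n z ≤ r) : ‖z‖ ≤ r := by
  refine le_of_forall_pos_le_add fun ε hε => ?_
  obtain ⟨ζ, h1, h2⟩ := exists_dual_vector'' ℝ z
  obtain ⟨n, hn⟩ := fb.ds_dense k ζ h1 {z} ε hε
  have h3 := hn z (Finset.mem_singleton_self z)
  have h4 : ζ z = ‖z‖ := by simpa using h2
  rw [h4] at h3
  have h5 := (abs_lt.1 h3).1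
  have := h n
  linarith

/-- (C0) -/
theorem C0 [WellFoundedLT W] (fb : Fib Z) (hT0 : ∀ a, (∃ b, b < a) → CT0 fb D a (D a))
    (hP : ∀ a, ∀ x ∈ XX D, (D a).P x ∈ XS D a) {x : L Z} (hx : x ∈ XX D) {g : W} {r : ℝ}
    (h : ∀ i, ‖x (g, i)‖ ≤ r) (k : W × ℕ) (hk : g ≤ k.1) : ‖x k‖ ≤ r := by
  obtain ⟨a, i⟩ := k
  change g ≤ a at hk
  induction a using WellFoundedLT.induction generalizing i with
  | ind a ih =>
    rcases hk.eq_or_lt with rfl | hlt
    · exact h i
    · refine fb.norm_le fun n => ?_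
      obtain ⟨m, κ, ζ, -, hth, hκ, hg, -, hζ, hy, h1, h2⟩ := hT0 a ⟨g, hlt⟩ i n
      have ht := tendsto_T0 (D a) hth hκ hy h1 h2 (hP a x hx)
      obtain ⟨j0, hj0⟩ := hg g hlt
      refine le_of_tendsto ht (eventually_atTop.2 ⟨j0, fun j hj => ?_⟩)
      have h3 : ‖x (κ j)‖ ≤ r := ih (κ j).1 (hκ j) (κ j).2 (hj0 j hj)
      calc ζ j (x (κ j)) ≤ ‖ζ j (x (κ j))‖ := Real.le_norm_self _
        _ ≤ 1 * ‖x (κ j)‖ := (ζ j).le_of_opNorm_le (hζ j) _
        _ ≤ r := by rw [one_mul]; exact h3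

/-- (C0) for a system -/
theorem Sys.C0 [WellFoundedLT W] {fb : Fib Z} {gs : W → W → Lam Z}
    {lg : W → (ℕ → Lam Z) × ℝ} (S : Sys fb gs lg) {x : L Z} (hx : x ∈ XX S.D) {g : W} {r : ℝ}
    (h : ∀ i, ‖x (g, i)‖ ≤ r) (k : W × ℕ) (hk : g ≤ k.1) : ‖x k‖ ≤ r :=
  Pool.Agent.DIAM.C0 fb (fun a ha => (S.adm a).t0 ha)
    (fun a _ hx => P_mem_of_mem_XX (fun b => ⟨(S.adm b).w0, (S.adm b).w3⟩) a hx) hx h k hk

end

end Pool.Agent.DIAM
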