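import Pool.Agent.Work.MP_89a7db_an.Dia.Omega

/-!
MP_89a7db_an, module M7: cardinalities.
-/

open Set Cardinal

namespace Pool.Agent.Dia

/-! ### cardinalities -/

section card

/-- functions with countable support are at most continuum many -/
theorem mk_countable_support_le {K : Type} {E : K → Type} [∀ k, Zero (E k)] (hK : #K ≤ 𝔠)
    (hE : ∀ k, #(E k) ≤ 𝔠) : #{f : ∀ k, E k // {k | f k ≠ 0}.Countable} ≤ 𝔠 := by
  classical
  -- code `f` by a sequence in `Option (Σ k, E k)`
  have hS : #(Σ k, E k) ≤ 𝔠 := by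
    rw [Cardinal.mk_sigma]
    calc Cardinal.sum (fun k => #(E k)) ≤ Cardinal.sum (fun _ : K => 𝔠) :=
          Cardinal.sum_le_sum _ _ hE
      _ = #K * 𝔠 := by simp
      _ ≤ 𝔠 * 𝔠 := mul_le_mul_left hK _
      _ = 𝔠 := Cardinal.continuum_mul_self
  have hO : #(Option (Σ k, E k)) ≤ 𝔠 := by
    rw [Cardinal.mk_option]
    calc #(Σ k, E k) + 1 ≤ 𝔠 + 1 := by gcongr
      _ = 𝔠 := Cardinal.add_one_eq Cardinal.aleph0_le_continuum
  have hN : #(ℕ → Option (Σ k, E k)) ≤ 𝔠 := by
    rw [← Cardinal.power_def, Cardinal.mk_nat]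
    calc #(Option (Σ k, E k)) ^ ℵ₀ ≤ 𝔠 ^ ℵ₀ := Cardinal.power_le_power_right hO
      _ = 𝔠 := Cardinal.continuum_power_aleph0
  refine le_trans ?_ hN
  -- an injection
  have hcode : ∀ f : {f : ∀ k, E k // {k | f k ≠ 0}.Countable},
      ∃ s : ℕ → Option (Σ k, E k), ∀ k (x : E k), (∃ n, s n = some ⟨k, x⟩) ↔ (f.1 k ≠ 0 ∧ x = f.1 k) := by
    rintro ⟨f, hf⟩
    rcases Set.eq_empty_or_nonempty {k | f k ≠ 0} with h0 | h0
    · refine ⟨fun _ => none, fun k x => ?_⟩
      simp only [reduceCtorEq, exists_false, false_iff, not_and]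
      intro hk
      have : k ∈ {k | f k ≠ 0} := hk
      rw [h0] at this
      exact absurd this (Set.notMem_empty k)
    · obtain ⟨e, he⟩ := hf.exists_eq_range h0
      refine ⟨fun n => some ⟨e n, f (e n)⟩, fun k x => ?_⟩
      constructor
      · rintro ⟨n, hn⟩
        rw [Option.some.injEq, Sigma.mk.injEq] at hn
        obtain ⟨rfl, hx⟩ := hn
        have : e n ∈ {k | f k ≠ 0} := by rw [he]; exact ⟨n, rfl⟩
        exact ⟨this, (eq_of_heq hx).symm⟩
      · rintro ⟨hk, rfl⟩
        have : k ∈ Set.range e := by rw [← he]; exact hk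
        obtain ⟨n, rfl⟩ := this
        exact ⟨n, rfl⟩
  choose s hs using hcode
  refine Cardinal.mk_le_of_injective (f := s) ?_
  intro f g hfg
  apply Subtype.ext
  funext k
  by_cases hk : f.1 k = 0
  · by_cases hg : g.1 k = 0
    · rw [hk, hg]
    · have h1 := (hs g k (g.1 k)).2 ⟨hg, rfl⟩
      rw [← hfg] at h1
      exact absurd hk ((hs f k _).1 h1).1
  · have h1 := (hs f k (f.1 k)).2 ⟨hk, rfl⟩
    rw [hfg] at h1
    exact ((hs g k _).1 h1).2

/-- sequences in a type of size at most continuum -/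
theorem mk_seq_le {T : Type} (h : #T ≤ 𝔠) : #(ℕ → T) ≤ 𝔠 := by
  rw [← Cardinal.power_def, Cardinal.mk_nat]
  calc #T ^ ℵ₀ ≤ 𝔠 ^ ℵ₀ := Cardinal.power_le_power_right h
    _ = 𝔠 := Cardinal.continuum_power_aleph0

theorem mk_prod_le {S T : Type} (hS : #S ≤ 𝔠) (hT : #T ≤ 𝔠) : #(S × T) ≤ 𝔠 := by
  rw [Cardinal.mk_prod]
  simp only [Cardinal.lift_id]
  calc #S * #T ≤ 𝔠 * 𝔠 := mul_le_mul' hS hT
    _ = 𝔠 := Cardinal.continuum_mul_self

/-- a separable metric space has size at most the continuum -/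
theorem mk_separable_le (X : Type) [MetricSpace X] [TopologicalSpace.SeparableSpace X] :
    #X ≤ 𝔠 := by
  rcases isEmpty_or_nonempty X with h | h
  · rw [Cardinal.mk_eq_zero]; exact bot_le
  obtain ⟨u, hu⟩ := TopologicalSpace.exists_dense_seq X
  have h1 : #(ℕ → ℝ) ≤ 𝔠 := mk_seq_le (by rw [Cardinal.mk_real])
  refine le_trans (Cardinal.mk_le_of_injective (f := fun x : X => fun n => dist x (u n)) ?_) h1
  intro x y hxy
  have h2 : ∀ n, dist x (u n) = dist y (u n) := fun n => congrFun hxy n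
  have hc : Set.EqOn (fun z => dist x z) (fun z => dist y z) (Set.range u) := by
    rintro _ ⟨n, rfl⟩
    exact h2 n
  have h3 := Continuous.ext_on (f := fun z => dist x z) (g := fun z => dist y z) hu
    (by fun_prop) (by fun_prop) hc
  have h4 := congrFun h3 x
  simp only [dist_self] at h4
  exact (dist_eq_zero.1 h4.symm).symm

/-- the dual of a separable normed space has size at most the continuum -/
theorem mk_dual_le (X : Type) [NormedAddCommGroup X] [NormedSpace ℝ X]
    [TopologicalSpace.SeparableSpace X] : #(X →L[ℝ] ℝ) ≤ 𝔠 := by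
  obtain ⟨u, hu⟩ := TopologicalSpace.exists_dense_seq X
  have h1 : #(ℕ → ℝ) ≤ 𝔠 := mk_seq_le (by rw [Cardinal.mk_real])
  refine le_trans (Cardinal.mk_le_of_injective (f := fun g : X →L[ℝ] ℝ => fun n => g (u n)) ?_) h1
  intro f g hfg
  apply DFunLike.coe_injective
  apply Continuous.ext_on hu f.continuous g.continuous
  rintro _ ⟨n, rfl⟩
  exact congrFun hfg n

theorem mk_real_seq_seq_le : #(ℕ → ℕ → ℝ) ≤ 𝔠 := mk_seq_le (mk_seq_le (by rw [Cardinal.mk_real]))

/-- `W` itself has cardinality at most continuum -/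
theorem mk_omegaOne_le (W : Type) [LinearOrder W] [OmegaOne W] : #W ≤ 𝔠 := by
  -- every proper initial segment is countable, so the cardinality is at most `aleph_1`
  have h : #W ≤ ℵ₁ := by
    by_contra hlt
    rw [not_le] at hlt
    have h2 : Ordinal.omega.{0} 1 < Ordinal.type (α := W) (· < ·) := by
      have h3 : Ordinal.omega.{0} 1 < (#W).ord := by
        rw [← Cardinal.ord_aleph]
        exact Cardinal.ord_lt_ord.2 hlt
      exact h3.trans_le (Cardinal.ord_le_type _)
    obtain ⟨a, ha⟩ : ∃ a : W, Ordinal.typein (α := W) (· < ·) a = Ordinal.omega 1 := by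
      exact Ordinal.typein_surj (α := W) (· < ·) h2
    have h3 : #(Set.Iio a) = ℵ₁ := by
      have := congrArg Ordinal.card ha
      rw [Ordinal.card_omega] at this
      rw [← this]
      rfl
    have h4 := countable_Iio a
    rw [← Cardinal.le_aleph0_iff_set_countable, h3] at h4
    exact absurd h4 (not_le.2 Cardinal.aleph0_lt_aleph_one)
  exact h.trans Cardinal.aleph_one_le_continuum

/-- the stages times `ℕ` -/
theorem mk_stages_le (W : Type) [LinearOrder W] [OmegaOne W] : #(W × ℕ) ≤ 𝔠 :=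
  mk_prod_le (mk_omegaOne_le W) (by rw [Cardinal.mk_nat]; exact Cardinal.aleph0_le_continuum)

/-- an `l_1` sum of at most continuum many spaces of size at most continuum has size at most
continuum -/
theorem mk_lp_one_le {K : Type} {E : K → Type} [∀ k, NormedAddCommGroup (E k)] (hK : #K ≤ 𝔠)
    (hE : ∀ k, #(E k) ≤ 𝔠) : #(lp E 1) ≤ 𝔠 := by
  refine le_trans ?_ (mk_countable_support_le hK hE)
  have hs : ∀ f : lp E 1, {k | (f : ∀ k, E k) k ≠ 0}.Countable := by
    intro f
    have h1 := (lp.memℓp f).summable (by norm_num)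
    have h2 := h1.countable_support
    refine h2.mono ?_
    intro k hk
    simp only [Function.mem_support, ne_eq]
    have : 0 < ‖(f : ∀ k, E k) k‖ := norm_pos_iff.2 hk
    have h3 : 0 < ‖(f : ∀ k, E k) k‖ ^ (1 : ENNReal).toReal := Real.rpow_pos_of_pos this _
    exact h3.ne'
  refine Cardinal.mk_le_of_injective
    (f := fun f : lp E 1 => (⟨(f : ∀ k, E k), hs f⟩ : {f : ∀ k, E k // {k | f k ≠ 0}.Countable})) ?_
  intro f g h
  rw [Subtype.mk.injEq] at h
  exact Subtype.ext h

/-- the size of `Lam = l_1`-sum of the duals of the separable fibres `Z k` -/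
theorem mk_Lam_le {K : Type} (hK : #K ≤ 𝔠) (Z : K → Type) [∀ k, NormedAddCommGroup (Z k)]
    [∀ k, NormedSpace ℝ (Z k)] [∀ k, TopologicalSpace.SeparableSpace (Z k)] :
    #(lp (fun k => Z k →L[ℝ] ℝ) 1) ≤ 𝔠 := mk_lp_one_le hK fun k => mk_dual_le (Z k)

end card

end Pool.Agent.Dia
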