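import Pool.Agent.Work.MP_89a7db_an.Dia.Omega

/-!
MP_89a7db_an, module M9, first part: mass functions on `W × ℕ` and the combinatorial half of the
collapse lemma C1.
-/

open Set Topology Filter

noncomputable section

namespace Pool.Agent.Dia

section mass

variable {K : Type*}

/-- The mass that `f` gives to the set `A`. -/
def mass (f : K → ℝ) (A : Set K) : ℝ := ∑' k, A.indicator f k

variable {f : K → ℝ}

lemma mass_nonneg (h0 : ∀ k, 0 ≤ f k) (A : Set K) : 0 ≤ mass f A :=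
  tsum_nonneg fun k => Set.indicator_nonneg (fun k _ => h0 k) k

lemma mass_mono (h0 : ∀ k, 0 ≤ f k) (hf : Summable f) {A B : Set K} (h : A ⊆ B) :
    mass f A ≤ mass f B := by
  refine (hf.indicator A).tsum_le_tsum (fun k => ?_) (hf.indicator B)
  exact Set.indicator_le_indicator_of_subset h h0 k

lemma mass_univ : mass f Set.univ = ∑' k, f k := by
  simp [mass]

lemma mass_le_tsum (h0 : ∀ k, 0 ≤ f k) (hf : Summable f) (A : Set K) :
    mass f A ≤ ∑' k, f k := by
  rw [← mass_univ]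
  exact mass_mono h0 hf (Set.subset_univ A)

lemma mass_union (hf : Summable f) {A B : Set K} (h : Disjoint A B) :
    mass f (A ∪ B) = mass f A + mass f B := by
  rw [mass, Set.indicator_union_of_disjoint h]
  exact (hf.indicator A).tsum_add (hf.indicator B)

lemma mass_union_le (h0 : ∀ k, 0 ≤ f k) (hf : Summable f) (A B : Set K) :
    mass f (A ∪ B) ≤ mass f A + mass f B := by
  rw [← Set.union_sdiff_self, mass_union hf Set.disjoint_sdiff_right]
  exact add_le_add le_rfl (mass_mono h0 hf Set.sdiff_subset)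

lemma mass_finset (F : Finset K) : mass f (F : Set K) = ∑ k ∈ F, f k := by
  rw [mass, tsum_eq_sum (s := F)]
  · exact Finset.sum_congr rfl fun k hk => by rw [Set.indicator_of_mem]; exact hk
  · intro k hk
    rw [Set.indicator_of_notMem]
    exact hk

/-- All but `eps` of the mass of `A` sits on a finite subset of `A` inside the support. -/
lemma exists_finset_mass (h0 : ∀ k, 0 ≤ f k) (hf : Summable f) (A : Set K) {eps : ℝ}
    (heps : 0 < eps) :
    ∃ F : Finset K, (∀ k ∈ F, k ∈ A ∧ 0 < f k) ∧ mass f (A \ F) < eps ∧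
      mass f A = ∑ k ∈ F, f k + mass f (A \ F) := by
  classical
  have h1 := (hf.indicator A).hasSum
  rw [HasSum, SummationFilter.unconditional_filter, Metric.tendsto_atTop] at h1
  obtain ⟨F0, hF0⟩ := h1 eps heps
  let F := F0.filter fun k => k ∈ A ∧ 0 < f k
  have hF : ∀ k ∈ F, k ∈ A ∧ 0 < f k := fun k hk => (Finset.mem_filter.1 hk).2
  have h2 : ∑ k ∈ F0, A.indicator f k = ∑ k ∈ F, f k := by
    rw [Finset.sum_filter]
    refine Finset.sum_congr rfl fun k _ => ?_
    by_cases hk : k ∈ A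
    · rw [Set.indicator_of_mem hk]
      by_cases hk2 : 0 < f k
      · rw [if_pos ⟨hk, hk2⟩]
      · rw [if_neg fun h => hk2 h.2]
        exact le_antisymm (not_lt.1 hk2) (h0 k)
    · rw [Set.indicator_of_notMem hk, if_neg fun h => hk h.1]
  have h3 : mass f A = ∑ k ∈ F, f k + mass f (A \ F) := by
    rw [← mass_finset F, ← mass_union hf Set.disjoint_sdiff_right]
    congr 1
    exact (Set.union_sdiff_cancel fun k hk => (hF k hk).1).symm
  refine ⟨F, hF, ?_, h3⟩
  have h4 := hF0 F0 le_rfl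
  rw [dist_eq_norm, Real.norm_eq_abs, h2] at h4
  have h5 := (abs_lt.1 h4).1
  change -eps < ∑ k ∈ F, f k - mass f A at h5
  linarith

end mass

section collapse

variable {W : Type*} [LinearOrder W] [OmegaOne W]

/-- The points of stage `< b`. -/
def Kb (b : W) : Set (W × ℕ) := {k | k.1 < b}

lemma countable_Kb (b : W) : (Kb b).Countable := by
  have : Kb b = (Set.Iio b) ×ˢ (Set.univ : Set ℕ) := by
    ext k
    simp [Kb]
  rw [this]
  exact (countable_Iio b).prod (Set.to_countable _)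

omit [OmegaOne W] in
lemma Kb_mono {a b : W} (h : a ≤ b) : Kb a ⊆ Kb b := fun _ hk => lt_of_lt_of_le hk h

/-- The combinatorial half of the collapse lemma. -/
theorem collapse_mass (m : W → W × ℕ → ℝ) (h0 : ∀ s k, 0 ≤ m s k) (hs : ∀ s, Summable (m s))
    {M : ℝ} (hM : ∀ s, ∑' k, m s k ≤ M) {eps : ℝ} (heps : 0 < eps) :
    ∃ (S : Set W) (R : Finset (W × ℕ)) (c : ℝ) (b0 : W), ¬ S.Countable ∧ 0 ≤ c ∧
      (∀ k ∈ R, k.1 < b0) ∧ (∀ s ∈ S, |mass (m s) (Kb b0)ᶜ - c| < eps) ∧
      ∀ b, b0 ≤ b → {s ∈ S | ¬ ∃ F : Finset (W × ℕ), (∀ k ∈ F, b ≤ k.1 ∧ 0 < m s k) ∧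
        mass (m s) ((R : Set (W × ℕ)) ∪ F)ᶜ < eps ∧ |∑ k ∈ F, m s k - c| < eps}.Countable := by
  classical
  set d : ℝ := eps / 4 with hd
  have hd0 : 0 < d := by positivity
  -- step 1
  have step1 : ∃ (b0 : W) (S0 : Set W), ¬ S0.Countable ∧
      ∀ b, {s ∈ S0 | d < mass (m s) (Kb b \ Kb b0)}.Countable := by
    by_contra hcon
    push Not at hcon
    have hind : ∀ n : ℕ, ∃ (b : W) (S : Set W), ¬ S.Countable ∧
        ∀ s ∈ S, n * d ≤ mass (m s) (Kb b) := by
      intro n
      induction n with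
      | zero =>
        obtain ⟨w⟩ := nonempty' W
        refine ⟨w, Set.univ, uncountable_univ W, fun s _ => ?_⟩
        simpa using mass_nonneg (h0 s) (Kb w)
      | succ n ih =>
        obtain ⟨b, S, hS, hm⟩ := ih
        obtain ⟨b', hb'⟩ := hcon b S hS
        refine ⟨max b b', _, hb', fun s hs' => ?_⟩
        have h1 := hm s hs'.1
        have h2 : mass (m s) (Kb b ∪ (Kb b' \ Kb b)) ≤ mass (m s) (Kb (max b b')) := by
          refine mass_mono (h0 s) (hs s) ?_
          rintro k (hk | hk)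
          · exact Kb_mono (le_max_left _ _) hk
          · exact Kb_mono (le_max_right _ _) hk.1
        rw [mass_union (hs s) Set.disjoint_sdiff_right] at h2
        have h3 : d < mass (m s) (Kb b' \ Kb b) := hs'.2
        push_cast
        linarith
    obtain ⟨n, hn⟩ := exists_nat_gt (M / d)
    obtain ⟨b, S, hS, hm⟩ := hind n
    have hne : S.Nonempty := by
      by_contra h
      rw [Set.not_nonempty_iff_eq_empty] at h
      exact hS (h ▸ Set.countable_empty)
    obtain ⟨s, hs'⟩ := hne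
    have h1 := hm s hs'
    have h2 := mass_le_tsum (h0 s) (hs s) (Kb b)
    have h3 := hM s
    rw [div_lt_iff₀ hd0] at hn
    linarith
  obtain ⟨b0, S0, hS0, hb0⟩ := step1
  -- step 2
  have step2 : ∀ s, ∃ F : Finset (W × ℕ), (∀ k ∈ F, k ∈ Kb b0 ∧ 0 < m s k) ∧
      mass (m s) (Kb b0 \ F) < d := by
    intro s
    obtain ⟨F, h1, h2, _⟩ := exists_finset_mass (h0 s) (hs s) (Kb b0) hd0
    exact ⟨F, h1, h2⟩
  choose Rs hRs1 hRs2 using step2
  have : Countable (Kb b0) := (countable_Kb b0).to_subtype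
  obtain ⟨R', hR'⟩ := exists_uncountable_fibre hS0
    (fun s => ((Rs s).subtype (fun k => k ∈ Kb b0) : Finset (Kb b0)))
  obtain ⟨n, hn⟩ := exists_uncountable_fibre hR'
    (fun s => ⌊mass (m s) (Kb b0)ᶜ / d⌋₊)
  set R : Finset (W × ℕ) := R'.map (Function.Embedding.subtype _) with hR
  have hRs : ∀ s, (Rs s).subtype (fun k => k ∈ Kb b0) = R' → Rs s = R := by
    intro s hs'
    rw [hR, ← hs', Finset.subtype_map]
    refine (Finset.filter_true_of_mem fun k hk => (hRs1 s k hk).1).symm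
  refine ⟨_, R, n * d, b0, hn, by positivity, ?_, ?_, ?_⟩
  · intro k hk
    rw [hR, Finset.mem_map] at hk
    obtain ⟨x, _, rfl⟩ := hk
    exact x.2
  · rintro s ⟨⟨hs0, hs1⟩, hs2⟩
    have h1 := mass_nonneg (h0 s) (Kb b0)ᶜ
    have h2 : (n : ℝ) ≤ mass (m s) (Kb b0)ᶜ / d := by
      rw [← hs2]
      exact Nat.floor_le (div_nonneg h1 hd0.le)
    have h3 : mass (m s) (Kb b0)ᶜ / d < n + 1 := by
      rw [← hs2]
      exact Nat.lt_floor_add_one _
    rw [le_div_iff₀ hd0] at h2
    rw [div_lt_iff₀ hd0] at h3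
    rw [abs_lt]
    constructor <;> linarith
  · intro b hb
    refine (hb0 b).mono ?_
    rintro s ⟨⟨⟨hs0, hs1⟩, hs2⟩, hs3⟩
    refine ⟨hs0, ?_⟩
    by_contra hlt
    push Not at hlt
    apply hs3
    obtain ⟨F, hF1, hF2, hF3⟩ := exists_finset_mass (h0 s) (hs s) (Kb b)ᶜ hd0
    have hRR := hRs s hs1
    have hRm := hRs2 s
    rw [hRR] at hRm
    have h1 := mass_nonneg (h0 s) (Kb b0)ᶜ
    have h2 : (n : ℝ) ≤ mass (m s) (Kb b0)ᶜ / d := by
      rw [← hs2]
      exact Nat.floor_le (div_nonneg h1 hd0.le)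
    have h3 : mass (m s) (Kb b0)ᶜ / d < n + 1 := by
      rw [← hs2]
      exact Nat.lt_floor_add_one _
    rw [le_div_iff₀ hd0] at h2
    rw [div_lt_iff₀ hd0] at h3
    have h4 : (Kb b0)ᶜ = (Kb b \ Kb b0) ∪ (Kb b)ᶜ := by
      ext k
      simp only [Set.mem_compl_iff, Set.mem_union, Set.mem_sdiff]
      constructor
      · intro hk
        by_cases hk2 : k ∈ Kb b
        · exact Or.inl ⟨hk2, hk⟩
        · exact Or.inr hk2
      · rintro (hk | hk)
        · exact hk.2
        · exact fun h => hk (Kb_mono hb h)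
    have h5 : mass (m s) (Kb b0)ᶜ = mass (m s) (Kb b \ Kb b0) + mass (m s) (Kb b)ᶜ := by
      rw [h4, mass_union (hs s)]
      refine Set.disjoint_left.2 fun k hk hk2 => hk2 hk.1
    have h6 := mass_nonneg (h0 s) (Kb b \ Kb b0)
    have h7 := mass_nonneg (h0 s) ((Kb b)ᶜ \ (F : Set (W × ℕ)))
    refine ⟨F, fun k hk => ⟨not_lt.1 (hF1 k hk).1, (hF1 k hk).2⟩, ?_, ?_⟩
    · have h8 : ((R : Set (W × ℕ)) ∪ F)ᶜ ⊆
          (Kb b0 \ R) ∪ ((Kb b \ Kb b0) ∪ ((Kb b)ᶜ \ F)) := by
        intro k hk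
        simp only [Set.mem_compl_iff, Set.mem_union, not_or] at hk
        by_cases hk0 : k ∈ Kb b0
        · exact Or.inl ⟨hk0, hk.1⟩
        · by_cases hk1 : k ∈ Kb b
          · exact Or.inr (Or.inl ⟨hk1, hk0⟩)
          · exact Or.inr (Or.inr ⟨hk1, hk.2⟩)
      have h9 := mass_mono (h0 s) (hs s) h8
      have h10 := mass_union_le (h0 s) (hs s) (Kb b0 \ (R : Set (W × ℕ)))
        ((Kb b \ Kb b0) ∪ ((Kb b)ᶜ \ (F : Set (W × ℕ))))
      have h11 := mass_union_le (h0 s) (hs s) (Kb b \ Kb b0) ((Kb b)ᶜ \ (F : Set (W × ℕ)))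
      linarith
    · rw [abs_lt]
      constructor <;> linarith

end collapse

end Pool.Agent.Dia
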