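import Pool.Agent.Work.MP_89a7db_an.Dia.CollapseA

/-!
MP_89a7db_an, module M9, second part: the collapse lemma C1 in seminorm form.
-/

open Set Topology Filter

noncomputable section

namespace Pool.Agent.Dia

section task

variable {W : Type*} [LinearOrder W] {Z : W × ℕ → Type*}
  [∀ k, NormedAddCommGroup (Z k)] [∀ k, NormedSpace ℝ (Z k)]

/-- finitely many conditions on the values of a functional at the points of a dense sequence -/
def Sat (e : ∀ k, ℕ → Z k) (f : ∀ k, StrongDual ℝ (Z k)) (U : List ((W × ℕ) × ℕ × ℚ × ℚ)) :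
    Prop :=
  ∀ u ∈ U, |f u.1 (e u.1 u.2.1) - (u.2.2.1 : ℝ)| < (u.2.2.2 : ℝ)

/-- the requirements of a task of the third kind -/
structure TaskOK (e : ∀ k, ℕ → Z k) (f : ∀ k, StrongDual ℝ (Z k)) (b g : W)
    (R F : Finset (W × ℕ)) (U : List ((W × ℕ) × ℕ × ℚ × ℚ)) (c ε : ℝ) : Prop where
  ge : ∀ k ∈ F, b ≤ k.1
  lt : ∀ k ∈ F, k.1 < g
  disj : Disjoint R F
  supp : ∀ k, f k ≠ 0 → k.1 < g
  sat : Sat e f U
  big : c < ∑ k ∈ F, ‖f k‖
  small : mass (fun k => ‖f k‖) ((R : Set (W × ℕ)) ∪ F)ᶜ < ε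

/-- a task is active for the guess `G` at the stage `g` -/
def Active (e : ∀ k, ℕ → Z k) (G : W → ∀ k, StrongDual ℝ (Z k)) (g : W)
    (R : Finset (W × ℕ)) (U : List ((W × ℕ) × ℕ × ℚ × ℚ)) (c ε : ℝ) : Prop :=
  ∀ b < g, ∃ s < g, ∃ F, TaskOK e (G s) b g R F U c ε

end task

section split

variable {K : Type*} {Z : K → Type*} [∀ k, NormedAddCommGroup (Z k)]
  [∀ k, NormedSpace ℝ (Z k)] {V : Type*} [SeminormedAddCommGroup V] {π : ∀ k, V → Z k}

theorem summable_eval (hπ : ∀ k x, ‖π k x‖ ≤ ‖x‖) {f : ∀ k, StrongDual ℝ (Z k)}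
    (hf : Summable fun k => ‖f k‖) (x : V) : Summable fun k => f k (π k x) := by
  refine Summable.of_norm_bounded (g := fun k => ‖f k‖ * ‖x‖) (hf.mul_right _) fun k => ?_
  exact ((f k).le_opNorm _).trans (mul_le_mul_of_nonneg_left (hπ k x) (norm_nonneg _))

/-- evaluation splits into two finite sums and a small rest -/
theorem eval_split (hπ : ∀ k x, ‖π k x‖ ≤ ‖x‖) {f : ∀ k, StrongDual ℝ (Z k)}
    (hf : Summable fun k => ‖f k‖) {R F : Finset K} (hRF : Disjoint R F) (x : V) :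
    |∑' k, f k (π k x) - (∑ k ∈ R, f k (π k x) + ∑ k ∈ F, f k (π k x))| ≤
      mass (fun k => ‖f k‖) ((R : Set K) ∪ F)ᶜ * ‖x‖ := by
  classical
  have hs := summable_eval hπ hf x
  have h1 : ∑' k, f k (π k x) = ∑ k ∈ R ∪ F, f k (π k x) +
      ∑' k, (((R : Set K) ∪ F)ᶜ).indicator (fun k => f k (π k x)) k := by
    have h2 := (hs.indicator (((R : Set K) ∪ F))).tsum_add (hs.indicator (((R : Set K) ∪ F)ᶜ))
    have h3 : ∀ k, ((R : Set K) ∪ F).indicator (fun k => f k (π k x)) k +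
        (((R : Set K) ∪ F)ᶜ).indicator (fun k => f k (π k x)) k = f k (π k x) := fun k =>
      congrFun (Set.indicator_self_add_compl ((R : Set K) ∪ F) (fun k => f k (π k x))) k
    simp only [h3] at h2
    rw [h2, tsum_eq_sum (s := R ∪ F)]
    · congr 1
      refine Finset.sum_congr rfl fun k hk => ?_
      rw [Set.indicator_of_mem]
      simpa using hk
    · intro k hk
      rw [Set.indicator_of_notMem]
      simpa using hk
  rw [Finset.sum_union hRF] at h1
  rw [h1, add_sub_cancel_left]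
  have hb : ∀ k, ‖(((R : Set K) ∪ F)ᶜ).indicator (fun k => f k (π k x)) k‖ ≤
      (((R : Set K) ∪ F)ᶜ).indicator (fun k => ‖f k‖) k * ‖x‖ := by
    intro k
    by_cases hk : k ∈ ((R : Set K) ∪ F)ᶜ
    · rw [Set.indicator_of_mem hk, Set.indicator_of_mem hk]
      exact ((f k).le_opNorm _).trans (mul_le_mul_of_nonneg_left (hπ k x) (norm_nonneg _))
    · rw [Set.indicator_of_notMem hk, Set.indicator_of_notMem hk]
      simp
  have h4 := tsum_of_norm_bounded
    (((hf.indicator (((R : Set K) ∪ F)ᶜ)).mul_right ‖x‖).hasSum) hb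
  rw [tsum_mul_right] at h4
  exact h4

theorem eval_rest (hπ : ∀ k x, ‖π k x‖ ≤ ‖x‖) {f : ∀ k, StrongDual ℝ (Z k)}
    (hf : Summable fun k => ‖f k‖) (R : Finset K) (x : V) :
    |∑' k, f k (π k x) - ∑ k ∈ R, f k (π k x)| ≤
      mass (fun k => ‖f k‖) ((R : Set K))ᶜ * ‖x‖ := by
  have h := eval_split hπ hf (R := R) (F := ∅) (Finset.disjoint_empty_right R) x
  simpa using h

theorem finsum_le (hπ : ∀ k x, ‖π k x‖ ≤ ‖x‖) (f : ∀ k, StrongDual ℝ (Z k)) (F : Finset K)
    (x : V) : |∑ k ∈ F, f k (π k x)| ≤ (∑ k ∈ F, ‖f k‖) * ‖x‖ := by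
  rw [Finset.sum_mul]
  refine (Finset.abs_sum_le_sum_abs _ _).trans (Finset.sum_le_sum fun k _ => ?_)
  exact ((f k).le_opNorm _).trans (mul_le_mul_of_nonneg_left (hπ k x) (norm_nonneg _))

end split

section net

variable {W : Type*} {Z : W × ℕ → Type*}
  [∀ k, NormedAddCommGroup (Z k)] [∀ k, NormedSpace ℝ (Z k)] {V : Type*} {π : ∀ k, V → Z k}

/-- lists of conditions on coordinates in `R` -/
def toU (R : Finset (W × ℕ)) (U : List (R × ℕ × ℚ × ℚ)) : List ((W × ℕ) × ℕ × ℚ × ℚ) :=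
  U.map fun u => (u.1.1, u.2)

/-- finitely many conditions control the value of the finite part at one vector -/
theorem exists_conditions (e : ∀ k, ℕ → Z k) (he : ∀ k, DenseRange (e k))
    (f0 : ∀ k, StrongDual ℝ (Z k)) {M : ℝ} (hM : 0 ≤ M) (hf0 : ∀ k, ‖f0 k‖ ≤ M)
    (R : Finset (W × ℕ)) (x : V) {η : ℝ} (hη : 0 < η) :
    ∃ U : List (R × ℕ × ℚ × ℚ),
      (∀ u ∈ toU R U, |f0 u.1 (e u.1 u.2.1) - (u.2.2.1 : ℝ)| < (u.2.2.2 : ℝ)) ∧
      ∀ f : ∀ k, StrongDual ℝ (Z k), (∀ k, ‖f k‖ ≤ M) →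
        (∀ u ∈ toU R U, |f u.1 (e u.1 u.2.1) - (u.2.2.1 : ℝ)| < (u.2.2.2 : ℝ)) →
        |∑ k ∈ R, f k (π k x) - ∑ k ∈ R, f0 k (π k x)| ≤ η := by
  classical
  set η1 : ℝ := η / ((R.card + 1) * (2 * M + 2)) with hη1
  have hη1' : 0 < η1 := by positivity
  obtain ⟨η2, hη2, hη2'⟩ := exists_rat_btwn hη1'
  have h1 : ∀ k, ∃ n, ‖π k x - e k n‖ < η1 := by
    intro k
    obtain ⟨n, hn⟩ := (he k).exists_dist_lt (π k x) hη1'
    exact ⟨n, by rwa [dist_eq_norm] at hn⟩
  choose n hn using h1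
  have h2 : ∀ k, ∃ q : ℚ, |f0 k (e k (n k)) - q| < η2 := by
    intro k
    obtain ⟨q, hq1, hq2⟩ := exists_rat_btwn
      (show f0 k (e k (n k)) < f0 k (e k (n k)) + η2 by linarith)
    refine ⟨q, ?_⟩
    rw [abs_lt]
    constructor <;> linarith
  choose q hq using h2
  refine ⟨R.attach.toList.map fun k => (k, n k.1, q k.1, η2), ?_, ?_⟩
  · intro u hu
    unfold toU at hu
    rw [List.map_map, List.mem_map] at hu
    obtain ⟨k, -, rfl⟩ := hu
    exact hq k.1
  · intro f hf hsat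
    rw [← Finset.sum_sub_distrib]
    refine (Finset.abs_sum_le_sum_abs _ _).trans ?_
    have hterm : ∀ k ∈ R, |f k (π k x) - f0 k (π k x)| ≤ (2 * M + 2) * η1 := by
      intro k hk
      have h3 : |f k (e k (n k)) - q k| < η2 := by
        refine hsat (k, n k, q k, η2) ?_
        unfold toU
        rw [List.map_map, List.mem_map]
        exact ⟨⟨k, hk⟩, by simp, rfl⟩
      have h4 : |f k (π k x) - f k (e k (n k))| ≤ M * η1 := by
        rw [← map_sub]
        exact ((f k).le_opNorm _).trans (mul_le_mul (hf k) (hn k).le (norm_nonneg _) hM)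
      have h5 : |f0 k (π k x) - f0 k (e k (n k))| ≤ M * η1 := by
        rw [← map_sub]
        exact ((f0 k).le_opNorm _).trans (mul_le_mul (hf0 k) (hn k).le (norm_nonneg _) hM)
      have h6 := hq k
      rw [abs_lt] at h3 h6
      rw [abs_le] at h4 h5 ⊢
      constructor <;> linarith [h3.1, h3.2, h4.1, h4.2, h5.1, h5.2, h6.1, h6.2]
    refine (Finset.sum_le_sum hterm).trans ?_
    rw [Finset.sum_const, nsmul_eq_mul]
    have h7 : (R.card : ℝ) * ((2 * M + 2) * η1) ≤ (R.card + 1) * ((2 * M + 2) * η1) := by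
      have : 0 ≤ (2 * M + 2) * η1 := by positivity
      nlinarith
    refine h7.trans (le_of_eq ?_)
    rw [hη1]
    field_simp

end net

section collapse

variable {W : Type*} [LinearOrder W] [OmegaOne W] {Z : W × ℕ → Type*}
  [∀ k, NormedAddCommGroup (Z k)] [∀ k, NormedSpace ℝ (Z k)]
  {V : Type*} [SeminormedAddCommGroup V] {π : ∀ k, V → Z k}

/-- **The collapse lemma** C1, in seminorm form. -/
theorem collapse (hπ : ∀ k x, ‖π k x‖ ≤ ‖x‖) (e : ∀ k, ℕ → Z k) (he : ∀ k, DenseRange (e k))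
    (D : ∀ k, Set (StrongDual ℝ (Z k)))
    (hD : ∀ k (z : Z k) (δ : ℝ), 0 < δ → ∃ φ ∈ D k, ‖z‖ - δ ≤ φ z)
    (hDneg : ∀ k (z : Z k) (δ : ℝ), 0 < δ → ∃ φ ∈ D k, φ z ≤ δ - ‖z‖)
    (hD1 : ∀ k, ∀ φ ∈ D k, ‖φ‖ ≤ 1)
    {M : ℝ} (guess : W → W → ∀ k, StrongDual ℝ (Z k))
    (hdia : ∀ G : W → ∀ k, StrongDual ℝ (Z k), (∀ s, Summable fun k => ‖G s k‖) →
      IsStationary {a | ∀ b < a, guess a b = G b})
    (hC0 : ∀ (x : V) (g : W) (r : ℝ), (∀ i, ‖π (g, i) x‖ ≤ r) → ∀ k, g ≤ k.1 → ‖π k x‖ ≤ r)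
    (hAP : ∀ g : W, ((∃ b, b < g) ∧ ∀ b < g, ∃ c, b < c ∧ c < g) →
      ∀ (R : Finset (W × ℕ)) (U : List ((W × ℕ) × ℕ × ℚ × ℚ)) (c ε : ℚ),
      (∀ k ∈ R, k.1 < g) → (∀ u ∈ U, u.1 ∈ R) → 0 < c → 0 < ε →
      (∀ s < g, ∑' k, ‖guess g s k‖ ≤ M) → Active e (guess g) g R U c ε →
      ∀ (i : ℕ) (φ) (_ : φ ∈ D (g, i)) (x : V) (δ : ℝ), 0 < δ → ∀ b < g,
      ∃ s < g, ∃ (F : Finset (W × ℕ)) (τ : ℝ), TaskOK e (guess g s) b g R F U c ε ∧
        |∑ k ∈ F, guess g s k (π k x) - τ * φ (π (g, i) x)| ≤ δ ∧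
        c - δ ≤ τ ∧ τ ≤ ∑ k ∈ F, ‖guess g s k‖)
    (lam : W → ∀ k, StrongDual ℝ (Z k)) (hs : ∀ s, Summable fun k => ‖lam s k‖)
    (hM : ∀ s, ∑' k, ‖lam s k‖ ≤ M) {eps : ℝ} (heps : 0 < eps) :
    ∃ (S : Set W) (R : Finset (W × ℕ)) (c : ℝ) (b0 g : W), ¬ S.Countable ∧ 0 ≤ c ∧
      (∀ k ∈ R, k.1 < b0) ∧ (∀ s ∈ S, |mass (fun k => ‖lam s k‖) (Kb b0)ᶜ - c| < eps) ∧
      (∀ b, b0 ≤ b → {s ∈ S | ¬ ∃ F : Finset (W × ℕ), (∀ k ∈ F, b ≤ k.1 ∧ 0 < ‖lam s k‖) ∧
        mass (fun k => ‖lam s k‖) ((R : Set (W × ℕ)) ∪ F)ᶜ < eps ∧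
          |∑ k ∈ F, ‖lam s k‖ - c| < eps}.Countable) ∧
      {s ∈ S | ¬ ∀ (x : V) (r : ℝ), (∀ s' ∈ S, s' < g → |∑' k, lam s' k (π k x)| ≤ r) →
        ∀ k, g ≤ k.1 → |∑ j ∈ R, lam s j (π j x)| + c * ‖π k x‖ ≤ r + 6 * eps * ‖x‖}.Countable := by
  classical
  obtain ⟨S, R, c, b0, hS, hc0, hR, hS1, hS2⟩ := collapse_mass (fun s k => ‖lam s k‖)
    (fun s k => norm_nonneg _) hs hM heps
  have hM0 : 0 ≤ M := by
    obtain ⟨w⟩ := nonempty' W
    exact (tsum_nonneg fun k => norm_nonneg (lam w k)).trans (hM w)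
  have hlamM : ∀ s k, ‖lam s k‖ ≤ M := fun s k =>
    ((hs s).le_tsum k fun j _ => norm_nonneg _).trans (hM s)
  -- good indices beyond `b`
  let Good : W → Set W := fun b => {s ∈ S | ∃ F : Finset (W × ℕ),
    (∀ k ∈ F, b ≤ k.1 ∧ 0 < ‖lam s k‖) ∧
    mass (fun k => ‖lam s k‖) ((R : Set (W × ℕ)) ∪ F)ᶜ < eps ∧
          |∑ k ∈ F, ‖lam s k‖ - c| < eps}
  have hGood : ∀ b, b0 ≤ b → (S \ Good b).Countable := by
    intro b hb
    refine (hS2 b hb).mono ?_
    rintro s ⟨h1, h2⟩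
    exact ⟨h1, fun h3 => h2 ⟨h1, h3⟩⟩
  suffices hmain : ∃ g : W, {s ∈ S | ¬ ∀ (x : V) (r : ℝ),
      (∀ s' ∈ S, s' < g → |∑' k, lam s' k (π k x)| ≤ r) →
        ∀ k, g ≤ k.1 → |∑ j ∈ R, lam s j (π j x)| + c * ‖π k x‖ ≤ r + 6 * eps * ‖x‖}.Countable by
    obtain ⟨g, hg⟩ := hmain
    exact ⟨S, R, c, b0, g, hS, hc0, hR, hS1, hS2, hg⟩
  rcases le_or_gt c (2 * eps) with hc | hc
  · -- small tails
    have hchoice : ∀ U : List (R × ℕ × ℚ × ℚ), ∃ s' : W,
        (∃ s ∈ Good b0, Sat e (lam s) (toU R U)) → s' ∈ Good b0 ∧ Sat e (lam s') (toU R U) := by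
      intro U
      by_cases h : ∃ s ∈ Good b0, Sat e (lam s) (toU R U)
      · obtain ⟨s, h1, h2⟩ := h
        exact ⟨s, fun _ => ⟨h1, h2⟩⟩
      · exact ⟨b0, fun h' => absurd h' h⟩
    choose sU hsU using hchoice
    obtain ⟨g, hg⟩ := exists_gt_fun sU
    refine ⟨g, (hGood b0 le_rfl).mono ?_⟩
    rintro s ⟨h1, h2⟩
    refine ⟨h1, fun h3 => h2 ?_⟩
    intro x r hr k _
    refine le_of_forall_pos_le_add fun θ hθ => ?_
    obtain ⟨U, hU1, hU2⟩ := exists_conditions (π := π) e he (lam s) hM0 (hlamM s) R x hθ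
    obtain ⟨h4, h5⟩ := hsU U ⟨s, h3, hU1⟩
    have h6 := hU2 (lam (sU U)) (hlamM _) h5
    have h7 := hr _ h4.1 (hg U)
    obtain ⟨F, hF1, hF2, hF3⟩ := h4.2
    have hRF : Disjoint R F := by
      rw [Finset.disjoint_left]
      intro j hj hj'
      exact absurd (hF1 j hj').1 (not_le.2 (hR j hj))
    have h8 := eval_split hπ (hs (sU U)) hRF x
    have h9 := finsum_le hπ (lam (sU U)) F x
    have hx := norm_nonneg x
    have h10 : mass (fun k => ‖lam (sU U) k‖) ((R : Set (W × ℕ)) ∪ F)ᶜ * ‖x‖ ≤ eps * ‖x‖ :=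
      mul_le_mul_of_nonneg_right hF2.le hx
    have h11 : (∑ k ∈ F, ‖lam (sU U) k‖) * ‖x‖ ≤ (3 * eps) * ‖x‖ := by
      refine mul_le_mul_of_nonneg_right ?_ hx
      have := (abs_lt.1 hF3).2
      linarith
    have h12 : c * ‖π k x‖ ≤ (2 * eps) * ‖x‖ :=
      mul_le_mul hc (hπ k x) (norm_nonneg _) (by positivity)
    have h13 : |∑ j ∈ R, lam s j (π j x)| ≤ r + 4 * eps * ‖x‖ + θ := by
      rw [abs_le] at h6 h7 h8 h9 ⊢
      constructor <;> nlinarith [h6.1, h6.2, h7.1, h7.2, h8.1, h8.2, h9.1, h9.2]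
    linarith
  · -- large tails
    have hlight : ∀ U : List (R × ℕ × ℚ × ℚ), ∃ s' : W → W,
        ¬ {s ∈ S | Sat e (lam s) (toU R U)}.Countable →
          ∀ b, s' b ∈ Good (max b b0) ∧ Sat e (lam (s' b)) (toU R U) := by
      intro U
      by_cases h : {s ∈ S | Sat e (lam s) (toU R U)}.Countable
      · exact ⟨fun _ => b0, fun h' => absurd h h'⟩
      · have h1 : ∀ b, ∃ s', s' ∈ Good (max b b0) ∧ Sat e (lam s') (toU R U) := by
          intro b
          by_contra hcon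
          push Not at hcon
          apply h
          refine (hGood (max b b0) (le_max_right _ _)).mono ?_
          rintro s ⟨h2, h3⟩
          exact ⟨h2, fun h4 => hcon s h4 h3⟩
        choose s' hs' using h1
        exact ⟨s', fun _ => hs'⟩
    choose sU hsU using hlight
    have hsupp : ∀ s, ∃ a : W, ∀ k, lam s k ≠ 0 → k.1 < a := by
      intro s
      have h1 : (Function.support fun k => ‖lam s k‖).Countable := (hs s).countable_support
      obtain ⟨a, ha⟩ := exists_gt_of_countable (h1.image Prod.fst)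
      refine ⟨a, fun k hk => ha _ ⟨k, ?_, rfl⟩⟩
      rw [Function.mem_support]
      exact norm_ne_zero_iff.2 hk
    choose a0 ha0 using hsupp
    let φ : ∀ b : W, Option (List (R × ℕ × ℚ × ℚ)) → W := fun b d =>
      match d with
      | none => a0 b
      | some U => sU U b
    have hclub := IsClub.inter' (isClub_limit (W := W)) (IsClub.inter' (isClub_Ioi b0)
      (isClub_closed_family (D := fun _ => Option (List (R × ℕ × ℚ × ℚ))) φ))
    let G : W → ∀ k, StrongDual ℝ (Z k) := fun s => if s ∈ S then lam s else 0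
    have hG : ∀ s, Summable fun k => ‖G s k‖ := by
      intro s
      by_cases h : s ∈ S
      · simp only [G, h, if_true]; exact hs s
      · simp only [G, h, if_false, Pi.zero_apply, norm_zero]; exact summable_zero
    obtain ⟨g, hg1, hglim, hgb0, hgcl⟩ := hdia G hG hclub
    have hgG : ∀ b < g, guess g b = G b := hg1
    have hgb : b0 < g := hgb0
    have hga0 : ∀ s < g, ∀ k, lam s k ≠ 0 → k.1 < g := fun s hs' k hk =>
      (ha0 s k hk).trans (hgcl s hs' none)
    have hgsU : ∀ U, ∀ b < g, sU U b < g := fun U b hb => hgcl b hb (some U)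
    refine ⟨g, ?_⟩
    -- the exceptional set
    have hexc : (⋃ U : List (R × ℕ × ℚ × ℚ),
        if {s ∈ S | Sat e (lam s) (toU R U)}.Countable then {s ∈ S | Sat e (lam s) (toU R U)}
        else ∅).Countable := by
      refine Set.countable_iUnion fun U => ?_
      split_ifs with h
      · exact h
      · exact Set.countable_empty
    refine hexc.mono ?_
    rintro s ⟨h1, h2⟩
    by_contra h3
    have hheavy : ∀ U : List (R × ℕ × ℚ × ℚ), Sat e (lam s) (toU R U) →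
        ¬ {s ∈ S | Sat e (lam s) (toU R U)}.Countable := by
      intro U hU hcount
      apply h3
      rw [Set.mem_iUnion]
      refine ⟨U, ?_⟩
      rw [if_pos hcount]
      exact ⟨h1, hU⟩
    apply h2
    intro x r hr
    -- rational parameters
    obtain ⟨c', hc'1, hc'2⟩ := exists_rat_btwn (show c - 2 * eps < c - eps by linarith)
    obtain ⟨ε', hε'1, hε'2⟩ := exists_rat_btwn (show eps < 2 * eps by linarith)
    have hc'0 : (0 : ℝ) < c' := by linarith
    have hx := norm_nonneg x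
    -- the estimate at the stage `g`
    have hstage : ∀ i, |∑ j ∈ R, lam s j (π j x)| + c * ‖π (g, i) x‖ ≤ r + 4 * eps * ‖x‖ := by
      intro i
      refine le_of_forall_pos_le_add fun θ hθ => ?_
      set δ : ℝ := min (θ / (2 * (c + 1))) (c' - (c - 2 * eps)) with hδ
      have hδ0 : 0 < δ := lt_min (by positivity) (by linarith)
      have hδ1 : δ * (c + 1) ≤ θ / 2 := by
        have : δ ≤ θ / (2 * (c + 1)) := min_le_left _ _
        rw [le_div_iff₀ (by positivity)] at this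
        linarith
      have hδ2 : δ ≤ c' - (c - 2 * eps) := min_le_right _ _
      obtain ⟨U, hU1, hU2⟩ := exists_conditions (π := π) e he (lam s) hM0 (hlamM s) R x
        (half_pos hθ)
      have hact : Active e (guess g) g R (toU R U) c' ε' := by
        intro b hb
        obtain ⟨h4, h5⟩ := hsU U (hheavy U hU1) b
        obtain ⟨h6, F, hF1, hF2, hF3⟩ := h4
        have h7 := hgsU U b hb
        refine ⟨sU U b, h7, F, ?_⟩
        have h8 : guess g (sU U b) = lam (sU U b) := by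
          rw [hgG _ h7]; simp only [G, h6, if_true]
        rw [h8]
        refine ⟨fun k hk => (le_max_left _ _).trans (hF1 k hk).1, fun k hk =>
          hga0 _ h7 k (norm_pos_iff.1 (hF1 k hk).2), ?_, hga0 _ h7, h5, ?_, hF2.trans hε'1⟩
        · rw [Finset.disjoint_left]
          intro j hj hj'
          exact absurd ((le_max_right b b0).trans (hF1 j hj').1) (not_le.2 (hR j hj))
        · have := (abs_lt.1 hF3).1
          linarith
      -- a norming functional with the right sign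
      obtain ⟨φ0, hφ0, hφ0'⟩ := hD (g, i) (π (g, i) x) δ hδ0
      obtain ⟨φ1, hφ1, hφ1'⟩ : ∃ φ1 ∈ D (g, i), |∑ j ∈ R, lam s j (π j x)| +
          c * (‖π (g, i) x‖ - δ) ≤ |∑ j ∈ R, lam s j (π j x) + c * φ1 (π (g, i) x)| := by
        have hcφ : c * (‖π (g, i) x‖ - δ) ≤ c * φ0 (π (g, i) x) :=
          mul_le_mul_of_nonneg_left hφ0' hc0
        rcases le_or_gt 0 (∑ j ∈ R, lam s j (π j x)) with h | h
        · refine ⟨φ0, hφ0, ?_⟩
          rw [abs_of_nonneg h]
          exact le_trans (by linarith) (le_abs_self _)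
        · obtain ⟨ψ, hψ, hψ'⟩ := hDneg (g, i) (π (g, i) x) δ hδ0
          have hcψ : c * ψ (π (g, i) x) ≤ c * (δ - ‖π (g, i) x‖) :=
            mul_le_mul_of_nonneg_left hψ' hc0
          refine ⟨ψ, hψ, ?_⟩
          rw [abs_of_neg h]
          refine le_trans ?_ (neg_le_abs _)
          linarith
      obtain ⟨s', hs'g, F, τ, hok, hτ1, hτ2, hτ3⟩ := hAP g hglim R (toU R U) c' ε'
        (fun k hk => (hR k hk).trans hgb)
        (by
          intro u hu
          unfold toU at hu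
          rw [List.mem_map] at hu
          obtain ⟨v, -, rfl⟩ := hu
          exact v.1.2) (by exact_mod_cast hc'0) (by
            have : (0 : ℝ) < ε' := heps.trans hε'1
            exact_mod_cast this) (by
            intro s1 hs1
            rw [hgG _ hs1]
            by_cases h : s1 ∈ S
            · simp only [G, h, if_true]; exact hM s1
            · simp only [G, h, if_false, Pi.zero_apply, norm_zero, tsum_zero]; exact hM0)
          hact i φ1 hφ1 x δ hδ0 b0 hgb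
      have hs'S : s' ∈ S := by
        by_contra hcon
        have h4 : guess g s' = 0 := by
          rw [hgG _ hs'g]; simp only [G, hcon, if_false]
        have h5 := hok.big
        rw [h4] at h5
        simp only [Pi.zero_apply, norm_zero, Finset.sum_const_zero] at h5
        linarith
      have h8 : guess g s' = lam s' := by
        rw [hgG _ hs'g]; simp only [G, hs'S, if_true]
      rw [h8] at hok hτ1 hτ3
      have h9 := hU2 (lam s') (hlamM s') hok.sat
      have h10 := eval_split hπ (hs s') hok.disj x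
      have h11 : mass (fun k => ‖lam s' k‖) ((R : Set (W × ℕ)) ∪ F)ᶜ * ‖x‖ ≤ 2 * eps * ‖x‖ :=
        mul_le_mul_of_nonneg_right (hok.small.le.trans hε'2.le) hx
      have h12 := hr s' hs'S hs'g
      have hτc : |c - τ| ≤ 2 * eps := by
        have h13 : ∑ k ∈ F, ‖lam s' k‖ ≤ mass (fun k => ‖lam s' k‖) (Kb b0)ᶜ := by
          rw [← mass_finset]
          refine mass_mono (fun k => norm_nonneg _) (hs s') fun k hk => ?_
          have := hok.ge k hk
          simp only [Kb, Set.mem_compl_iff, Set.mem_ofPred_eq, not_lt]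
          exact this
        have h14 := (abs_lt.1 (hS1 s' hs'S)).2
        rw [abs_le]
        constructor <;> linarith
      have hφz : |φ1 (π (g, i) x)| ≤ ‖x‖ := by
        refine (φ1.le_opNorm _).trans ?_
        calc ‖φ1‖ * ‖π (g, i) x‖ ≤ 1 * ‖x‖ :=
              mul_le_mul (hD1 _ _ hφ1) (hπ _ _) (norm_nonneg _) zero_le_one
          _ = ‖x‖ := one_mul _
      have h15 : |(c - τ) * φ1 (π (g, i) x)| ≤ 2 * eps * ‖x‖ := by
        rw [abs_mul]
        exact mul_le_mul hτc hφz (abs_nonneg _) (by positivity)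
      have h16 : |∑ j ∈ R, lam s j (π j x) + c * φ1 (π (g, i) x)| ≤
          r + 4 * eps * ‖x‖ + δ + θ / 2 := by
        rw [abs_le] at h9 h10 h12 h15 hτ1 ⊢
        constructor <;> nlinarith [h9.1, h9.2, h10.1, h10.2, h12.1, h12.2, h15.1, h15.2,
          hτ1.1, hτ1.2]
      linarith
    intro k hk
    have hcpos : 0 < c := by linarith
    have h4 : ‖π k x‖ ≤ (r + 4 * eps * ‖x‖ - |∑ j ∈ R, lam s j (π j x)|) / c := by
      refine hC0 x g _ (fun i => ?_) k hk
      rw [le_div_iff₀ hcpos]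
      linarith [hstage i]
    rw [le_div_iff₀ hcpos] at h4
    have : 0 ≤ eps * ‖x‖ := by positivity
    linarith

end collapse

end Pool.Agent.Dia
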