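import Pool.Agent.Work.MP_89a7db_an.Dia.Amb
import Pool.Agent.Work.MP_89a7db_an.Dia.CollapseB

/-!
MP_89a7db_an, module M9, third part: the collapse lemma for a system of data.
-/

set_option autoImplicit false
set_option linter.unusedSectionVars false

namespace Pool.Agent.DIAM

open Set Filter Topology Pool.Agent.Dia
open scoped ENNReal

noncomputable section

section task

variable {W : Type} [LinearOrder W]
variable {Z : W × ℕ → Type} [∀ k, NormedAddCommGroup (Z k)] [∀ k, NormedSpace ℝ (Z k)]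

theorem mass_eq_norm_res (l : Lam Z) (A : Set (W × ℕ)) : mass (fun k => ‖l k‖) A = ‖res A l‖ := by
  classical
  rw [norm_eq_tsum, mass]
  refine tsum_congr fun k => ?_
  rw [res_apply]
  by_cases hk : k ∈ A
  · rw [Set.indicator_of_mem hk, if_pos hk]
  · rw [Set.indicator_of_notMem hk, if_neg hk, norm_zero]

theorem sub_res (l : Lam Z) (A : Set (W × ℕ)) : l - res A l = res Aᶜ l := by
  classical
  apply lp.ext
  funext k
  show l k - res A l k = res Aᶜ l k
  rw [res_apply, res_apply]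
  by_cases hk : k ∈ A
  · rw [if_pos hk, if_neg (show ¬ k ∈ Aᶜ from fun h => h hk), sub_self]
  · rw [if_neg hk, if_pos (show k ∈ Aᶜ from hk), sub_zero]

theorem norm_res_finset (l : Lam Z) (F : Finset (W × ℕ)) :
    ‖res (F : Set (W × ℕ)) l‖ = ∑ k ∈ F, ‖l k‖ := by
  rw [← mass_eq_norm_res, mass_finset]

theorem pair_res_finset (l : Lam Z) (F : Finset (W × ℕ)) (x : L Z) :
    pair (res (F : Set (W × ℕ)) l) x = ∑ k ∈ F, l k (x k) := by
  classical
  rw [pair_apply, tsum_eq_sum (s := F)]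
  · refine Finset.sum_congr rfl fun k hk => ?_
    rw [res_apply, if_pos (by exact hk)]
  · intro k hk
    rw [res_apply, if_neg (by exact hk)]
    rfl

/-- the two forms of the requirements of a task -/
theorem taskOK_iff_hit [∀ k, CompleteSpace (Z k)] (fb : Fib Z) (l : Lam Z) (b g : W)
    (R F : Finset (W × ℕ)) (U : List ((W × ℕ) × ℕ × ℚ × ℚ)) (hU : ∀ u ∈ U, u.1 ∈ R) (c ε : ℚ) :
    TaskOK fb.e (fun k => l k) b g R F U c ε ↔ Hit fb g b R U.toFinset c ε l F := by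
  classical
  constructor
  · intro h
    refine ⟨fun k hk => ⟨h.ge k hk, h.lt k hk⟩, h.disj.symm, ?_, ?_, ?_, ?_⟩
    · intro k hk
      by_contra hne
      exact absurd (h.supp k hne) (not_lt.2 hk)
    · intro u hu
      have hu' : u ∈ U := List.mem_toFinset.1 hu
      rw [res_apply, if_pos (by exact hU u hu')]
      exact h.sat u hu'
    · rw [norm_res_finset]; exact h.big
    · have h1 := h.small
      rw [mass_eq_norm_res, ← sub_res] at h1
      exact h1
  · intro h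
    refine ⟨fun k hk => (h.stage k hk).1, fun k hk => (h.stage k hk).2, h.disj.symm, ?_, ?_, ?_, ?_⟩
    · intro k hk
      by_contra hne
      exact hk (h.supp k (not_lt.1 hne))
    · intro u hu
      have h1 := h.nbd u (List.mem_toFinset.2 hu)
      rw [res_apply, if_pos (by exact hU u hu)] at h1
      exact h1
    · have h1 := h.big
      rw [norm_res_finset] at h1
      exact h1
    · rw [mass_eq_norm_res, ← sub_res]
      exact h.small

end task

section ap

variable {W : Type} [LinearOrder W]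
variable {Z : W × ℕ → Type} [∀ k, NormedAddCommGroup (Z k)] [∀ k, NormedSpace ℝ (Z k)]
  [∀ k, CompleteSpace (Z k)]

/-- a coordinate below `a` in terms of `P_a` and `T_a` -/
theorem Datum.coord_split {a : W} (d : Datum Z a) (x : L Z) {k : W × ℕ} (hk : k.1 < a) :
    x k = d.P x k + ∑' m, d.th m x • d.w m k := by
  have h1 : d.P x = x - (cut (geS a) x + d.T x) := rfl
  rw [h1, lp.coeFn_sub, Pi.sub_apply, lp.coeFn_add, Pi.add_apply, cut_apply,
    if_neg (show ¬ k ∈ geS a from not_le.2 hk), zero_add, Datum.T_apply, sub_add_cancel]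

theorem Datum.summable_cut {a : W} (d : Datum Z a) (F : Finset (W × ℕ)) :
    Summable fun m => ‖cut (F : Set (W × ℕ)) (d.w m)‖ := by
  classical
  have h1 : Summable fun m => ∑ k ∈ F, ‖d.w m k‖ := summable_sum fun k _ => d.w2 k
  refine Summable.of_nonneg_of_le (fun _ => norm_nonneg _) (fun m => ?_) h1
  refine lp.norm_le_of_forall_le (Finset.sum_nonneg fun _ _ => norm_nonneg _) fun k => ?_
  rw [cut_apply]
  by_cases hk : k ∈ (F : Set (W × ℕ))
  · rw [if_pos hk]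
    exact Finset.single_le_sum (f := fun k => ‖d.w m k‖) (fun _ _ => norm_nonneg _) hk
  · rw [if_neg hk, norm_zero]
    exact Finset.sum_nonneg fun _ _ => norm_nonneg _

/-- the estimate behind (1.7) -/
theorem Datum.sum_split {a : W} (d : Datum Z a) (l : Lam Z) {M : ℝ} (hM : ‖l‖ ≤ M)
    (F : Finset (W × ℕ)) (hF : ∀ k ∈ F, k.1 < a) (x : L Z) (m0 : ℕ) :
    |∑ k ∈ F, l k (x k) - pair (res (F : Set (W × ℕ)) l) (d.w m0) * d.th m0 x| ≤
      M * ‖cut (F : Set (W × ℕ)) (d.P x)‖ +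
        M * ‖x‖ * ∑' m, (if m = m0 then 0 else ‖cut (F : Set (W × ℕ)) (d.w m)‖) := by
  classical
  have hsum := d.summable_cut F
  have hsum' : Summable fun m => if m = m0 then (0 : ℝ) else ‖cut (F : Set (W × ℕ)) (d.w m)‖ := by
    refine Summable.of_nonneg_of_le (fun m => ?_) (fun m => ?_) hsum
    · split_ifs
      · exact le_rfl
      · exact norm_nonneg _
    · split_ifs
      · exact norm_nonneg _
      · exact le_rfl
  have hF1 : ∑ k ∈ F, ‖l k‖ ≤ M := by
    rw [← norm_res_finset, ← mass_eq_norm_res]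
    refine (mass_le_tsum (fun k => norm_nonneg _) (summable_norm l) _).trans ?_
    rw [← norm_eq_tsum]; exact hM
  have hterm : ∀ k ∈ F, |l k (x k) - l k (d.w m0 k) * d.th m0 x| ≤
      ‖l k‖ * (‖cut (F : Set (W × ℕ)) (d.P x)‖ +
        ‖x‖ * ∑' m, (if m = m0 then 0 else ‖cut (F : Set (W × ℕ)) (d.w m)‖)) := by
    intro k hk
    have h1 := d.coord_split x (hF k hk)
    have hs : Summable fun m => d.th m x • d.w m k := (d.summable x k).of_norm
    have h2 : ∑' m, d.th m x • d.w m k = d.th m0 x • d.w m0 k +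
        ∑' m, (if m = m0 then 0 else d.th m x • d.w m k) := by
      rw [hs.tsum_eq_add_tsum_ite m0]
    have h3 : x k - d.th m0 x • d.w m0 k = d.P x k +
        ∑' m, (if m = m0 then 0 else d.th m x • d.w m k) := by
      conv_lhs => rw [h1, h2]
      abel
    have h4 : l k (x k) - l k (d.w m0 k) * d.th m0 x = l k (x k - d.th m0 x • d.w m0 k) := by
      rw [map_sub, map_smul, smul_eq_mul, mul_comm]
    rw [h4, h3]
    refine ((l k).le_opNorm _).trans (mul_le_mul_of_nonneg_left ?_ (norm_nonneg _))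
    refine (norm_add_le _ _).trans (add_le_add (norm_coord_le_cut (S := (F : Set (W × ℕ))) hk _) ?_)
    rw [← tsum_mul_left]
    refine tsum_of_norm_bounded (hsum'.mul_left _).hasSum fun m => ?_
    split_ifs
    · rw [norm_zero, mul_zero]
    · rw [norm_smul]
      exact mul_le_mul ((d.abs_th_le m x).trans (norm_coord_le x _)) (norm_coord_le_cut (S := (F : Set (W × ℕ))) hk _)
        (norm_nonneg _) (norm_nonneg _)
  rw [pair_res_finset, Finset.sum_mul, ← Finset.sum_sub_distrib]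
  refine (Finset.abs_sum_le_sum_abs _ _).trans ((Finset.sum_le_sum hterm).trans ?_)
  rw [← Finset.sum_mul]
  have hnn : 0 ≤ ‖cut (F : Set (W × ℕ)) (d.P x)‖ +
      ‖x‖ * ∑' m, (if m = m0 then 0 else ‖cut (F : Set (W × ℕ)) (d.w m)‖) := by
    have : 0 ≤ ∑' m, (if m = m0 then (0 : ℝ) else ‖cut (F : Set (W × ℕ)) (d.w m)‖) :=
      tsum_nonneg fun m => by split_ifs <;> positivity
    positivity
  calc (∑ k ∈ F, ‖l k‖) * _ ≤ M * _ := mul_le_mul_of_nonneg_right hF1 hnn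
    _ = _ := by ring

/-- (1.7), finite form -/
theorem ap_of_CT1 (fb : Fib Z) (gs : W → Lam Z) (D : ∀ a, Datum Z a) (g : W)
    (h : CT1 fb gs D g (D g)) {M : ℝ} (hM : ∀ s < g, ‖gs s‖ ≤ M)
    (R : Finset (W × ℕ)) (U : List ((W × ℕ) × ℕ × ℚ × ℚ)) (c ε : ℚ)
    (hR : ∀ k ∈ R, k.1 < g) (hU : ∀ u ∈ U, u.1 ∈ R) (hc : 0 < c) (hε : 0 < ε)
    (hact : Active fb.e (fun s k => gs s k) g R U c ε) (i n : ℕ) (x : L Z)
    (hx : (D g).P x ∈ XS D g) (δ : ℝ) (hδ : 0 < δ) (b : W) (hb : b < g) :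
    ∃ s < g, ∃ (F : Finset (W × ℕ)) (τ : ℝ), TaskOK fb.e (fun k => gs s k) b g R F U c ε ∧
      |∑ k ∈ F, gs s k (x k) - τ * fb.ds (g, i) n (x (g, i))| ≤ δ ∧
      c - δ ≤ τ ∧ τ ≤ ∑ k ∈ F, ‖gs s k‖ := by
  classical
  have hM0 : 0 ≤ M := (norm_nonneg _).trans (hM b hb)
  obtain ⟨m, s, F, hm, hth, hs, hhit, hy, hpair, hw⟩ := h i n R U.toFinset c ε hR
    (fun u hu => hR _ (hU u (List.mem_toFinset.1 hu))) hc hε (by
      intro g' hg'
      obtain ⟨s, hs, F, hF⟩ := hact g' hg'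
      exact ⟨s, hs, F, (taskOK_iff_hit fb (gs s) g' g R F U hU c ε).1 hF⟩)
  obtain ⟨j1, hj1⟩ := hhit b hb
  obtain ⟨j2, hj2⟩ := hpair δ hδ
  have h3 := hy _ hx
  have hε1 : 0 < δ / (2 * (M + 1)) := by positivity
  have hε2 : 0 < δ / (2 * (M + 1) * (‖x‖ + 1)) := by positivity
  obtain ⟨j3, hj3⟩ := (Metric.tendsto_atTop.1 h3) _ hε1
  obtain ⟨j4, hj4⟩ := (Metric.tendsto_atTop.1 hw) _ hε2
  set j := max (max j1 j2) (max j3 j4) with hj
  have h4 := hj1 j ((le_max_left _ _).trans (le_max_left _ _))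
  have h5 := hj2 j ((le_max_right _ _).trans (le_max_left _ _))
  have h6 := hj3 j ((le_max_left _ _).trans (le_max_right _ _))
  have h7 := hj4 j ((le_max_right _ _).trans (le_max_right _ _))
  rw [dist_zero_right, norm_norm] at h6
  rw [dist_zero_right] at h7
  refine ⟨s j, hs j, F j, pair (res (F j : Set (W × ℕ)) (gs (s j))) ((D g).w (m j)),
    (taskOK_iff_hit fb (gs (s j)) b g R (F j) U hU c ε).2 h4, ?_, h5, ?_⟩
  · rw [← hth j x]
    refine ((D g).sum_split (gs (s j)) (hM _ (hs j)) (F j) (fun k hk => (h4.stage k hk).2) x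
      (m j)).trans ?_
    have h8 : ∑' l, (if l = m j then 0 else ‖cut (F j : Set (W × ℕ)) ((D g).w l)‖) ≤
        δ / (2 * (M + 1) * (‖x‖ + 1)) := (le_abs_self _).trans h7.le
    have hx0 := norm_nonneg x
    have h9 : M * ‖cut (F j : Set (W × ℕ)) ((D g).P x)‖ ≤ δ / 2 := by
      calc M * ‖cut (F j : Set (W × ℕ)) ((D g).P x)‖ ≤ (M + 1) * (δ / (2 * (M + 1))) :=
            mul_le_mul (by linarith) h6.le (norm_nonneg _) (by positivity)
        _ = δ / 2 := by field_simp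
    have h10 : M * ‖x‖ * ∑' l, (if l = m j then 0 else ‖cut (F j : Set (W × ℕ)) ((D g).w l)‖) ≤
        δ / 2 := by
      have h11 : M * ‖x‖ ≤ (M + 1) * (‖x‖ + 1) := by nlinarith
      calc M * ‖x‖ * ∑' l, (if l = m j then 0 else ‖cut (F j : Set (W × ℕ)) ((D g).w l)‖)
          ≤ (M + 1) * (‖x‖ + 1) * (δ / (2 * (M + 1) * (‖x‖ + 1))) :=
            mul_le_mul h11 h8 (tsum_nonneg fun l => by split_ifs <;> positivity) (by positivity)
        _ = δ / 2 := by field_simp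
    linarith
  · rw [← norm_res_finset]
    refine (le_abs_self _).trans ?_
    have h12 := (pair (res (F j : Set (W × ℕ)) (gs (s j)))).le_opNorm ((D g).w (m j))
    have h13 : ‖pair (res (F j : Set (W × ℕ)) (gs (s j)))‖ ≤ ‖res (F j : Set (W × ℕ)) (gs (s j))‖ :=
      ContinuousLinearMap.opNorm_le_bound _ (norm_nonneg _) fun y => norm_pair_le _ y
    calc |pair (res (F j : Set (W × ℕ)) (gs (s j))) ((D g).w (m j))|
        ≤ ‖pair (res (F j : Set (W × ℕ)) (gs (s j)))‖ * ‖(D g).w (m j)‖ := h12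
      _ ≤ ‖res (F j : Set (W × ℕ)) (gs (s j))‖ * 1 :=
          mul_le_mul h13 ((D g).norm_w_le _) (norm_nonneg _) (norm_nonneg _)
      _ = _ := mul_one _

end ap

section collapse

variable {W : Type} [LinearOrder W] [OmegaOne W]
variable {Z : W × ℕ → Type} [∀ k, NormedAddCommGroup (Z k)] [∀ k, NormedSpace ℝ (Z k)]
  [∀ k, CompleteSpace (Z k)]

/-- the functionals `ds` are norming from both sides -/
theorem Fib.norming (fb : Fib Z) (k : W × ℕ) (z : Z k) (δ : ℝ) (hδ : 0 < δ) :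
    (∃ n, ‖z‖ - δ ≤ fb.ds k n z) ∧ ∃ n, fb.ds k n z ≤ δ - ‖z‖ := by
  obtain ⟨ζ, hζ1, hζ2⟩ : ∃ ζ : StrongDual ℝ (Z k), ‖ζ‖ ≤ 1 ∧ ζ z = ‖z‖ := by
    obtain ⟨ζ, h1, h2⟩ := exists_dual_vector'' ℝ z
    exact ⟨ζ, h1, by simpa using h2⟩
  obtain ⟨n, hn⟩ := fb.ds_dense k ζ hζ1 {z} δ hδ
  obtain ⟨n', hn'⟩ := fb.ds_dense k (-ζ) (by rwa [norm_neg]) {z} δ hδ
  have h1 := abs_lt.1 (hn z (Finset.mem_singleton_self z))
  have h2 := abs_lt.1 (hn' z (Finset.mem_singleton_self z))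
  simp only [neg_apply] at h2
  rw [hζ2] at h1 h2
  exact ⟨⟨n, by linarith [h1.1]⟩, n', by linarith [h2.2]⟩

/-- **C1** for a system of data, with the first component of the guesses. -/
theorem collapse_sys (fb : Fib Z) (gs : W → W → Lam Z) (D : ∀ a, Datum Z a)
    (hgs : ∀ G : W → Lam Z, IsStationary {a | ∀ b < a, gs a b = G b})
    (hT1 : ∀ g, IsLim g → CT1 fb (gs g) D g (D g))
    (hP : ∀ x ∈ XX D, ∀ g, (D g).P x ∈ XS D g)
    (hC0 : ∀ x ∈ XX D, ∀ (g : W) (r : ℝ), (∀ i, ‖x (g, i)‖ ≤ r) → ∀ k : W × ℕ, g ≤ k.1 →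
      ‖x k‖ ≤ r)
    (lam : W → Lam Z) {M : ℝ} (hM : ∀ s, ‖lam s‖ ≤ M) {eps : ℝ} (heps : 0 < eps) :
    ∃ (S : Set W) (R : Finset (W × ℕ)) (c : ℝ) (b0 g : W), ¬ S.Countable ∧ 0 ≤ c ∧
      (∀ k ∈ R, k.1 < b0) ∧ (∀ s ∈ S, |‖res (geS b0) (lam s)‖ - c| < eps) ∧
      (∀ b, b0 ≤ b → {s ∈ S | ¬ ∃ F : Finset (W × ℕ), (∀ k ∈ F, b ≤ k.1) ∧
        ‖lam s - res (R ∪ F) (lam s)‖ < eps ∧ |‖res (F : Set (W × ℕ)) (lam s)‖ - c| < eps}.Countable) ∧
      {s ∈ S | ¬ ∀ x ∈ XX D, ∀ r : ℝ, (∀ s' ∈ S, s' < g → |pair (lam s') x| ≤ r) →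
        ∀ k : W × ℕ, g ≤ k.1 → |pair (res (R : Set (W × ℕ)) (lam s)) x| + c * ‖x k‖ ≤
          r + 6 * eps * ‖x‖}.Countable := by
  classical
  obtain ⟨S, R, c, b0, g, h1, h2, h3, h4, h5, h6⟩ := collapse (V := XX D)
    (π := fun k x => (x : L Z) k) (fun k x => norm_coord_le (x : L Z) k) fb.e fb.e_dense
    (fun k => range (fb.ds k))
    (fun k z δ hδ => by
      obtain ⟨⟨n, hn⟩, -⟩ := fb.norming k z δ hδ
      exact ⟨_, ⟨n, rfl⟩, hn⟩)
    (fun k z δ hδ => by
      obtain ⟨-, n, hn⟩ := fb.norming k z δ hδ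
      exact ⟨_, ⟨n, rfl⟩, hn⟩)
    (fun k φ hφ => by
      obtain ⟨n, rfl⟩ := hφ
      exact fb.ds_le k n) (M := M)
    (fun a b k => gs a b k)
    (fun G hG => by
      refine (hgs fun s => mkLam (G s) (hG s)).mono ?_
      intro a ha b hb
      have := ha b hb
      funext k
      rw [this]
      rfl)
    (fun x g r hr k hk => hC0 x x.2 g r hr k hk)
    (fun g hg R U c ε hR hU hc hε hM' hact i φ hφ x δ hδ b hb => by
      obtain ⟨n, rfl⟩ := hφ
      exact ap_of_CT1 fb (gs g) D g (hT1 g hg) (M := M)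
        (fun s hs => by rw [norm_eq_tsum]; exact hM' s hs) R U c ε hR hU hc hε hact i n x
        (hP x x.2 g) δ hδ b hb)
    (fun s k => lam s k) (fun s => summable_norm (lam s))
    (fun s => by rw [← norm_eq_tsum]; exact hM s) heps
  have hge : ((Kb b0)ᶜ : Set (W × ℕ)) = geS b0 := by
    ext k
    simp [Kb, geS]
  refine ⟨S, R, c, b0, g, h1, h2, h3, ?_, ?_, ?_⟩
  · intro s hs
    have := h4 s hs
    rwa [mass_eq_norm_res, hge] at this
  · intro b hb
    refine (h5 b hb).mono ?_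
    rintro s ⟨hs, hs'⟩
    refine ⟨hs, fun hex => hs' ?_⟩
    obtain ⟨F, hF1, hF2, hF3⟩ := hex
    refine ⟨F, fun k hk => (hF1 k hk).1, ?_, ?_⟩
    · rw [sub_res, ← mass_eq_norm_res]
      exact hF2
    · rw [norm_res_finset]; exact hF3
  · refine h6.mono ?_
    rintro s ⟨hs, hs'⟩
    refine ⟨hs, fun hall => hs' ?_⟩
    intro x hx r hr k hk
    have h7 := hall ⟨x, hx⟩ r (fun s' hs1 hs2 => by
      have := hr s' hs1 hs2
      rwa [pair_apply] at this) k hk
    rw [pair_res_finset]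
    exact h7

end collapse

end

end Pool.Agent.DIAM
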