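import Mathlib

/-!
MP_89a7db_an, countable generation (C2), in an abstract form, and the embedding in `ℓ^∞`.
-/

set_option autoImplicit false

namespace Pool.Agent.Dia

open Set

variable {X : Type*} [NormedAddCommGroup X] [NormedSpace ℝ X]

/-- The conclusion of the collapse lemma, for a normed space `X` and a well order `Om`. -/
def Collapse (Om : Type*) [LinearOrder Om] (X : Type*) [NormedAddCommGroup X]
    [NormedSpace ℝ X] : Prop :=
  ∀ (M : ℝ) (lam : Om → X →L[ℝ] ℝ), (∀ s, ‖lam s‖ ≤ M) → ∀ eps : ℝ, 0 < eps →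
    ∃ (S : Set Om) (g : Om), ¬ S.Countable ∧
      {s ∈ S | ¬ ∀ (x : X) (r : ℝ), (∀ s' ∈ S, s' < g → |lam s' x| ≤ r) →
        |lam s x| ≤ r + eps * ‖x‖}.Countable

/-- Transfinite recursion: each countable subset of `S0` has a partner in `S0`. -/
theorem exists_seq_of_countable {Om : Type*} [LinearOrder Om] [WellFoundedLT Om]
    (hI : ∀ a : Om, (Iio a).Countable) {α : Type*} {S0 : Set α} {Bad : Set α → α → Prop}
    (h : ∀ D ⊆ S0, D.Countable → ∃ y ∈ S0, Bad D y) :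
    ∃ u : Om → α, ∀ s, u s ∈ S0 ∧ Bad (u '' Iio s) (u s) := by
  classical
  obtain ⟨y0, _, _⟩ := h ∅ (empty_subset _) countable_empty
  have : Nonempty α := ⟨y0⟩
  choose! f hf1 hf2 using h
  have hex : ∀ s : Om, ∀ ih : (t : Om) → t < s → S0,
      {d | ∃ (t : Om) (h : t < s), (ih t h : α) = d} ⊆ S0 ∧
      {d | ∃ (t : Om) (h : t < s), (ih t h : α) = d}.Countable := by
    intro s ih
    constructor
    · rintro d ⟨t, h, rfl⟩
      exact (ih t h).2
    · have : {d | ∃ (t : Om) (h : t < s), (ih t h : α) = d} =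
          Set.range (fun t : Iio s => (ih t.1 t.2 : α)) := by
        ext d
        constructor
        · rintro ⟨t, h, rfl⟩
          exact ⟨⟨t, h⟩, rfl⟩
        · rintro ⟨⟨t, h⟩, rfl⟩
          exact ⟨t, h, rfl⟩
      rw [this]
      have : Countable (Iio s) := (hI s).to_subtype
      exact Set.countable_range _
  let u : Om → S0 := WellFounded.fix (r := ((· < ·) : Om → Om → Prop)) wellFounded_lt
    (fun s ih => ⟨f {d | ∃ (t : Om) (h : t < s), (ih t h : α) = d},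
      hf1 _ (hex s ih).1 (hex s ih).2⟩)
  refine ⟨fun s => (u s : α), fun s => ⟨(u s).2, ?_⟩⟩
  have hset : {d | ∃ (t : Om) (_ : t < s), (u t : α) = d} = (fun s => (u s : α)) '' Iio s := by
    ext d
    constructor
    · rintro ⟨t, h, rfl⟩
      exact ⟨t, h, rfl⟩
    · rintro ⟨t, h, rfl⟩
      exact ⟨t, h, rfl⟩
  have hs : (u s : α) = f {d | ∃ (t : Om) (_ : t < s), (u t : α) = d} := by
    simp only [u]
    rw [WellFounded.fix_eq]
  rw [← hset]
  show Bad _ (u s : α)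
  rw [hs]
  exact hf2 _ (hex s (fun t _ => u t)).1 (hex s (fun t _ => u t)).2

/-- (C2) Countable generation: a bounded set of functionals has a countable subset which
generates it up to absolutely convex combinations and weak limits. -/
theorem countable_generation {Om : Type*} [LinearOrder Om] [WellFoundedLT Om]
    (hI : ∀ a : Om, (Iio a).Countable) (hC : Collapse Om X) {M : ℝ} {S0 : Set (X →L[ℝ] ℝ)}
    (hM : ∀ lam ∈ S0, ‖lam‖ ≤ M) :
    ∃ D ⊆ S0, D.Countable ∧ ∀ lam ∈ S0, ∀ (x : X) (r : ℝ), 0 ≤ r → (∀ d ∈ D, |d x| ≤ r) →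
      |lam x| ≤ r := by
  have key : ∀ eps : ℝ, 0 < eps → ∃ D ⊆ S0, D.Countable ∧ ∀ lam ∈ S0, ∀ (x : X) (r : ℝ), 0 ≤ r →
      (∀ d ∈ D, |d x| ≤ r) → |lam x| ≤ r + eps * ‖x‖ := by
    intro eps heps
    by_contra hcon
    push Not at hcon
    obtain ⟨u, hu⟩ := exists_seq_of_countable hI
      (Bad := fun (D : Set (X →L[ℝ] ℝ)) (lam : X →L[ℝ] ℝ) => ∃ (x : X) (r : ℝ), 0 ≤ r ∧
        (∀ d ∈ D, |d x| ≤ r) ∧ r + eps * ‖x‖ < |lam x|) hcon
    obtain ⟨S, g, hS, hexc⟩ := hC M u (fun s => hM _ (hu s).1) eps heps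
    have hne : ∃ s ∈ S, g ≤ s ∧ s ∉ {s ∈ S | ¬ ∀ (x : X) (r : ℝ),
        (∀ s' ∈ S, s' < g → |u s' x| ≤ r) →
        |u s x| ≤ r + eps * ‖x‖} := by
      by_contra hno
      refine hS (((hI g).union hexc).mono ?_)
      intro s hs
      rcases lt_or_ge s g with h | h
      · exact Or.inl h
      · refine Or.inr ?_
        by_contra hs2
        exact hno ⟨s, hs, h, hs2⟩
    obtain ⟨s, hsS, hgs, hs⟩ := hne
    have hs' : ∀ (x : X) (r : ℝ), (∀ s' ∈ S, s' < g → |u s' x| ≤ r) →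
        |u s x| ≤ r + eps * ‖x‖ := by
      by_contra hno
      exact hs ⟨hsS, hno⟩
    obtain ⟨y, ρ, _, h1, h2⟩ := (hu s).2
    exact absurd (hs' y ρ (fun s' _ h => h1 _ ⟨s', h.trans_le hgs, rfl⟩)) (not_le.2 h2)
  choose D hD1 hD2 hD3 using fun n : ℕ => key (1 / ((n : ℝ) + 1)) (by positivity)
  refine ⟨⋃ n, D n, iUnion_subset hD1, countable_iUnion hD2, fun lam hlam x r hr h => ?_⟩
  have h1 : ∀ n : ℕ, |lam x| ≤ r + 1 / ((n : ℝ) + 1) * ‖x‖ := fun n =>
    hD3 n lam hlam x r hr (fun d hd => h d (mem_iUnion.2 ⟨n, hd⟩))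
  have h2 : Filter.Tendsto (fun n : ℕ => r + 1 / ((n : ℝ) + 1) * ‖x‖) Filter.atTop
      (nhds (r + 0 * ‖x‖)) :=
    tendsto_const_nhds.add (tendsto_one_div_add_atTop_nhds_zero_nat.mul tendsto_const_nhds)
  have h3 := ge_of_tendsto' h2 h1
  simpa using h3

/-- Hahn-Banach for a seminorm: a functional below `p` that attains `p` at a given vector. -/
theorem exists_le_seminorm {p : Seminorm ℝ X} {C : ℝ} (hp : ∀ x, p x ≤ C * ‖x‖) (x0 : X) :
    ∃ f : X →L[ℝ] ℝ, (∀ x, |f x| ≤ p x) ∧ f x0 = p x0 := by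
  obtain ⟨g, hg1, hg2⟩ : ∃ g : X →ₗ[ℝ] ℝ, g x0 = p x0 ∧ ∀ x, g x ≤ p x := by
    rcases eq_or_ne x0 0 with h0 | h0
    · exact ⟨0, by simp [h0], fun x => by simp⟩
    · let f : X →ₗ.[ℝ] ℝ := LinearPMap.mkSpanSingleton x0 (p x0) h0
      obtain ⟨g, hg1, hg2⟩ := exists_extension_of_le_sublinear f p
        (fun c hc x => by rw [map_smul_eq_mul, Real.norm_of_nonneg hc.le])
        (fun x y => map_add_le_add p x y) (by
          rintro ⟨x, hx⟩
          obtain ⟨c, rfl⟩ := Submodule.mem_span_singleton.1 hx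
          have h1 : f ⟨c • x0, hx⟩ = c • p x0 := LinearPMap.mkSpanSingleton'_apply _ _ _ _ _
          rw [h1, map_smul_eq_mul]
          exact mul_le_mul_of_nonneg_right (le_abs_self c) (apply_nonneg p x0))
      refine ⟨g, ?_, hg2⟩
      have hmem : x0 ∈ f.domain := Submodule.mem_span_singleton_self x0
      have h2 := hg1 ⟨x0, hmem⟩
      have h3 : f ⟨x0, hmem⟩ = p x0 := by
        exact LinearPMap.mkSpanSingleton_apply ℝ ℝ h0 (p x0)
      exact h2.trans h3
  have habs : ∀ x, |g x| ≤ p x := fun x => abs_le.2 ⟨by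
    have := hg2 (-x)
    rw [map_neg, map_neg_eq_map] at this
    linarith, hg2 x⟩
  exact ⟨g.mkContinuous C (fun x => (habs x).trans (hp x)), habs, hg1⟩

/-- Every equivalent norm (more generally: every continuous seminorm) is the supremum of
countably many functionals. -/
theorem exists_countable_norming {Om : Type*} [LinearOrder Om] [WellFoundedLT Om]
    (hI : ∀ a : Om, (Iio a).Countable) (hC : Collapse Om X) {p : Seminorm ℝ X} {C : ℝ}
    (hC0 : 0 ≤ C) (hp : ∀ x, p x ≤ C * ‖x‖) :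
    ∃ D : ℕ → X →L[ℝ] ℝ, (∀ n x, |D n x| ≤ p x) ∧
      (∀ lam : X →L[ℝ] ℝ, (∀ x, |lam x| ≤ p x) → ∀ x r, (∀ n, |D n x| ≤ r) → |lam x| ≤ r) ∧
      ∀ x r, (∀ n, |D n x| ≤ r) → p x ≤ r := by
  have hM : ∀ lam ∈ {lam : X →L[ℝ] ℝ | ∀ x, |lam x| ≤ p x}, ‖lam‖ ≤ C := fun lam hlam =>
    ContinuousLinearMap.opNorm_le_bound _ hC0 (fun x => (hlam x).trans (hp x))
  obtain ⟨D, hD1, hD2, hD3⟩ := countable_generation hI hC hM
  have h0 : (0 : X →L[ℝ] ℝ) ∈ {lam : X →L[ℝ] ℝ | ∀ x, |lam x| ≤ p x} := fun x => by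
    simp
  obtain ⟨E, hE⟩ := (hD2.insert (0 : X →L[ℝ] ℝ)).exists_eq_range (insert_nonempty _ _)
  have hEmem : ∀ n, E n ∈ {lam : X →L[ℝ] ℝ | ∀ x, |lam x| ≤ p x} := by
    intro n
    have : E n ∈ insert (0 : X →L[ℝ] ℝ) D := hE ▸ mem_range_self n
    rcases this with h | h
    · rw [h]; exact h0
    · exact hD1 h
  have hall : ∀ lam : X →L[ℝ] ℝ, (∀ x, |lam x| ≤ p x) → ∀ x r, (∀ n, |E n x| ≤ r) →
      |lam x| ≤ r := by
    intro lam hlam x r h
    have hr : 0 ≤ r := (abs_nonneg _).trans (h 0)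
    refine hD3 lam hlam x r hr (fun d hd => ?_)
    have : d ∈ range E := hE ▸ mem_insert_of_mem _ hd
    obtain ⟨n, rfl⟩ := this
    exact h n
  refine ⟨E, hEmem, hall, fun x r h => ?_⟩
  obtain ⟨f, hf1, hf2⟩ := exists_le_seminorm hp x
  have := hall f hf1 x r h
  rw [hf2] at this
  exact (le_abs_self _).trans this

/-- Under the collapse property `X` is isometric to a subspace of `ℓ^∞`. -/
theorem exists_embedding {Om : Type*} [LinearOrder Om] [WellFoundedLT Om]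
    (hI : ∀ a : Om, (Iio a).Countable) (hC : Collapse Om X) :
    Nonempty (X →ₗᵢ[ℝ] lp (fun _ : ℕ => ℝ) ⊤) := by
  obtain ⟨D, hD1, _, hD3⟩ := exists_countable_norming hI hC (p := normSeminorm ℝ X) (C := 1)
    zero_le_one (fun x => by simp)
  have hmem : ∀ x : X, Memℓp (fun n => D n x) ⊤ := fun x =>
    memℓp_infty ⟨‖x‖, by rintro _ ⟨n, rfl⟩; exact hD1 n x⟩
  refine ⟨{ toFun := fun x => ⟨fun n => D n x, hmem x⟩, map_add' := ?_, map_smul' := ?_,
            norm_map' := ?_ }⟩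
  · intro x y
    ext n
    exact map_add (D n) x y
  · intro c x
    ext n
    exact map_smul (D n) c x
  · intro x
    refine le_antisymm ?_ ?_
    · refine lp.norm_le_of_forall_le (norm_nonneg x) (fun n => hD1 n x)
    · exact hD3 x _ (fun n => lp.norm_apply_le_norm (p := ⊤) (by simp)
        (⟨fun n => D n x, hmem x⟩ : lp (fun _ : ℕ => ℝ) ⊤) n)

end Pool.Agent.Dia
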