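import Pool.Agent.Work.MP_89a7db_an.Dia.Omega

/-!
# Cell DIAM (MP_89a7db_an): definitions

`W` is the first uncountable well order, the coordinates are `W × ℕ` (the stage of a coordinate is
its first component), `Z k` are the fibres, `L Z` is the `ℓ∞`-sum of the fibres and `Lam Z` the
`ℓ¹`-sum of their duals.
-/

set_option autoImplicit false
set_option linter.unusedSectionVars false

namespace Pool.Agent.DIAM

open Set Filter Topology Pool.Agent.Dia
open scoped ENNReal

noncomputable section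

section basic

variable {W : Type} [LinearOrder W]
variable (Z : W × ℕ → Type) [∀ k, NormedAddCommGroup (Z k)] [∀ k, NormedSpace ℝ (Z k)]

/-- The ambient space: bounded families. -/
abbrev L (Z : W × ℕ → Type) [∀ k, NormedAddCommGroup (Z k)] := lp Z ∞

/-- The `ℓ¹`-sum of the duals of the fibres. -/
abbrev Lam (Z : W × ℕ → Type) [∀ k, NormedAddCommGroup (Z k)] [∀ k, NormedSpace ℝ (Z k)] :=
  lp (fun k => StrongDual ℝ (Z k)) 1

variable {Z}

/-- A bounded family as an element of `L`. -/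
def mkL (f : ∀ k, Z k) (C : ℝ) (h : ∀ k, ‖f k‖ ≤ C) : L Z :=
  ⟨f, memℓp_infty ⟨C, by rintro _ ⟨k, rfl⟩; exact h k⟩⟩

omit [∀ k, NormedSpace ℝ (Z k)] in
@[simp] theorem mkL_apply (f : ∀ k, Z k) (C : ℝ) (h : ∀ k, ‖f k‖ ≤ C) (k : W × ℕ) :
    mkL f C h k = f k := rfl

omit [∀ k, NormedSpace ℝ (Z k)] in
theorem norm_coord_le (x : L Z) (k : W × ℕ) : ‖x k‖ ≤ ‖x‖ :=
  lp.norm_apply_le_norm (by simp) x k

omit [∀ k, NormedSpace ℝ (Z k)] in
theorem norm_le_iff (x : L Z) {C : ℝ} (hC : 0 ≤ C) : ‖x‖ ≤ C ↔ ∀ k, ‖x k‖ ≤ C :=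
  ⟨fun h k => (norm_coord_le x k).trans h, fun h => lp.norm_le_of_forall_le hC h⟩

/-- The coordinate `k`. -/
def pr (k : W × ℕ) : L Z →L[ℝ] Z k :=
  LinearMap.mkContinuous
    { toFun := fun x => x k
      map_add' := fun x y => by rw [lp.coeFn_add]; rfl
      map_smul' := fun c x => by rw [lp.coeFn_smul]; rfl } 1
    (fun x => by simpa using norm_coord_le x k)

@[simp] theorem pr_apply (k : W × ℕ) (x : L Z) : pr k x = x k := rfl

open Classical in
/-- Restriction of a bounded family to a set of coordinates. -/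
def cut (S : Set (W × ℕ)) : L Z →L[ℝ] L Z :=
  LinearMap.mkContinuous
    { toFun := fun x => mkL (fun k => if k ∈ S then x k else 0) ‖x‖ (fun k => by
        split_ifs
        · exact norm_coord_le x k
        · simp)
      map_add' := fun x y => by
        apply lp.ext; funext k
        by_cases hk : k ∈ S <;> simp [hk]
      map_smul' := fun c x => by
        apply lp.ext; funext k
        by_cases hk : k ∈ S <;> simp [hk] } 1
    (fun x => by
      rw [one_mul]
      refine lp.norm_le_of_forall_le (norm_nonneg _) fun k => ?_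
      by_cases hk : k ∈ S
      · simpa [hk] using norm_coord_le x k
      · simp [hk])

open Classical in
theorem cut_apply (S : Set (W × ℕ)) (x : L Z) (k : W × ℕ) :
    cut S x k = if k ∈ S then x k else 0 := rfl

theorem memℓp_one_iff {E : W × ℕ → Type} [∀ k, NormedAddCommGroup (E k)] {f : ∀ k, E k} :
    Memℓp f 1 ↔ Summable fun k => ‖f k‖ := by
  rw [memℓp_gen_iff (by simp)]
  simp

theorem summable_norm (l : Lam Z) : Summable fun k => ‖l k‖ :=
  memℓp_one_iff.1 (lp.memℓp l)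

theorem norm_eq_tsum (l : Lam Z) : ‖l‖ = ∑' k, ‖l k‖ := by
  rw [lp.norm_eq_tsum_rpow (by simp)]
  simp

/-- A summable family as an element of `Lam`. -/
def mkLam (f : ∀ k, StrongDual ℝ (Z k)) (h : Summable fun k => ‖f k‖) : Lam Z :=
  ⟨f, memℓp_one_iff.2 h⟩

@[simp] theorem mkLam_apply (f : ∀ k, StrongDual ℝ (Z k)) (h : Summable fun k => ‖f k‖)
    (k : W × ℕ) : mkLam f h k = f k := rfl

open Classical in
theorem summable_ite (S : Set (W × ℕ)) (l : Lam Z) :
    Summable fun k => ‖(if k ∈ S then l k else 0 : StrongDual ℝ (Z k))‖ := by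
  refine (summable_norm l).of_nonneg_of_le (fun _ => norm_nonneg _) fun k => ?_
  split_ifs
  · exact le_rfl
  · simp

open Classical in
/-- Restriction of a functional to a set of coordinates. -/
def res (S : Set (W × ℕ)) : Lam Z →L[ℝ] Lam Z :=
  LinearMap.mkContinuous
    { toFun := fun l => mkLam (fun k => if k ∈ S then l k else 0) (summable_ite S l)
      map_add' := fun x y => by
        apply lp.ext; funext k
        by_cases hk : k ∈ S <;> simp [hk]
      map_smul' := fun c x => by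
        apply lp.ext; funext k
        by_cases hk : k ∈ S <;> simp [hk] } 1
    (fun l => by
      rw [one_mul]
      show ‖mkLam (fun k => if k ∈ S then l k else 0) (summable_ite S l)‖ ≤ ‖l‖
      rw [norm_eq_tsum, norm_eq_tsum]
      refine Summable.tsum_le_tsum (fun k => ?_) (summable_ite S l) (summable_norm l)
      by_cases hk : k ∈ S <;> simp [hk])

open Classical in
theorem res_apply (S : Set (W × ℕ)) (l : Lam Z) (k : W × ℕ) :
    res S l k = if k ∈ S then l k else 0 := rfl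

/-- The vector `z` at the coordinate `k`. -/
def sg (k : W × ℕ) : Z k →L[ℝ] L Z :=
  LinearMap.mkContinuous
    { toFun := fun z => lp.single ∞ k z
      map_add' := fun x y => lp.single_add ∞ k x y
      map_smul' := fun c x => lp.single_smul ∞ k c x } 1
    (fun z => by
      rw [one_mul]
      refine lp.norm_le_of_forall_le (norm_nonneg _) fun j => ?_
      show ‖(lp.single ∞ k z : L Z) j‖ ≤ ‖z‖
      by_cases h : j = k
      · subst h; rw [lp.single_apply_self]
      · rw [lp.single_apply_ne _ _ _ h]; simp)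

theorem sg_self (k : W × ℕ) (z : Z k) : sg k z k = z := lp.single_apply_self ∞ k z

theorem sg_ne (k : W × ℕ) (z : Z k) {j : W × ℕ} (h : j ≠ k) : sg k z j = 0 :=
  lp.single_apply_ne ∞ k z h

theorem norm_single_one_le (k : W × ℕ) (ζ : StrongDual ℝ (Z k)) :
    ‖(lp.single 1 k ζ : Lam Z)‖ ≤ ‖ζ‖ := by
  rw [norm_eq_tsum, tsum_eq_single k]
  · rw [lp.single_apply_self]
  · intro j hj
    rw [lp.single_apply_ne _ _ _ hj, norm_zero]

/-- The functional `ζ` of the coordinate `k`. -/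
def pl (k : W × ℕ) : StrongDual ℝ (Z k) →L[ℝ] Lam Z :=
  LinearMap.mkContinuous
    { toFun := fun ζ => (lp.single 1 k ζ : Lam Z)
      map_add' := fun x y => lp.single_add (E := fun k => StrongDual ℝ (Z k)) 1 k x y
      map_smul' := fun c x =>
        lp.single_smul (E := fun k => StrongDual ℝ (Z k)) (𝕜 := ℝ) 1 k c x } 1
    (fun z => by
      rw [one_mul]
      exact norm_single_one_le k z)

theorem pl_self (k : W × ℕ) (ζ : StrongDual ℝ (Z k)) : pl k ζ k = ζ :=
  lp.single_apply_self (E := fun k => StrongDual ℝ (Z k)) 1 k ζ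

theorem pl_ne (k : W × ℕ) (ζ : StrongDual ℝ (Z k)) {j : W × ℕ} (h : j ≠ k) : pl k ζ j = 0 :=
  lp.single_apply_ne (E := fun k => StrongDual ℝ (Z k)) 1 k ζ h

theorem summable_pair (l : Lam Z) (x : L Z) : Summable fun k => l k (x k) := by
  refine Summable.of_norm_bounded ((summable_norm l).mul_right ‖x‖) fun k => ?_
  exact ((l k).le_opNorm (x k)).trans (by gcongr; exact norm_coord_le x k)

theorem norm_pair_le (l : Lam Z) (x : L Z) : ‖∑' k, l k (x k)‖ ≤ ‖l‖ * ‖x‖ := by
  rw [norm_eq_tsum, ← tsum_mul_right]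
  refine tsum_of_norm_bounded ((summable_norm l).mul_right ‖x‖).hasSum fun k => ?_
  exact ((l k).le_opNorm (x k)).trans (by gcongr; exact norm_coord_le x k)

/-- The action of `Lam` on `L`: `lam(x) = ∑ lam_k (x_k)`. -/
def pair : Lam Z →L[ℝ] StrongDual ℝ (L Z) :=
  LinearMap.mkContinuous₂
    (LinearMap.mk₂ ℝ (fun (l : Lam Z) (x : L Z) => ∑' k, l k (x k))
      (fun l l' x => by
        rw [← (summable_pair l x).tsum_add (summable_pair l' x)]
        exact tsum_congr fun k => by rw [lp.coeFn_add]; rfl)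
      (fun c l x => by
        rw [smul_eq_mul, ← tsum_mul_left]
        exact tsum_congr fun k => by rw [lp.coeFn_smul]; rfl)
      (fun l x x' => by
        rw [← (summable_pair l x).tsum_add (summable_pair l x')]
        exact tsum_congr fun k => by rw [lp.coeFn_add]; exact map_add (l k) _ _)
      (fun c l x => by
        rw [smul_eq_mul, ← tsum_mul_left]
        exact tsum_congr fun k => by rw [lp.coeFn_smul]; exact map_smul (l k) _ _)) 1
    (fun l x => by
      rw [one_mul]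
      exact norm_pair_le l x)

theorem pair_apply (l : Lam Z) (x : L Z) : pair l x = ∑' k, l k (x k) := rfl

/-- Coordinates of stage `≥ a`. -/
def geS (a : W) : Set (W × ℕ) := {k | a ≤ k.1}

/-- Coordinates of stage `< a`. -/
def ltS (a : W) : Set (W × ℕ) := {k | k.1 < a}

/-! ## Data -/

variable (Z) in
/-- A datum at the stage `a`: vectors `w m` supported below `a`, and functionals `th m` of norm
`≤ 1`, each looking at one coordinate `(a, i m)` of stage `a`; with (W1) and (W2). -/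
structure Datum (a : W) where
  w : ℕ → L Z
  i : ℕ → ℕ
  θ : ∀ m, StrongDual ℝ (Z (a, i m))
  θ_le : ∀ m, ‖θ m‖ ≤ 1
  supp : ∀ m, ∀ k : W × ℕ, a ≤ k.1 → w m k = 0
  w1 : ∀ (n : ℕ) (t : ℕ → ℝ), (∀ m, |t m| ≤ 1) → ‖∑ m ∈ Finset.range n, t m • w m‖ ≤ 1
  w2 : ∀ k : W × ℕ, Summable fun m => ‖w m k‖

/-- The trivial datum. -/
def Datum.triv (a : W) : Datum Z a where
  w _ := 0
  i _ := 0
  θ _ := 0
  θ_le _ := by simp
  supp _ _ _ := rfl
  w1 _ _ _ := by simp
  w2 _ := by simp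

/-- The functional `th m` of the datum, on `L`. -/
def Datum.th {a : W} (d : Datum Z a) (m : ℕ) : StrongDual ℝ (L Z) := (d.θ m).comp (pr (a, d.i m))

theorem Datum.th_apply {a : W} (d : Datum Z a) (m : ℕ) (x : L Z) :
    d.th m x = d.θ m (x (a, d.i m)) := rfl

theorem Datum.abs_th_le {a : W} (d : Datum Z a) (m : ℕ) (x : L Z) :
    |d.th m x| ≤ ‖x (a, d.i m)‖ := by
  have := (d.θ m).le_of_opNorm_le (d.θ_le m) (x (a, d.i m))
  rwa [one_mul] at this

theorem Datum.summable {a : W} (d : Datum Z a) (x : L Z) (k : W × ℕ) :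
    Summable fun m => ‖d.th m x • d.w m k‖ := by
  refine Summable.of_nonneg_of_le (fun _ => norm_nonneg _) (fun m => ?_) ((d.w2 k).mul_left ‖x‖)
  rw [norm_smul]
  gcongr
  exact (d.abs_th_le m x).trans (norm_coord_le x _)

/-- For `|t m| ≤ T`, the partial sums of `t m • w m` are bounded by `T`. -/
theorem Datum.w1' {a : W} (d : Datum Z a) (n : ℕ) (t : ℕ → ℝ) {T : ℝ} (hT : 0 ≤ T)
    (ht : ∀ m, |t m| ≤ T) : ‖∑ m ∈ Finset.range n, t m • d.w m‖ ≤ T := by
  rcases hT.eq_or_lt with rfl | hT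
  · have : ∀ m, t m = 0 := fun m => abs_eq_zero.1 (le_antisymm (ht m) (abs_nonneg _))
    simp [this]
  · have h := d.w1 n (fun m => t m / T) (fun m => by
      rw [abs_div, abs_of_pos hT, div_le_one hT]; exact ht m)
    have e : ∑ m ∈ Finset.range n, t m • d.w m
        = T • ∑ m ∈ Finset.range n, (t m / T) • d.w m := by
      rw [Finset.smul_sum]
      refine Finset.sum_congr rfl fun m _ => ?_
      rw [smul_smul]; congr 1; field_simp
    rw [e, norm_smul, Real.norm_of_nonneg hT.le]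
    calc T * _ ≤ T * 1 := by gcongr
      _ = T := mul_one T

variable [∀ k, CompleteSpace (Z k)]

theorem Datum.norm_tsum_le {a : W} (d : Datum Z a) (t : ℕ → ℝ) {T : ℝ} (hT : 0 ≤ T)
    (ht : ∀ m, |t m| ≤ T) (k : W × ℕ) : ‖∑' m, t m • d.w m k‖ ≤ T := by
  have hs : Summable fun m => t m • d.w m k := by
    refine Summable.of_norm_bounded ((d.w2 k).mul_left T) fun m => ?_
    rw [norm_smul]
    gcongr
    exact ht m
  refine le_of_tendsto (hs.hasSum.tendsto_sum_nat.norm) (Eventually.of_forall fun n => ?_)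
  have h1 : ∑ m ∈ Finset.range n, t m • d.w m k = (∑ m ∈ Finset.range n, t m • d.w m : L Z) k := by
    rw [lp.coeFn_sum, Finset.sum_apply]
    exact Finset.sum_congr rfl fun m _ => by rw [lp.coeFn_smul]; rfl
  rw [h1]
  exact (norm_coord_le _ k).trans (d.w1' n t hT ht)

/-- The pointwise sum `∑ m, t m • w m` for a bounded sequence `t`. -/
def Datum.ps {a : W} (d : Datum Z a) (t : ℕ → ℝ) (T : ℝ) (hT : 0 ≤ T) (ht : ∀ m, |t m| ≤ T) :
    L Z :=
  mkL (fun k => ∑' m, t m • d.w m k) T (d.norm_tsum_le t hT ht)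

theorem Datum.ps_apply {a : W} (d : Datum Z a) (t : ℕ → ℝ) (T : ℝ) (hT : 0 ≤ T)
    (ht : ∀ m, |t m| ≤ T) (k : W × ℕ) : d.ps t T hT ht k = ∑' m, t m • d.w m k := rfl

/-- The operator `T_a`: `x ↦ ∑ m, th m x • w m` (pointwise sum). -/
def Datum.T {a : W} (d : Datum Z a) : L Z →L[ℝ] L Z :=
  LinearMap.mkContinuous
    { toFun := fun x => mkL (fun k => ∑' m, d.th m x • d.w m k) ‖x‖ (fun k =>
        d.norm_tsum_le _ (norm_nonneg _) (fun m => (d.abs_th_le m x).trans (norm_coord_le x _)) k)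
      map_add' := fun x y => by
        apply lp.ext; funext k
        show ∑' m, d.th m (x + y) • d.w m k = ∑' m, d.th m x • d.w m k + ∑' m, d.th m y • d.w m k
        rw [← ((d.summable x k).of_norm).tsum_add ((d.summable y k).of_norm)]
        exact tsum_congr fun m => by rw [map_add, add_smul]
      map_smul' := fun c x => by
        apply lp.ext; funext k
        show ∑' m, d.th m (c • x) • d.w m k = c • ∑' m, d.th m x • d.w m k
        rw [← ((d.summable x k).of_norm).tsum_const_smul c]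
        exact tsum_congr fun m => by rw [map_smul, smul_eq_mul, mul_smul] } 1
    (fun x => by
      rw [one_mul]
      exact lp.norm_le_of_forall_le (norm_nonneg _) fun k =>
        d.norm_tsum_le _ (norm_nonneg _) (fun m => (d.abs_th_le m x).trans (norm_coord_le x _)) k)

theorem Datum.T_apply {a : W} (d : Datum Z a) (x : L Z) (k : W × ℕ) :
    d.T x k = ∑' m, d.th m x • d.w m k := rfl

/-- `A_a x = x|≥a + T_a x`. -/
def Datum.A {a : W} (d : Datum Z a) : L Z →L[ℝ] L Z := cut (geS a) + d.T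

/-- `P_a = 1 - A_a`. -/
def Datum.P {a : W} (d : Datum Z a) : L Z →L[ℝ] L Z := ContinuousLinearMap.id ℝ (L Z) - d.A

end basic

section family

variable {W : Type} [LinearOrder W]
variable {Z : W × ℕ → Type} [∀ k, NormedAddCommGroup (Z k)] [∀ k, NormedSpace ℝ (Z k)]
  [∀ k, CompleteSpace (Z k)]

/-- The generator `J_k z = [z at k] + T_a [z at k]`, `a` the stage of `k`. -/
def J (D : ∀ a, Datum Z a) (k : W × ℕ) : Z k →L[ℝ] L Z := sg k + (D k.1).T.comp (sg k)

/-- `J_k^(n) z = J_k z - ∑_{m < n} th_m [z at k] w_m`. -/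
def Jn (D : ∀ a, Datum Z a) (k : W × ℕ) (n : ℕ) (z : Z k) : L Z :=
  J D k z - ∑ m ∈ Finset.range n, (D k.1).th m (sg k z) • (D k.1).w m

/-- `X_a`: the closed span of the generators of stage `< a`. -/
def XS (D : ∀ a, Datum Z a) (a : W) : Submodule ℝ (L Z) :=
  (Submodule.span ℝ {x | ∃ k : W × ℕ, k.1 < a ∧ ∃ z : Z k, x = J D k z}).topologicalClosure

theorem XS_mono (D : ∀ a, Datum Z a) {a b : W} (h : a ≤ b) : XS D a ≤ XS D b :=
  Submodule.topologicalClosure_mono (Submodule.span_mono fun _ ⟨k, hk, z, hz⟩ =>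
    ⟨k, hk.trans_le h, z, hz⟩)

/-- `X`: the union of all `X_a`. -/
def XX (D : ∀ a, Datum Z a) : Submodule ℝ (L Z) where
  carrier := {x | (∃ a, x ∈ XS D a) ∨ x = 0}
  zero_mem' := Or.inr rfl
  add_mem' := by
    rintro x y (⟨a, ha⟩ | rfl) (⟨b, hb⟩ | rfl)
    · exact Or.inl ⟨max a b, (XS D _).add_mem (XS_mono D (le_max_left a b) ha)
        (XS_mono D (le_max_right a b) hb)⟩
    · exact Or.inl ⟨a, by simpa using ha⟩
    · exact Or.inl ⟨b, by simpa using hb⟩
    · exact Or.inr (by simp)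
  smul_mem' := by
    rintro c x (⟨a, ha⟩ | rfl)
    · exact Or.inl ⟨a, (XS D a).smul_mem c ha⟩
    · exact Or.inr (by simp)

/-- `X^Q`: the elements of `X` with `P_b x = 0` for `b ∈ Q`. -/
def XQ (D : ∀ a, Datum Z a) (Q : Finset W) : Submodule ℝ (L Z) :=
  XX D ⊓ ⨅ b ∈ Q, LinearMap.ker ((D b).P : L Z →ₗ[ℝ] L Z)

/-- A functional of `Lam`, as an element of the weak* dual of `X`. -/
def ev (D : ∀ a, Datum Z a) : Lam Z →ₗ[ℝ] WeakDual ℝ (XX D) where
  toFun l := StrongDual.toWeakDual ((pair l).comp (XX D).subtypeL)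
  map_add' l l' := by
    rw [map_add, ContinuousLinearMap.add_comp, map_add]
  map_smul' c l := by
    rw [map_smul, ContinuousLinearMap.smul_comp, map_smul, RingHom.id_apply]

theorem ev_apply (D : ∀ a, Datum Z a) (l : Lam Z) (x : XX D) : ev D l x = pair l (x : L Z) := rfl

/-- The ball of radius `M` of the dual of `X`, as a subset of the weak* dual. -/
def Ball (D : ∀ a, Datum Z a) (M : ℝ) : Set (WeakDual ℝ (XX D)) :=
  {φ | ‖WeakDual.toStrongDual φ‖ ≤ M}

/-! ## Conditions on the datum at the stage `a`, given the data below -/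

/-- (W0) -/
def CW0 (D : ∀ a, Datum Z a) (a : W) (d : Datum Z a) : Prop := ∀ m, d.w m ∈ XS D a

/-- (W3) -/
def CW3 (D : ∀ a, Datum Z a) (a : W) (d : Datum Z a) : Prop :=
  ∀ b < a, ∃ m0, ∀ m ≥ m0, (D b).P (d.w m) = 0

/-- (W4), for coefficients bounded by `T`, finite sums. -/
def CW4 (D : ∀ a, Datum Z a) (a : W) (d : Datum Z a) : Prop :=
  ∀ y ∈ XS D a, ∀ T > 0, ∀ ε > 0, ∃ m0, ∀ n ≥ m0, ∀ N ≥ n, ∀ t : ℕ → ℝ, (∀ m, |t m| ≤ T) →
    ‖y + ∑ m ∈ Finset.range N, t m • d.w m‖ ≤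
      max ‖y + ∑ m ∈ Finset.range n, t m • d.w m‖ T + ε

variable (Z) in
/-- Dense sequences of the fibres and of their dual balls. -/
structure Fib where
  e : ∀ k, ℕ → Z k
  e_dense : ∀ k, DenseRange (e k)
  ds : ∀ k, ℕ → StrongDual ℝ (Z k)
  ds_le : ∀ k n, ‖ds k n‖ ≤ 1
  ds_dense : ∀ k (ζ : StrongDual ℝ (Z k)), ‖ζ‖ ≤ 1 → ∀ (E : Finset (Z k)) (ε : ℝ), 0 < ε →
    ∃ n, ∀ z ∈ E, |ds k n z - ζ z| < ε

/-- (T0): every functional `z* = ds (a, i) n` is reached. -/
def CT0 (fb : Fib Z) (D : ∀ a, Datum Z a) (a : W) (d : Datum Z a) : Prop :=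
  ∀ i n : ℕ, ∃ (m : ℕ → ℕ) (κ : ℕ → W × ℕ) (ζ : ∀ j, StrongDual ℝ (Z (κ j))), StrictMono m ∧
    (∀ j x, d.th (m j) x = fb.ds (a, i) n (x (a, i))) ∧ (∀ j, (κ j).1 < a) ∧
    (∀ g < a, ∃ j0, ∀ j ≥ j0, g ≤ (κ j).1) ∧ Function.Injective κ ∧ (∀ j, ‖ζ j‖ ≤ 1) ∧
    (∀ y ∈ XS D a, Tendsto (fun j => ζ j (y (κ j))) atTop (𝓝 0)) ∧
    Tendsto (fun j => ζ j (d.w (m j) (κ j))) atTop (𝓝 1) ∧
    Tendsto (fun j => ∑' l, if l = m j then 0 else |ζ j (d.w l (κ j))|) atTop (𝓝 0)

/-- A basic weak* open set in the product of the duals of the fibres: finitely many conditions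
`|rho_k (e k i) - q| < η`. -/
abbrev Nbd (W : Type) := Finset ((W × ℕ) × ℕ × ℚ × ℚ)

/-- Membership in a basic open set. -/
def InNbd (fb : Fib Z) (U : Nbd W) (l : Lam Z) : Prop :=
  ∀ u ∈ U, |l u.1 (fb.e u.1 u.2.1) - u.2.2.1| < u.2.2.2

/-- The functional `l` is of the form required by a task `(R, U, c, ε)` at `a`, with the finite
set `F` of coordinates of stage in `[g, a)`. -/
structure Hit (fb : Fib Z) (a g : W) (R : Finset (W × ℕ)) (U : Nbd W) (c ε : ℝ) (l : Lam Z)
    (F : Finset (W × ℕ)) : Prop where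
  stage : ∀ k ∈ F, g ≤ k.1 ∧ k.1 < a
  disj : Disjoint F R
  supp : ∀ k : W × ℕ, a ≤ k.1 → l k = 0
  nbd : InNbd fb U (res R l)
  big : c < ‖res F l‖
  small : ‖l - res (R ∪ F) l‖ < ε

/-- (T1) for the guess `gs : W → Lam` (used below `a` only). -/
def CT1 (fb : Fib Z) (gs : W → Lam Z) (D : ∀ a, Datum Z a) (a : W) (d : Datum Z a) : Prop :=
  ∀ (i n : ℕ) (R : Finset (W × ℕ)) (U : Nbd W) (c ε : ℚ), (∀ k ∈ R, k.1 < a) →
    (∀ u ∈ U, u.1.1 < a) → 0 < c → 0 < ε →
    (∀ g < a, ∃ s < a, ∃ F : Finset (W × ℕ), Hit fb a g R U c ε (gs s) F) →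
    ∃ (m : ℕ → ℕ) (s : ℕ → W) (F : ℕ → Finset (W × ℕ)), StrictMono m ∧
      (∀ j x, d.th (m j) x = fb.ds (a, i) n (x (a, i))) ∧ (∀ j, s j < a) ∧
      (∀ g < a, ∃ j0, ∀ j ≥ j0, Hit fb a g R U c ε (gs (s j)) (F j)) ∧
      (∀ y ∈ XS D a, Tendsto (fun j => ‖cut (F j) y‖) atTop (𝓝 0)) ∧
      (∀ δ : ℝ, 0 < δ → ∃ j0, ∀ j ≥ j0,
        (c : ℝ) - δ ≤ pair (res (F j) (gs (s j))) (d.w (m j))) ∧
      Tendsto (fun j => ∑' l, if l = m j then 0 else ‖cut (F j) (d.w l)‖) atTop (𝓝 0)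

/-- The datum is light for the sequence `Ds` and the bound `q`. -/
def Light (Ds : ℕ → Lam Z) (q : ℝ) {a : W} (d : Datum Z a) : Prop :=
  ∀ j N, ∑ m ∈ Finset.range N, |pair (Ds j) (d.w m)| ≤ q

/-- limit stages -/
def IsLim (a : W) : Prop := (∃ b, b < a) ∧ ∀ b < a, ∃ c, b < c ∧ c < a

/-- All conditions except (T2). -/
structure Adm (fb : Fib Z) (gs : W → Lam Z) (D : ∀ a, Datum Z a) (a : W) (d : Datum Z a) :
    Prop where
  w0 : CW0 D a d
  w3 : CW3 D a d
  w4 : CW4 D a d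
  t0 : (∃ b, b < a) → CT0 fb D a d
  t1 : IsLim a → CT1 fb gs D a d

/-- A full system of data: guesses `gs a : W → Lam` for (T1), `lg a` for (T2). -/
structure Sys (fb : Fib Z) (gs : W → W → Lam Z) (lg : W → (ℕ → Lam Z) × ℝ) where
  D : ∀ a, Datum Z a
  adm : ∀ a, Adm fb (gs a) D a (D a)
  t2 : ∀ a, IsLim a → (∃ d : Datum Z a, Adm fb (gs a) D a d ∧ Light (lg a).1 (lg a).2 d) →
    Light (lg a).1 (lg a).2 (D a)

end family

end

end Pool.Agent.DIAM
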