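import Pool.Agent.Work.MP_89a7db_an.Dia.Omega

/-!
MP_89a7db_an, module M1: Jensen's diamond, function form, CH, enumerations.
-/

open Set Order Cardinal Ordinal

namespace Pool.Agent.Dia

/-- Jensen's diamond for a well order `W` (subset form): a sequence of sets `A a` contained in the
initial segments, such that every subset `X` of `W` is guessed on a stationary set. -/
def Diamond (W : Type*) [LinearOrder W] : Prop :=
  ∃ A : W → Set W, (∀ a, A a ⊆ Set.Iio a) ∧
    ∀ X : Set W, IsStationary {a | X ∩ Set.Iio a = A a}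

section

variable {W : Type*} [LinearOrder W] [OmegaOne W]

variable (W) in
lemma infinite' : Infinite W := by
  by_contra h
  rw [not_infinite_iff_finite] at h
  exact uncountable_univ W Set.countable_univ

variable (W) in
/-- a bijective pairing function -/
lemma exists_pairing : Nonempty (W × W ≃ W) := by
  have := infinite' W
  have h : #(W × W) = #W := by
    rw [Cardinal.mk_prod]
    simpa using Cardinal.mul_eq_self (Cardinal.aleph0_le_mk W)
  exact Cardinal.eq.1 h

lemma IsStationary.inter_club {S C : Set W} (hS : IsStationary S) (hC : IsClub C) :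
    IsStationary (S ∩ C) := by
  intro t ht
  have h := hS (IsClub.inter' hC ht)
  rwa [← Set.inter_assoc] at h

/-- diamond guesses functions into any type of size at most `W` -/
theorem diamond_fun (hD : Diamond W) {T : Type*} [Nonempty T] (ι : T → W)
    (hι : Function.Injective ι) :
    ∃ g : W → W → T, ∀ G : W → T, IsStationary {a | ∀ b < a, g a b = G b} := by
  classical
  obtain ⟨A, _, hA⟩ := hD
  obtain ⟨π⟩ := exists_pairing W
  refine ⟨fun a b => if h : ∃ t : T, π (b, ι t) ∈ A a then h.choose else Classical.arbitrary T,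
    fun G => ?_⟩
  set f : W → W := fun b => π (b, ι (G b)) with hf
  have h1 := IsStationary.inter_club (hA (Set.range f)) (isClub_closedPts f)
  refine h1.mono ?_
  rintro a ⟨ha1, ha2⟩ b hb
  simp only [Set.mem_setOf_eq] at ha1
  have hmem : π (b, ι (G b)) ∈ A a := by
    rw [← ha1]
    exact ⟨⟨b, rfl⟩, ha2 b hb⟩
  have hex : ∃ t : T, π (b, ι t) ∈ A a := ⟨G b, hmem⟩
  show (if h : ∃ t : T, π (b, ι t) ∈ A a then h.choose else Classical.arbitrary T) = G b
  rw [dif_pos hex]
  have h2 := hex.choose_spec
  have h3 : π (b, ι hex.choose) ∈ Set.range f ∩ Set.Iio a := by rw [ha1]; exact h2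
  obtain ⟨⟨c, hc⟩, _⟩ := h3
  have h4 := π.injective hc
  rw [Prod.mk.injEq] at h4
  obtain ⟨rfl, h5⟩ := h4
  exact (hι h5).symm

/-- diamond implies CH: the subsets of `ℕ` inject into `W` -/
theorem diamond_ch (hD : Diamond W) : ∃ f : Set ℕ → W, Function.Injective f := by
  classical
  obtain ⟨A, _, hA⟩ := hD
  have := infinite' W
  obtain ⟨e⟩ : Nonempty (ℕ ↪ W) := ⟨Infinite.natEmbedding W⟩
  obtain ⟨b, hb⟩ := exists_gt_fun (fun n => e n)
  have h : ∀ X : Set ℕ, ∃ a, A a = e '' X := by
    intro X
    obtain ⟨a, ha1, ha2⟩ := (hA (e '' X)) (isClub_Ioi b)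
    refine ⟨a, ?_⟩
    simp only [Set.mem_setOf_eq] at ha1
    rw [← ha1]
    apply Set.inter_eq_left.2
    rintro _ ⟨n, _, rfl⟩
    exact (hb n).trans ha2
  choose f hf using h
  refine ⟨f, fun X Y hXY => ?_⟩
  have h1 := hf X
  rw [hXY, hf Y] at h1
  exact (e.injective.image_injective h1).symm

theorem inj_of_inj_set_nat (hD : Diamond W) {T : Type*} (j : T → Set ℕ)
    (hj : Function.Injective j) : ∃ ι : T → W, Function.Injective ι := by
  obtain ⟨f, hf⟩ := diamond_ch hD
  exact ⟨f ∘ j, hf.comp hj⟩

/-- a type of size at most the continuum injects into `W` -/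
theorem inj_of_le_continuum (hD : Diamond W) {T : Type} (h : #T ≤ 𝔠) :
    ∃ ι : T → W, Function.Injective ι := by
  have h1 : #T ≤ #(Set ℕ) := by rw [Cardinal.mk_set_nat]; exact h
  obtain ⟨j⟩ := h1
  exact inj_of_inj_set_nat hD j j.injective

/-- a nonempty type which injects into `W` is enumerated by `W` with every value occurring
cofinally often -/
theorem exists_enum_cofinal {T : Type*} [Nonempty T] (ι : T → W) (hι : Function.Injective ι) :
    ∃ s : W → T, ∀ t : T, ∀ b : W, ∃ a, b < a ∧ s a = t := by
  classical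
  obtain ⟨π⟩ := exists_pairing W
  refine ⟨fun a => if h : ∃ t : T, ι t = (π.symm a).1 then h.choose else Classical.arbitrary T,
    fun t b => ?_⟩
  have hunc : ¬ (Set.range fun c : W => π (ι t, c)).Countable := by
    intro h
    apply uncountable_univ W
    have hinj : Function.Injective fun c : W => π (ι t, c) := by
      intro c c' hc
      have := π.injective hc
      rw [Prod.mk.injEq] at this
      exact this.2
    rw [Set.countable_univ_iff]
    have h2 : Countable (Set.range fun c : W => π (ι t, c)) := h.to_subtype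
    exact (Equiv.ofInjective _ hinj).countable_iff.2 h2
  obtain ⟨a, ⟨c, rfl⟩, hb⟩ := not_countable_iff.1 hunc b
  refine ⟨_, hb, ?_⟩
  have hex : ∃ t' : T, ι t' = (π.symm (π (ι t, c))).1 := ⟨t, by simp⟩
  show (if h : ∃ t' : T, ι t' = (π.symm (π (ι t, c))).1 then h.choose else _) = t
  rw [dif_pos hex]
  have h1 := hex.choose_spec
  have h2 : (π.symm (π (ι t, c))).1 = ι t := by simp
  exact hι (h1.trans h2)

end

/-! ### the concrete carrier -/

instance instOmegaOne : OmegaOne (ω_ 1 : Ordinal.{0}).ToType where
  wf := inferInstance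
  countable_Iio a := by
    have hty : typeLT (ω_ 1 : Ordinal.{0}).ToType = ω_ 1 := Ordinal.type_toType _
    have hcard : #(ω_ 1 : Ordinal.{0}).ToType = ℵ₁ := by
      rw [Cardinal.mk_toType]; simp
    have h := Cardinal.mk_Iio_lt a (by rw [hcard, hty]; simp)
    rw [hcard] at h
    rw [← Cardinal.le_aleph0_iff_set_countable]
    rw [← Cardinal.succ_aleph0] at h
    exact Order.lt_succ_iff.1 h
  uncountable := by
    rw [Set.countable_univ_iff, ← Cardinal.mk_le_aleph0_iff, Cardinal.mk_toType, not_le]
    simp

end Pool.Agent.Dia
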