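import Mathlib

/-! MP_89a7db_an, cell DIAM, module M4: abstract lemmas on the pairing of an `l_1` sum of duals with
an `l_oo` sum. -/

namespace Pool.Agent.Dia

open Filter Topology Set
open scoped ENNReal

section abs

variable {K : Type*} {Z : K → Type*} [∀ k, NormedAddCommGroup (Z k)] [∀ k, NormedSpace ℝ (Z k)]

theorem M4_norm_eq (lam : lp (fun k => StrongDual ℝ (Z k)) 1) : ‖lam‖ = ∑' k, ‖lam k‖ := by
  have := lp.norm_rpow_eq_tsum (p := 1) (by simp) lam
  simpa using this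

theorem M4_summable_norm (lam : lp (fun k => StrongDual ℝ (Z k)) 1) :
    Summable fun k => ‖lam k‖ := by
  have := (lp.memℓp lam).summable (by simp)
  simpa using this

theorem M4_apply_le (lam : lp (fun k => StrongDual ℝ (Z k)) 1) (x : lp Z ∞) (k : K) :
    ‖lam k (x k)‖ ≤ ‖lam k‖ * ‖x‖ :=
  ((lam k).le_opNorm _).trans
    (mul_le_mul_of_nonneg_left (lp.norm_apply_le_norm (by simp) x k) (norm_nonneg _))

theorem M4_summable (lam : lp (fun k => StrongDual ℝ (Z k)) 1) (x : lp Z ∞) :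
    Summable fun k => lam k (x k) :=
  Summable.of_norm_bounded ((M4_summable_norm lam).mul_right ‖x‖) fun k => M4_apply_le lam x k

theorem M4_act_le (lam : lp (fun k => StrongDual ℝ (Z k)) 1) (x : lp Z ∞) :
    |∑' k, lam k (x k)| ≤ ‖lam‖ * ‖x‖ := by
  rw [M4_norm_eq, ← tsum_mul_right, ← Real.norm_eq_abs]
  exact tsum_of_norm_bounded ((M4_summable_norm lam).mul_right _).hasSum
    fun k => M4_apply_le lam x k

/-- finitely many coordinates carry almost all of the norm -/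
theorem M4_tail (lam : lp (fun k => StrongDual ℝ (Z k)) 1) {ε : ℝ} (hε : 0 < ε) :
    ∃ F : Finset K, (∑' k : {k // k ∉ F}, ‖lam k‖) < ε := by
  have h := (tendsto_tsum_compl_atTop_zero fun k => ‖lam k‖).eventually (gt_mem_nhds hε)
  obtain ⟨F, hF⟩ := h.exists
  exact ⟨F, hF⟩

/-- The norm of a functional is computed on any subspace with the interpolation property. -/
theorem M4_lower (X : Set (lp Z ∞))
    (hX : ∀ (F : Finset K) (z : ∀ k, Z k), (∀ k, ‖z k‖ ≤ 1) → ∀ ε > 0, ∃ x ∈ X, ‖x‖ ≤ 1 + ε ∧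
      ∀ k ∈ F, ‖x k - z k‖ ≤ ε)
    (lam : lp (fun k => StrongDual ℝ (Z k)) 1) {c : ℝ} (hc0 : 0 ≤ c)
    (hc : ∀ x ∈ X, ∑' k, lam k (x k) ≤ c * ‖x‖) : ‖lam‖ ≤ c := by
  classical
  have hkey : ∀ ε : ℝ, 0 < ε → ‖lam‖ ≤ max c 0 * (1 + ε) + ε * (3 + ε + ‖lam‖) := by
    intro ε hε
    obtain ⟨F, hF⟩ := M4_tail lam hε
    have hz : ∀ k, ∃ z : Z k, ‖z‖ ≤ 1 ∧ ‖lam k‖ - ε / (F.card + 1) ≤ lam k z := by
      intro k
      have hpos : 0 < ε / ((F.card : ℝ) + 1) := by positivity
      by_cases h0 : ‖lam k‖ - ε / (F.card + 1) ≤ 0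
      · exact ⟨0, by simp, by simpa using h0⟩
      · push Not at h0
        have h1 : ‖lam k‖ - ε / (F.card + 1) < ‖lam k‖ := by linarith
        obtain ⟨x, hx1, hx2⟩ := (lam k).exists_lt_apply_of_lt_opNorm h1
        rcases le_total 0 (lam k x) with h2 | h2
        · refine ⟨x, hx1.le, ?_⟩
          rw [Real.norm_of_nonneg h2] at hx2
          exact hx2.le
        · refine ⟨-x, by rw [norm_neg]; exact hx1.le, ?_⟩
          rw [Real.norm_of_nonpos h2] at hx2
          rw [map_neg]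
          exact hx2.le
    choose z hz1 hz2 using hz
    obtain ⟨x, hxX, hxn, hxk⟩ := hX F z hz1 ε hε
    have hsplit : ∑' k, lam k (x k) = ∑ k ∈ F, lam k (x k) + ∑' k : {k // k ∉ F}, lam k (x k) :=
      ((M4_summable lam x).sum_add_tsum_compl (s := F)).symm
    have hnsplit : ∑' k, ‖lam k‖ = ∑ k ∈ F, ‖lam k‖ + ∑' k : {k // k ∉ F}, ‖lam k‖ :=
      ((M4_summable_norm lam).sum_add_tsum_compl (s := F)).symm
    have htail : |∑' k : {k // k ∉ F}, lam k (x k)| ≤ ε * (1 + ε) := by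
      have hs : Summable fun k : {k // k ∉ F} => ‖lam k‖ :=
        (M4_summable_norm lam).comp_injective Subtype.val_injective
      have h1 : ‖∑' k : {k // k ∉ F}, lam k (x k)‖ ≤ (∑' k : {k // k ∉ F}, ‖lam k‖) * ‖x‖ := by
        rw [← tsum_mul_right]
        exact tsum_of_norm_bounded (hs.mul_right _).hasSum fun k => M4_apply_le lam x k
      rw [Real.norm_eq_abs] at h1
      refine h1.trans ?_
      have h0 : 0 ≤ ∑' k : {k // k ∉ F}, ‖lam k‖ := tsum_nonneg fun _ => norm_nonneg _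
      calc (∑' k : {k // k ∉ F}, ‖lam k‖) * ‖x‖ ≤ ε * ‖x‖ :=
            mul_le_mul_of_nonneg_right hF.le (norm_nonneg _)
        _ ≤ ε * (1 + ε) := mul_le_mul_of_nonneg_left hxn hε.le
    have hFsum : ∑ k ∈ F, ‖lam k‖ ≤ ∑ k ∈ F, lam k (x k) + ε + ε * ‖lam‖ := by
      have h1 : ∀ k ∈ F, ‖lam k‖ ≤ lam k (x k) + ε / (F.card + 1) + ε * ‖lam k‖ := by
        intro k hk
        have h2 : lam k (z k) = lam k (x k) - lam k (x k - z k) := by rw [map_sub]; ring
        have h3 : |lam k (x k - z k)| ≤ ‖lam k‖ * ε := by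
          rw [← Real.norm_eq_abs]
          exact ((lam k).le_opNorm _).trans
            (mul_le_mul_of_nonneg_left (hxk k hk) (norm_nonneg _))
        have h4 := hz2 k
        have h5 := neg_abs_le (lam k (x k - z k))
        nlinarith
      calc ∑ k ∈ F, ‖lam k‖ ≤ ∑ k ∈ F, (lam k (x k) + ε / (F.card + 1) + ε * ‖lam k‖) :=
            Finset.sum_le_sum h1
        _ = ∑ k ∈ F, lam k (x k) + F.card * (ε / (F.card + 1)) + ε * ∑ k ∈ F, ‖lam k‖ := by
            rw [Finset.sum_add_distrib, Finset.sum_add_distrib, Finset.sum_const, nsmul_eq_mul,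
              Finset.mul_sum]
        _ ≤ ∑ k ∈ F, lam k (x k) + ε + ε * ‖lam‖ := by
            have h6 : (F.card : ℝ) * (ε / (F.card + 1)) ≤ ε := by
              rw [mul_div_assoc', div_le_iff₀ (by positivity)]
              nlinarith
            have h7 : ∑ k ∈ F, ‖lam k‖ ≤ ‖lam‖ := by
              rw [M4_norm_eq]
              exact (M4_summable_norm lam).sum_le_tsum F fun _ _ => norm_nonneg _
            have h8 := mul_le_mul_of_nonneg_left h7 hε.le
            linarith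
    have hact := hc x hxX
    have hle : c * ‖x‖ ≤ max c 0 * (1 + ε) :=
      (mul_le_mul_of_nonneg_right (le_max_left _ _) (norm_nonneg _)).trans
        (mul_le_mul_of_nonneg_left hxn (le_max_right _ _))
    rw [M4_norm_eq lam] at *
    rw [hnsplit]
    rw [hsplit] at hact
    have h9 := neg_abs_le (∑' k : {k // k ∉ F}, lam k (x k))
    rw [hnsplit] at hFsum
    nlinarith [hF.le, htail]
  have hmax : ‖lam‖ ≤ max c 0 := by
    have hlim : Tendsto (fun ε : ℝ => max c 0 * (1 + ε) + ε * (3 + ε + ‖lam‖)) (𝓝[>] 0)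
        (𝓝 (max c 0 * (1 + 0) + 0 * (3 + 0 + ‖lam‖))) := by
      apply Tendsto.mono_left _ nhdsWithin_le_nhds
      apply Continuous.tendsto
      fun_prop
    have h1 : ‖lam‖ ≤ max c 0 * (1 + 0) + 0 * (3 + 0 + ‖lam‖) :=
      ge_of_tendsto hlim (eventually_nhdsWithin_of_forall fun ε hε => hkey ε hε)
    simpa using h1
  rwa [max_eq_left hc0] at hmax

/-! ### interchange of sums -/

/-- the condition (W1) -/
def W1c (w : ℕ → lp Z ∞) : Prop :=
  ∀ (n : ℕ) (t : ℕ → ℝ), (∀ m, |t m| ≤ 1) → ‖∑ m ∈ Finset.range n, t m • w m‖ ≤ 1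

theorem M4_coord_sum {w : ℕ → lp Z ∞} (hW : W1c w) (k : K) (f : StrongDual ℝ (Z k)) (n : ℕ) :
    ∑ m ∈ Finset.range n, |f (w m k)| ≤ ‖f‖ := by
  classical
  set t : ℕ → ℝ := fun m => if 0 ≤ f (w m k) then 1 else -1 with ht
  have ht1 : ∀ m, |t m| ≤ 1 := by
    intro m
    simp only [ht]
    split_ifs <;> simp
  have h1 : ∑ m ∈ Finset.range n, |f (w m k)| = f ((∑ m ∈ Finset.range n, t m • w m : lp Z ∞) k) := by
    rw [lp.coeFn_sum, Finset.sum_apply, map_sum]
    refine Finset.sum_congr rfl fun m _ => ?_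
    rw [lp.coeFn_smul, Pi.smul_apply, map_smul, smul_eq_mul]
    simp only [ht]
    split_ifs with h
    · rw [abs_of_nonneg h, one_mul]
    · rw [abs_of_neg (not_le.1 h), neg_one_mul]
  rw [h1]
  calc f ((∑ m ∈ Finset.range n, t m • w m : lp Z ∞) k)
      ≤ ‖f ((∑ m ∈ Finset.range n, t m • w m : lp Z ∞) k)‖ := Real.le_norm_self _
    _ ≤ ‖f‖ * ‖(∑ m ∈ Finset.range n, t m • w m : lp Z ∞) k‖ := f.le_opNorm _
    _ ≤ ‖f‖ * 1 := by
        refine mul_le_mul_of_nonneg_left ?_ (norm_nonneg _)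
        exact (lp.norm_apply_le_norm (by simp) _ k).trans (hW n t ht1)
    _ = ‖f‖ := mul_one _

theorem M4_coord_summable {w : ℕ → lp Z ∞} (hW : W1c w) (k : K) (f : StrongDual ℝ (Z k)) :
    Summable fun m => |f (w m k)| :=
  summable_of_sum_range_le (fun _ => abs_nonneg _) (M4_coord_sum hW k f)

theorem M4_coord_tsum {w : ℕ → lp Z ∞} (hW : W1c w) (k : K) (f : StrongDual ℝ (Z k)) :
    ∑' m, |f (w m k)| ≤ ‖f‖ :=
  Real.tsum_le_of_sum_range_le (fun _ => abs_nonneg _) (M4_coord_sum hW k f)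

theorem M4_summable_prod {w : ℕ → lp Z ∞} (hW : W1c w)
    (lam : lp (fun k => StrongDual ℝ (Z k)) 1) :
    Summable fun p : K × ℕ => |lam p.1 (w p.2 p.1)| := by
  rw [summable_prod_of_nonneg fun _ => abs_nonneg _]
  refine ⟨fun k => M4_coord_summable hW k (lam k), ?_⟩
  exact Summable.of_nonneg_of_le (fun k => tsum_nonneg fun _ => abs_nonneg _)
    (fun k => M4_coord_tsum hW k (lam k)) (M4_summable_norm lam)

theorem M4_act_summable {w : ℕ → lp Z ∞} (hW : W1c w)
    (lam : lp (fun k => StrongDual ℝ (Z k)) 1) :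
    Summable fun m => |∑' k, lam k (w m k)| := by
  have h := (M4_summable_prod hW lam).prod_symm
  have h2 : Summable fun m => ∑' k, |lam k (w m k)| := by
    have := h.prod
    exact this
  refine Summable.of_nonneg_of_le (fun _ => abs_nonneg _) (fun m => ?_) h2
  have h3 : Summable fun k => |lam k (w m k)| := by
    have := (M4_summable lam (w m)).abs
    exact this
  rw [← Real.norm_eq_abs]
  exact (norm_tsum_le_tsum_norm h3)

/-- `lam` commutes with pointwise sums `∑ t_m w_m`, `|t_m| ≤ 1` -/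
theorem M4_fubini {w : ℕ → lp Z ∞} (hW : W1c w) (lam : lp (fun k => StrongDual ℝ (Z k)) 1)
    {t : ℕ → ℝ} {C : ℝ} (ht : ∀ m, |t m| ≤ C) {y : ∀ k, Z k}
    (hy : ∀ k, HasSum (fun m => t m • w m k) (y k)) :
    ∑' k, lam k (y k) = ∑' m, t m * ∑' k, lam k (w m k) := by
  have h0 : Summable fun p : K × ℕ => t p.2 * lam p.1 (w p.2 p.1) := by
    refine Summable.of_norm_bounded ((M4_summable_prod hW lam).mul_left C) fun p => ?_
    rw [norm_mul, Real.norm_eq_abs, Real.norm_eq_abs]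
    exact mul_le_mul_of_nonneg_right (ht _) (abs_nonneg _)
  have h1 : ∀ k, lam k (y k) = ∑' m, t m * lam k (w m k) := by
    intro k
    have h2 := (hy k).mapL (lam k)
    rw [← h2.tsum_eq]
    exact tsum_congr fun m => by rw [map_smul, smul_eq_mul]
  calc ∑' k, lam k (y k) = ∑' k, ∑' m, t m * lam k (w m k) := tsum_congr h1
    _ = ∑' m, ∑' k, t m * lam k (w m k) :=
        (Summable.tsum_comm (f := fun (k : K) (m : ℕ) => t m * lam k (w m k)) h0).symm
    _ = ∑' m, t m * ∑' k, lam k (w m k) := tsum_congr fun m => tsum_mul_left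

/-! ### construction of elements of the `l_1` sum -/

theorem M4_mk (f : ∀ k, StrongDual ℝ (Z k)) {C : ℝ} (h : ∀ F : Finset K, ∑ k ∈ F, ‖f k‖ ≤ C) :
    ∃ lam : lp (fun k => StrongDual ℝ (Z k)) 1, (∀ k, lam k = f k) ∧ ‖lam‖ ≤ C := by
  have hs : Summable fun k => ‖f k‖ := summable_of_sum_le (fun _ => norm_nonneg _) h
  have hm : Memℓp f 1 := by
    apply memℓp_gen
    simpa using hs
  refine ⟨⟨f, hm⟩, fun k => rfl, ?_⟩
  rw [M4_norm_eq]
  exact hs.tsum_le_of_sum_le h

theorem M4_sum_norm_le (F : Finset K) (f : ∀ k, StrongDual ℝ (Z k)) {C : ℝ}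
    (h : ∀ z : ∀ k, Z k, (∀ k, ‖z k‖ ≤ 1) → ∑ k ∈ F, f k (z k) ≤ C) : ∑ k ∈ F, ‖f k‖ ≤ C := by
  refine le_of_forall_pos_le_add fun ε hε => ?_
  have hz : ∀ k, ∃ z : Z k, ‖z‖ ≤ 1 ∧ ‖f k‖ - ε / (F.card + 1) ≤ f k z := by
    intro k
    have hpos : 0 < ε / ((F.card : ℝ) + 1) := by positivity
    by_cases h0 : ‖f k‖ - ε / (F.card + 1) ≤ 0
    · exact ⟨0, by simp, by simpa using h0⟩
    · push Not at h0
      have h1 : ‖f k‖ - ε / (F.card + 1) < ‖f k‖ := by linarith
      obtain ⟨x, hx1, hx2⟩ := (f k).exists_lt_apply_of_lt_opNorm h1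
      rcases le_total 0 (f k x) with h2 | h2
      · refine ⟨x, hx1.le, ?_⟩
        rw [Real.norm_of_nonneg h2] at hx2
        exact hx2.le
      · refine ⟨-x, by rw [norm_neg]; exact hx1.le, ?_⟩
        rw [Real.norm_of_nonpos h2] at hx2
        rw [map_neg]
        exact hx2.le
  choose z hz1 hz2 using hz
  have h1 := h z hz1
  have h2 : ∑ k ∈ F, ‖f k‖ ≤ ∑ k ∈ F, (f k (z k) + ε / (F.card + 1)) :=
    Finset.sum_le_sum fun k _ => by linarith [hz2 k]
  rw [Finset.sum_add_distrib, Finset.sum_const, nsmul_eq_mul] at h2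
  have h6 : (F.card : ℝ) * (ε / (F.card + 1)) ≤ ε := by
    rw [mul_div_assoc', div_le_iff₀ (by positivity)]
    nlinarith
  linarith

/-! ### the weak-star topology -/

/-- topology of pointwise convergence on `X` -/
@[reducible] noncomputable def M4_wst (X : Set (lp Z ∞)) : TopologicalSpace (lp (fun k => StrongDual ℝ (Z k)) 1) :=
  TopologicalSpace.induced (fun lam (x : X) => ∑' k, lam k ((x : lp Z ∞) k)) inferInstance

theorem M4_compact (X : Submodule ℝ (lp Z ∞)) {M : ℝ}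
    (hsurj : ∀ f : X →ₗ[ℝ] ℝ, (∀ x, |f x| ≤ M * ‖x‖) →
      ∃ lam : lp (fun k => StrongDual ℝ (Z k)) 1, ‖lam‖ ≤ M ∧
        ∀ x : X, f x = ∑' k, lam k ((x : lp Z ∞) k)) :
    @IsCompact _ (M4_wst (X : Set (lp Z ∞)))
      {lam : lp (fun k => StrongDual ℝ (Z k)) 1 | ‖lam‖ ≤ M} := by
  let _ : TopologicalSpace (lp (fun k => StrongDual ℝ (Z k)) 1) := M4_wst (X : Set (lp Z ∞))
  have hind : Topology.IsInducing (fun (lam : lp (fun k => StrongDual ℝ (Z k)) 1) (x : X) =>
      ∑' k, lam k ((x : lp Z ∞) k)) := ⟨rfl⟩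
  rw [hind.isCompact_iff]
  have himg : (fun (lam : lp (fun k => StrongDual ℝ (Z k)) 1) (x : X) =>
      ∑' k, lam k ((x : lp Z ∞) k)) '' {lam | ‖lam‖ ≤ M}
      = {φ : X → ℝ | ∀ x, |φ x| ≤ M * ‖x‖} ∩ {φ : X → ℝ | (∀ x y, φ (x + y) = φ x + φ y) ∧
          ∀ (c : ℝ) x, φ (c • x) = c * φ x} := by
    ext φ
    constructor
    · rintro ⟨lam, hlam, rfl⟩
      refine ⟨fun x => ?_, fun x y => ?_, fun c x => ?_⟩
      · refine (M4_act_le lam _).trans ?_
        exact mul_le_mul_of_nonneg_right hlam (norm_nonneg _)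
      · show ∑' k, lam k (((x + y : X) : lp Z ∞) k) = _
        rw [← (M4_summable lam (x : lp Z ∞)).tsum_add (M4_summable lam (y : lp Z ∞))]
        refine tsum_congr fun k => ?_
        rw [Submodule.coe_add, lp.coeFn_add, Pi.add_apply, map_add]
      · show ∑' k, lam k (((c • x : X) : lp Z ∞) k) = c * ∑' k, lam k ((x : lp Z ∞) k)
        rw [← tsum_mul_left]
        refine tsum_congr fun k => ?_
        rw [Submodule.coe_smul, lp.coeFn_smul, Pi.smul_apply, map_smul, smul_eq_mul]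
    · rintro ⟨h1, h2, h3⟩
      let f : X →ₗ[ℝ] ℝ :=
        { toFun := φ
          map_add' := h2
          map_smul' := fun c x => by rw [h3]; rfl }
      obtain ⟨lam, hlam, hf⟩ := hsurj f h1
      exact ⟨lam, hlam, funext fun x => (hf x).symm⟩
  rw [himg]
  refine IsCompact.inter_right ?_ ?_
  · have : {φ : X → ℝ | ∀ x, |φ x| ≤ M * ‖x‖}
        = Set.pi univ fun x : X => Set.Icc (-(M * ‖x‖)) (M * ‖x‖) := by
      ext φ
      constructor
      · intro h x _
        exact abs_le.1 (h x)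
      · intro h x
        exact abs_le.2 (h x (mem_univ x))
    rw [this]
    exact isCompact_univ_pi fun x => isCompact_Icc
  · have h1 : IsClosed {φ : X → ℝ | ∀ x y, φ (x + y) = φ x + φ y} := by
      simp only [Set.ofPred_forall]
      refine isClosed_iInter fun x => isClosed_iInter fun y => ?_
      exact isClosed_eq (continuous_apply (x + y))
        ((continuous_apply (A := fun _ : X => ℝ) x).add (continuous_apply (A := fun _ : X => ℝ) y))
    have h2 : IsClosed {φ : X → ℝ | ∀ (c : ℝ) x, φ (c • x) = c * φ x} := by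
      simp only [Set.ofPred_forall]
      refine isClosed_iInter fun x => isClosed_iInter fun y => ?_
      exact isClosed_eq (continuous_apply _) (continuous_const.mul (continuous_apply _))
    exact h1.inter h2

end abs

end Pool.Agent.Dia
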