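import Pool.Agent.Work.MP_89a7db_an.Dia.Amb
import Pool.Agent.Work.MP_89a7db_an.Dia.DualAbs

/-!
# Cell DIAM, module M4: the dual of `X`

Every functional on `X` is given by a unique element of `Lam`, with the same norm.
-/

set_option autoImplicit false
set_option linter.unusedSectionVars false

namespace Pool.Agent.DIAM

open Set Filter Topology Pool.Agent.Dia
open scoped ENNReal

noncomputable section

variable {W : Type} [LinearOrder W]
variable {Z : W × ℕ → Type} [∀ k, NormedAddCommGroup (Z k)] [∀ k, NormedSpace ℝ (Z k)]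

theorem pair_sg (l : Lam Z) (k : W × ℕ) (z : Z k) : pair l (sg k z) = l k z := by
  rw [pair_apply, tsum_eq_single k]
  · rw [sg_self]
  · intro j hj
    rw [sg_ne k z hj, map_zero]

theorem pair_le (l : Lam Z) (x : L Z) : |pair l x| ≤ ‖l‖ * ‖x‖ := norm_pair_le l x

theorem Datum.W1c {a : W} (d : Datum Z a) : W1c d.w := d.w1

variable [∀ k, CompleteSpace (Z k)]

/-- `lam` commutes with `T_a`. -/
theorem pair_T {a : W} (d : Datum Z a) (l : Lam Z) (x : L Z) :
    pair l (d.T x) = ∑' m, d.th m x * pair l (d.w m) := by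
  have h := M4_fubini d.W1c l (t := fun m => d.th m x) (C := ‖x‖)
    (fun m => (d.abs_th_le m x).trans (norm_coord_le x _)) (y := fun k => d.T x k)
    (fun k => by
      rw [d.T_apply]
      exact ((d.summable x k).of_norm).hasSum)
  exact h

theorem summable_pair_w {a : W} (d : Datum Z a) (l : Lam Z) : Summable fun m => |pair l (d.w m)| :=
  M4_act_summable d.W1c l

variable (D : ∀ a, Datum Z a)

variable {D}

theorem w_mem (h0 : ∀ a, CW0 D a (D a)) {a b : W} (h : a ≤ b) (m : ℕ) : (D a).w m ∈ XS D b :=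
  XS_mono D h (h0 a m)

variable (D) in
/-- The interpolation property (a consequence of 1.4). -/
def Interp0 : Prop :=
  ∀ (F : Finset (W × ℕ)) (z : ∀ k, Z k), (∀ k, ‖z k‖ ≤ 1) → ∀ ε > 0, ∀ n0 : ℕ,
    ∃ n : W × ℕ → ℕ, (∀ k, n0 ≤ n k) ∧ ‖∑ k ∈ F, Jn D k (n k) (z k)‖ ≤ 1 + ε ∧
      ∀ k ∈ F, ‖(∑ j ∈ F, Jn D j (n j) (z j) : L Z) k - z k‖ ≤ ε

variable [NoMaxOrder W]

theorem Jn_mem_XX (h0 : ∀ a, CW0 D a (D a)) (k : W × ℕ) (n : ℕ) (z : Z k) :
    Jn D k n z ∈ XX D := by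
  obtain ⟨a, ha⟩ := exists_gt k.1
  exact XS_le_XX D a (Jn_mem (h0 _) ha n z)

theorem J_mem_XX (k : W × ℕ) (z : Z k) : J D k z ∈ XX D := by
  obtain ⟨a, ha⟩ := exists_gt k.1
  exact XS_le_XX D a (J_mem D ha z)

theorem w_mem_XX (h0 : ∀ a, CW0 D a (D a)) (a : W) (m : ℕ) : (D a).w m ∈ XX D :=
  XS_le_XX D a (h0 a m)

/-- 1.5, first half: the norm of `lam` as a functional on `X`. -/
theorem norm_le_of_pair (h0 : ∀ a, CW0 D a (D a)) (hI : Interp0 D) (l : Lam Z) {c : ℝ}
    (hc0 : 0 ≤ c) (hc : ∀ x ∈ XX D, pair l x ≤ c * ‖x‖) : ‖l‖ ≤ c := by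
  refine M4_lower (XX D : Set (L Z)) (fun F z hz ε hε => ?_) l hc0 hc
  obtain ⟨n, _, hn, hk⟩ := hI F z hz ε hε 0
  exact ⟨∑ k ∈ F, Jn D k (n k) (z k), (XX D).sum_mem fun k _ => Jn_mem_XX h0 k _ _, hn, hk⟩

/-- `lam` is determined by its values on `X`. -/
theorem pair_injective (h0 : ∀ a, CW0 D a (D a)) (hI : Interp0 D) {l l' : Lam Z}
    (h : ∀ x ∈ XX D, pair l x = pair l' x) : l = l' := by
  have h1 : ‖l - l'‖ ≤ 0 := norm_le_of_pair h0 hI (l - l') le_rfl fun x hx => by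
    rw [map_sub]
    show pair l x - pair l' x ≤ _
    rw [h x hx]
    simp
  exact sub_eq_zero.1 (norm_le_zero_iff.1 h1)

section rep

variable (h0 : ∀ a, CW0 D a (D a)) (f : StrongDual ℝ (XX D))

/-- value of `f` at `w_m` -/
def fw (a : W) (m : ℕ) : ℝ := f ⟨(D a).w m, w_mem_XX h0 a m⟩

theorem fw_sum_le (a : W) (n : ℕ) : ∑ m ∈ Finset.range n, |fw h0 f a m| ≤ ‖f‖ := by
  classical
  set t : ℕ → ℝ := fun m => if 0 ≤ fw h0 f a m then 1 else -1 with ht
  have ht1 : ∀ m, |t m| ≤ 1 := by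
    intro m
    simp only [ht]
    split_ifs <;> simp
  have h1 : ∑ m ∈ Finset.range n, |fw h0 f a m|
      = f (∑ m ∈ Finset.range n, t m • (⟨(D a).w m, w_mem_XX h0 a m⟩ : XX D)) := by
    rw [map_sum]
    refine Finset.sum_congr rfl fun m _ => ?_
    rw [map_smul, smul_eq_mul]
    show |fw h0 f a m| = t m * fw h0 f a m
    simp only [ht]
    split_ifs with h
    · rw [abs_of_nonneg h, one_mul]
    · rw [abs_of_neg (not_le.1 h), neg_one_mul]
  rw [h1]
  have h2 : ‖(∑ m ∈ Finset.range n, t m • (⟨(D a).w m, w_mem_XX h0 a m⟩ : XX D))‖ ≤ 1 := by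
    have h3 := (D a).w1 n t ht1
    have h4 : ((∑ m ∈ Finset.range n, t m • (⟨(D a).w m, w_mem_XX h0 a m⟩ : XX D) : XX D) : L Z)
        = ∑ m ∈ Finset.range n, t m • (D a).w m := by
      rw [Submodule.coe_sum]
      rfl
    rw [← h4] at h3
    exact h3
  calc f _ ≤ ‖f _‖ := Real.le_norm_self _
    _ ≤ ‖f‖ * 1 := f.le_of_opNorm_le_of_le le_rfl h2
    _ = ‖f‖ := mul_one _

theorem fw_summable (a : W) : Summable fun m => |fw h0 f a m| :=
  summable_of_sum_range_le (fun _ => abs_nonneg _) (fw_sum_le h0 f a)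

theorem fw_tsum_le (a : W) : ∑' m, |fw h0 f a m| ≤ ‖f‖ :=
  Real.tsum_le_of_sum_range_le (fun _ => abs_nonneg _) (fw_sum_le h0 f a)

theorem abs_th_sg_le {a : W} (d : Datum Z a) (m : ℕ) (k : W × ℕ) (z : Z k) :
    |d.th m (sg k z)| ≤ ‖z‖ := by
  refine (d.abs_th_le m _).trans ?_
  by_cases h : (a, d.i m) = k
  · subst h; rw [sg_self]
  · rw [sg_ne k z h]; simp

theorem thfw_summable (k : W × ℕ) (z : Z k) :
    Summable fun m => (D k.1).th m (sg k z) * fw h0 f k.1 m := by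
  refine Summable.of_norm_bounded ((fw_summable h0 f k.1).mul_left ‖z‖) fun m => ?_
  rw [norm_mul]
  exact mul_le_mul_of_nonneg_right (abs_th_sg_le _ m k z) (norm_nonneg _)

theorem thfw_tsum_le (k : W × ℕ) (z : Z k) :
    |∑' m, (D k.1).th m (sg k z) * fw h0 f k.1 m| ≤ ‖z‖ * ‖f‖ := by
  have h1 : ‖∑' m, (D k.1).th m (sg k z) * fw h0 f k.1 m‖ ≤ ‖z‖ * ∑' m, |fw h0 f k.1 m| := by
    rw [← tsum_mul_left]
    refine tsum_of_norm_bounded ((fw_summable h0 f k.1).mul_left _).hasSum fun m => ?_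
    rw [norm_mul]
    exact mul_le_mul_of_nonneg_right (abs_th_sg_le _ m k z) (norm_nonneg _)
  exact h1.trans (mul_le_mul_of_nonneg_left (fw_tsum_le h0 f k.1) (norm_nonneg _))

/-- the coordinate functional -/
def coordF (k : W × ℕ) : StrongDual ℝ (Z k) :=
  LinearMap.mkContinuous
    { toFun := fun z => f ⟨J D k z, J_mem_XX k z⟩
        - ∑' m, (D k.1).th m (sg k z) * fw h0 f k.1 m
      map_add' := fun x y => by
        have h1 : (⟨J D k (x + y), J_mem_XX k (x + y)⟩ : XX D)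
            = ⟨J D k x, J_mem_XX k x⟩ + ⟨J D k y, J_mem_XX k y⟩ := by
          apply Subtype.ext
          exact map_add (J D k) x y
        rw [h1, map_add]
        have h2 : ∑' m, (D k.1).th m (sg k (x + y)) * fw h0 f k.1 m
            = ∑' m, (D k.1).th m (sg k x) * fw h0 f k.1 m
              + ∑' m, (D k.1).th m (sg k y) * fw h0 f k.1 m := by
          rw [← (thfw_summable h0 f k x).tsum_add (thfw_summable h0 f k y)]
          exact tsum_congr fun m => by rw [map_add, map_add, add_mul]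
        rw [h2]
        ring
      map_smul' := fun c x => by
        have h1 : (⟨J D k (c • x), J_mem_XX k (c • x)⟩ : XX D)
            = c • ⟨J D k x, J_mem_XX k x⟩ := by
          apply Subtype.ext
          exact map_smul (J D k) c x
        rw [h1, map_smul]
        have h2 : ∑' m, (D k.1).th m (sg k (c • x)) * fw h0 f k.1 m
            = c * ∑' m, (D k.1).th m (sg k x) * fw h0 f k.1 m := by
          rw [← tsum_mul_left]
          exact tsum_congr fun m => by rw [map_smul, map_smul, smul_eq_mul, mul_assoc]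
        rw [h2]
        simp only [smul_eq_mul, RingHom.id_apply]
        ring } (‖f‖ * ‖J D k‖ + ‖f‖)
    (fun z => by
      show ‖f ⟨J D k z, J_mem_XX k z⟩ - ∑' m, (D k.1).th m (sg k z) * fw h0 f k.1 m‖ ≤ _
      refine (norm_sub_le _ _).trans ?_
      rw [add_mul]
      refine add_le_add ?_ ?_
      · rw [mul_assoc]
        refine f.le_of_opNorm_le_of_le le_rfl ?_
        exact (J D k).le_opNorm z
      · rw [mul_comm ‖f‖]
        exact thfw_tsum_le h0 f k z)

theorem coordF_apply (k : W × ℕ) (z : Z k) :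
    coordF h0 f k z = f ⟨J D k z, J_mem_XX k z⟩
      - ∑' m, (D k.1).th m (sg k z) * fw h0 f k.1 m := rfl

theorem coordF_Jn (k : W × ℕ) (n : ℕ) (z : Z k) :
    f ⟨Jn D k n z, Jn_mem_XX h0 k n z⟩ = coordF h0 f k z
      + ∑' m, (D k.1).th (m + n) (sg k z) * fw h0 f k.1 (m + n) := by
  have h1 : (⟨Jn D k n z, Jn_mem_XX h0 k n z⟩ : XX D) = ⟨J D k z, J_mem_XX k z⟩
      - ∑ m ∈ Finset.range n, (D k.1).th m (sg k z) • ⟨(D k.1).w m, w_mem_XX h0 k.1 m⟩ := by
    apply Subtype.ext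
    rw [Submodule.coe_sub, Submodule.coe_sum]
    rfl
  rw [h1, map_sub, map_sum, coordF_apply]
  have h2 := (thfw_summable h0 f k z).sum_add_tsum_nat_add n
  have h3 : ∑ m ∈ Finset.range n, f ((D k.1).th m (sg k z) • ⟨(D k.1).w m, w_mem_XX h0 k.1 m⟩)
      = ∑ m ∈ Finset.range n, (D k.1).th m (sg k z) * fw h0 f k.1 m :=
    Finset.sum_congr rfl fun m _ => by rw [map_smul]; rfl
  rw [h3, ← h2]
  ring

include h0 in
theorem coordF_sum_le (hI : Interp0 D) (F : Finset (W × ℕ)) :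
    ∑ k ∈ F, ‖coordF h0 f k‖ ≤ ‖f‖ := by
  refine M4_sum_norm_le F _ fun z hz => ?_
  refine le_of_forall_pos_le_add fun ε hε => ?_
  -- choose a small tolerance
  set δ : ℝ := ε / (‖f‖ + 1 + F.card) with hδ
  have hden : 0 < ‖f‖ + 1 + (F.card : ℝ) := by positivity
  have hδ0 : 0 < δ := div_pos hε hden
  have htail : ∀ k ∈ F, ∃ n0 : ℕ, ∀ n ≥ n0, ∑' m, |fw h0 f k.1 (m + n)| < δ := by
    intro k _
    have h1 := tendsto_sum_nat_add fun m => |fw h0 f k.1 m|
    obtain ⟨n0, hn0⟩ := (eventually_atTop.1 (h1.eventually (gt_mem_nhds hδ0)))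
    exact ⟨n0, fun n hn => hn0 n hn⟩
  have hn0 : ∃ n0 : ℕ, ∀ k ∈ F, ∀ n ≥ n0, ∑' m, |fw h0 f k.1 (m + n)| < δ := by
    classical
    choose! g hg using htail
    refine ⟨F.sup g, fun k hk n hn => hg k hk n ((Finset.le_sup (f := g) hk).trans hn)⟩
  obtain ⟨n0, hn0⟩ := hn0
  obtain ⟨n, hn, hnorm, _⟩ := hI F z hz δ hδ0 n0
  have h1 : f (∑ k ∈ F, (⟨Jn D k (n k) (z k), Jn_mem_XX h0 k _ _⟩ : XX D))
      = ∑ k ∈ F, (coordF h0 f k (z k)
        + ∑' m, (D k.1).th (m + n k) (sg k (z k)) * fw h0 f k.1 (m + n k)) := by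
    rw [map_sum]
    exact Finset.sum_congr rfl fun k _ => coordF_Jn h0 f k (n k) (z k)
  have h2 : f (∑ k ∈ F, (⟨Jn D k (n k) (z k), Jn_mem_XX h0 k _ _⟩ : XX D)) ≤ ‖f‖ * (1 + δ) := by
    refine (Real.le_norm_self _).trans (f.le_of_opNorm_le_of_le le_rfl ?_)
    have h4 : ((∑ k ∈ F, (⟨Jn D k (n k) (z k), Jn_mem_XX h0 k _ _⟩ : XX D) : XX D) : L Z)
        = ∑ k ∈ F, Jn D k (n k) (z k) := by
      rw [Submodule.coe_sum]
    rw [← h4] at hnorm
    exact hnorm
  have h3 : ∀ k ∈ F, -δ ≤ ∑' m, (D k.1).th (m + n k) (sg k (z k)) * fw h0 f k.1 (m + n k) := by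
    intro k hk
    have h5 : ‖∑' m, (D k.1).th (m + n k) (sg k (z k)) * fw h0 f k.1 (m + n k)‖
        ≤ ∑' m, |fw h0 f k.1 (m + n k)| := by
      refine tsum_of_norm_bounded ((summable_nat_add_iff (n k)).2
        (fw_summable h0 f k.1)).hasSum fun m => ?_
      rw [norm_mul]
      calc _ ≤ 1 * ‖fw h0 f k.1 (m + n k)‖ := mul_le_mul_of_nonneg_right
            ((abs_th_sg_le _ _ k (z k)).trans (hz k)) (norm_nonneg _)
        _ = |fw h0 f k.1 (m + n k)| := by rw [one_mul]; rfl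
    have h6 := hn0 k hk (n k) (hn k)
    rw [Real.norm_eq_abs] at h5
    have h7 := neg_abs_le (∑' m, (D k.1).th (m + n k) (sg k (z k)) * fw h0 f k.1 (m + n k))
    linarith
  have h8 : ∑ k ∈ F, coordF h0 f k (z k) ≤ ‖f‖ * (1 + δ) + F.card * δ := by
    have h9 : ∑ k ∈ F, coordF h0 f k (z k) + ∑ k ∈ F, (-δ) ≤ ‖f‖ * (1 + δ) := by
      rw [← Finset.sum_add_distrib]
      calc ∑ k ∈ F, (coordF h0 f k (z k) + -δ)
          ≤ ∑ k ∈ F, (coordF h0 f k (z k)
              + ∑' m, (D k.1).th (m + n k) (sg k (z k)) * fw h0 f k.1 (m + n k)) :=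
            Finset.sum_le_sum fun k hk => by linarith [h3 k hk]
        _ = _ := h1.symm
        _ ≤ _ := h2
    rw [Finset.sum_const, nsmul_eq_mul] at h9
    linarith
  refine h8.trans ?_
  have h10 : δ * (‖f‖ + 1 + F.card) = ε := by
    rw [hδ]
    exact div_mul_cancel₀ _ hden.ne'
  nlinarith

end rep

/-- 1.5, second half: every functional on `X` is given by an element of `Lam` of the same norm. -/
theorem exists_rep [WellFoundedLT W] (h0 : ∀ a, CW0 D a (D a)) (hI : Interp0 D)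
    (f : StrongDual ℝ (XX D)) :
    ∃ l : Lam Z, ‖l‖ ≤ ‖f‖ ∧ ∀ x : XX D, pair l (x : L Z) = f x := by
  obtain ⟨l, hl, hln⟩ := M4_mk (fun k => coordF h0 f k) (coordF_sum_le h0 f hI)
  refine ⟨l, hln, ?_⟩
  -- the difference
  set g : StrongDual ℝ (XX D) := f - (pair l).comp (XX D).subtypeL with hg
  have key : ∀ a : W, ∀ x : L Z, ∀ hx : x ∈ XS D a, g ⟨x, XS_le_XX D a hx⟩ = 0 := by
    intro a
    induction a using WellFoundedLT.induction with
    | ind a ih =>
      -- the restriction of `g` to `X_a`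
      let ga : StrongDual ℝ (XS D a) := g.comp
        ((XS D a).subtypeL.codRestrict (XX D) fun x => XS_le_XX D a x.2)
      have hga : ∀ x (hx : x ∈ XS D a), ga ⟨x, hx⟩ = g ⟨x, XS_le_XX D a hx⟩ := fun x hx => rfl
      let S : Submodule ℝ (L Z) := Submodule.map (XS D a).subtype
        (LinearMap.ker (ga : XS D a →ₗ[ℝ] ℝ))
      have hScl : IsClosed (S : Set (L Z)) := by
        have h1 : IsClosed (XS D a : Set (L Z)) := Submodule.isClosed_topologicalClosure _
        have h2 : IsClosed ((LinearMap.ker (ga : XS D a →ₗ[ℝ] ℝ) : Submodule ℝ (XS D a)) :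
            Set (XS D a)) := ga.isClosed_ker
        have h3 := h1.isClosedMap_subtype_val _ h2
        have h4 : (S : Set (L Z)) = Subtype.val ''
            ((LinearMap.ker (ga : XS D a →ₗ[ℝ] ℝ) : Submodule ℝ (XS D a)) : Set (XS D a)) := by
          ext x; simp [S]
        rw [h4]
        exact h3
      have hgen : Submodule.span ℝ {x | ∃ k : W × ℕ, k.1 < a ∧ ∃ z : Z k, x = J D k z} ≤ S := by
        rw [Submodule.span_le]
        rintro x ⟨k, hk, z, rfl⟩
        refine ⟨⟨J D k z, J_mem D hk z⟩, ?_, rfl⟩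
        show ga ⟨J D k z, J_mem D hk z⟩ = 0
        rw [hga]
        show f ⟨J D k z, _⟩ - pair l (J D k z) = 0
        have e1 : pair l (J D k z) = l k z + ∑' m, (D k.1).th m (sg k z) * pair l ((D k.1).w m) := by
          show pair l (sg k z + (D k.1).T (sg k z)) = _
          rw [map_add, pair_sg, pair_T]
        have e2 : ∀ m, pair l ((D k.1).w m) = fw h0 f k.1 m := by
          intro m
          have h5 := ih k.1 hk ((D k.1).w m) (h0 k.1 m)
          have h6 : f ⟨(D k.1).w m, XS_le_XX D k.1 (h0 k.1 m)⟩ - pair l ((D k.1).w m) = 0 := h5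
          have h7 : fw h0 f k.1 m = f ⟨(D k.1).w m, XS_le_XX D k.1 (h0 k.1 m)⟩ := rfl
          rw [h7]
          linarith
        rw [e1, hl k, coordF_apply]
        simp only [e2]
        ring
      have hle : XS D a ≤ S := Submodule.topologicalClosure_minimal _ hgen hScl
      intro x hx
      obtain ⟨y, hy, hyx⟩ := hle hx
      have h8 : y = ⟨x, hx⟩ := Subtype.ext hyx
      subst h8
      exact hy
  intro x
  obtain ⟨x, hx⟩ := x
  have hgx : g ⟨x, hx⟩ = 0 := by
    rcases hx with ⟨a, ha⟩ | hx0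
    · exact key a x ha
    · subst hx0
      exact map_zero g
  have h9 : f ⟨x, hx⟩ - pair l x = 0 := hgx
  show pair l x = f ⟨x, hx⟩
  linarith

end

end Pool.Agent.DIAM
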