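import Pool.Agent.Work.MP_89a7db_an.Renorm
import Pool.Agent.Work.MP_89a7db_an.Dia.Absorb

/-!
Abstract end of the proof: splitting, absorption and the bound of the Banach-Mazur diameter.
-/

open Filter Topology
open scoped ENNReal

noncomputable section

namespace BMAbs

open BMD

universe u v w

section Iso

variable {Y : Type*} [NormedAddCommGroup Y] [NormedSpace ℝ Y]
  {V : Type*} [NormedAddCommGroup V] [NormedSpace ℝ V]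
  {W : Type*} [NormedAddCommGroup W] [NormedSpace ℝ W]

/-- `Y` and `W` are isomorphic with constants `a` and `b`. -/
def Near (a b : ℝ) (Y : Type*) [NormedAddCommGroup Y] [NormedSpace ℝ Y] (W : Type*)
    [NormedAddCommGroup W] [NormedSpace ℝ W] : Prop :=
  ∃ T : Y ≃L[ℝ] W, (∀ y, ‖T y‖ ≤ a * ‖y‖) ∧ ∀ w, ‖T.symm w‖ ≤ b * ‖w‖

theorem Near.symm {a b : ℝ} (h : Near a b Y W) : Near b a W Y := by
  obtain ⟨T, h1, h2⟩ := h
  exact ⟨T.symm, h2, fun y => by simpa using h1 y⟩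

theorem Near.trans {a b a' b' : ℝ} (ha' : 0 ≤ a') (hb : 0 ≤ b) (h : Near a b Y V)
    (h' : Near a' b' V W) : Near (a' * a) (b * b') Y W := by
  obtain ⟨T, h1, h2⟩ := h
  obtain ⟨T', h1', h2'⟩ := h'
  refine ⟨T.trans T', fun y => ?_, fun w => ?_⟩
  · show ‖T' (T y)‖ ≤ _
    calc ‖T' (T y)‖ ≤ a' * ‖T y‖ := h1' _
      _ ≤ a' * (a * ‖y‖) := mul_le_mul_of_nonneg_left (h1 y) ha'
      _ = _ := by ring
  · show ‖T.symm (T'.symm w)‖ ≤ _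
    calc ‖T.symm (T'.symm w)‖ ≤ b * ‖T'.symm w‖ := h2 _
      _ ≤ b * (b' * ‖w‖) := mul_le_mul_of_nonneg_left (h2' w) hb
      _ = _ := by ring

theorem Near.norm_mul_le {a b : ℝ} (ha : 0 ≤ a) (hb : 0 ≤ b) (h : Near a b Y W) :
    ∃ T : Y ≃L[ℝ] W, ‖(T : Y →L[ℝ] W)‖ * ‖(T.symm : W →L[ℝ] Y)‖ ≤ a * b := by
  obtain ⟨T, h1, h2⟩ := h
  refine ⟨T, mul_le_mul ?_ ?_ (norm_nonneg _) ha⟩
  · exact ContinuousLinearMap.opNorm_le_bound _ ha h1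
  · exact ContinuousLinearMap.opNorm_le_bound _ hb h2

/-- A space split by operators `p`, `q` with sections `i`, `k` is isomorphic to the product. -/
theorem near_prod (p : Y →ₗ[ℝ] V) (q : Y →ₗ[ℝ] W) (i : V →ₗ[ℝ] Y) (k : W →ₗ[ℝ] Y)
    (h : ∀ y, i (p y) + k (q y) = y) (hpi : ∀ v, p (i v) = v) (hqi : ∀ v, q (i v) = 0)
    (hpk : ∀ w, p (k w) = 0) (hqk : ∀ w, q (k w) = w) {a b : ℝ} (hp : ∀ y, ‖p y‖ ≤ a * ‖y‖)
    (hq : ∀ y, ‖q y‖ ≤ a * ‖y‖) (hb : ∀ v w, ‖i v + k w‖ ≤ b * max ‖v‖ ‖w‖) :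
    Near a b Y (V × W) := by
  let f : Y →ₗ[ℝ] (V × W) := p.prod q
  let g : (V × W) →ₗ[ℝ] Y := i.coprod k
  have hfg : ∀ x, f (g x) = x := by
    intro x
    refine Prod.ext ?_ ?_
    · show p (i x.1 + k x.2) = x.1
      rw [map_add, hpi, hpk, add_zero]
    · show q (i x.1 + k x.2) = x.2
      rw [map_add, hqi, hqk, zero_add]
  have hgf : ∀ y, g (f y) = y := h
  let e : Y ≃ₗ[ℝ] (V × W) :=
    LinearEquiv.ofLinearMap f g (LinearMap.ext hfg) (LinearMap.ext hgf)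
  have h1 : ∀ y, ‖f y‖ ≤ a * ‖y‖ := fun y => max_le (hp y) (hq y)
  have h2 : ∀ x, ‖g x‖ ≤ b * ‖x‖ := fun x => hb x.1 x.2
  exact ⟨e.toContinuousLinearEquivOfBounds a b h1 h2, h1, h2⟩

/-- Isometric replacement of the second factor. -/
theorem near_of_prod {Z : Type*} [NormedAddCommGroup Z] [NormedSpace ℝ Z] {a b : ℝ}
    (hb : 0 ≤ b) (h : Near a b Y (V × W)) (e : Z ≃ₗᵢ[ℝ] cz V) (j : Z →L[ℝ] W)
    (π : W →L[ℝ] Z) (hj : ∀ z, ‖j z‖ ≤ ‖z‖) (hπ : ∀ w, ‖π w‖ ≤ ‖w‖) (hπj : ∀ z, π (j z) = z) :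
    Near (3 * a) (b * 3) Y W := by
  obtain ⟨T, h1, h2⟩ := absorb_cz e j π hj hπ hπj
  exact Near.trans (by norm_num) hb h ⟨T, h1, h2⟩

end Iso

/-- If every Banach space isomorphic to `X` is `c`-isomorphic to `X` then `D(X) ≤ c²`. -/
theorem bmDiam_le_of_radius (X : Type u) [NormedAddCommGroup X] [NormedSpace ℝ X] {c : ℝ}
    (hc : 0 ≤ c) (h : RadiusLE X c) : bmDiam X ≤ ENNReal.ofReal (c ^ 2) := by
  unfold bmDiam
  refine iSup_le fun Y => iSup_le fun _ => iSup_le fun _ => iSup_le fun _ => iSup_le fun hY =>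
    iSup_le fun Z => iSup_le fun _ => iSup_le fun _ => iSup_le fun _ => iSup_le fun hZ => ?_
  obtain ⟨S, hS⟩ := h Y hY
  obtain ⟨T, hT⟩ := h Z hZ
  refine ENNReal.ofReal_le_ofReal ?_
  have hbd : BddBelow {c : ℝ | ∃ R : Y ≃L[ℝ] Z,
      c = ‖(R : Y →L[ℝ] Z)‖ * ‖(R.symm : Z →L[ℝ] Y)‖} := ⟨0, by
    rintro _ ⟨R, rfl⟩
    positivity⟩
  refine (csInf_le hbd ⟨S.symm.trans T, rfl⟩).trans ?_
  have e1 : ‖((S.symm.trans T : Y ≃L[ℝ] Z) : Y →L[ℝ] Z)‖ ≤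
      ‖(T : X →L[ℝ] Z)‖ * ‖(S.symm : Y →L[ℝ] X)‖ :=
    ContinuousLinearMap.opNorm_comp_le (T : X →L[ℝ] Z) (S.symm : Y →L[ℝ] X)
  have e2 : ‖((S.symm.trans T).symm : Z →L[ℝ] Y)‖ ≤
      ‖(S : X →L[ℝ] Y)‖ * ‖(T.symm : Z →L[ℝ] X)‖ :=
    ContinuousLinearMap.opNorm_comp_le (S : X →L[ℝ] Y) (T.symm : Z →L[ℝ] X)
  have n1 := norm_nonneg (T : X →L[ℝ] Z)
  have n2 := norm_nonneg (T.symm : Z →L[ℝ] X)
  have n3 := norm_nonneg (S : X →L[ℝ] Y)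
  have n4 := norm_nonneg (S.symm : Y →L[ℝ] X)
  calc ‖((S.symm.trans T : Y ≃L[ℝ] Z) : Y →L[ℝ] Z)‖ * ‖((S.symm.trans T).symm : Z →L[ℝ] Y)‖
      ≤ (‖(T : X →L[ℝ] Z)‖ * ‖(S.symm : Y →L[ℝ] X)‖) *
        (‖(S : X →L[ℝ] Y)‖ * ‖(T.symm : Z →L[ℝ] X)‖) :=
        mul_le_mul e1 e2 (norm_nonneg _) (by positivity)
    _ = (‖(S : X →L[ℝ] Y)‖ * ‖(S.symm : Y →L[ℝ] X)‖) *
        (‖(T : X →L[ℝ] Z)‖ * ‖(T.symm : Z →L[ℝ] X)‖) := by ring
    _ ≤ c * c := mul_le_mul hS hT (by positivity) hc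
    _ = c ^ 2 := (sq c).symm

/-- Final form: if for every Banach space `Y` isomorphic to `X` there is a normed space `W` such
that `X` and `Y` are both isomorphic to `W` with constants `a`, `b`, then `D(X) ≤ (a b)⁴`. -/
theorem bmDiam_le_of_common (X : Type u) [NormedAddCommGroup X] [NormedSpace ℝ X] {a b : ℝ}
    (ha : 0 ≤ a) (hb : 0 ≤ b)
    (h : ∀ (Y : Type u) [NormedAddCommGroup Y] [NormedSpace ℝ Y] [CompleteSpace Y],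
      Nonempty (X ≃L[ℝ] Y) → ∃ (W : Type u) (_ : NormedAddCommGroup W) (_ : NormedSpace ℝ W),
        Near a b X W ∧ Near a b Y W) :
    bmDiam X ≤ ENNReal.ofReal (((a * b) ^ 2) ^ 2) := by
  refine bmDiam_le_of_radius X (by positivity) ?_
  intro Y _ _ _ hY
  obtain ⟨W, _, _, h1, h2⟩ := h Y hY
  obtain ⟨T, hT⟩ := (Near.trans hb hb h1 h2.symm).norm_mul_le (by positivity) (by positivity)
  refine ⟨T, hT.trans (le_of_eq ?_)⟩
  ring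

end BMAbs

end
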