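import Pool.Agent.Work.MP_89a7db_an.Dia.FrameInst
import Pool.Agent.Work.MP_89a7db_an.Dia.EndAbs

/-!
MP_89a7db_an, the end of the proof (5.1, 5.2) on the space `XX D`: if the datum at `g` is light for
a norm `N` on `X`, then `(X, N)` is isomorphic, with constants `15` and `15`, to the space
`ker P_g`, which does not depend on `N`.
-/

set_option autoImplicit false
set_option linter.unusedSectionVars false

namespace Pool.Agent.DIAM

open Set Filter Topology Pool.Agent.Dia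
open scoped ENNReal

noncomputable section

variable {W : Type} [LinearOrder W]
variable {Z : W × ℕ → Type} [∀ k, NormedAddCommGroup (Z k)] [∀ k, NormedSpace ℝ (Z k)]
  [∀ k, CompleteSpace (Z k)]

section est

variable {D : ∀ a, Datum Z a}

/-- `lam` commutes with `A_a`. -/
theorem pair_A {a : W} (d : Datum Z a) (l : Lam Z) (x : L Z) :
    pair l (d.A x) = pair (res (geS a) l) x + ∑' m, d.th m x * pair l (d.w m) := by
  rw [d.A_apply, map_add, pair_T, pair_res]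

/-- The estimate of a functional on `A_g x`. -/
theorem abs_pair_A_le {g : W} (d : Datum Z g) (l : Lam Z) (x : L Z) {q : ℝ}
    (hq : ∀ n, ∑ m ∈ Finset.range n, |pair l (d.w m)| ≤ q) :
    |pair l (d.A x)| ≤ (q + ‖res (geS g) l‖) * ‖cut (geS g) x‖ := by
  rw [pair_A]
  have h1 : |pair (res (geS g) l) x| ≤ ‖res (geS g) l‖ * ‖cut (geS g) x‖ := pair_res_le _ _ _
  have hs := summable_pair_w d l
  have h2 : ∑' m, |pair l (d.w m)| ≤ q := Real.tsum_le_of_sum_range_le (fun _ => abs_nonneg _) hq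
  have h3 : ∀ m, ‖d.th m x * pair l (d.w m)‖ ≤ ‖cut (geS g) x‖ * |pair l (d.w m)| := by
    intro m
    rw [norm_mul, Real.norm_eq_abs, Real.norm_eq_abs]
    refine mul_le_mul_of_nonneg_right ?_ (abs_nonneg _)
    exact (d.abs_th_le m x).trans
      (norm_coord_le_cut (S := geS g) (k := (g, d.i m)) (le_refl g) x)
  have h4 : ‖∑' m, d.th m x * pair l (d.w m)‖ ≤ ‖cut (geS g) x‖ * ∑' m, |pair l (d.w m)| := by
    rw [← tsum_mul_left]
    exact tsum_of_norm_bounded (hs.mul_left _).hasSum h3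
  have h5 : ‖cut (geS g) x‖ * ∑' m, |pair l (d.w m)| ≤ ‖cut (geS g) x‖ * q :=
    mul_le_mul_of_nonneg_left h2 (norm_nonneg _)
  rw [Real.norm_eq_abs] at h4
  refine (abs_add_le _ _).trans ?_
  linarith

/-- If the datum is light for a norming sequence of `N`, then every functional below `N` is
light. -/
theorem light_of_norming {g : W} (d : Datum Z g) {Ds : ℕ → Lam Z} {q : ℝ} (hL : Light Ds q d)
    (hw : ∀ m, d.w m ∈ XX D) (l : Lam Z)
    (hl : ∀ x ∈ XX D, ∀ r, (∀ j, |pair (Ds j) x| ≤ r) → |pair l x| ≤ r) (n : ℕ) :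
    ∑ m ∈ Finset.range n, |pair l (d.w m)| ≤ q := by
  classical
  set t : ℕ → ℝ := fun m => if 0 ≤ pair l (d.w m) then 1 else -1 with ht
  have ht1 : ∀ m, |t m| = 1 := by
    intro m
    simp only [ht]
    split_ifs <;> simp
  have h1 : ∑ m ∈ Finset.range n, |pair l (d.w m)| =
      pair l (∑ m ∈ Finset.range n, t m • d.w m) := by
    rw [map_sum]
    refine Finset.sum_congr rfl fun m _ => ?_
    rw [map_smul, smul_eq_mul]
    simp only [ht]
    split_ifs with h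
    · rw [abs_of_nonneg h, one_mul]
    · rw [abs_of_neg (not_le.1 h), neg_one_mul]
  rw [h1]
  refine (le_abs_self _).trans (hl _ ((XX D).sum_mem fun m _ => (XX D).smul_mem _ (hw m)) _ ?_)
  intro j
  refine le_trans ?_ (hL j n)
  rw [map_sum]
  refine (Finset.abs_sum_le_sum_abs _ _).trans (Finset.sum_le_sum fun m _ => ?_)
  rw [map_smul, smul_eq_mul, abs_mul, ht1, one_mul]

end est

section ops

variable [OmegaOne W] {D : ∀ a, Datum Z a}

/-- `P_g` as an operator on `X`. -/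
def PX (hD : ∀ b, CW0 D b (D b) ∧ CW3 D b (D b)) (g : W) : XX D →ₗ[ℝ] XX D :=
  ((D g).P.toLinearMap.comp (XX D).subtype).codRestrict (XX D)
    (fun x => XS_le_XX D g (P_mem_of_mem_XX hD g x.2))

theorem PX_coe (hD : ∀ b, CW0 D b (D b) ∧ CW3 D b (D b)) (g : W) (x : XX D) :
    (PX hD g x : L Z) = (D g).P x := rfl

/-- `A_g` as an operator on `X`. -/
def AX (hD : ∀ b, CW0 D b (D b) ∧ CW3 D b (D b)) (g : W) : XX D →ₗ[ℝ] XX D :=
  LinearMap.id - PX hD g

theorem AX_coe (hD : ∀ b, CW0 D b (D b) ∧ CW3 D b (D b)) (g : W) (x : XX D) :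
    (AX hD g x : L Z) = (D g).A x := by
  show ((x : L Z) - (D g).P x) = (D g).A x
  rw [(D g).P_apply]
  abel

theorem PX_add_AX (hD : ∀ b, CW0 D b (D b) ∧ CW3 D b (D b)) (g : W) (x : XX D) :
    PX hD g x + AX hD g x = x := by
  show PX hD g x + (x - PX hD g x) = x
  abel

theorem PX_PX (hD : ∀ b, CW0 D b (D b) ∧ CW3 D b (D b)) (g : W) (x : XX D) :
    PX hD g (PX hD g x) = PX hD g x := by
  apply Subtype.ext
  rw [PX_coe, PX_coe]
  exact P_of_mem D (P_mem_of_mem_XX hD g x.2)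

theorem PX_AX (hD : ∀ b, CW0 D b (D b) ∧ CW3 D b (D b)) (g : W) (x : XX D) :
    PX hD g (AX hD g x) = 0 := by
  show PX hD g (x - PX hD g x) = 0
  rw [map_sub, PX_PX, sub_self]

theorem AX_PX (hD : ∀ b, CW0 D b (D b) ∧ CW3 D b (D b)) (g : W) (x : XX D) :
    AX hD g (PX hD g x) = 0 := by
  show PX hD g x - PX hD g (PX hD g x) = 0
  rw [PX_PX, sub_self]

theorem norm_AX (hD : ∀ b, CW0 D b (D b) ∧ CW3 D b (D b)) (g : W) (x : XX D) :
    ‖AX hD g x‖ = lat D g x := by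
  show ‖(AX hD g x : L Z)‖ = _
  rw [AX_coe, Datum.norm_A]
  rfl

/-- The complement `W_g = ker P_g` of `X_g` in `X`. -/
abbrev KerP (hD : ∀ b, CW0 D b (D b) ∧ CW3 D b (D b)) (g : W) : Submodule ℝ (XX D) :=
  LinearMap.ker (PX hD g)

theorem AX_of_ker (hD : ∀ b, CW0 D b (D b) ∧ CW3 D b (D b)) (g : W) {x : XX D}
    (hx : x ∈ KerP hD g) : AX hD g x = x := by
  have := PX_add_AX hD g x
  rw [LinearMap.mem_ker.1 hx, zero_add] at this
  exact this

/-- 5.1: the estimate for a norm. -/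
theorem norm_A_le (hD : ∀ b, CW0 D b (D b) ∧ CW3 D b (D b)) (hdu : Duality D)
    {N : Seminorm ℝ (XX D)} {C : ℝ} (hN : ∀ x, N x ≤ C * ‖x‖) {g : W} {Ds : ℕ → Lam Z} {q r : ℝ}
    (hDs : ∀ lam : (XX D) →L[ℝ] ℝ, (∀ x, |lam x| ≤ N x) →
      ∀ x r, (∀ n, |toDual D (Ds n) x| ≤ r) → |lam x| ≤ r)
    (hL : Light Ds q (D g))
    (ht : ∀ lam : (XX D) →L[ℝ] ℝ, (∀ x, |lam x| ≤ N x) → hdu.tail lam g ≤ r) (x : XX D) :
    N (AX hD g x) ≤ (q + r) * lat D g x := by
  obtain ⟨f, hf1, hf2⟩ := exists_le_seminorm hN (AX hD g x)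
  rw [← hf2]
  have hw : ∀ m, (D g).w m ∈ XX D := fun m => XS_le_XX D g ((hD g).1 m)
  have h1 : ∀ n, ∑ m ∈ Finset.range n, |pair (hdu.toLam f) ((D g).w m)| ≤ q := by
    intro n
    refine light_of_norming (D g) hL hw (hdu.toLam f) (fun y hy r' hr' => ?_) n
    have h2 := hDs f hf1 ⟨y, hy⟩ r' hr'
    rw [hdu.toLam_apply] at h2
    exact h2
  have h2 := abs_pair_A_le (D g) (hdu.toLam f) (x : L Z) h1
  have h3 : f (AX hD g x) = pair (hdu.toLam f) ((D g).A x) := by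
    rw [hdu.toLam_apply, AX_coe]
  rw [h3]
  refine (le_abs_self _).trans (h2.trans ?_)
  refine mul_le_mul_of_nonneg_right ?_ (norm_nonneg _)
  exact add_le_add le_rfl (ht f hf1)

end ops

section near

open BMAbs

variable [OmegaOne W] {D : ∀ a, Datum Z a}

/-- The embedding of a late fibre in `ker P_g`. -/
theorem exists_fibre_maps (hD : ∀ b, CW0 D b (D b) ∧ CW3 D b (D b)) {g : W} {k : W × ℕ}
    (hk : g ≤ k.1) : ∃ (j : Z k →L[ℝ] KerP hD g) (π : KerP hD g →L[ℝ] Z k),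
      (∀ z, ‖j z‖ ≤ ‖z‖) ∧ (∀ w, ‖π w‖ ≤ ‖w‖) ∧ ∀ z, π (j z) = z := by
  have hJ : ∀ z : Z k, J D k z ∈ XX D := fun z => J_mem_XX k z
  let j0 : Z k →ₗ[ℝ] XX D := (J D k).toLinearMap.codRestrict (XX D) hJ
  let j1 : Z k →ₗ[ℝ] KerP hD g := ((AX hD g).comp j0).codRestrict (KerP hD g)
    (fun z => LinearMap.mem_ker.2 (PX_AX hD g _))
  have hj : ∀ z, ‖j1 z‖ ≤ 1 * ‖z‖ := by
    intro z
    rw [one_mul]
    show ‖AX hD g (j0 z)‖ ≤ ‖z‖
    rw [norm_AX]
    exact (norm_cut_le _ _).trans (norm_J_le D k z)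
  let π0 : KerP hD g →ₗ[ℝ] Z k :=
    (pr k).toLinearMap.comp ((XX D).subtype.comp (KerP hD g).subtype)
  have hπ : ∀ w, ‖π0 w‖ ≤ 1 * ‖w‖ := by
    intro w
    rw [one_mul]
    exact norm_coord_le _ k
  refine ⟨j1.mkContinuous 1 hj, π0.mkContinuous 1 hπ, fun z => by simpa using hj z,
    fun w => by simpa using hπ w, fun z => ?_⟩
  show ((AX hD g (j0 z) : XX D) : L Z) k = z
  rw [AX_coe, (D g).A_ge _ hk]
  exact J_self D k z

/-- 5.1 and 5.2: an isomorphic copy `Y` of `X` whose norm is controlled at `g` is isomorphic to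
`ker P_g`, if `c_0` of the copy of `X_g` is a late fibre. -/
theorem near_ker (hD : ∀ b, CW0 D b (D b) ∧ CW3 D b (D b)) {g : W}
    {Y : Type*} [NormedAddCommGroup Y] [NormedSpace ℝ Y] (T : XX D ≃L[ℝ] Y) {r : ℝ} (hr : 0 < r)
    (h1 : ∀ x : XX D, r * lat D g x ≤ ‖T x‖)
    (h2 : ∀ x : XX D, ‖T (AX hD g x)‖ ≤ 4 * r * lat D g x)
    (hfib : ∃ k : W × ℕ, g ≤ k.1 ∧ Nonempty (Z k ≃ₗᵢ[ℝ]
      cz (Submodule.map (T : XX D →ₗ[ℝ] Y) (LinearMap.range (PX hD g))))) :
    Near (3 * 5) (5 * 3) Y (KerP hD g) := by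
  obtain ⟨k, hk, ⟨e⟩⟩ := hfib
  obtain ⟨j, π, hj, hπ, hπj⟩ := exists_fibre_maps hD hk
  set V : Submodule ℝ Y := Submodule.map (T : XX D →ₗ[ℝ] Y) (LinearMap.range (PX hD g)) with hV
  have hr' : r ≠ 0 := hr.ne'
  let p : Y →ₗ[ℝ] V := ((T : XX D →ₗ[ℝ] Y).comp ((PX hD g).comp
    (T.symm : Y →ₗ[ℝ] XX D))).codRestrict V
      (fun y => Submodule.mem_map_of_mem (LinearMap.mem_range_self _ _))
  let q : Y →ₗ[ℝ] KerP hD g := r • (((AX hD g).comp (T.symm : Y →ₗ[ℝ] XX D)).codRestrict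
    (KerP hD g) (fun y => LinearMap.mem_ker.2 (PX_AX hD g _)))
  let i : V →ₗ[ℝ] Y := V.subtype
  let m : KerP hD g →ₗ[ℝ] Y := r⁻¹ • ((T : XX D →ₗ[ℝ] Y).comp (KerP hD g).subtype)
  have hp_coe : ∀ y, (p y : Y) = T (PX hD g (T.symm y)) := fun y => rfl
  have hq_coe : ∀ y, ((q y : KerP hD g) : XX D) = r • AX hD g (T.symm y) := fun y => rfl
  have hm_coe : ∀ w, m w = r⁻¹ • T (w : XX D) := fun w => rfl
  have e1 : ∀ y, i (p y) + m (q y) = y := by
    intro y
    show (p y : Y) + m (q y) = y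
    rw [hp_coe, hm_coe, hq_coe, map_smul, smul_smul, inv_mul_cancel₀ hr', one_smul, ← map_add,
      PX_add_AX, ContinuousLinearEquiv.apply_symm_apply]
  have e2 : ∀ v : V, ∃ x : XX D, (v : Y) = T (PX hD g x) := by
    rintro ⟨v, hv⟩
    obtain ⟨_, ⟨x, rfl⟩, hx⟩ := hv
    exact ⟨x, hx.symm⟩
  have e3 : ∀ v, p (i v) = v := by
    intro v
    obtain ⟨x, hx⟩ := e2 v
    apply Subtype.ext
    rw [hp_coe]
    show T (PX hD g (T.symm (v : Y))) = v
    rw [hx, ContinuousLinearEquiv.symm_apply_apply, PX_PX]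
  have e4 : ∀ v, q (i v) = 0 := by
    intro v
    obtain ⟨x, hx⟩ := e2 v
    apply Subtype.ext
    rw [hq_coe]
    show r • AX hD g (T.symm (v : Y)) = 0
    rw [hx, ContinuousLinearEquiv.symm_apply_apply, AX_PX, smul_zero]
  have e5 : ∀ w, p (m w) = 0 := by
    intro w
    apply Subtype.ext
    rw [hp_coe, hm_coe, map_smul, map_smul, ContinuousLinearEquiv.symm_apply_apply,
      LinearMap.mem_ker.1 w.2, smul_zero, map_zero]
    rfl
  have e6 : ∀ w, q (m w) = w := by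
    intro w
    apply Subtype.ext
    rw [hq_coe, hm_coe, map_smul, map_smul, ContinuousLinearEquiv.symm_apply_apply,
      AX_of_ker hD g w.2, smul_smul, mul_inv_cancel₀ hr', one_smul]
  have hA : ∀ y, ‖T (AX hD g (T.symm y))‖ ≤ 4 * ‖y‖ := by
    intro y
    refine (h2 _).trans ?_
    have h3 := h1 (T.symm y)
    rw [ContinuousLinearEquiv.apply_symm_apply] at h3
    linarith
  have b1 : ∀ y, ‖p y‖ ≤ 5 * ‖y‖ := by
    intro y
    show ‖(p y : Y)‖ ≤ _
    rw [hp_coe]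
    have h3 : T (PX hD g (T.symm y)) = y - T (AX hD g (T.symm y)) := by
      have h4 := congrArg T (PX_add_AX hD g (T.symm y))
      rw [map_add, ContinuousLinearEquiv.apply_symm_apply] at h4
      exact eq_sub_of_add_eq h4
    rw [h3]
    refine (norm_sub_le _ _).trans ?_
    linarith [hA y]
  have b2 : ∀ y, ‖q y‖ ≤ 5 * ‖y‖ := by
    intro y
    show ‖((q y : KerP hD g) : XX D)‖ ≤ _
    rw [hq_coe, norm_smul, Real.norm_of_nonneg hr.le, norm_AX]
    have h3 := h1 (T.symm y)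
    rw [ContinuousLinearEquiv.apply_symm_apply] at h3
    linarith [norm_nonneg y]
  have b3 : ∀ v w, ‖i v + m w‖ ≤ 5 * max ‖v‖ ‖w‖ := by
    intro v w
    have h3 : ‖m w‖ ≤ 4 * ‖w‖ := by
      rw [hm_coe, norm_smul, norm_inv, Real.norm_of_nonneg hr.le]
      have h4 := h2 (w : XX D)
      rw [AX_of_ker hD g w.2] at h4
      have h5 : lat D g (w : XX D) ≤ ‖w‖ := norm_cut_le _ _
      rw [inv_mul_le_iff₀ hr]
      have h6 : 4 * r * lat D g (w : XX D) ≤ 4 * r * ‖w‖ :=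
        mul_le_mul_of_nonneg_left h5 (by positivity)
      linarith
    refine (norm_add_le _ _).trans ?_
    have h4 : ‖i v‖ ≤ max ‖v‖ ‖w‖ := le_max_left _ _
    have h5 : ‖w‖ ≤ max ‖v‖ ‖w‖ := le_max_right _ _
    linarith
  have hnear : Near 5 5 Y (V × KerP hD g) := by
    refine @near_prod Y _ _ V inferInstance inferInstance (KerP hD g) inferInstance inferInstance
      p q i m e1 e3 e4 e5 e6 5 5 b1 b2 b3
  exact near_of_prod (V := V) (W := KerP hD g) (by norm_num) hnear e j π hj hπ hπj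

end near

end

end Pool.Agent.DIAM
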