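import Pool.Agent.Work.MP_89a7db_an.Dia.Defs

/-!
MP_89a7db_an, cell DIAM, module M16 (v): existence of the dense sequences (structure `Fib`).
-/

open Filter Topology TopologicalSpace
open scoped ENNReal

noncomputable section

namespace Pool.Agent.DIAM

/-- The dual ball of a separable normed space has a weak* dense sequence. -/
theorem exists_dense_dual_seq (V : Type*) [NormedAddCommGroup V] [NormedSpace ℝ V]
    [SeparableSpace V] :
    ∃ ds : ℕ → StrongDual ℝ V, (∀ n, ‖ds n‖ ≤ 1) ∧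
      ∀ ζ : StrongDual ℝ V, ‖ζ‖ ≤ 1 → ∀ (E : Finset V) (ε : ℝ), 0 < ε →
        ∃ n, ∀ z ∈ E, |ds n z - ζ z| < ε := by
  classical
  obtain ⟨e, he⟩ := exists_dense_seq V
  let B : Type _ := {ζ : StrongDual ℝ V // ‖ζ‖ ≤ 1}
  let Φ : B → (ℕ → ℝ) := fun ζ n => ζ.1 (e n)
  let S : Set (ℕ → ℝ) := Set.range Φ
  have hne : Nonempty S := ⟨⟨Φ ⟨0, by simp⟩, ⟨0, by simp⟩, rfl⟩⟩
  obtain ⟨u, hu⟩ := exists_dense_seq S
  choose b hb using fun n => (u n).2
  refine ⟨fun n => (b n).1, fun n => (b n).2, fun ζ hζ E ε hε => ?_⟩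
  have hε4 : 0 < ε / 4 := by linarith
  choose m hm using fun z : V => he.exists_dist_lt z hε4
  let O : Set S := ⋂ z ∈ E, {q : S | |q.1 (m z) - ζ (e (m z))| < ε / 4}
  have hO : IsOpen O := by
    refine isOpen_biInter_finset fun z _ => ?_
    refine isOpen_lt ?_ continuous_const
    exact (((continuous_apply (m z)).comp continuous_subtype_val).sub continuous_const).abs
  have hOne : O.Nonempty := by
    refine ⟨⟨Φ ⟨ζ, hζ⟩, ⟨ζ, hζ⟩, rfl⟩, ?_⟩
    refine Set.mem_iInter₂.2 fun z _ => ?_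
    show |ζ (e (m z)) - ζ (e (m z))| < ε / 4
    rw [sub_self, abs_zero]
    exact hε4
  obtain ⟨n, hn⟩ := hu.exists_mem_open hO hOne
  refine ⟨n, fun z hz => ?_⟩
  have h1 : |(u n).1 (m z) - ζ (e (m z))| < ε / 4 := Set.mem_iInter₂.1 hn z hz
  have h2 : (u n).1 (m z) = (b n).1 (e (m z)) := by
    rw [← hb n]
  rw [h2] at h1
  have h3 : ‖z - e (m z)‖ < ε / 4 := by
    have := hm z
    rwa [dist_eq_norm] at this
  have h4 : |(b n).1 (z - e (m z))| ≤ ‖z - e (m z)‖ := by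
    have := (b n).1.le_of_opNorm_le (b n).2 (z - e (m z))
    rwa [one_mul] at this
  have h5 : |ζ (z - e (m z))| ≤ ‖z - e (m z)‖ := by
    have := ζ.le_of_opNorm_le hζ (z - e (m z))
    rwa [one_mul] at this
  have h6 : (b n).1 z - ζ z = (b n).1 (z - e (m z)) + ((b n).1 (e (m z)) - ζ (e (m z)))
      - ζ (z - e (m z)) := by
    rw [map_sub, map_sub]; ring
  show |(b n).1 z - ζ z| < ε
  rw [h6]
  have h7 := abs_sub ((b n).1 (z - e (m z)) + ((b n).1 (e (m z)) - ζ (e (m z))))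
    (ζ (z - e (m z)))
  have h8 := abs_add_le ((b n).1 (z - e (m z))) ((b n).1 (e (m z)) - ζ (e (m z)))
  linarith

/-- Dense sequences exist if all fibres are separable. -/
theorem exists_Fib {W : Type} [LinearOrder W] (Z : W × ℕ → Type)
    [∀ k, NormedAddCommGroup (Z k)] [∀ k, NormedSpace ℝ (Z k)] [∀ k, SeparableSpace (Z k)] :
    Nonempty (Fib Z) := by
  choose e he using fun k => exists_dense_seq (Z k)
  choose ds h1 h2 using fun k => exists_dense_dual_seq (Z k)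
  exact ⟨⟨e, he, ds, h1, h2⟩⟩

end Pool.Agent.DIAM

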