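import Pool.Agent.Work.MP_89a7db_an.Dia.Absorb
import Pool.Agent.Work.MP_89a7db_an.Dia.Diamond
import Pool.Agent.Work.MP_89a7db_an.Dia.Cards

/-!
MP_89a7db_an, module M16 (iv): the fibres.

Every separable Banach space is isometric to the closed span of a sequence in `l_oo(N)`, and under
the diamond principle there is a family of fibres `Z k = c_0(V_k)` (`k` in `W x N`) such that every
separable Banach space `V` different from `0` has `c_0(V)` isometric to `Z k` for arbitrarily
late `k`.
-/

open Filter Topology TopologicalSpace Cardinal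
open scoped ENNReal

noncomputable section

namespace BMAbs

universe u

/-- The space of bounded real sequences. -/
abbrev LInf : Type := lp (fun _ : ℕ => ℝ) ∞

section Norming

variable (V : Type u) [NormedAddCommGroup V] [NormedSpace ℝ V]

/-- A separable normed space has a sequence of functionals of norm at most one which is norming. -/
theorem exists_norming_seq [SeparableSpace V] :
    ∃ f : ℕ → (V →L[ℝ] ℝ), (∀ n, ‖f n‖ ≤ 1) ∧
      ∀ (x : V) (C : ℝ), (∀ n, |f n x| ≤ C) → ‖x‖ ≤ C := by
  classical
  obtain ⟨w, hw⟩ := exists_dense_seq V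
  choose f hf1 hf2 using fun n => exists_dual_vector'' ℝ (w n)
  refine ⟨f, hf1, fun x C hC => ?_⟩
  refine le_of_forall_pos_le_add fun ε hε => ?_
  obtain ⟨n, hn⟩ := hw.exists_dist_lt x (half_pos hε)
  have h1 : ‖x - w n‖ < ε / 2 := by rwa [dist_eq_norm] at hn
  have h2 : f n (w n) = ‖w n‖ := by
    have := hf2 n
    simpa using this
  have h3 : f n (w n) = f n x - f n (x - w n) := by rw [map_sub]; ring
  have h4 : |f n (x - w n)| ≤ ‖x - w n‖ := by
    have := (f n).le_opNorm (x - w n)
    rw [Real.norm_eq_abs] at this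
    exact this.trans (by nlinarith [hf1 n, norm_nonneg (x - w n)])
  have h5 : ‖x‖ ≤ ‖w n‖ + ‖x - w n‖ := by
    have : x = w n + (x - w n) := by abel
    calc ‖x‖ = ‖w n + (x - w n)‖ := by rw [← this]
      _ ≤ _ := norm_add_le _ _
  have h6 := hC n
  have h7 := abs_le.1 h6
  have h8 := abs_le.1 h4
  linarith [h7.2, h8.1]

/-- A separable normed space embeds isometrically in `l_oo(N)`. -/
theorem exists_isometric_embedding [SeparableSpace V] : Nonempty (V →ₗᵢ[ℝ] LInf) := by
  obtain ⟨f, hf1, hf2⟩ := exists_norming_seq V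
  have hb : ∀ x n, |f n x| ≤ ‖x‖ := by
    intro x n
    have := (f n).le_opNorm x
    rw [Real.norm_eq_abs] at this
    exact this.trans (by nlinarith [hf1 n, norm_nonneg x])
  have hmem : ∀ x : V, Memℓp (fun n => f n x) ∞ := by
    intro x
    refine memℓp_infty ⟨‖x‖, ?_⟩
    rintro _ ⟨n, rfl⟩
    exact hb x n
  refine ⟨⟨⟨⟨fun x => ⟨fun n => f n x, hmem x⟩, ?_⟩, ?_⟩, ?_⟩⟩
  · intro x y
    ext n
    exact map_add _ _ _
  · intro c x
    ext n
    exact map_smul _ _ _
  · intro x
    apply le_antisymm
    · exact lp.norm_le_of_forall_le (norm_nonneg x) (fun n => hb x n)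
    · refine hf2 x _ fun n => ?_
      exact lp.norm_apply_le_norm (by simp) (⟨fun n => f n x, hmem x⟩ : LInf) n

end Norming

section ClosedSpan

/-- The closed linear span of a sequence in `l_oo(N)`. -/
def fib (s : ℕ → LInf) : Submodule ℝ LInf := (Submodule.span ℝ (Set.range s)).topologicalClosure

theorem isClosed_fib (s : ℕ → LInf) : IsClosed (fib s : Set LInf) :=
  Submodule.isClosed_topologicalClosure _

theorem mem_fib (s : ℕ → LInf) (n : ℕ) : s n ∈ fib s :=
  Submodule.le_topologicalClosure _ (Submodule.subset_span ⟨n, rfl⟩)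

instance (s : ℕ → LInf) : CompleteSpace (fib s) := (isClosed_fib s).completeSpace_coe

instance (s : ℕ → LInf) : SeparableSpace (fib s) := by
  have h1 : IsSeparable (Submodule.span ℝ (Set.range s) : Set LInf) :=
    (Set.countable_range s).isSeparable.span
  have h2 : IsSeparable (fib s : Set LInf) := by
    show IsSeparable ((Submodule.span ℝ (Set.range s)).topologicalClosure : Set LInf)
    rw [Submodule.topologicalClosure_coe]
    exact h1.closure
  exact h2.separableSpace

/-- The nonzero sequences in `l_oo(N)`. -/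
abbrev NZSeq : Type := {s : ℕ → LInf // ∃ n, s n ≠ 0}

instance (s : NZSeq) : Nontrivial (fib s.1) := by
  obtain ⟨n, hn⟩ := s.2
  exact ⟨⟨s.1 n, mem_fib s.1 n⟩, 0, fun h => hn (congrArg Subtype.val h)⟩

instance : Nonempty NZSeq := by
  refine ⟨⟨fun _ => lp.single ∞ 0 1, 0, fun h => ?_⟩⟩
  have := congrArg (fun f : LInf => (f : ℕ → ℝ) 0) h
  simp at this

/-- Every separable Banach space different from `0` is isometric to the closed span of a sequence
in `l_oo(N)`. -/
theorem exists_fib (V : Type u) [NormedAddCommGroup V] [NormedSpace ℝ V] [CompleteSpace V]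
    [SeparableSpace V] [Nontrivial V] : ∃ s : NZSeq, Nonempty (V ≃ₗᵢ[ℝ] fib s.1) := by
  obtain ⟨e⟩ := exists_isometric_embedding V
  obtain ⟨w, hw⟩ := exists_dense_seq V
  have hrange : fib (fun n => e (w n)) = LinearMap.range e.toLinearMap := by
    apply le_antisymm
    · refine Submodule.topologicalClosure_minimal _ ?_ ?_
      · rw [Submodule.span_le]
        rintro _ ⟨n, rfl⟩
        exact ⟨w n, rfl⟩
      · have : IsClosed (Set.range e) := e.isometry.isClosedEmbedding.isClosed_range
        convert this using 1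
        ext x
        simp
    · rintro _ ⟨x, rfl⟩
      have h1 : x ∈ closure (Set.range w) := hw x
      have h2 : e x ∈ closure (e '' Set.range w) :=
        image_closure_subset_closure_image e.continuous ⟨x, h1, rfl⟩
      have h3 : closure (e '' Set.range w) ⊆ (fib (fun n => e (w n)) : Set LInf) := by
        refine closure_minimal ?_ (isClosed_fib _)
        rintro _ ⟨_, ⟨n, rfl⟩, rfl⟩
        exact mem_fib _ n
      exact h3 h2
  have hnz : ∃ n, e (w n) ≠ 0 := by
    by_contra h
    push Not at h
    obtain ⟨x, hx⟩ := exists_ne (0 : V)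
    apply hx
    have h1 : Set.EqOn (fun y : V => y) (fun _ => (0 : V)) (Set.range w) := by
      rintro _ ⟨n, rfl⟩
      have := h n
      rwa [← e.map_zero, e.injective.eq_iff] at this
    have h2 := Continuous.ext_on hw continuous_id' continuous_const h1
    exact congrFun h2 x
  refine ⟨⟨fun n => e (w n), hnz⟩, ⟨?_⟩⟩
  have e1 : V ≃ₗᵢ[ℝ] LinearMap.range e.toLinearMap := e.equivRange
  exact e1.trans (LinearIsometryEquiv.ofEq _ _ hrange.symm)

theorem mk_NZSeq_le : #NZSeq ≤ 𝔠 := by
  refine le_trans (Cardinal.mk_le_of_injective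
    (f := fun s : NZSeq => fun n m => (s.1 n : ℕ → ℝ) m) ?_) Pool.Agent.Dia.mk_real_seq_seq_le
  intro s t h
  apply Subtype.ext
  funext n
  apply lp.ext
  exact congrFun h n

end ClosedSpan

section Family

open Pool.Agent.Dia

variable {W : Type*}

/-- The fibres attached to an enumeration of the nonzero sequences: at stage `a` every fibre is
`c_0` of the closed span of the sequence `s a`. -/
abbrev Fibre (s : W → NZSeq) (k : W × ℕ) : Type := cz (fib (s k.1).1)

instance (s : W → NZSeq) (k : W × ℕ) : Nontrivial (Fibre s k) := nontrivial_cz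

example (s : W → NZSeq) (k : W × ℕ) : CompleteSpace (Fibre s k) := inferInstance
example (s : W → NZSeq) (k : W × ℕ) : SeparableSpace (Fibre s k) := inferInstance
example (s : W → NZSeq) (k : W × ℕ) : NormedSpace ℝ (Fibre s k) := inferInstance

/-- `s` enumerates all nonzero sequences in `l_oo(N)`, each at arbitrarily late stages. -/
def FullEnum [LinearOrder W] (s : W → NZSeq) : Prop := ∀ t : NZSeq, ∀ b : W, ∃ a, b < a ∧ s a = t

/-- Under diamond there is such an enumeration. -/
theorem exists_fullEnum [LinearOrder W] [OmegaOne W] (hD : Diamond W) :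
    ∃ s : W → NZSeq, FullEnum s := by
  obtain ⟨ι, hι⟩ := inj_of_le_continuum hD mk_NZSeq_le
  exact exists_enum_cofinal ι hι

/-- Every separable Banach space `V` different from `0` has `c_0(V)` isometric to a fibre of
arbitrarily late stage. -/
theorem FullEnum.exists_fibre [LinearOrder W] {s : W → NZSeq} (hs : FullEnum s)
    (V : Type u) [NormedAddCommGroup V] [NormedSpace ℝ V] [CompleteSpace V] [SeparableSpace V]
    [Nontrivial V] (b : W) : ∃ a, b < a ∧ ∀ i, Nonempty (cz V ≃ₗᵢ[ℝ] Fibre s (a, i)) := by
  obtain ⟨t, ⟨e⟩⟩ := exists_fib V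
  obtain ⟨a, ha, hat⟩ := hs t b
  refine ⟨a, ha, fun i => ?_⟩
  have e1 : V ≃ₗᵢ[ℝ] fib (s a).1 := by rw [hat]; exact e
  exact ⟨mapL e1⟩

end Family

end BMAbs

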