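import Pool.Agent.Work.MP_89a7db_an.Dia.Defs
import Pool.Agent.Work.MP_89a7db_an.Dia.Diamond
import Pool.Agent.Work.MP_89a7db_an.Dia.Cards

/-!
Cell DIAM: under diamond there are guesses for (T1) and (T2) at the same time.
-/

set_option autoImplicit false
set_option linter.unusedSectionVars false

namespace Pool.Agent.DIAM

open Set Filter Topology Pool.Agent.Dia Cardinal
open scoped ENNReal

section

variable {W : Type} [LinearOrder W] [OmegaOne W]
variable (Z : W × ℕ → Type) [∀ k, NormedAddCommGroup (Z k)] [∀ k, NormedSpace ℝ (Z k)]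
  [∀ k, TopologicalSpace.SeparableSpace (Z k)]

theorem mk_Lam_le' : #(Lam Z) ≤ 𝔠 := mk_Lam_le (mk_stages_le W) Z

/-- Guesses for sequences indexed by `W` in `Lam` and for pairs `(Ds, q)`. -/
theorem exists_guess (hD : Diamond W) :
    ∃ (gs : W → W → Lam Z) (lg : W → (ℕ → Lam Z) × ℝ), ∀ (G : W → Lam Z) (Ds : ℕ → Lam Z) (q : ℝ),
      IsStationary {a : W | (∀ b < a, gs a b = G b) ∧ lg a = (Ds, q)} := by
  classical
  have hcard : #(Lam Z × ((ℕ → Lam Z) × ℝ)) ≤ 𝔠 :=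
    mk_prod_le (mk_Lam_le' Z) (mk_prod_le (mk_seq_le (mk_Lam_le' Z)) (by rw [Cardinal.mk_real]))
  obtain ⟨ι, hι⟩ := inj_of_le_continuum hD hcard
  obtain ⟨g, hg⟩ := diamond_fun hD ι hι
  obtain ⟨w0⟩ := nonempty' W
  refine ⟨fun a b => (g a b).1, fun a => (g a w0).2, fun G Ds q => ?_⟩
  have h1 := IsStationary.inter_club (hg fun b => (G b, (Ds, q))) (isClub_Ioi w0)
  refine h1.mono ?_
  rintro a ⟨ha1, ha2⟩
  refine ⟨fun b hb => ?_, ?_⟩
  · show (g a b).1 = G b
    rw [ha1 b hb]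
  · show (g a w0).2 = (Ds, q)
    rw [ha1 w0 ha2]

end

end Pool.Agent.DIAM
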