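import Mathlib

/-!
Abstract form of the interpolation lemma 1.4: everything is reduced to five statements on one
block of points of the same stage.
-/

namespace Pool.Agent.Dia

open Filter Topology
open scoped ENNReal

variable {Om : Type*} [LinearOrder Om]
variable {Z : Om × ℕ → Type*} [∀ k, NormedAddCommGroup (Z k)] [∀ k, NormedSpace ℝ (Z k)]

omit [LinearOrder Om] [∀ k, NormedSpace ℝ (Z k)] in
/-- If every finite sum is bounded by `C` then so is the pointwise limit on `S`, and off `S`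
we control directly. -/
theorem norm_le_of_finsum (x y : lp Z ∞) (g : ℕ → lp Z ∞) {C : ℝ} (hC : 0 ≤ C) (S : Set (Om × ℕ))
    (hlim : ∀ k ∈ S, Tendsto (fun N => (y k + (g N) k)) atTop (𝓝 (x k)))
    (hfin : ∀ᶠ N in atTop, ‖y + g N‖ ≤ C)
    (hoff : ∀ k, k ∉ S → ‖x k‖ ≤ C) : ‖x‖ ≤ C := by
  refine lp.norm_le_of_forall_le hC ?_
  intro k
  by_cases hk : k ∈ S
  · have h1 : Tendsto (fun N => ‖y k + (g N) k‖) atTop (𝓝 ‖x k‖) := (hlim k hk).norm
    refine le_of_tendsto h1 ?_
    filter_upwards [hfin] with N hN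
    have h2 : ‖(y + g N) k‖ ≤ ‖y + g N‖ := lp.norm_apply_le_norm (by simp) _ k
    have h3 : (y + g N) k = y k + (g N) k := by simp
    rw [h3] at h2
    exact h2.trans hN
  · exact hoff k hk

omit [LinearOrder Om] in
/-- One block: the norm estimate (from W4 in the T-form, finite sums). -/
theorem block_norm (S : Set (Om × ℕ)) (w : ℕ → lp Z ∞) (y v : lp Z ∞) (t : ℕ → ℝ) {T eps : ℝ}
    (hT : 0 ≤ T) (heps : 0 ≤ eps) (ht : ∀ m, |t m| ≤ T) (n : ℕ)
    (hW4 : ∀ N ≥ n, ∀ (s : ℕ → ℝ), (∀ m, |s m| ≤ T) →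
      ‖y + ∑ m ∈ Finset.range N, s m • w m‖ ≤ max ‖y + ∑ m ∈ Finset.range n, s m • w m‖ T + eps)
    (hv : ∀ k ∈ S, Tendsto (fun N => ∑ m ∈ Finset.range N, (if n ≤ m then t m else 0) • (w m) k)
      atTop (𝓝 (v k)))
    (hoff : ∀ k, k ∉ S → y k = 0 ∧ ‖v k‖ ≤ T) : ‖y + v‖ ≤ max ‖y‖ T + eps := by
  have hC : 0 ≤ max ‖y‖ T + eps := by
    have := le_max_right ‖y‖ T
    linarith
  refine norm_le_of_finsum (y + v) y
    (fun N => ∑ m ∈ Finset.range N, (if n ≤ m then t m else 0) • w m) hC S ?_ ?_ ?_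
  · intro k hk
    have h1 := (hv k hk).const_add (y k)
    have h2 : (y + v) k = y k + v k := by simp
    rw [h2]
    refine h1.congr ?_
    intro N
    congr 1
    have h3 : ∀ (s : ℕ → ℝ), ∑ m ∈ Finset.range N, s m • (w m) k
        = (∑ m ∈ Finset.range N, s m • w m : lp Z ∞) k := by
      intro s
      induction N with
      | zero => simp
      | succ N ih => rw [Finset.sum_range_succ, Finset.sum_range_succ, ih]; rfl
    exact h3 _
  · filter_upwards [eventually_ge_atTop n] with N hN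
    have h1 := hW4 N hN (fun m => if n ≤ m then t m else 0) (by
      intro m
      by_cases h : n ≤ m
      · simp [h, ht m]
      · simp [h, hT])
    have h2 : ∑ m ∈ Finset.range n, (if n ≤ m then t m else 0) • w m = 0 := by
      refine Finset.sum_eq_zero ?_
      intro m hm
      have : ¬ n ≤ m := by
        have := Finset.mem_range.1 hm
        omega
      simp [this]
    rw [h2, add_zero] at h1
    exact h1
  · intro k hk
    obtain ⟨h1, h2⟩ := hoff k hk
    have h3 : (y + v) k = y k + v k := by simp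
    rw [h3, h1, zero_add]
    have := le_max_right ‖y‖ T
    linarith

omit [LinearOrder Om] in
/-- One block: the value at a point of smaller stage tends to zero. -/
theorem block_small (w : ℕ → lp Z ∞) (k : Om × ℕ) (v : ℕ → Z k) (t : ℕ → ℝ) {T eps : ℝ}
    (hT : 0 ≤ T) (heps : 0 < eps) (ht : ∀ m, |t m| ≤ T)
    (hW2 : Summable fun m => ‖(w m) k‖)
    (hv : ∀ n, Tendsto (fun N => ∑ m ∈ Finset.range N, (if n ≤ m then t m else 0) • (w m) k)
      atTop (𝓝 (v n))) : ∀ᶠ n in atTop, ‖v n‖ ≤ eps := by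
  have h1 : Tendsto (fun n => T * ∑' m, ‖(w (m + n)) k‖) atTop (𝓝 (T * 0)) :=
    (tendsto_sum_nat_add (fun m => ‖(w m) k‖)).const_mul T
  rw [mul_zero] at h1
  filter_upwards [h1.eventually_le_const heps] with n hn
  refine le_trans ?_ hn
  refine le_of_tendsto (hv n).norm ?_
  refine Eventually.of_forall ?_
  intro N
  calc ‖∑ m ∈ Finset.range N, (if n ≤ m then t m else 0) • (w m) k‖
      ≤ ∑ m ∈ Finset.range N, (if n ≤ m then T * ‖(w m) k‖ else 0) := by
        refine (norm_sum_le _ _).trans (Finset.sum_le_sum ?_)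
        intro m _
        by_cases h : n ≤ m
        · simp only [h, if_true, norm_smul, Real.norm_eq_abs]
          exact mul_le_mul_of_nonneg_right (ht m) (norm_nonneg _)
        · simp [h]
    _ ≤ ∑ m ∈ Finset.range (n + N), (if n ≤ m then T * ‖(w m) k‖ else 0) := by
        refine Finset.sum_le_sum_of_subset_of_nonneg ?_ ?_
        · intro m hm
          have := Finset.mem_range.1 hm
          exact Finset.mem_range.2 (by omega)
        · intro m _ _
          by_cases h : n ≤ m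
          · simp only [h, if_true]
            positivity
          · simp [h]
    _ = T * ∑ m ∈ Finset.range N, ‖(w (m + n)) k‖ := by
        rw [Finset.sum_range_add, Finset.mul_sum]
        have h0 : ∑ m ∈ Finset.range n, (if n ≤ m then T * ‖(w m) k‖ else 0) = 0 := by
          refine Finset.sum_eq_zero ?_
          intro m hm
          have : ¬ n ≤ m := by
            have := Finset.mem_range.1 hm
            omega
          simp [this]
        rw [h0, zero_add]
        refine Finset.sum_congr rfl ?_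
        intro m _
        simp [add_comm]
    _ ≤ T * ∑' m, ‖(w (m + n)) k‖ := by
        refine mul_le_mul_of_nonneg_left ?_ hT
        refine Summable.sum_le_tsum _ (fun _ _ => norm_nonneg _) ?_
        exact (summable_nat_add_iff n).2 hW2

/-- The interpolation lemma from the block statements. -/
theorem interp_of_blocks
    (X : Om → Submodule ℝ (lp Z ∞))
    (hmono : ∀ a b, a ≤ b → X a ≤ X b)
    (hX0 : ∀ a, ∀ x ∈ X a, ∀ k : Om × ℕ, a ≤ k.1 → x k = 0)
    (P : Om → lp Z ∞ →ₗ[ℝ] lp Z ∞)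
    (J : (k : Om × ℕ) → ℕ → Z k → lp Z ∞)
    {T : ℝ}
    (z : ∀ k : Om × ℕ, Z k)
    (G : Set Om)
    (B1 : ∀ (a : Om) (F : Finset (Om × ℕ)), (∀ k ∈ F, k.1 = a) → ∀ n, ∀ k : Om × ℕ, a ≤ k.1 →
      ((k ∈ F → (∑ j ∈ F, J j n (z j)) k = z k) ∧ (k ∉ F → (∑ j ∈ F, J j n (z j)) k = 0)))
    (B2 : ∀ a ∈ G, ∀ (F : Finset (Om × ℕ)), (∀ k ∈ F, k.1 = a) → (∀ k ∈ F, ‖z k‖ ≤ T) →
      ∀ y ∈ X a, ∀ eps > 0, ∀ᶠ n in atTop,
        ‖y + ∑ j ∈ F, J j n (z j)‖ ≤ max ‖y‖ T + eps ∧
        ‖y - ∑ j ∈ F, J j n (z j)‖ ≤ max ‖y‖ T + eps)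
    (B3 : ∀ (a : Om) (F : Finset (Om × ℕ)), (∀ k ∈ F, k.1 = a) → (∀ k ∈ F, ‖z k‖ ≤ T) →
      ∀ k : Om × ℕ, k.1 < a → ∀ eps > 0, ∀ᶠ n in atTop, ‖(∑ j ∈ F, J j n (z j)) k‖ ≤ eps)
    (B4 : ∀ a ∈ G, ∀ (F : Finset (Om × ℕ)), (∀ k ∈ F, k.1 = a) → ∀ q, q < a →
      ∀ᶠ n in atTop, P q (∑ j ∈ F, J j n (z j)) = 0)
    (B5 : ∀ (k : Om × ℕ) (n : ℕ) (a : Om), k.1 ∈ G → k.1 < a → J k n (z k) ∈ X a)
    (F : Finset (Om × ℕ)) :
    ∀ (_ : ∀ k ∈ F, k.1 ∈ G) (_ : ∀ k ∈ F, ‖z k‖ ≤ T) (yy : Finset (lp Z ∞)) (b : Om) (_ : ∀ k ∈ F, b ≤ k.1)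
      (_ : ∀ y ∈ yy, y ∈ X b) (Q : Finset Om) (_ : ∀ q ∈ Q, ∀ k ∈ F, q < k.1)
      (H : Finset (Om × ℕ)) (_ : Disjoint H F) (eps : ℝ) (_ : 0 < eps) (n0 : ℕ),
      ∃ n : Om × ℕ → ℕ, (∀ k, n0 ≤ n k) ∧
        (∀ a, (∀ k ∈ F, k.1 < a) → ∑ j ∈ F, J j (n j) (z j) ∈ X a) ∧
        (∀ q ∈ Q, P q (∑ j ∈ F, J j (n j) (z j)) = 0) ∧
        (∀ y ∈ yy, ‖y + ∑ j ∈ F, J j (n j) (z j)‖ ≤ max ‖y‖ T + eps ∧
          ‖y - ∑ j ∈ F, J j (n j) (z j)‖ ≤ max ‖y‖ T + eps) ∧
        (∀ k ∈ F, ‖(∑ j ∈ F, J j (n j) (z j)) k - z k‖ ≤ eps) ∧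
        (∀ h ∈ H, ‖(∑ j ∈ F, J j (n j) (z j)) h‖ ≤ eps) ∧
        (∀ k : Om × ℕ, k ∉ F → (∀ j ∈ F, j.1 ≤ k.1) →
          (∑ j ∈ F, J j (n j) (z j)) k = 0) := by
  classical
  induction F using Finset.strongInduction with
  | H F ih =>
    intro hG hz yy b hb hyy Q hQ H hH eps heps n0
    rcases F.eq_empty_or_nonempty with rfl | hne
    · refine ⟨fun _ => n0, fun _ => le_rfl, ?_, ?_, ?_, ?_, ?_, ?_⟩
      · intro a _; simp
      · intro q _; simp
      · intro y _
        have : ‖y‖ ≤ max ‖y‖ T := le_max_left _ _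
        simp only [Finset.sum_empty, add_zero, sub_zero]
        constructor <;> linarith
      · intro k hk; simp at hk
      · intro h _; simp [heps.le]
      · intro k _ _; simp
    · obtain ⟨k0, hk0, hmax⟩ := Finset.exists_max_image F Prod.fst hne
      set a := k0.1 with ha
      set Fa := F.filter (fun k => k.1 = a) with hFa
      set F' := F.filter (fun k => ¬ k.1 = a) with hF'
      have hsub : F' ⊂ F := by
        refine Finset.filter_ssubset.2 ⟨k0, hk0, by simp [ha]⟩
      have hFamem : ∀ k ∈ Fa, k.1 = a := fun k hk => (Finset.mem_filter.1 hk).2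
      have hFaF : ∀ k ∈ Fa, k ∈ F := fun k hk => (Finset.mem_filter.1 hk).1
      have hF'F : ∀ k ∈ F', k ∈ F := fun k hk => (Finset.mem_filter.1 hk).1
      have hF'lt : ∀ k ∈ F', k.1 < a := fun k hk =>
        lt_of_le_of_ne (hmax k (hF'F k hk)) (Finset.mem_filter.1 hk).2
      have he2 : 0 < eps / 2 := by linarith
      obtain ⟨n', hn', i1, i2, i3, i4, i5, i6⟩ := ih F' hsub
        (fun k hk => hG k (hF'F k hk)) (fun k hk => hz k (hF'F k hk)) yy b
        (fun k hk => hb k (hF'F k hk)) hyy Q (fun q hq k hk => hQ q hq k (hF'F k hk)) H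
        (Finset.disjoint_of_subset_right (fun k hk => hF'F k hk) hH) (eps / 2) he2 n0
      set x' := ∑ j ∈ F', J j (n' j) (z j) with hx'
      have hx'a : x' ∈ X a := i1 a hF'lt
      have hba : b ≤ a := hb k0 hk0
      have haG : a ∈ G := hG k0 hk0
      have hzFa : ∀ k ∈ Fa, ‖z k‖ ≤ T := fun k hk => hz k (hFaF k hk)
      have e1 : ∀ᶠ n in atTop, ∀ y ∈ yy,
          (‖(y + x') + ∑ j ∈ Fa, J j n (z j)‖ ≤ max ‖y + x'‖ T + eps / 2 ∧
          ‖(y + x') - ∑ j ∈ Fa, J j n (z j)‖ ≤ max ‖y + x'‖ T + eps / 2) := by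
        rw [Filter.eventually_all_finset]
        intro y hy
        exact B2 a haG Fa hFamem hzFa (y + x')
          ((X a).add_mem (hmono b a hba (hyy y hy)) hx'a) _ he2
      have e2 : ∀ᶠ n in atTop, ∀ y ∈ yy,
          (‖(y - x') + ∑ j ∈ Fa, J j n (z j)‖ ≤ max ‖y - x'‖ T + eps / 2 ∧
          ‖(y - x') - ∑ j ∈ Fa, J j n (z j)‖ ≤ max ‖y - x'‖ T + eps / 2) := by
        rw [Filter.eventually_all_finset]
        intro y hy
        exact B2 a haG Fa hFamem hzFa (y - x')
          ((X a).sub_mem (hmono b a hba (hyy y hy)) hx'a) _ he2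
      have e3 : ∀ᶠ n in atTop, ∀ k ∈ (F' ∪ H).filter (fun k => k.1 < a),
          ‖(∑ j ∈ Fa, J j n (z j)) k‖ ≤ eps / 2 := by
        rw [Filter.eventually_all_finset]
        intro k hk
        exact B3 a Fa hFamem hzFa k (Finset.mem_filter.1 hk).2 _ he2
      have e4 : ∀ᶠ n in atTop, ∀ q ∈ Q, P q (∑ j ∈ Fa, J j n (z j)) = 0 := by
        rw [Filter.eventually_all_finset]
        intro q hq
        exact B4 a haG Fa hFamem q (hQ q hq k0 hk0)
      obtain ⟨n1, ⟨⟨⟨h1, h2⟩, h3⟩, h4⟩, hn1⟩ :=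
        ((((e1.and e2).and e3).and e4).and (eventually_ge_atTop n0)).exists
      set bl := ∑ j ∈ Fa, J j n1 (z j) with hbl
      set n : Om × ℕ → ℕ := fun k => if k.1 = a then n1 else n' k with hn
      have hsum : ∑ j ∈ F, J j (n j) (z j) = x' + bl := by
        rw [← Finset.sum_filter_add_sum_filter_not F (fun k => k.1 = a), add_comm, hx', hbl]
        congr 1
        · refine Finset.sum_congr rfl ?_
          intro j hj
          have : ¬ j.1 = a := (Finset.mem_filter.1 hj).2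
          simp [hn, this]
        · refine Finset.sum_congr rfl ?_
          intro j hj
          have : j.1 = a := (Finset.mem_filter.1 hj).2
          simp [hn, this]
      have hblb : ∀ c, a < c → bl ∈ X c := by
        intro c hc
        refine (X c).sum_mem ?_
        intro j hj
        exact B5 j n1 c (by rw [hFamem j hj]; exact haG) (by rw [hFamem j hj]; exact hc)
      have hx'0 : ∀ k : Om × ℕ, a ≤ k.1 → x' k = 0 := fun k hk => hX0 a x' hx'a k hk
      have happ : ∀ k, (x' + bl) k = x' k + bl k := fun k => by simp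
      refine ⟨n, ?_, ?_, ?_, ?_, ?_, ?_, ?_⟩
      · intro k
        by_cases hk : k.1 = a
        · simp [hn, hk, hn1]
        · simp [hn, hk, hn' k]
      · intro c hc
        rw [hsum]
        have hac : a < c := hc k0 hk0
        exact (X c).add_mem (hmono a c hac.le hx'a) (hblb c hac)
      · intro q hq
        rw [hsum, map_add, i2 q hq, h4 q hq, add_zero]
      · intro y hy
        rw [hsum]
        have a1 := (h1 y hy).1
        have a2 := (h2 y hy).2
        have a3 := (i3 y hy).1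
        have a4 := (i3 y hy).2
        have r1 : y + (x' + bl) = (y + x') + bl := by abel
        have r2 : y - (x' + bl) = (y - x') - bl := by abel
        have m1 : max ‖y + x'‖ T ≤ max ‖y‖ T + eps / 2 :=
          max_le a3 (by have := le_max_right ‖y‖ T; linarith)
        have m2 : max ‖y - x'‖ T ≤ max ‖y‖ T + eps / 2 :=
          max_le a4 (by have := le_max_right ‖y‖ T; linarith)
        rw [r1, r2]
        constructor <;> linarith
      · intro k hk
        rw [hsum, happ k]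
        by_cases hka : k.1 = a
        · have hkFa : k ∈ Fa := Finset.mem_filter.2 ⟨hk, hka⟩
          have b1 : bl k = z k := (B1 a Fa hFamem n1 k hka.ge).1 hkFa
          rw [b1, hx'0 k hka.ge]
          simp [heps.le]
        · have hkF' : k ∈ F' := Finset.mem_filter.2 ⟨hk, hka⟩
          have b1 := i4 k hkF'
          have b2 := h3 k (Finset.mem_filter.2 ⟨Finset.mem_union_left _ hkF', hF'lt k hkF'⟩)
          have b3 : x' k + bl k - z k = (x' k - z k) + bl k := by abel
          rw [b3]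
          refine (norm_add_le _ _).trans ?_
          linarith
      · intro h hh
        rw [hsum, happ h]
        have hhF : h ∉ F := fun hF => (Finset.disjoint_left.1 hH) hh hF
        rcases lt_or_ge h.1 a with hlt | hge
        · have b1 := i5 h hh
          have b2 := h3 h (Finset.mem_filter.2 ⟨Finset.mem_union_right _ hh, hlt⟩)
          refine (norm_add_le _ _).trans ?_
          linarith
        · have b1 : bl h = 0 := (B1 a Fa hFamem n1 h hge).2 (fun hf => hhF (hFaF h hf))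
          rw [b1, hx'0 h hge]
          simp [heps.le]
      · intro k hk hle
        rw [hsum, happ k]
        have hge : a ≤ k.1 := hle k0 hk0
        have b1 : bl k = 0 := (B1 a Fa hFamem n1 k hge).2 (fun hf => hk (hFaF k hf))
        rw [b1, hx'0 k hge, add_zero]

end Pool.Agent.Dia
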