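import Pool.Agent.Work.MP_89a7db_an.Dia.Amb
import Pool.Agent.Work.MP_89a7db_an.Dia.InterpAbs

/-!
# Cell DIAM, module M3: interpolation (1.4)
-/

set_option autoImplicit false
set_option linter.unusedSectionVars false

namespace Pool.Agent.DIAM

open Set Filter Topology Pool.Agent.Dia
open scoped ENNReal

noncomputable section

variable {W : Type} [LinearOrder W]
variable {Z : W × ℕ → Type} [∀ k, NormedAddCommGroup (Z k)] [∀ k, NormedSpace ℝ (Z k)]
  [∀ k, CompleteSpace (Z k)]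

namespace Itp

/-! ### `T_b` and `P_b` are continuous for bounded pointwise convergence -/

theorem T_tendsto {b : W} (d : Datum Z b) (x : ℕ → L Z) (y : L Z) (C : ℝ)
    (hC : ∀ N, ‖x N‖ ≤ C)
    (hlim' : ∀ k : W × ℕ, k.1 = b → Tendsto (fun N => x N k) atTop (𝓝 (y k))) (k : W × ℕ) :
    Tendsto (fun N => d.T (x N) k) atTop (𝓝 (d.T y k)) := by
  simp only [Datum.T_apply]
  refine tendsto_tsum_of_dominated_convergence (bound := fun m => C * ‖d.w m k‖)
    ((d.w2 k).mul_left C) ?_ ?_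
  · intro m
    have h1 : Tendsto (fun N => d.th m (x N)) atTop (𝓝 (d.th m y)) := by
      simp only [Datum.th_apply]
      exact ((d.θ m).continuous.tendsto _).comp (hlim' (b, d.i m) rfl)
    exact h1.smul_const _
  · refine Eventually.of_forall fun N m => ?_
    rw [norm_smul]
    gcongr
    exact (d.abs_th_le m (x N)).trans ((norm_coord_le _ _).trans (hC N))

theorem P_apply' {b : W} (d : Datum Z b) (x : L Z) (k : W × ℕ) :
    d.P x k = x k - (cut (geS b) x k + d.T x k) := by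
  simp [Datum.P, Datum.A]

theorem P_tendsto {b : W} (d : Datum Z b) (x : ℕ → L Z) (y : L Z) (C : ℝ)
    (hC : ∀ N, ‖x N‖ ≤ C) (hlim : ∀ k : W × ℕ, Tendsto (fun N => x N k) atTop (𝓝 (y k)))
    (k : W × ℕ) : Tendsto (fun N => d.P (x N) k) atTop (𝓝 (d.P y k)) := by
  simp only [P_apply']
  refine (hlim k).sub (Tendsto.add ?_ ?_)
  · simp only [cut_apply]
    split_ifs
    · exact hlim k
    · exact tendsto_const_nhds
  · exact T_tendsto d x y C hC (fun k _ => hlim k) k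

/-- If `x` is the pointwise limit of a bounded sequence of elements of `ker P_b`, then
`P_b x = 0`. -/
theorem P_eq_zero_of_tendsto {b : W} (d : Datum Z b) (x : ℕ → L Z) (y : L Z) (C : ℝ)
    (hC : ∀ N, ‖x N‖ ≤ C) (hlim : ∀ k : W × ℕ, Tendsto (fun N => x N k) atTop (𝓝 (y k)))
    (h0 : ∀ N, d.P (x N) = 0) : d.P y = 0 := by
  apply lp.ext
  funext k
  have h1 := P_tendsto d x y C hC hlim k
  refine tendsto_nhds_unique h1 ?_
  simp only [h0]
  exact tendsto_const_nhds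

/-! ### Supports -/

theorem T_supp {a : W} (d : Datum Z a) (x : L Z) (k : W × ℕ) (hk : a ≤ k.1) : d.T x k = 0 := by
  rw [Datum.T_apply]
  simp [d.supp _ k hk]

theorem J_supp (D : ∀ a, Datum Z a) (j : W × ℕ) (z : Z j) (k : W × ℕ) (hk : j.1 < k.1) :
    J D j z k = 0 := by
  have h1 : J D j z k = sg j z k + (D j.1).T (sg j z) k := by
    simp [J]
  rw [h1, sg_ne j z (by rintro rfl; exact lt_irrefl _ hk), T_supp _ _ k hk.le, add_zero]

/-! ### Blocks -/

theorem J_mem_XS (D : ∀ a, Datum Z a) (k : W × ℕ) (z : Z k) {a : W} (h : k.1 < a) :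
    J D k z ∈ XS D a :=
  Submodule.le_topologicalClosure _ (Submodule.subset_span ⟨k, h, z, rfl⟩)

theorem Jn_mem_XS (D : ∀ a, Datum Z a) (k : W × ℕ) (h0 : CW0 D k.1 (D k.1)) (n : ℕ) (z : Z k)
    {a : W} (h : k.1 < a) : Jn D k n z ∈ XS D a :=
  (XS D a).sub_mem (J_mem_XS D k z h) ((XS D a).sum_mem fun m _ =>
    (XS D a).smul_mem _ (XS_mono D h.le (h0 m)))

/-- The part of stage `< a` of the block. -/
def tl {a : W} (d : Datum Z a) (n : ℕ) (u : L Z) : L Z :=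
  d.T u - ∑ m ∈ Finset.range n, d.th m u • d.w m

theorem block_eq (D : ∀ a, Datum Z a) (a : W) (F : Finset (W × ℕ)) (hF : ∀ k ∈ F, k.1 = a)
    (z : ∀ k, Z k) (n : ℕ) :
    ∑ j ∈ F, Jn D j n (z j) = ∑ j ∈ F, sg j (z j) + tl (D a) n (∑ j ∈ F, sg j (z j)) := by
  have h1 : ∀ j ∈ F, Jn D j n (z j) = sg j (z j) + tl (D a) n (sg j (z j)) := by
    intro j hj
    obtain rfl := hF j hj
    simp only [Jn, J, tl]
    simp [add_sub_assoc]
  rw [Finset.sum_congr rfl h1, Finset.sum_add_distrib]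
  congr 1
  simp only [tl, map_sum]
  rw [Finset.sum_sub_distrib, Finset.sum_comm]
  congr 1
  refine Finset.sum_congr rfl fun m _ => ?_
  rw [Finset.sum_smul]

theorem sum_sg_apply (F : Finset (W × ℕ)) (z : ∀ k, Z k) (k : W × ℕ) :
    ((k ∈ F → (∑ j ∈ F, sg j (z j) : L Z) k = z k) ∧
      (k ∉ F → (∑ j ∈ F, sg j (z j) : L Z) k = 0)) := by
  classical
  have h0 : ∀ (F : Finset (W × ℕ)), (∑ j ∈ F, sg j (z j) : L Z) k = ∑ j ∈ F, (sg j (z j) : L Z) k := by
    intro F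
    rw [lp.coeFn_sum, Finset.sum_apply]
  rw [h0]
  constructor
  · intro hk
    rw [Finset.sum_eq_single_of_mem k hk]
    · exact sg_self k (z k)
    · intro j _ hj
      exact sg_ne j (z j) hj.symm
  · intro hk
    refine Finset.sum_eq_zero fun j hj => ?_
    exact sg_ne j (z j) (by rintro rfl; exact hk hj)

theorem norm_sum_sg_le (F : Finset (W × ℕ)) (z : ∀ k, Z k) {T : ℝ} (hT : 0 ≤ T)
    (hz : ∀ k ∈ F, ‖z k‖ ≤ T) : ‖(∑ j ∈ F, sg j (z j) : L Z)‖ ≤ T := by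
  rw [norm_le_iff _ hT]
  intro k
  by_cases hk : k ∈ F
  · rw [(sum_sg_apply F z k).1 hk]; exact hz k hk
  · rw [(sum_sg_apply F z k).2 hk]; simpa using hT

theorem tl_supp {a : W} (d : Datum Z a) (n : ℕ) (u : L Z) (k : W × ℕ) (hk : a ≤ k.1) :
    tl d n u k = 0 := by
  have h1 : tl d n u k = d.T u k - (∑ m ∈ Finset.range n, d.th m u • d.w m : L Z) k := by
    simp [tl]
  rw [h1, T_supp d u k hk, lp.coeFn_sum, Finset.sum_apply]
  have : ∀ m ∈ Finset.range n, (d.th m u • d.w m : L Z) k = 0 := by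
    intro m _
    rw [lp.coeFn_smul]
    show d.th m u • d.w m k = 0
    rw [d.supp m k hk, smul_zero]
  rw [Finset.sum_eq_zero this, sub_zero]

theorem sum_smul_apply (s : Finset ℕ) (t : ℕ → ℝ) (w : ℕ → L Z) (k : W × ℕ) :
    (∑ m ∈ s, t m • w m : L Z) k = ∑ m ∈ s, t m • w m k := by
  rw [lp.coeFn_sum, Finset.sum_apply]
  exact Finset.sum_congr rfl fun m _ => by rw [lp.coeFn_smul]; rfl

theorem tl_tendsto {a : W} (d : Datum Z a) (n : ℕ) (u : L Z) (k : W × ℕ) :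
    Tendsto (fun N => ∑ m ∈ Finset.range N, (if n ≤ m then d.th m u else 0) • d.w m k) atTop
      (𝓝 (tl d n u k)) := by
  have hs : Summable fun m => d.th m u • d.w m k := (d.summable u k).of_norm
  have h1 := hs.hasSum.tendsto_sum_nat
  have h2 : tl d n u k = (∑' m, d.th m u • d.w m k)
      - ∑ m ∈ Finset.range n, d.th m u • d.w m k := by
    have h3 : tl d n u k = d.T u k - (∑ m ∈ Finset.range n, d.th m u • d.w m : L Z) k := by
      simp [tl]
    rw [h3, sum_smul_apply, Datum.T_apply]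
  rw [h2]
  refine (h1.sub_const _).congr' ?_
  filter_upwards [eventually_ge_atTop n] with N hN
  rw [sub_eq_iff_eq_add, ← Finset.sum_range_add_sum_Ico _ hN, ← Finset.sum_range_add_sum_Ico _ hN]
  have h4 : ∑ m ∈ Finset.range n, (if n ≤ m then d.th m u else 0) • d.w m k = 0 := by
    refine Finset.sum_eq_zero fun m hm => ?_
    have : ¬ n ≤ m := by
      have := Finset.mem_range.1 hm
      omega
    simp [this]
  have h5 : ∑ m ∈ Finset.Ico n N, (if n ≤ m then d.th m u else 0) • d.w m k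
      = ∑ m ∈ Finset.Ico n N, d.th m u • d.w m k := by
    refine Finset.sum_congr rfl fun m hm => ?_
    simp [(Finset.mem_Ico.1 hm).1]
  rw [h4, h5, zero_add, add_comm]

/-- `P_q` of the tail vanishes when `P_q w_m = 0` for `m ≥ n`. -/
theorem P_tl_eq_zero {a q : W} (d : Datum Z a) (e : Datum Z q) (n : ℕ) (u : L Z)
    (h : ∀ m ≥ n, e.P (d.w m) = 0) : e.P (tl d n u) = 0 := by
  refine P_eq_zero_of_tendsto e
    (fun N => ∑ m ∈ Finset.range N, (if n ≤ m then d.th m u else 0) • d.w m) _ ‖u‖ ?_ ?_ ?_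
  · intro N
    refine d.w1' N _ (norm_nonneg u) fun m => ?_
    split_ifs
    · exact (d.abs_th_le m u).trans (norm_coord_le _ _)
    · simp
  · intro k
    refine (tl_tendsto d n u k).congr fun N => ?_
    rw [sum_smul_apply]
  · intro N
    rw [map_sum]
    refine Finset.sum_eq_zero fun m _ => ?_
    rw [map_smul]
    by_cases hm : n ≤ m
    · rw [h m hm, smul_zero]
    · simp [hm]

/-- `P_q u = 0` when `u` is supported at the stages `> q`. -/
theorem P_eq_zero_of_supp {q : W} (e : Datum Z q) (u : L Z) (hu : ∀ k : W × ℕ, k.1 ≤ q → u k = 0) :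
    e.P u = 0 := by
  apply lp.ext
  funext k
  rw [P_apply']
  have hT : e.T u k = 0 := by
    rw [Datum.T_apply]
    have : ∀ m, e.th m u • e.w m k = 0 := by
      intro m
      rw [Datum.th_apply, hu (q, e.i m) le_rfl, map_zero, zero_smul]
    simp [this]
  rw [hT, cut_apply]
  by_cases hk : k ∈ geS q
  · simp [hk]
  · have : k.1 ≤ q := le_of_not_ge hk
    simp [hk, hu k this]

end Itp

open Itp

/-- **M3, interpolation (1.4).** -/
theorem interp (D : ∀ a, Datum Z a) (z : ∀ k, Z k) {T : ℝ} (hT : 0 < T)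
    (F : Finset (W × ℕ)) (h0 : ∀ k ∈ F, CW0 D k.1 (D k.1)) (h3 : ∀ k ∈ F, CW3 D k.1 (D k.1))
    (h4 : ∀ k ∈ F, CW4 D k.1 (D k.1)) (hz : ∀ k ∈ F, ‖z k‖ ≤ T)
    (yy : Finset (L Z)) (b : W) (hb : ∀ k ∈ F, b ≤ k.1) (hyy : ∀ y ∈ yy, y ∈ XS D b)
    (Q : Finset W) (hQ : ∀ q ∈ Q, ∀ k ∈ F, q < k.1) (H : Finset (W × ℕ)) (hH : Disjoint H F)
    (ε : ℝ) (hε : 0 < ε) (n0 : ℕ) :
    ∃ n : W × ℕ → ℕ, (∀ k, n0 ≤ n k) ∧
      (∀ a, (∀ k ∈ F, k.1 < a) → ∑ j ∈ F, Jn D j (n j) (z j) ∈ XS D a) ∧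
      (∀ q ∈ Q, (D q).P (∑ j ∈ F, Jn D j (n j) (z j)) = 0) ∧
      (∀ y ∈ yy, ‖y + ∑ j ∈ F, Jn D j (n j) (z j)‖ ≤ max ‖y‖ T + ε ∧
        ‖y - ∑ j ∈ F, Jn D j (n j) (z j)‖ ≤ max ‖y‖ T + ε) ∧
      ‖∑ j ∈ F, Jn D j (n j) (z j)‖ ≤ T + ε ∧
      (∀ k ∈ F, ‖(∑ j ∈ F, Jn D j (n j) (z j) : L Z) k - z k‖ ≤ ε) ∧
      (∀ h ∈ H, ‖(∑ j ∈ F, Jn D j (n j) (z j) : L Z) h‖ ≤ ε) ∧
      (∀ k : W × ℕ, k ∉ F → (∀ j ∈ F, j.1 ≤ k.1) →
        (∑ j ∈ F, Jn D j (n j) (z j) : L Z) k = 0) := by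
  classical
  have key := interp_of_blocks (Z := Z) (fun a => XS D a) (fun a b h => XS_mono D h)
    (fun a x hx k hk => XS_supp D hx hk) (fun q => ((D q).P : L Z →ₗ[ℝ] L Z))
    (fun k n z => Jn D k n z) (T := T) z
    {a | CW0 D a (D a) ∧ CW3 D a (D a) ∧ CW4 D a (D a)}
    ?_ ?_ ?_ ?_ ?_ F (fun k hk => ⟨h0 k hk, h3 k hk, h4 k hk⟩) hz (insert 0 yy) b hb ?_ Q hQ H hH
    ε hε n0
  · obtain ⟨n, c1, c2, c3, c4, c5, c6, c7⟩ := key
    refine ⟨n, c1, c2, c3, fun y hy => c4 y (Finset.mem_insert_of_mem hy), ?_, c5, c6, c7⟩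
    have := (c4 0 (Finset.mem_insert_self _ _)).1
    rw [zero_add, norm_zero, max_eq_right hT.le] at this
    exact this
  · -- B1
    intro a F hF n k hk
    have e1 : (∑ j ∈ F, Jn D j n (z j) : L Z) k = (∑ j ∈ F, sg j (z j) : L Z) k := by
      rw [block_eq D a F hF z n, lp.coeFn_add]
      show (∑ j ∈ F, sg j (z j) : L Z) k + tl (D a) n (∑ j ∈ F, sg j (z j)) k = _
      rw [tl_supp _ _ _ k hk, add_zero]
    rw [e1]
    exact sum_sg_apply F z k
  · -- B2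
    rintro a ⟨-, -, hw4⟩ F hF hzF y hy eps heps
    set u : L Z := ∑ j ∈ F, sg j (z j) with hu
    obtain ⟨m0, hm0⟩ := hw4 y hy T hT eps heps
    filter_upwards [eventually_ge_atTop m0] with n hn
    rw [block_eq D a F hF z n, ← hu]
    have hun : ‖u‖ ≤ T := norm_sum_sg_le F z hT.le hzF
    have ht : ∀ m, |(D a).th m u| ≤ T := fun m =>
      ((D a).abs_th_le m u).trans ((norm_coord_le _ _).trans hun)
    have huS : ∀ k : W × ℕ, k.1 < a → u k = 0 := by
      intro k hk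
      refine (sum_sg_apply F z k).2 fun hkF => ?_
      exact absurd (hF k hkF) hk.ne
    constructor
    · refine block_norm (ltS a) (D a).w y (u + tl (D a) n u) (fun m => (D a).th m u) hT.le heps.le
        ht n (fun N hN s hs => hm0 n hn N hN s hs) ?_ ?_
      · intro k hk
        have e1 : (u + tl (D a) n u) k = tl (D a) n u k := by
          rw [lp.coeFn_add]
          show u k + tl (D a) n u k = _
          rw [huS k hk, zero_add]
        rw [e1]
        exact tl_tendsto (D a) n u k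
      · intro k hk
        have hk' : a ≤ k.1 := not_lt.1 hk
        refine ⟨XS_supp D hy hk', ?_⟩
        rw [lp.coeFn_add]
        show ‖u k + tl (D a) n u k‖ ≤ T
        rw [tl_supp _ _ _ k hk', add_zero]
        exact (norm_coord_le _ _).trans hun
    · have e2 : y - (u + tl (D a) n u) = y + (-(u + tl (D a) n u)) := sub_eq_add_neg _ _
      rw [e2]
      refine block_norm (ltS a) (D a).w y (-(u + tl (D a) n u)) (fun m => - (D a).th m u)
        hT.le heps.le (fun m => by rw [abs_neg]; exact ht m) n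
        (fun N hN s hs => hm0 n hn N hN s hs) ?_ ?_
      · intro k hk
        have e1 : (-(u + tl (D a) n u)) k = - tl (D a) n u k := by
          rw [lp.coeFn_neg, lp.coeFn_add]
          show -(u k + tl (D a) n u k) = _
          rw [huS k hk, zero_add]
        rw [e1]
        refine (tl_tendsto (D a) n u k).neg.congr fun N => ?_
        rw [← Finset.sum_neg_distrib]
        refine Finset.sum_congr rfl fun m _ => ?_
        split_ifs <;> simp
      · intro k hk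
        have hk' : a ≤ k.1 := not_lt.1 hk
        refine ⟨XS_supp D hy hk', ?_⟩
        rw [lp.coeFn_neg, lp.coeFn_add]
        show ‖-(u k + tl (D a) n u k)‖ ≤ T
        rw [tl_supp _ _ _ k hk', add_zero, norm_neg]
        exact (norm_coord_le _ _).trans hun
  · -- B3
    intro a F hF hzF k hk eps heps
    set u : L Z := ∑ j ∈ F, sg j (z j) with hu
    have hun : ‖u‖ ≤ T := norm_sum_sg_le F z hT.le hzF
    have ht : ∀ m, |(D a).th m u| ≤ T := fun m =>
      ((D a).abs_th_le m u).trans ((norm_coord_le _ _).trans hun)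
    have huS : u k = 0 := by
      refine (sum_sg_apply F z k).2 fun hkF => ?_
      exact absurd (hF k hkF) hk.ne
    have := block_small (D a).w k (fun n => tl (D a) n u k) (fun m => (D a).th m u) hT.le heps ht
      ((D a).w2 k) (fun n => tl_tendsto (D a) n u k)
    filter_upwards [this] with n hn
    rw [block_eq D a F hF z n, ← hu, lp.coeFn_add]
    show ‖u k + tl (D a) n u k‖ ≤ eps
    rw [huS, zero_add]
    exact hn
  · -- B4
    rintro a ⟨-, hw3, -⟩ F hF q hq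
    obtain ⟨m0, hm0⟩ := hw3 q hq
    filter_upwards [eventually_ge_atTop m0] with n hn
    rw [block_eq D a F hF z n, map_add]
    have e1 : (D q).P (∑ j ∈ F, sg j (z j)) = 0 := by
      refine P_eq_zero_of_supp _ _ fun k hk => ?_
      refine (sum_sg_apply F z k).2 fun hkF => ?_
      rw [hF k hkF] at hk
      exact absurd hq (not_lt.2 hk)
    have e2 : (D q).P (tl (D a) n (∑ j ∈ F, sg j (z j))) = 0 :=
      P_tl_eq_zero (D a) (D q) n _ fun m hm => hm0 m (hn.trans hm)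
    show (D q).P (∑ j ∈ F, sg j (z j)) + (D q).P (tl (D a) n (∑ j ∈ F, sg j (z j))) = 0
    rw [e1, e2, add_zero]
  · -- B5
    rintro k n a ⟨hw0, -, -⟩ hka
    exact Jn_mem_XS D k hw0 n (z k) hka
  · intro y hy
    rcases Finset.mem_insert.1 hy with rfl | hy
    · exact (XS D b).zero_mem
    · exact hyy y hy

/-- The weak form used for the duality (`Interp0`): values in the unit balls at given points. -/
theorem interp_ball (D : ∀ a, Datum Z a) (h0 : ∀ a, CW0 D a (D a)) (h3 : ∀ a, CW3 D a (D a))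
    (h4 : ∀ a, CW4 D a (D a)) (F : Finset (W × ℕ)) (z : ∀ k, Z k) (hz : ∀ k, ‖z k‖ ≤ 1)
    (ε : ℝ) (hε : 0 < ε) (n0 : ℕ) :
    ∃ n : W × ℕ → ℕ, (∀ k, n0 ≤ n k) ∧ ‖∑ k ∈ F, Jn D k (n k) (z k)‖ ≤ 1 + ε ∧
      ∀ k ∈ F, ‖(∑ j ∈ F, Jn D j (n j) (z j) : L Z) k - z k‖ ≤ ε := by
  classical
  rcases F.eq_empty_or_nonempty with rfl | hne
  · refine ⟨fun _ => n0, fun _ => le_rfl, ?_, ?_⟩
    · simp only [Finset.sum_empty, norm_zero]
      linarith
    · intro k hk
      simp at hk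
  · obtain ⟨k0, hk0, hmin⟩ := Finset.exists_min_image F Prod.fst hne
    obtain ⟨n, c1, -, -, -, c5, c6, -, -⟩ := interp D z one_pos F (fun k _ => h0 _)
      (fun k _ => h3 _) (fun k _ => h4 _) (fun k _ => hz k) ∅ k0.1 hmin (by simp) ∅ (by simp) ∅
      (by simp) ε hε n0
    exact ⟨n, c1, c5, c6⟩

/-- The same, with an element of `X` (`Interp`). -/
theorem interp_XX [NoMaxOrder W] [Nonempty W] (D : ∀ a, Datum Z a) (h0 : ∀ a, CW0 D a (D a))
    (h3 : ∀ a, CW3 D a (D a)) (h4 : ∀ a, CW4 D a (D a)) (F : Finset (W × ℕ)) (z : ∀ k, Z k)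
    (hz : ∀ k, ‖z k‖ ≤ 1) (ε : ℝ) (hε : 0 < ε) :
    ∃ x ∈ XX D, ‖x‖ ≤ 1 + ε ∧ ∀ k ∈ F, ‖x k - z k‖ ≤ ε := by
  classical
  obtain ⟨n, -, h2, h3'⟩ := interp_ball D h0 h3 h4 F z hz ε hε 0
  refine ⟨_, ?_, h2, h3'⟩
  refine (XX D).sum_mem fun k _ => ?_
  obtain ⟨a, ha⟩ := exists_gt k.1
  exact XS_le_XX D a (Jn_mem_XS D k (h0 _) _ _ ha)

/-- The form used in the recursion and for the light extension: one vector `v` with prescribed
values, bounded by `κ ≥ 0`, at the points of `F`. -/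
theorem interp_vec (D : ∀ a, Datum Z a) {κ : ℝ} (hκ : 0 ≤ κ) (F : Finset (W × ℕ))
    (h0 : ∀ k ∈ F, CW0 D k.1 (D k.1)) (h3 : ∀ k ∈ F, CW3 D k.1 (D k.1))
    (h4 : ∀ k ∈ F, CW4 D k.1 (D k.1)) (u : ∀ k, Z k) (hu : ∀ k ∈ F, ‖u k‖ ≤ κ)
    (yy : Finset (L Z)) (b : W) (hb : ∀ k ∈ F, b ≤ k.1) (hyy : ∀ y ∈ yy, y ∈ XS D b)
    (Q : Finset W) (hQ : ∀ q ∈ Q, ∀ k ∈ F, q < k.1) (H : Finset (W × ℕ)) (hH : Disjoint H F)
    (ε : ℝ) (hε : 0 < ε) (ε' : ℝ) (hε' : 0 < ε') :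
    ∃ v : L Z, (∀ a, (∀ k ∈ F, k.1 < a) → v ∈ XS D a) ∧ (∀ q ∈ Q, (D q).P v = 0) ∧
      (∀ y ∈ yy, ‖y + v‖ ≤ max ‖y‖ κ + ε ∧ ‖y - v‖ ≤ max ‖y‖ κ + ε) ∧ ‖v‖ ≤ κ + ε ∧
      (∀ k ∈ F, ‖v k - u k‖ ≤ ε') ∧ (∀ h ∈ H, ‖v h‖ ≤ ε) := by
  set δ := min (ε / 2) ε' with hδ
  have hδ0 : 0 < δ := lt_min (by linarith) hε'
  have hδ1 : δ ≤ ε / 2 := min_le_left _ _
  have hδ2 : δ ≤ ε' := min_le_right _ _
  have hT : 0 < κ + ε / 2 := by linarith
  obtain ⟨n, -, c2, c3, c4, c5, c6, c7, -⟩ := interp D u hT F h0 h3 h4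
    (fun k hk => (hu k hk).trans (by linarith)) yy b hb hyy Q hQ H hH δ hδ0 0
  refine ⟨_, c2, c3, ?_, by linarith, fun k hk => (c6 k hk).trans hδ2,
    fun h hh => (c7 h hh).trans (by linarith)⟩
  intro y hy
  have hm : max ‖y‖ (κ + ε / 2) ≤ max ‖y‖ κ + ε / 2 := by
    refine max_le ?_ ?_
    · have := le_max_left ‖y‖ κ
      linarith
    · have := le_max_right ‖y‖ κ
      linarith
  obtain ⟨h1, h2⟩ := c4 y hy
  constructor <;> linarith

end

end Pool.Agent.DIAM
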