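import Pool.Agent.Work.MP_89a7db_an.Dia.LimAbs
import Pool.Agent.Work.MP_89a7db_an.Dia.Interp
import Pool.Agent.Work.MP_89a7db_an.Dia.Amb

/-!
MP_89a7db_an, module M6: the datum at a limit stage.
-/

set_option autoImplicit false
set_option linter.unusedSectionVars false

namespace Pool.Agent.DIAM.LimS

open Set Filter Topology Pool.Agent.Dia Pool.Agent.DIAM
open scoped ENNReal

noncomputable section

variable {W : Type} [LinearOrder W]
variable {Z : W × ℕ → Type} [∀ k, NormedAddCommGroup (Z k)] [∀ k, NormedSpace ℝ (Z k)]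
  [∀ k, CompleteSpace (Z k)]

/-! ### elements of `X_a` at a limit stage -/

theorem exists_gt_lim {a : W} (ha : IsLim a) {S : Set W} (hS : S.Finite) (h : ∀ x ∈ S, x < a) :
    ∃ c < a, ∀ x ∈ S, x < c := by
  obtain ⟨c, hc, h1⟩ := exists_ub_lt ha.1 hS h
  obtain ⟨c', h2, h3⟩ := ha.2 c hc
  exact ⟨c', h3, fun x hx => (h1 x hx).trans_lt h2⟩

theorem XS_approx (D : ∀ a, Datum Z a) {a : W} (ha : IsLim a) {x : L Z} (hx : x ∈ XS D a)
    (ε : ℝ) (hε : 0 < ε) : ∃ c < a, ∃ x' ∈ XS D c, ‖x - x'‖ < ε := by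
  have hx' : x ∈ closure ((Submodule.span ℝ {x | ∃ k : W × ℕ, k.1 < a ∧ ∃ z : Z k, x = J D k z} :
      Submodule ℝ (L Z)) : Set (L Z)) := hx
  rw [Metric.mem_closure_iff] at hx'
  obtain ⟨x', h1, h2⟩ := hx' ε hε
  rw [dist_eq_norm] at h2
  suffices h : ∃ c < a, x' ∈ XS D c by
    obtain ⟨c, hc, h3⟩ := h
    exact ⟨c, hc, x', h3, h2⟩
  clear h2
  induction h1 using Submodule.span_induction with
  | mem y hy =>
    obtain ⟨k, hk, z, rfl⟩ := hy
    obtain ⟨c, hc1, hc2⟩ := ha.2 k.1 hk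
    exact ⟨c, hc2, J_mem D hc1 z⟩
  | zero =>
    obtain ⟨b, hb⟩ := ha.1
    exact ⟨b, hb, (XS D b).zero_mem⟩
  | add y z _ _ h1 h2 =>
    obtain ⟨c, hc, h3⟩ := h1
    obtain ⟨c', hc', h4⟩ := h2
    exact ⟨max c c', max_lt hc hc', (XS D _).add_mem (XS_mono D (le_max_left _ _) h3)
      (XS_mono D (le_max_right _ _) h4)⟩
  | smul r y _ h1 =>
    obtain ⟨c, hc, h3⟩ := h1
    exact ⟨c, hc, (XS D c).smul_mem r h3⟩

theorem exists_dense_seq (D : ∀ a, Datum Z a) {a : W} (hne : ∃ b, b < a)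
    (hcount : (Set.Iio a).Countable)
    (hsep : ∀ c < a, TopologicalSpace.IsSeparable (XS D c : Set (L Z))) :
    ∃ y : ℕ → L Z, (∀ j, ∃ c < a, y j ∈ XS D c) ∧
      ∀ c < a, ∀ x ∈ XS D c, ∀ ε : ℝ, 0 < ε → ∃ j, ‖x - y j‖ < ε := by
  obtain ⟨q, hq⟩ := hcount.exists_eq_range hne
  have hq1 : ∀ j, q j < a := fun j => by
    have : q j ∈ Set.range q := ⟨j, rfl⟩
    rw [← hq] at this; exact this
  have hdense : ∀ j : ℕ, ∃ f : ℕ → L Z, (∀ i, f i ∈ XS D (q j)) ∧
      ∀ x ∈ XS D (q j), ∀ ε : ℝ, 0 < ε → ∃ i, ‖x - f i‖ < ε := by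
    intro j
    obtain ⟨c, hc1, hc2, hc3⟩ := (hsep (q j) (hq1 j)).exists_countable_dense_subset
    have hne : c.Nonempty := by
      have h0 : (0 : L Z) ∈ closure c := hc3 (XS D _).zero_mem
      exact closure_nonempty_iff.1 ⟨0, h0⟩
    obtain ⟨f, hf⟩ := hc2.exists_eq_range hne
    refine ⟨f, fun i => hc1 (hf ▸ mem_range_self i), fun x hx ε hε => ?_⟩
    have h1 := hc3 hx
    rw [hf, Metric.mem_closure_range_iff] at h1
    obtain ⟨i, hi⟩ := h1 ε hε
    exact ⟨i, by rwa [dist_eq_norm] at hi⟩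
  choose f hf1 hf2 using hdense
  refine ⟨fun n => f (Nat.unpair n).1 (Nat.unpair n).2, fun j => ⟨_, hq1 _, hf1 _ _⟩, ?_⟩
  intro c hc x hx ε hε
  have hc' : c ∈ Set.Iio a := hc
  rw [hq] at hc'
  obtain ⟨j, rfl⟩ := hc'
  obtain ⟨i, hi⟩ := hf2 j x hx ε hε
  exact ⟨Nat.pair j i, by simpa using hi⟩

/-! ### tails -/

theorem tsum_tail_le {f : ℕ → ℝ} {M : ℕ} (h0 : ∀ l, 0 ≤ f l) (h1 : ∀ l ≤ M, f l = 0)
    (h2 : ∀ l, M < l → f l ≤ (1 / 2 : ℝ) ^ l) : Summable f ∧ ∑' l, f l ≤ (1 / 2 : ℝ) ^ M := by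
  have hs : Summable f := by
    refine Summable.of_nonneg_of_le h0 (fun l => ?_) summable_geometric_two
    rcases le_or_gt l M with h | h
    · rw [h1 l h]; positivity
    · exact h2 l h
  refine ⟨hs, ?_⟩
  have h3 : ∑' l, f l = ∑' l, f (l + (M + 1)) := by
    rw [← hs.sum_add_tsum_nat_add (M + 1)]
    rw [Finset.sum_eq_zero fun i hi => h1 i (by have := Finset.mem_range.1 hi; omega), zero_add]
  rw [h3]
  have hg : Summable fun l : ℕ => (1 / 2 : ℝ) ^ (l + (M + 1)) := by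
    simpa [pow_add] using (summable_geometric_two).mul_right ((1 / 2 : ℝ) ^ (M + 1))
  refine (Summable.tsum_le_tsum (fun l => h2 _ (by omega)) ((summable_nat_add_iff (M + 1)).2 hs)
    hg).trans ?_
  simp_rw [pow_add]
  rw [tsum_mul_right, tsum_geometric_two]
  exact le_of_eq (by ring)

/-! ### the tasks -/

/-- (T1)-tasks -/
abbrev Task1 (a : W) := ℕ × ℕ × Finset {k : W × ℕ // k.1 < a} ×
  Finset {u : (W × ℕ) × ℕ × ℚ × ℚ // u.1.1 < a} × ℚ × ℚ

/-- tasks at the stage `a` -/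
abbrev Task (a : W) := (ℕ × ℕ) ⊕ Task1 a

theorem countable_coord {a : W} (hcount : (Set.Iio a).Countable) :
    Countable {k : W × ℕ // k.1 < a} := by
  have : {k : W × ℕ | k.1 < a} = Set.Iio a ×ˢ (Set.univ : Set ℕ) := by
    ext k; simp
  have h2 : ({k : W × ℕ | k.1 < a}).Countable := by
    rw [this]; exact hcount.prod Set.countable_univ
  exact h2.to_subtype

theorem countable_task {a : W} (hcount : (Set.Iio a).Countable) : Countable (Task a) := by
  have h1 := countable_coord hcount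
  have h2 : Countable {u : (W × ℕ) × ℕ × ℚ × ℚ // u.1.1 < a} := by
    refine Function.Injective.countable (β := {k : W × ℕ // k.1 < a} × ℕ × ℚ × ℚ)
      (f := fun u => (⟨u.1.1, u.2⟩, u.1.2)) ?_
    rintro ⟨⟨k, r⟩, hu⟩ ⟨⟨k', r'⟩, hu'⟩ h
    simp only [Prod.mk.injEq, Subtype.mk.injEq] at h
    simp only [Subtype.mk.injEq, Prod.mk.injEq]
    exact h
  infer_instance

/-- the coordinate index and the functional index of a task -/
def Task.idx {a : W} : Task a → ℕ × ℕ
  | Sum.inl x => x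
  | Sum.inr x => (x.1, x.2.1)

/-- the finite set of coordinates of a (T1)-task -/
def Task1.R {a : W} (τ : Task1 a) : Finset (W × ℕ) := τ.2.2.1.map (Function.Embedding.subtype _)

/-- the basic open set of a (T1)-task -/
def Task1.U {a : W} (τ : Task1 a) : Nbd W := τ.2.2.2.1.map (Function.Embedding.subtype _)

/-- admissible values for a task -/
def TAdm (fb : Fib Z) (gs : W → Lam Z) (a : W) :
    Task a → Finset (W × ℕ) → (∀ k, Z k) → ℝ → Prop
  | Sum.inl _, F, u, _ => ∃ k, F = {k} ∧ ‖u k‖ = 1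
  | Sum.inr τ, F, u, tol => ∃ s < a, ∃ g, Hit fb a g (Task1.R τ) (Task1.U τ) τ.2.2.2.2.1
      τ.2.2.2.2.2 (gs s) F ∧ (τ.2.2.2.2.1 : ℝ) < ∑ k ∈ F, gs s k (u k) ∧
      ∑ k ∈ F, gs s k (u k) ≤ τ.2.2.2.2.1 + 1 ∧
      tol * ∑ k ∈ F, ‖gs s k‖ ≤ ∑ k ∈ F, gs s k (u k) - τ.2.2.2.2.1

theorem norm_res_eq (F : Finset (W × ℕ)) (l : Lam Z) : ‖res (F : Set (W × ℕ)) l‖ = ∑ k ∈ F, ‖l k‖ := by
  classical
  rw [norm_eq_tsum, tsum_eq_sum (s := F)]
  · refine Finset.sum_congr rfl fun k hk => ?_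
    rw [res_apply, if_pos (by exact_mod_cast hk)]
  · intro k hk
    rw [res_apply, if_neg (by exact_mod_cast hk), norm_zero]

theorem pair_res_eq (F : Finset (W × ℕ)) (l : Lam Z) (x : L Z) :
    pair (res (F : Set (W × ℕ)) l) x = ∑ k ∈ F, l k (x k) := by
  classical
  rw [pair_apply, tsum_eq_sum (s := F)]
  · refine Finset.sum_congr rfl fun k hk => ?_
    rw [res_apply, if_pos (by exact_mod_cast hk)]
  · intro k hk
    rw [res_apply, if_neg (by exact_mod_cast hk)]
    rfl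

/-- almost norming vectors, with a bounded value -/
theorem exists_norming (F : Finset (W × ℕ)) (l : ∀ k, StrongDual ℝ (Z k)) {c : ℝ} (hc : 0 < c)
    (h : c < ∑ k ∈ F, ‖l k‖) : ∃ u : ∀ k, Z k, (∀ k ∈ F, ‖u k‖ ≤ 1) ∧
      c < ∑ k ∈ F, l k (u k) ∧ ∑ k ∈ F, l k (u k) ≤ c + 1 := by
  classical
  have h1 : ∀ (k : W × ℕ) (η : ℝ), 0 < η → ∃ z : Z k, ‖z‖ ≤ 1 ∧ ‖l k‖ - η < l k z := by
    intro k η hη
    by_cases hneg : ‖l k‖ - η < 0
    · exact ⟨0, by simp, by simpa using hneg⟩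
    · obtain ⟨z, hz1, hz2⟩ := (l k).exists_lt_apply_of_lt_opNorm
        (show ‖l k‖ - η < ‖l k‖ by linarith)
      rcases le_or_gt 0 (l k z) with hs | hs
      · refine ⟨z, hz1.le, ?_⟩
        rwa [Real.norm_of_nonneg hs] at hz2
      · refine ⟨-z, by rw [norm_neg]; exact hz1.le, ?_⟩
        rw [map_neg]
        rwa [Real.norm_of_nonpos hs.le] at hz2
  set S := ∑ k ∈ F, ‖l k‖ with hS
  set η : ℝ := (S - c) / (2 * (F.card + 1)) with hη
  have hηpos : 0 < η := by
    have : 0 < S - c := by linarith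
    positivity
  choose u hu1 hu2 using fun k => h1 k η hηpos
  have h3 : c < ∑ k ∈ F, l k (u k) := by
    have h4 : ∑ k ∈ F, (‖l k‖ - η) ≤ ∑ k ∈ F, l k (u k) := Finset.sum_le_sum fun k _ => (hu2 k).le
    rw [Finset.sum_sub_distrib, Finset.sum_const, nsmul_eq_mul, ← hS] at h4
    have h5 : (F.card : ℝ) * η < S - c := by
      rw [hη]
      have h6 : 0 < S - c := by linarith
      have h7 : (F.card : ℝ) * ((S - c) / (2 * (F.card + 1)))
          = (S - c) * (F.card / (2 * (F.card + 1))) := by ring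
      rw [h7]
      have h8 : (F.card : ℝ) / (2 * (F.card + 1)) < 1 := by
        rw [div_lt_one (by positivity)]
        have : (0 : ℝ) ≤ F.card := by positivity
        linarith
      nlinarith
    linarith
  set S' := ∑ k ∈ F, l k (u k) with hS'
  by_cases hle : S' ≤ c + 1
  · exact ⟨u, fun k _ => hu1 k, h3, hle⟩
  · push Not at hle
    have hS'pos : 0 < S' := by linarith
    refine ⟨fun k => ((c + 1) / S') • u k, fun k _ => ?_, ?_, ?_⟩
    · rw [norm_smul, Real.norm_of_nonneg (by positivity)]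
      have : (c + 1) / S' ≤ 1 := by rw [div_le_one hS'pos]; exact hle.le
      calc (c + 1) / S' * ‖u k‖ ≤ 1 * 1 := by gcongr; exact hu1 k
        _ = 1 := by norm_num
    all_goals
      have e : ∑ k ∈ F, l k (((c + 1) / S') • u k) = c + 1 := by
        simp_rw [map_smul, smul_eq_mul]
        rw [← Finset.mul_sum, ← hS']
        field_simp
      rw [e]
    · linarith

/-! ### the datum -/

variable {fb : Fib Z} {gs : W → Lam Z} {D : ∀ a, Datum Z a} {a : W}
  {Good : ℕ → (ℕ → L Z) → Prop}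
  {w : ℕ → L Z} {task : ℕ → Task a} {F : ℕ → Finset (W × ℕ)} {u : ℕ → ∀ k, Z k} {tol : ℕ → ℝ}

/-- the datum of the recursion -/
def limDatum (fb : Fib Z) (D : ∀ a, Datum Z a) (a : W) (w : ℕ → L Z) (task : ℕ → Task a)
    (hX : ∀ m, ∃ c < a, w m ∈ XS D c)
    (h1 : ∀ (n : ℕ) (t : ℕ → ℝ), (∀ i, |t i| ≤ 1) → ‖∑ i ∈ Finset.range n, t i • w i‖ ≤ 1)
    (h2 : ∀ k : W × ℕ, k.1 < a → Summable fun m => ‖w m k‖) : Datum Z a where
  w := w
  i m := (task m).idx.1
  θ m := fb.ds (a, (task m).idx.1) (task m).idx.2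
  θ_le m := fb.ds_le _ _
  supp m k hk := by
    obtain ⟨c, hc, h⟩ := hX m
    exact XS_supp D h (hc.le.trans hk)
  w1 := h1
  w2 k := by
    rcases lt_or_ge k.1 a with hk | hk
    · exact h2 k hk
    · have : (fun m => ‖w m k‖) = fun _ => 0 := by
        funext m
        obtain ⟨c, hc, h⟩ := hX m
        rw [XS_supp D h (hc.le.trans hk), norm_zero]
      rw [this]; exact summable_zero

theorem limDatum_th (hX h1 h2) (m : ℕ) {i n : ℕ} (h : (task m).idx = (i, n)) (x : L Z) :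
    (limDatum fb D a w task hX h1 h2).th m x = fb.ds (a, i) n (x (a, i)) := by
  show fb.ds (a, (task m).idx.1) (task m).idx.2 (x (a, (task m).idx.1)) = _
  rw [h]

/-- values of elements of `X_a` on late coordinates -/
theorem small_values (ha : IsLim a) {y : L Z} (hy : y ∈ XS D a) {ε : ℝ} (hε : 0 < ε) :
    ∃ c < a, ∀ k : W × ℕ, c ≤ k.1 → ‖y k‖ ≤ ε := by
  obtain ⟨c, hc, x', hx', h⟩ := XS_approx D ha hy ε hε
  refine ⟨c, hc, fun k hk => ?_⟩
  have h4 : (y - x') k = y k := by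
    rw [lp.coeFn_sub, Pi.sub_apply, XS_supp D hx' hk, sub_zero]
  rw [← h4]
  exact (norm_coord_le _ k).trans h.le

theorem sigma_tendsto : Tendsto (fun m : ℕ => (1 / 2 : ℝ) ^ (m + 3)) atTop (𝓝 0) :=
  (tendsto_pow_atTop_nhds_zero_of_lt_one (by norm_num) (by norm_num)).comp
    (tendsto_add_atTop_nat 3)

theorem half_tendsto : Tendsto (fun m : ℕ => (1 / 2 : ℝ) ^ m) atTop (𝓝 0) :=
  tendsto_pow_atTop_nhds_zero_of_lt_one (by norm_num) (by norm_num)

theorem lim_CT0 [∀ k, Nontrivial (Z k)] (ha : IsLim a)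
    (ho : LimOut a (XS D) (fun b => (D b).P) Good (TAdm fb gs a) w task F u tol) :
    CT0 fb D a (limDatum fb D a w task ho.inX ho.w1 ho.w2) := by
  classical
  intro i n
  have hact : Act a (TAdm fb gs a) (Sum.inl (i, n)) := by
    intro b hb
    have h1 : ∀ k, ∃ z : Z k, ‖z‖ = 1 := fun k => exists_norm_eq (Z k) zero_le_one
    choose v hv using h1
    exact ⟨{(b, 0)}, v, 1, one_pos, by simp [hb], fun k _ => (hv k).le, (b, 0), rfl, hv _⟩
  obtain ⟨φ, hφ, hφτ⟩ := extraction_of_frequently_atTop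
    ((ho.freq (Sum.inl (i, n))).and_eventually (eventually_ge_atTop 1))
  have hadm : ∀ j, ∃ k, F (φ j) = {k} ∧ ‖u (φ j) k‖ = 1 := by
    intro j
    have := ho.adm (φ j)
    rw [(hφτ j).1] at this
    exact this hact
  choose κ hκ hκu using hadm
  have hmem : ∀ j, κ j ∈ F (φ j) := fun j => by rw [hκ j]; exact Finset.mem_singleton_self _
  have hζ : ∀ j, ∃ ζ : StrongDual ℝ (Z (κ j)), ‖ζ‖ ≤ 1 ∧ ζ (u (φ j) (κ j)) = 1 := by
    intro j
    obtain ⟨ζ, h1, h2⟩ := exists_dual_vector'' ℝ (u (φ j) (κ j))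
    exact ⟨ζ, h1, by rw [h2, hκu j]; simp⟩
  choose ζ hζ1 hζ2 using hζ
  have hφge : ∀ j, j ≤ φ j := hφ.id_le
  have hsmallw : ∀ j, ‖w (φ j) (κ j) - (1 - (1 / 2 : ℝ) ^ (φ j + 3)) • u (φ j) (κ j)‖
      ≤ (1 / 2 : ℝ) ^ (φ j) := fun j => (ho.acc (φ j) _ (hmem j)).trans (min_le_right _ _)
  have hzeta : ∀ j (z : Z (κ j)), |ζ j z| ≤ ‖z‖ := fun j z => by
    have := (ζ j).le_of_opNorm_le (hζ1 j) z
    rwa [one_mul] at this
  refine ⟨φ, κ, ζ, hφ, fun j x => limDatum_th _ _ _ _ (by rw [(hφτ j).1]; rfl) x,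
    fun j => ho.Flt _ _ (hmem j), ?_, ?_, hζ1, ?_, ?_, ?_⟩
  · intro g hg
    obtain ⟨m0, hm0⟩ := ho.Fge g hg
    exact ⟨m0, fun j hj => hm0 _ (hj.trans (hφge j)) _ (hmem j)⟩
  · -- injectivity
    have key : ∀ j j', j < j' → κ j ≠ κ j' := by
      intro j j' hjj' heq
      have h0 : w (φ j) (κ j) = 0 := by
        have := ho.before (φ j') (φ j) (hφ hjj') _ (hmem j')
        rw [heq]; exact this
      have h1 := hsmallw j
      rw [h0, zero_sub, norm_neg, norm_smul, hκu j, mul_one] at h1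
      have h2 : 1 ≤ φ j := (hφτ j).2
      have h3 : (1 / 2 : ℝ) ^ (φ j) ≤ 1 / 2 := by
        calc (1 / 2 : ℝ) ^ (φ j) ≤ (1 / 2 : ℝ) ^ 1 :=
              pow_le_pow_of_le_one (by norm_num) (by norm_num) h2
          _ = 1 / 2 := by norm_num
      have h4 : (1 / 2 : ℝ) ^ (φ j + 3) ≤ 1 / 16 := by
        calc (1 / 2 : ℝ) ^ (φ j + 3) ≤ (1 / 2 : ℝ) ^ 4 :=
              pow_le_pow_of_le_one (by norm_num) (by norm_num) (by omega)
          _ = 1 / 16 := by norm_num
      rw [Real.norm_eq_abs] at h1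
      have h5 := le_abs_self (1 - (1 / 2 : ℝ) ^ (φ j + 3))
      linarith
    intro j j' h
    rcases lt_trichotomy j j' with hlt | heq | hgt
    · exact absurd h (key j j' hlt)
    · exact heq
    · exact absurd h.symm (key j' j hgt)
  · intro y hy
    rw [Metric.tendsto_atTop]
    intro ε hε
    obtain ⟨c, hc, h1⟩ := small_values ha hy (half_pos hε)
    obtain ⟨m0, hm0⟩ := ho.Fge c hc
    refine ⟨m0, fun j hj => ?_⟩
    rw [Real.dist_eq, sub_zero]
    have h2 := h1 (κ j) (hm0 _ (hj.trans (hφge j)) _ (hmem j))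
    have h3 := hzeta j (y (κ j))
    linarith
  · have h1 : ∀ j, |ζ j (w (φ j) (κ j)) - 1| ≤ (1 / 2 : ℝ) ^ (φ j) + (1 / 2 : ℝ) ^ (φ j + 3) := by
      intro j
      have e : ζ j (w (φ j) (κ j)) - 1
          = ζ j (w (φ j) (κ j) - (1 - (1 / 2 : ℝ) ^ (φ j + 3)) • u (φ j) (κ j))
            - (1 / 2 : ℝ) ^ (φ j + 3) := by
        rw [map_sub, map_smul, hζ2 j, smul_eq_mul, mul_one]; ring
      rw [e]
      refine (abs_sub _ _).trans ?_
      rw [abs_of_pos (show (0 : ℝ) < (1 / 2 : ℝ) ^ (φ j + 3) by positivity)]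
      gcongr
      exact (hzeta j _).trans (hsmallw j)
    have h2 : Tendsto (fun j => (1 / 2 : ℝ) ^ (φ j) + (1 / 2 : ℝ) ^ (φ j + 3)) atTop (𝓝 0) := by
      have := (half_tendsto.comp hφ.tendsto_atTop).add (sigma_tendsto.comp hφ.tendsto_atTop)
      simpa using this
    rw [tendsto_iff_norm_sub_tendsto_zero]
    exact squeeze_zero (fun _ => norm_nonneg _) (fun j => h1 j) h2
  · refine squeeze_zero (fun j => tsum_nonneg fun l => ?_) (fun j => ?_)
      (half_tendsto.comp hφ.tendsto_atTop)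
    · split_ifs
      · exact le_rfl
      · exact abs_nonneg _
    · refine (tsum_tail_le (M := φ j) (fun l => ?_) (fun l hl => ?_) (fun l hl => ?_)).2
      · split_ifs
        · exact le_rfl
        · exact abs_nonneg _
      · rcases hl.lt_or_eq with hl | hl
        · rw [if_neg hl.ne]
          have := ho.before (φ j) l hl _ (hmem j)
          show |ζ j (w l (κ j))| = 0
          rw [this, map_zero, abs_zero]
        · rw [if_pos hl]
      · rw [if_neg hl.ne']
        exact (hzeta j _).trans (ho.after (φ j) l hl _ (hmem j))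

theorem lim_CT1 (ha : IsLim a)
    (ho : LimOut a (XS D) (fun b => (D b).P) Good (TAdm fb gs a) w task F u tol) :
    CT1 fb gs D a (limDatum fb D a w task ho.inX ho.w1 ho.w2) := by
  classical
  intro i n R U c ε hR hU hc hε hactive
  set τ : Task1 a := (i, n, R.subtype _, U.subtype _, c, ε) with hτ
  have hτR : Task1.R τ = R := by
    rw [Task1.R, hτ]
    show (R.subtype _).map (Function.Embedding.subtype _) = R
    rw [Finset.subtype_map]
    exact Finset.filter_true_of_mem hR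
  have hτU : Task1.U τ = U := by
    rw [Task1.U, hτ]
    show (U.subtype _).map (Function.Embedding.subtype _) = U
    rw [Finset.subtype_map]
    exact Finset.filter_true_of_mem hU
  have hc' : (0 : ℝ) < c := by exact_mod_cast hc
  have hact : Act a (TAdm fb gs a) (Sum.inr τ) := by
    intro b hb
    obtain ⟨s, hs, F', hF'⟩ := hactive b hb
    have hbig := hF'.big
    rw [norm_res_eq] at hbig
    obtain ⟨v, hv1, hv2, hv3⟩ := exists_norming F' (fun k => gs s k) hc' hbig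
    set S := ∑ k ∈ F', gs s k (v k) with hS
    have hN : 0 ≤ ∑ k ∈ F', ‖gs s k‖ := Finset.sum_nonneg fun _ _ => norm_nonneg _
    refine ⟨F', v, (S - c) / (1 + ∑ k ∈ F', ‖gs s k‖), ?_, hF'.stage, hv1, s, hs, b, ?_, hv2, hv3,
      ?_⟩
    · have : 0 < S - c := by linarith
      positivity
    · rw [hτR, hτU]; exact hF'
    · have h1 : 0 < S - c := by linarith
      show (S - c) / (1 + ∑ k ∈ F', ‖gs s k‖) * ∑ k ∈ F', ‖gs s k‖ ≤ S - c
      rw [div_mul_eq_mul_div, div_le_iff₀ (by positivity)]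
      nlinarith
  obtain ⟨φ, hφ, hφτ⟩ := extraction_of_frequently_atTop (ho.freq (Sum.inr τ))
  have hadm : ∀ j, TAdm fb gs a (Sum.inr τ) (F (φ j)) (u (φ j)) (tol (φ j)) := by
    intro j
    have := ho.adm (φ j)
    rw [hφτ j] at this
    exact this hact
  have hadm' : ∀ j, ∃ s < a, ∃ g, Hit fb a g R U c ε (gs s) (F (φ j)) ∧
      (c : ℝ) < ∑ k ∈ F (φ j), gs s k (u (φ j) k) ∧
      ∑ k ∈ F (φ j), gs s k (u (φ j) k) ≤ c + 1 ∧
      tol (φ j) * ∑ k ∈ F (φ j), ‖gs s k‖ ≤ ∑ k ∈ F (φ j), gs s k (u (φ j) k) - c := by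
    intro j
    obtain ⟨s, hs, g, h1, h2, h3, h4⟩ := hadm j
    rw [hτR, hτU] at h1
    exact ⟨s, hs, g, h1, h2, h3, h4⟩
  choose s hs g0 hhit hS1 hS2 hS3 using hadm'
  have hφge : ∀ j, j ≤ φ j := hφ.id_le
  refine ⟨φ, s, fun j => F (φ j), hφ, fun j x => limDatum_th _ _ _ _ (by rw [hφτ j]; rfl) x, hs,
    ?_, ?_, ?_, ?_⟩
  · intro g hg
    obtain ⟨m0, hm0⟩ := ho.Fge g hg
    refine ⟨m0, fun j hj => ?_⟩
    exact ⟨fun k hk => ⟨hm0 _ (hj.trans (hφge j)) k hk, ho.Flt _ k hk⟩, (hhit j).disj,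
      (hhit j).supp, (hhit j).nbd, (hhit j).big, (hhit j).small⟩
  · intro y hy
    rw [Metric.tendsto_atTop]
    intro ε' hε'
    obtain ⟨c', hc', h1⟩ := small_values ha hy (half_pos hε')
    obtain ⟨m0, hm0⟩ := ho.Fge c' hc'
    refine ⟨m0, fun j hj => ?_⟩
    rw [Real.dist_eq, sub_zero, abs_of_nonneg (norm_nonneg _)]
    have h2 : ‖cut (F (φ j) : Set (W × ℕ)) y‖ ≤ ε' / 2 := by
      rw [norm_le_iff _ (by positivity)]
      intro k
      rw [cut_apply]
      split_ifs with hk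
      · exact h1 k (hm0 _ (hj.trans (hφge j)) k (by exact_mod_cast hk))
      · rw [norm_zero]; positivity
    linarith
  · intro δ hδ
    have h1 : ∀ᶠ j in atTop, (1 / 2 : ℝ) ^ (φ j + 3) < δ / (c + 1) := by
      have := (sigma_tendsto.comp hφ.tendsto_atTop)
      exact (tendsto_order.1 this).2 _ (by positivity)
    obtain ⟨j0, hj0⟩ := eventually_atTop.1 h1
    refine ⟨j0, fun j hj => ?_⟩
    rw [pair_res_eq]
    show (c : ℝ) - δ ≤ ∑ k ∈ F (φ j), gs (s j) k (w (φ j) k)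
    set σ : ℝ := (1 / 2 : ℝ) ^ (φ j + 3) with hσ
    have hσ0 : 0 < σ := by positivity
    set S := ∑ k ∈ F (φ j), gs (s j) k (u (φ j) k) with hS
    have h2 : ∑ k ∈ F (φ j), gs (s j) k (w (φ j) k)
        = (1 - σ) * S + ∑ k ∈ F (φ j), gs (s j) k (w (φ j) k - (1 - σ) • u (φ j) k) := by
      rw [hS, Finset.mul_sum, ← Finset.sum_add_distrib]
      refine Finset.sum_congr rfl fun k _ => ?_
      rw [map_sub, map_smul, smul_eq_mul]; ring
    have h3 : |∑ k ∈ F (φ j), gs (s j) k (w (φ j) k - (1 - σ) • u (φ j) k)|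
        ≤ tol (φ j) * ∑ k ∈ F (φ j), ‖gs (s j) k‖ := by
      refine (Finset.abs_sum_le_sum_abs _ _).trans ?_
      rw [Finset.mul_sum]
      refine Finset.sum_le_sum fun k hk => ?_
      have h4 := (gs (s j) k).le_opNorm (w (φ j) k - (1 - σ) • u (φ j) k)
      rw [Real.norm_eq_abs] at h4
      refine h4.trans ?_
      rw [mul_comm]
      gcongr
      exact (ho.acc (φ j) k hk).trans (min_le_left _ _)
    have h5 := hS3 j
    have h6 := hj0 j hj
    rw [lt_div_iff₀ (by positivity)] at h6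
    have h7 : σ * S ≤ σ * (c + 1) := by
      gcongr
      exact hS2 j
    have h8 := (abs_le.1 (h3.trans h5)).1
    rw [h2]
    linarith
  · refine squeeze_zero (fun j => tsum_nonneg fun l => ?_) (fun j => ?_)
      (half_tendsto.comp hφ.tendsto_atTop)
    · split_ifs
      · exact le_rfl
      · exact norm_nonneg _
    · refine (tsum_tail_le (M := φ j) (fun l => ?_) (fun l hl => ?_) (fun l hl => ?_)).2
      · split_ifs
        · exact le_rfl
        · exact norm_nonneg _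
      · rcases hl.lt_or_eq with hl | hl
        · rw [if_neg hl.ne]
          show ‖cut (F (φ j) : Set (W × ℕ)) (w l)‖ = 0
          refine le_antisymm ?_ (norm_nonneg _)
          rw [norm_le_iff _ le_rfl]
          intro k
          rw [cut_apply]
          split_ifs with hk
          · rw [ho.before (φ j) l hl k (by exact_mod_cast hk), norm_zero]
          · rw [norm_zero]
        · rw [if_pos hl]
      · rw [if_neg hl.ne']
        show ‖cut (F (φ j) : Set (W × ℕ)) (w l)‖ ≤ _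
        rw [norm_le_iff _ (by positivity)]
        intro k
        rw [cut_apply]
        split_ifs with hk
        · exact ho.after (φ j) l hl k (by exact_mod_cast hk)
        · rw [norm_zero]; positivity

/-- **The datum at a limit stage**, from the extension property. -/
theorem _root_.Pool.Agent.DIAM.exists_lim_datum [∀ k, Nontrivial (Z k)] (fb : Fib Z) (gs : W → Lam Z)
    (D : ∀ a, Datum Z a) {a : W} (ha : IsLim a) (hcount : (Set.Iio a).Countable)
    (hsep : ∀ c < a, TopologicalSpace.IsSeparable (XS D c : Set (L Z)))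
    {Good : ℕ → (ℕ → L Z) → Prop}
    (hloc : ∀ n (w w' : ℕ → L Z), (∀ i < n, w i = w' i) → Good n w → Good n w')
    (h0 : ∀ w, Good 0 w) (hEP : EP a (XS D) (fun b => (D b).P) Good) :
    ∃ d : Datum Z a, Adm fb gs D a d ∧ ∀ m, Good m d.w := by
  have := countable_task hcount
  have : Nonempty (Task a) := ⟨Sum.inl (0, 0)⟩
  obtain ⟨w, task, F, u, tol, ho⟩ := lim_exists ha.1 hcount (X := XS D)
    (P := fun b => (D b).P) (fun b c h => XS_mono D h) (fun b x hx k hk => XS_supp D hx hk)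
    (exists_dense_seq D ha.1 hcount hsep) hloc h0 hEP (TAdm fb gs a)
  refine ⟨limDatum fb D a w task ho.inX ho.w1 ho.w2, ?_, ho.good⟩
  refine ⟨?_, ho.w3, ?_, fun _ => lim_CT0 ha ho, fun _ => lim_CT1 ha ho⟩
  · intro m
    obtain ⟨c, hc, h⟩ := ho.inX m
    exact XS_mono D hc.le h
  · intro y hy T hT ε hε
    exact ho.w4 y (fun ε' hε' => XS_approx D ha hy ε' hε') T hT ε hε

/-- the extension property without lightness, from interpolation -/
theorem _root_.Pool.Agent.DIAM.EP_true (D : ∀ a, Datum Z a) {a : W} (ha : IsLim a) (h0 : ∀ b < a, CW0 D b (D b))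
    (h3 : ∀ b < a, CW3 D b (D b)) (h4 : ∀ b < a, CW4 D b (D b)) :
    EP a (XS D) (fun b => (D b).P) (fun _ _ => True) := by
  classical
  intro n w _ _ yy Q H κ ε hyy hQ hH hκ0 hκ1 hε
  obtain ⟨c, hc, hcyy⟩ := exists_common_X (X := XS D) (fun b c h => XS_mono D h) ha.1
    (S := (yy : Set (L Z))) yy.finite_toSet (fun y hy => hyy y (by exact_mod_cast hy))
  obtain ⟨b, hb, hbS⟩ := exists_gt_lim ha
    (S := {c} ∪ (Q : Set W) ∪ Prod.fst '' (H : Set (W × ℕ)))
    (((Set.finite_singleton c).union Q.finite_toSet).union (H.finite_toSet.image _))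
    (by
      rintro x ((rfl | hx) | ⟨h, hh, rfl⟩)
      · exact hc
      · exact hQ x (by exact_mod_cast hx)
      · exact hH h (by exact_mod_cast hh))
  refine ⟨b, hb, fun F u hF hu ε' hε' => ?_⟩
  obtain ⟨v, c1, c2, c3, -, c5, c6⟩ := interp_vec D hκ0 F
    (fun k hk => h0 _ (hF k hk).2) (fun k hk => h3 _ (hF k hk).2) (fun k hk => h4 _ (hF k hk).2)
    u hu yy c (fun k hk => ((hbS c (by simp)).le.trans (hF k hk).1))
    (fun y hy => hcyy y (by exact_mod_cast hy)) Q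
    (fun q hq k hk => (hbS q (Or.inl (Or.inr (by exact_mod_cast hq)))).trans_le (hF k hk).1) H
    (by
      rw [Finset.disjoint_left]
      intro h hh hhF
      have h1 := hbS h.1 (Or.inr ⟨h, by exact_mod_cast hh, rfl⟩)
      exact absurd (hF h hhF).1 (not_le.2 h1))
    ε hε ε' hε'
  obtain ⟨c', hc', hc'F⟩ := exists_gt_lim ha (S := Prod.fst '' (F : Set (W × ℕ)))
    (F.finite_toSet.image _)
    (by
      rintro x ⟨k, hk, rfl⟩
      exact (hF k (by exact_mod_cast hk)).2)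
  exact ⟨v, ⟨c', hc', c1 c' fun k hk => hc'F k.1 ⟨k, by exact_mod_cast hk, rfl⟩⟩, c2, trivial,
    c3, c5, c6⟩

/-- **Data exist at limit stages** (no lightness). -/
theorem _root_.Pool.Agent.DIAM.exists_limit [∀ k, Nontrivial (Z k)] (fb : Fib Z) (gs : W → Lam Z)
    (D : ∀ a, Datum Z a) {a : W} (ha : IsLim a) (hcount : (Set.Iio a).Countable)
    (hsep : ∀ c < a, TopologicalSpace.IsSeparable (XS D c : Set (L Z)))
    (h0 : ∀ b < a, CW0 D b (D b)) (h3 : ∀ b < a, CW3 D b (D b)) (h4 : ∀ b < a, CW4 D b (D b)) :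
    ∃ d : Datum Z a, Adm fb gs D a d := by
  obtain ⟨d, hd, -⟩ := exists_lim_datum fb gs D ha hcount hsep (Good := fun _ _ => True)
    (fun _ _ _ _ _ => trivial) (fun _ => trivial) (EP_true D ha h0 h3 h4)
  exact ⟨d, hd⟩

end

end Pool.Agent.DIAM.LimS
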