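import Pool.Agent.Work.MP_89a7db_an.Dia.Frame
import Pool.Agent.Work.MP_89a7db_an.Dia.Amb

/-!
# The tail radius of an equivalent seminorm; separability of the stages (for M15)
-/

set_option autoImplicit false
set_option linter.unusedSectionVars false

open Set

namespace Pool.Agent.Dia

/-- The tail radius `r = inf_a sup_{lam ∈ B_N} tail lam a` of a seminorm equivalent to the norm. -/
theorem Frame.exists_radius {Om : Type*} [LinearOrder Om] [Nonempty Om] {X : Type*}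
    [NormedAddCommGroup X] [NormedSpace ℝ X] (Fr : Frame Om X) {N : X → ℝ} {del C : ℝ}
    (hdel : 0 < del) (hC : 0 ≤ C) (hN : ∀ x, N x ≤ C * ‖x‖) (hN' : ∀ x, del * ‖x‖ ≤ N x) :
    ∃ r : ℝ, del ≤ r ∧ r ≤ C ∧
      (∀ (s : Om) (eps : ℝ), 0 < eps → ∃ lam : X →L[ℝ] ℝ, (∀ x, |lam x| ≤ N x) ∧
        r - eps ≤ Fr.tail lam s) ∧
      (∀ eps : ℝ, 0 < eps → ∃ a, ∀ lam : X →L[ℝ] ℝ, (∀ x, |lam x| ≤ N x) →
        Fr.tail lam a ≤ r + eps) := by
  classical
  let B : Set (X →L[ℝ] ℝ) := {lam | ∀ x, |lam x| ≤ N x}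
  have hB0 : (0 : X →L[ℝ] ℝ) ∈ B := fun x => by
    have := mul_nonneg hdel.le (norm_nonneg x)
    simpa using this.trans (hN' x)
  have hBne : Nonempty B := ⟨⟨0, hB0⟩⟩
  have hBC : ∀ lam ∈ B, ‖lam‖ ≤ C := fun lam h =>
    ContinuousLinearMap.opNorm_le_bound _ hC fun x => (h x).trans (hN x)
  let R : Om → ℝ := fun a => ⨆ lam : B, Fr.tail lam a
  have hbdd : ∀ a, BddAbove (range fun lam : B => Fr.tail (lam : X →L[ℝ] ℝ) a) := fun a => by
    refine ⟨C, ?_⟩
    rintro _ ⟨lam, rfl⟩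
    exact (Fr.tail_le _ _).trans (hBC _ lam.2)
  have hRle : ∀ a, ∀ lam ∈ B, Fr.tail lam a ≤ R a := fun a lam h => le_ciSup (hbdd a) ⟨lam, h⟩
  have hRC : ∀ a, R a ≤ C := fun a => ciSup_le fun lam => (Fr.tail_le _ _).trans (hBC _ lam.2)
  have hRdel : ∀ a, del ≤ R a := by
    intro a
    obtain ⟨f, hf1, hf2⟩ := Fr.unit a
    have hmem : del • f ∈ B := by
      intro x
      rw [_root_.smul_apply, smul_eq_mul, abs_mul, abs_of_pos hdel]
      exact (mul_le_mul_of_nonneg_left ((hf1 x).trans (Fr.lat_le a x)) hdel.le).trans (hN' x)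
    have h1 := hRle a _ hmem
    rw [Fr.tail_smul, abs_of_pos hdel] at h1
    nlinarith
  have hRbdd : BddBelow (range R) := ⟨del, by rintro _ ⟨a, rfl⟩; exact hRdel a⟩
  refine ⟨⨅ a, R a, le_ciInf hRdel, ?_, ?_, ?_⟩
  · obtain ⟨a⟩ := ‹Nonempty Om›
    exact (ciInf_le hRbdd a).trans (hRC a)
  · intro s eps heps
    have h1 : (⨅ a, R a) - eps < R s := by
      have := ciInf_le hRbdd s
      linarith
    obtain ⟨lam, hlam⟩ := exists_lt_of_lt_ciSup h1
    exact ⟨lam.1, lam.2, hlam.le⟩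
  · intro eps heps
    obtain ⟨a, ha⟩ := exists_lt_of_ciInf_lt (show (⨅ a, R a) < (⨅ a, R a) + eps by linarith)
    exact ⟨a, fun lam h => (hRle a lam h).trans ha.le⟩

end Pool.Agent.Dia

namespace Pool.Agent.DIAM

open Filter Topology Pool.Agent.Dia

variable {W : Type} [LinearOrder W]
variable {Z : W × ℕ → Type} [∀ k, NormedAddCommGroup (Z k)] [∀ k, NormedSpace ℝ (Z k)]
  [∀ k, CompleteSpace (Z k)]

/-- The stages are separable. -/
theorem isSeparable_XS [∀ k, TopologicalSpace.SeparableSpace (Z k)] (D : ∀ a, Datum Z a) {a : W}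
    (ha : (Iio a).Countable) : TopologicalSpace.IsSeparable (XS D a : Set (L Z)) := by
  have h1 : {x | ∃ k : W × ℕ, k.1 < a ∧ ∃ z : Z k, x = J D k z} =
      ⋃ k ∈ (Iio a ×ˢ (univ : Set ℕ)), range fun z => J D k z := by
    ext x
    simp only [mem_iUnion, mem_prod, mem_Iio, mem_univ, and_true, mem_range, exists_prop]
    constructor
    · rintro ⟨k, hk, z, rfl⟩
      exact ⟨k, hk, z, rfl⟩
    · rintro ⟨k, hk, z, hz⟩
      exact ⟨k, hk, z, hz.symm⟩
  have hsep : TopologicalSpace.IsSeparable {x | ∃ k : W × ℕ, k.1 < a ∧ ∃ z : Z k, x = J D k z} := by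
    rw [h1]
    have hc : (Iio a ×ˢ (univ : Set ℕ)).Countable := ha.prod countable_univ
    have : Countable (Iio a ×ˢ (univ : Set ℕ) : Set (W × ℕ)) := countable_coe_iff.2 hc
    rw [biUnion_eq_iUnion]
    exact TopologicalSpace.IsSeparable.iUnion fun k =>
      TopologicalSpace.isSeparable_range (J D k.1).continuous
  rw [XS, Submodule.topologicalClosure_coe]
  exact (hsep.span (R := ℝ)).closure

end Pool.Agent.DIAM
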