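import Pool.Agent.Work.MP_89a7db_an.Dia.LInst
import Pool.Agent.Work.MP_89a7db_an.Dia.Radius
import Pool.Agent.Work.MP_89a7db_an.Dia.Lim
import Pool.Agent.Work.MP_89a7db_an.Dia.EndEst
import Pool.Agent.Work.MP_89a7db_an.Dia.CZero
import Pool.Agent.Work.MP_89a7db_an.Dia.CollapseC
import Pool.Agent.Work.MP_89a7db_an.Dia.CountGen
import Pool.Agent.Work.MP_89a7db_an.Dia.Guess

/-!
MP_89a7db_an, module M15: for every norm on `X` equivalent to the given one, in every club of stages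
there is a stage `g` whose datum is light for this norm, and beyond the tail radius.
-/

set_option autoImplicit false
set_option linter.unusedSectionVars false

namespace Pool.Agent.DIAM

open Set Filter Topology Pool.Agent.Dia

noncomputable section

section stage

variable {W : Type} [LinearOrder W] [OmegaOne W]
variable {Z : W × ℕ → Type} [∀ k, NormedAddCommGroup (Z k)] [∀ k, NormedSpace ℝ (Z k)]
  [∀ k, CompleteSpace (Z k)]

private theorem pair_smul' (c : ℝ) (l : Lam Z) (x : L Z) : pair (c • l) x = c * pair l x := by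
  rw [map_smul, _root_.smul_apply, smul_eq_mul]

/-- the extension property at a stage of the reflecting club -/
theorem ep_of_reflect {D : ∀ a, Datum Z a} {LD : ℝ → ℕ → (ℕ → L Z) → Prop} {g : W}
    (hlim : IsLim g)
    (h : ∀ (del del' : ℝ) (n : ℕ) (w : ℕ → L Z) (yy : Finset (L Z)) (Q : Finset W)
        (H : Finset (W × ℕ)) (kap eps : ℝ), (∀ i < n, ∃ a < g, w i ∈ XS D a) → LD del n w →
        del < del' → (∀ y ∈ yy, ∃ a < g, y ∈ XS D a) → (∀ q ∈ Q, q < g) → (∀ h ∈ H, h.1 < g) →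
        0 ≤ kap → kap ≤ 1 → 0 < eps → ∃ b < g, RespG D LD del' n w yy Q H kap eps b)
    (del : ℕ → ℝ) (hdel : StrictMono del) :
    EP g (XS D) (fun b => (D b).P) fun n w => LD (del n) n w := by
  intro n w hw hgood yy Q H κ ε hyy hQ hH hκ hκ1 hε
  obtain ⟨b, hb, hR⟩ := h (del n) (del (n + 1)) n w yy Q H κ ε hw hgood
    (hdel (Nat.lt_succ_self n)) hyy hQ hH hκ hκ1 hε
  refine ⟨b, hb, fun F u hF hu ε' hε' => ?_⟩
  obtain ⟨v, h1, h2, h3, h4, h5, h6⟩ := hR F u (fun k hk => (hF k hk).1) hu ε' hε'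
  obtain ⟨a, ha, hFa⟩ := exists_common F g hlim.1 (fun k a => k.1 < a)
    (fun k a a' haa' hk => hk.trans_le haa') (fun k hk => by
      obtain ⟨c, hc1, hc2⟩ := hlim.2 k.1 (hF k hk).2
      exact ⟨c, hc2, hc1⟩)
  exact ⟨v, ⟨max a b, max_lt ha hb, h1 _ (le_max_right _ _) fun k hk =>
    (hFa k hk).trans_le (le_max_left _ _)⟩, h2, h3, h4, h5, h6⟩

variable {fb : Fib Z} {gs : W → W → Lam Z} {lg : W → (ℕ → Lam Z) × ℝ}

/-- C1 for the space of a system. -/
theorem Sys.c1Concl (S : Sys fb gs lg)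
    (hgs : ∀ G : W → Lam Z, IsStationary {a | ∀ b < a, gs a b = G b}) : C1Concl S.D :=
  c1Concl_of fb gs S.D hgs (fun g hg => (S.adm g).t1 hg)
    (fun x hx g => P_mem_of_mem_XX S.w03 g hx) (fun x hx g r h k hk => S.C0 hx h k hk)

/-- The duality for the space of a system. -/
theorem Sys.duality (S : Sys fb gs lg) : Duality S.D :=
  duality_of (fun a => (S.adm a).w0) (interp_ball S.D (fun a => (S.adm a).w0)
    (fun a => (S.adm a).w3) (fun a => (S.adm a).w4))

variable [∀ k, Nontrivial (Z k)]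

/-- A light stage in a given club. -/
theorem Sys.exists_light (S : Sys fb gs lg)
    (hguess : ∀ (G : W → Lam Z) (Ds : ℕ → Lam Z) (q : ℝ),
      IsStationary {a : W | (∀ b < a, gs a b = G b) ∧ lg a = (Ds, q)})
    (hD : Duality S.D) (hC1 : C1Concl S.D) {p : XX S.D → ℝ} {C C' : ℝ} (hC : 0 ≤ C) (hC' : 0 ≤ C')
    (hp : ∀ x, p x ≤ C * ‖x‖) (hp' : ∀ x, ‖x‖ ≤ C' * p x)
    (hrad : ∀ eps : ℝ, 0 < eps → ∃ a, ∀ lam : (XX S.D) →L[ℝ] ℝ, (∀ x, |lam x| ≤ p x) →
      (mkFrame S.D hD hC1).tail lam a ≤ 1 + eps)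
    (Ds : ℕ → Lam Z) {r : ℝ} (hr : 0 < r)
    (hDs : ∀ j, ∀ x : XX S.D, |pair (Ds j) (x : L Z)| ≤ r * p x)
    {C0 : Set W} (hC0 : IsClub C0) :
    ∃ g ∈ C0, IsLim g ∧ Light Ds (3 / 2 * r) (S.D g) := by
  have hsepZ : ∀ k, TopologicalSpace.SeparableSpace (Z k) := fun k =>
    ⟨range (fb.e k), countable_range _, fb.e_dense k⟩
  have hsep : ∀ c, TopologicalSpace.IsSeparable (XS S.D c : Set (L Z)) := fun c =>
    isSeparable_XS S.D (countable_Iio c)
  obtain ⟨CC, hCC, hrefl⟩ := exists_club_light S.D S.reg hD hC1 hsep hC hC' hp hp' hrad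
  obtain ⟨g, ⟨-, hg2⟩, hg3, hg4⟩ := hguess (fun _ => 0) Ds (3 / 2 * r) (IsClub.inter' hCC hC0)
  obtain ⟨hlim, href⟩ := hrefl g hg3
  have hdel : StrictMono fun n : ℕ => (1 / 2 : ℝ) * (1 - (1 / 2 : ℝ) ^ n) := by
    refine strictMono_nat_of_lt_succ fun n => ?_
    have h1 : (0 : ℝ) < (1 / 2 : ℝ) ^ n := by positivity
    have h2 : (1 / 2 : ℝ) ^ (n + 1) = (1 / 2 : ℝ) ^ n * (1 / 2) := pow_succ _ _
    rw [h2]
    nlinarith
  have hEP := ep_of_reflect hlim href _ hdel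
  obtain ⟨d, hd1, hd2⟩ := exists_lim_datum fb (gs g) S.D hlim (countable_Iio g)
    (fun c _ => hsep c)
    (Good := fun n w => LDp S.D (mkFrame S.D hD hC1) p (1 / 2 * (1 - (1 / 2 : ℝ) ^ n)) n w)
    (fun n w w' h1 h2 => LDp_congr S.D _ p h1 h2)
    (fun w => by
      have h1 : (1 / 2 : ℝ) * (1 - (1 / 2 : ℝ) ^ 0) = 0 := by norm_num
      show LDp S.D (mkFrame S.D hD hC1) p (1 / 2 * (1 - (1 / 2 : ℝ) ^ 0)) 0 w
      rw [h1]
      exact LDp_zero S.D _ hrad w) hEP
  refine ⟨g, hg4, hlim, ?_⟩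
  have h3 := S.t2 g hlim ⟨d, hd1, by
    rw [hg2]
    intro j n
    have h4 : ∀ x : XX S.D, |pair (r⁻¹ • Ds j) (x : L Z)| ≤ p x := by
      intro x
      rw [pair_smul', abs_mul, abs_of_pos (inv_pos.2 hr), inv_mul_le_iff₀ hr]
      exact hDs j x
    have h5 := LDp_sum_le S.D _ (hd2 n) (r⁻¹ • Ds j) h4
    have h6 : ∑ i ∈ Finset.range n, |pair (r⁻¹ • Ds j) (d.w i)| =
        r⁻¹ * ∑ i ∈ Finset.range n, |pair (Ds j) (d.w i)| := by
      rw [Finset.mul_sum]
      refine Finset.sum_congr rfl fun i _ => ?_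
      rw [pair_smul', abs_mul, abs_of_pos (inv_pos.2 hr)]
    rw [h6, inv_mul_le_iff₀ hr] at h5
    have h7 : (0 : ℝ) ≤ (1 / 2 : ℝ) ^ n := by positivity
    show ∑ i ∈ Finset.range n, |pair (Ds j) (d.w i)| ≤ 3 / 2 * r
    nlinarith⟩
  rw [hg2] at h3
  exact h3

/-- **M15.** For every equivalent norm `N` on `X` there is `r > 0` such that in every club there is
a limit stage `g` with `r * lat g x ≤ N x` and `N (A_g x) ≤ 4 r * lat g x`. -/
theorem Sys.exists_stage (S : Sys fb gs lg)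
    (hguess : ∀ (G : W → Lam Z) (Ds : ℕ → Lam Z) (q : ℝ),
      IsStationary {a : W | (∀ b < a, gs a b = G b) ∧ lg a = (Ds, q)})
    (N : Seminorm ℝ (XX S.D)) {C del : ℝ} (hC : 0 ≤ C) (hdel : 0 < del)
    (hN : ∀ x, N x ≤ C * ‖x‖) (hN' : ∀ x, del * ‖x‖ ≤ N x) :
    ∃ r : ℝ, 0 < r ∧ ∀ C0 : Set W, IsClub C0 → ∃ g ∈ C0, IsLim g ∧
      (∀ x : XX S.D, r * lat S.D g x ≤ N x) ∧
      ∀ x : XX S.D, N (AX S.w03 g x) ≤ 4 * r * lat S.D g x := by
  have hne : Nonempty W := nonempty' W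
  have hD := S.duality
  have hC1 : C1Concl S.D := S.c1Concl fun G => (hguess G (fun _ => 0) 0).mono fun a ha => ha.1
  set Fr : Frame W (XX S.D) := mkFrame S.D hD hC1 with hFr
  obtain ⟨r, hr1, hr2, hlow, hup⟩ := Fr.exists_radius hdel hC hN hN'
  have hr : 0 < r := hdel.trans_le hr1
  refine ⟨r, hr, fun C0 hC0 => ?_⟩
  -- the tail radius
  obtain ⟨g1, hg1⟩ := Fr.tail_radius countable_Iio (fun f => (by obtain ⟨b, hb⟩ := exists_gt_fun f; exact ⟨b, fun n => (hb n).le⟩)) hC hN hlow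
  obtain ⟨g2, hg2⟩ := hup r hr
  -- the norming sequence
  obtain ⟨E, hE1, hE2, hE3⟩ := exists_countable_norming countable_Iio Fr.toCollapse hC hN
  have hDs : ∀ j, ∀ x : XX S.D, pair (hD.toLam (E j)) (x : L Z) = E j x := fun j x =>
    (hD.toLam_apply (E j) x).symm
  -- the normalised norm
  have hrad : ∀ eps : ℝ, 0 < eps → ∃ a, ∀ lam : (XX S.D) →L[ℝ] ℝ,
      (∀ x, |lam x| ≤ r⁻¹ * N x) → Fr.tail lam a ≤ 1 + eps := by
    intro eps heps
    obtain ⟨a, ha⟩ := hup (r * eps) (mul_pos hr heps)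
    refine ⟨a, fun lam hlam => ?_⟩
    have h1 := ha (r • lam) fun x => by
      rw [_root_.smul_apply, smul_eq_mul, abs_mul, abs_of_pos hr]
      have := mul_le_mul_of_nonneg_left (hlam x) hr.le
      rwa [mul_inv_cancel_left₀ hr.ne'] at this
    rw [Fr.tail_smul, abs_of_pos hr] at h1
    have h2 : r * Fr.tail lam a ≤ r * (1 + eps) := by linarith
    exact le_of_mul_le_mul_left h2 hr
  obtain ⟨g, hgC, hlim, hL⟩ := S.exists_light hguess hD hC1 (p := fun x => r⁻¹ * N x)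
    (C := r⁻¹ * C) (C' := del⁻¹ * r) (by positivity) (by positivity)
    (fun x => by
      have := mul_le_mul_of_nonneg_left (hN x) (inv_pos.2 hr).le
      rwa [← mul_assoc] at this)
    (fun x => by
      have h1 := mul_le_mul_of_nonneg_left (hN' x) (inv_pos.2 hdel).le
      rw [inv_mul_cancel_left₀ hdel.ne'] at h1
      rwa [mul_assoc, mul_inv_cancel_left₀ hr.ne'])
    hrad (fun j => hD.toLam (E j)) hr
    (fun j x => by
      rw [hDs j x, mul_inv_cancel_left₀ hr.ne']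
      exact hE1 j x)
    (IsClub.inter' hC0 (isClub_Ioi (max g1 g2)))
  have hgg1 : g1 ≤ g := (le_max_left g1 g2).trans (le_of_lt hgC.2)
  have hgg2 : g2 ≤ g := (le_max_right g1 g2).trans (le_of_lt hgC.2)
  refine ⟨g, hgC.1, hlim, fun x => ?_, fun x => ?_⟩
  · refine le_trans ?_ (hg1 x)
    exact mul_le_mul_of_nonneg_left (Fr.lat_anti g1 g x hgg1) hr.le
  · have h1 := norm_A_le S.w03 hD hN (g := g) (Ds := fun j => hD.toLam (E j)) (q := 3 / 2 * r)
      (r := 2 * r) (fun lam hlam x r' hr' => hE2 lam hlam x r' fun n => by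
        have := hr' n
        rwa [toDual_apply, hDs n x] at this) hL
      (fun lam hlam => by
        have h2 : Fr.tail lam g ≤ Fr.tail lam g2 := Fr.tail_anti lam g2 g hgg2
        have h3 := hg2 lam hlam
        have h4 : hD.tail lam g = Fr.tail lam g := rfl
        rw [h4]
        linarith) x
    refine h1.trans (mul_le_mul_of_nonneg_right (by linarith) (norm_nonneg _))

end stage

end

end Pool.Agent.DIAM
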