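import Pool.Agent.Work.MP_89a7db_an.Dia.Dual
import Pool.Agent.Work.MP_89a7db_an.Dia.EndAbs

/-!
MP_89a7db_an: the space `XX D` is not separable; transfer of the Banach-Mazur diameter along an
isomorphism.
-/

set_option autoImplicit false
set_option linter.unusedSectionVars false

open Set Filter Topology
open scoped ENNReal

namespace Pool.Agent.DIAM

open Pool.Agent.Dia

noncomputable section

section nonsep

variable {W : Type} [LinearOrder W] [OmegaOne W]
variable {Z : W × ℕ → Type} [∀ k, NormedAddCommGroup (Z k)] [∀ k, NormedSpace ℝ (Z k)]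
  [∀ k, CompleteSpace (Z k)]

/-- `XX D` is not separable. -/
theorem not_separable_XX [∀ k, Nontrivial (Z k)] (D : ∀ a, Datum Z a) :
    ¬ TopologicalSpace.SeparableSpace (XX D) := by
  intro hsep
  have hz : ∀ a : W, ∃ z : Z (a, 0), ‖z‖ = 1 := by
    intro a
    obtain ⟨z, hz⟩ := exists_ne (0 : Z (a, 0))
    refine ⟨(‖z‖)⁻¹ • z, ?_⟩
    rw [norm_smul, norm_inv, norm_norm, inv_mul_cancel₀ (norm_ne_zero_iff.2 hz)]
  choose z hz using hz
  let x : W → XX D := fun a => ⟨J D (a, 0) (z a), J_mem_XX (a, 0) (z a)⟩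
  have hfar : ∀ a b : W, a < b → 1 ≤ ‖x a - x b‖ := by
    intro a b hab
    have h1 : ‖((x a - x b : XX D) : L Z) (b, 0)‖ ≤ ‖x a - x b‖ := norm_coord_le _ _
    have h2 : ((x a - x b : XX D) : L Z) (b, 0) = - z b := by
      show (J D (a, 0) (z a) - J D (b, 0) (z b)) (b, 0) = - z b
      rw [sub_ap, J_self, J_ge D (a, 0) (z a) (j := (b, 0)) hab.le
        (fun h => hab.ne' (congrArg Prod.fst h)), zero_sub]
    rw [h2, norm_neg, hz] at h1
    exact h1
  have hfar' : ∀ a b : W, a ≠ b → 1 ≤ dist (x a) (x b) := by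
    intro a b hab
    rw [dist_eq_norm]
    rcases lt_or_gt_of_ne hab with h | h
    · exact hfar a b h
    · rw [norm_sub_rev]; exact hfar b a h
  apply uncountable_univ W
  refine Set.PairwiseDisjoint.countable_of_isOpen (s := fun a => Metric.ball (x a) (1 / 2))
    ?_ (fun a _ => Metric.isOpen_ball) (fun a _ => ⟨x a, Metric.mem_ball_self (by norm_num)⟩)
  intro a _ b _ hab
  refine Set.disjoint_left.2 fun y hya hyb => ?_
  rw [Metric.mem_ball] at hya hyb
  have h1 := dist_triangle_left (x a) (x b) y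
  have h2 := hfar' a b hab
  linarith

end nonsep

end

end Pool.Agent.DIAM

namespace BMAbs

open BMD

/-- The Banach-Mazur diameter is invariant under isomorphism. -/
theorem bmDiam_congr {X X' : Type} [NormedAddCommGroup X] [NormedSpace ℝ X]
    [NormedAddCommGroup X'] [NormedSpace ℝ X'] (e : X ≃L[ℝ] X') : bmDiam X' ≤ bmDiam X := by
  unfold bmDiam
  refine iSup_le fun Y => iSup_le fun i1 => iSup_le fun i2 => iSup_le fun i3 => iSup_le fun hY =>
    iSup_le fun Z => iSup_le fun j1 => iSup_le fun j2 => iSup_le fun j3 => iSup_le fun hZ => ?_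
  obtain ⟨S⟩ := hY
  obtain ⟨T⟩ := hZ
  exact le_iSup_of_le Y <| le_iSup_of_le i1 <| le_iSup_of_le i2 <| le_iSup_of_le i3 <|
    le_iSup_of_le ⟨e.trans S⟩ <| le_iSup_of_le Z <| le_iSup_of_le j1 <| le_iSup_of_le j2 <|
    le_iSup_of_le j3 <| le_iSup_of_le ⟨e.trans T⟩ le_rfl

/-- If a nonseparable Banach space embeds isometrically in `ℓ^∞` and has finite diameter, then a
closed subspace of `ℓ^∞` has. -/
theorem exists_subspace {X : Type} [NormedAddCommGroup X] [NormedSpace ℝ X] [CompleteSpace X]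
    (e : X →ₗᵢ[ℝ] lp (fun _ : ℕ => ℝ) ∞) (hsep : ¬ TopologicalSpace.SeparableSpace X)
    (hd : bmDiam X < ⊤) :
    ∃ X' : Submodule ℝ (lp (fun _ : ℕ => ℝ) ∞), IsClosed (X' : Set (lp (fun _ : ℕ => ℝ) ∞)) ∧
      ¬ TopologicalSpace.SeparableSpace X' ∧ bmDiam X' < ⊤ := by
  let X' : Submodule ℝ (lp (fun _ : ℕ => ℝ) ∞) := LinearMap.range e.toLinearMap
  let e' : X ≃ₗᵢ[ℝ] X' := e.equivRange
  refine ⟨X', ?_, ?_, (bmDiam_congr e'.toContinuousLinearEquiv).trans_lt hd⟩
  · have h := e.isometry.isClosedEmbedding.isClosed_range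
    have h2 : (X' : Set (lp (fun _ : ℕ => ℝ) ∞)) = Set.range e := by
      ext y; simp [X']
    rw [h2]; exact h
  · intro hs
    exact hsep (e'.symm.toHomeomorph.surjective.denseRange.separableSpace
      e'.symm.continuous)

end BMAbs
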