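import Mathlib

/-!
# DIAM, M6 (abstract part): recursion along `ℕ`, nets, and W1/W4 from the step inequality
-/

set_option autoImplicit false

open Set Filter Topology

namespace Pool.Agent.Dia

/-! ## (A) sequences by recursion -/

/-- A sequence whose `m`-th term is in a prescribed relation with the earlier ones. -/
theorem exists_seq_of_step {α : Type*} [Nonempty α] (R : ℕ → (ℕ → α) → α → Prop)
    (hloc : ∀ m (f g : ℕ → α) a, (∀ i < m, f i = g i) → R m f a → R m g a)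
    (hstep : ∀ m (f : ℕ → α), (∀ i < m, R i f (f i)) → ∃ a, R m f a) :
    ∃ f : ℕ → α, ∀ m, R m f (f m) := by
  classical
  let ext : (m : ℕ) → ((i : ℕ) → i < m → α) → ℕ → α := fun m prev i =>
    if h : i < m then prev i h else Classical.arbitrary α
  let nxt : (m : ℕ) → ((i : ℕ) → i < m → α) → α := fun m prev =>
    if h : ∃ a, R m (ext m prev) a then h.choose else Classical.arbitrary α
  let f : ℕ → α := WellFounded.fix Nat.lt_wfRel.wf nxt
  have hf : ∀ m, f m = nxt m (fun i _ => f i) := fun m =>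
    WellFounded.fix_eq Nat.lt_wfRel.wf nxt m
  refine ⟨f, fun m => ?_⟩
  induction m using Nat.strong_induction_on with
  | _ m ih =>
    have hagree : ∀ i < m, f i = ext m (fun i _ => f i) i := by
      intro i hi
      simp only [ext, dif_pos hi]
    have hex : ∃ a, R m (ext m (fun i _ => f i)) a := by
      refine hstep m _ fun i hi => ?_
      rw [← hagree i hi]
      exact hloc i f _ _ (fun j hj => hagree j (hj.trans hi)) (ih i hi)
    have h1 : f m = hex.choose := by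
      rw [hf m]
      simp only [nxt]
      rw [dif_pos hex]
    rw [h1]
    exact hloc m _ f _ (fun i hi => (hagree i hi).symm) hex.choose_spec

/-! ## (B) W1 and W4 from the step inequality -/

section steps
variable {E : Type*} [SeminormedAddCommGroup E] [NormedSpace ℝ E]

/-- The partial sums `∑_{i<m} t i • w i`. -/
def psum (w : ℕ → E) (t : ℕ → ℝ) (m : ℕ) : E := ∑ i ∈ Finset.range m, t i • w i

@[simp] theorem psum_zero (w : ℕ → E) (t : ℕ → ℝ) : psum w t 0 = 0 := by simp [psum]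

theorem psum_succ (w : ℕ → E) (t : ℕ → ℝ) (m : ℕ) :
    psum w t (m + 1) = psum w t m + t m • w m := by
  simp [psum, Finset.sum_range_succ]

/-- The step inequality: `v` is almost disjointly supported (up to `ε`, height `κ`) from
everything built so far. -/
def StepIneq (y w : ℕ → E) (m : ℕ) (κ ε : ℝ) (v : E) : Prop :=
  ∀ t : ℕ → ℝ, (∀ i, |t i| ≤ 1) → ∀ s : ℝ, |s| ≤ 1 →
    ‖psum w t m + s • v‖ ≤ max ‖psum w t m‖ κ + ε ∧
    ∀ j ≤ m, ‖y j + psum w t m + s • v‖ ≤ max ‖y j + psum w t m‖ κ + ε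

/-- `σ m = 2^(-m-3)`. -/
noncomputable def sig (m : ℕ) : ℝ := (1 / 2) ^ (m + 3)

theorem sig_pos (m : ℕ) : 0 < sig m := by unfold sig; positivity

theorem sig_lt_one (m : ℕ) : sig m < 1 := by
  unfold sig
  exact pow_lt_one₀ (by norm_num) (by norm_num) (by omega)

theorem sig_succ (m : ℕ) : sig (m + 1) = sig m / 2 := by
  unfold sig; ring

theorem sig_le_eighth (m : ℕ) : sig m ≤ 1 / 8 := by
  unfold sig
  calc ((1 : ℝ) / 2) ^ (m + 3) ≤ (1 / 2) ^ 3 :=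
        pow_le_pow_of_le_one (by norm_num) (by norm_num) (by omega)
    _ = 1 / 8 := by norm_num

theorem sig_tendsto : Tendsto sig atTop (𝓝 0) := by
  have h : Tendsto (fun m : ℕ => ((1 : ℝ) / 2) ^ (m + 3)) atTop (𝓝 0) :=
    (tendsto_pow_atTop_nhds_zero_of_lt_one (by norm_num) (by norm_num)).comp
      (tendsto_add_atTop_nat 3)
  exact h

variable {y w : ℕ → E}

/-- W1, with the sharp bound. -/
theorem W1_of_step (h : ∀ m, StepIneq y w m (1 - sig m) (sig m / 4) (w m)) (m : ℕ)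
    (t : ℕ → ℝ) (ht : ∀ i, |t i| ≤ 1) : ‖psum w t m‖ ≤ 1 - sig m := by
  induction m with
  | zero => simp only [psum_zero, norm_zero]; linarith [sig_lt_one 0]
  | succ m ih =>
    have h1 := (h m t ht (t m) (ht m)).1
    rw [max_eq_right ih] at h1
    rw [psum_succ, sig_succ]
    linarith [sig_pos m]

theorem W1_of_step' (h : ∀ m, StepIneq y w m (1 - sig m) (sig m / 4) (w m)) (m : ℕ)
    (t : ℕ → ℝ) (ht : ∀ i, |t i| ≤ 1) : ‖psum w t m‖ ≤ 1 :=
  (W1_of_step h m t ht).trans (by linarith [sig_pos m])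

/-- Every `w m` has norm `≤ 1`. -/
theorem norm_le_of_step (h : ∀ m, StepIneq y w m (1 - sig m) (sig m / 4) (w m)) (m : ℕ) :
    ‖w m‖ ≤ 1 := by
  have h1 := W1_of_step' h (m + 1) (fun i => if i = m then 1 else 0)
    (fun i => by split_ifs <;> simp)
  have h2 : psum w (fun i => if i = m then (1 : ℝ) else 0) (m + 1) = w m := by
    rw [psum, Finset.sum_eq_single m]
    · simp
    · intro i _ hi; simp [hi]
    · intro hm; simp at hm
  rwa [h2] at h1

/-- W4 for the vectors of the dense sequence. -/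
theorem W4_aux (h : ∀ m, StepIneq y w m (1 - sig m) (sig m / 4) (w m)) (j n : ℕ) (hjn : j ≤ n)
    (t : ℕ → ℝ) (ht : ∀ i, |t i| ≤ 1) (N : ℕ) (hN : n ≤ N) :
    max ‖y j + psum w t N‖ 1 ≤ max ‖y j + psum w t n‖ 1 + (sig n - sig N) / 2 := by
  induction N, hN using Nat.le_induction with
  | base => simp
  | succ N hN ih =>
    have h1 := (h N t ht (t N) (ht N)).2 j (hjn.trans hN)
    rw [psum_succ, ← add_assoc, sig_succ]
    have h2 : max ‖y j + psum w t N‖ (1 - sig N) ≤ max ‖y j + psum w t N‖ 1 :=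
      max_le_max le_rfl (by linarith [sig_pos N])
    refine max_le ?_ ?_
    · linarith [sig_pos N]
    · have h3 : (1 : ℝ) ≤ max ‖y j + psum w t N‖ 1 := le_max_right _ _
      linarith [sig_pos N]

/-- W4 (coefficients bounded by `1`). -/
theorem W4_of_step_one (h : ∀ m, StepIneq y w m (1 - sig m) (sig m / 4) (w m)) {X : Set E}
    (hy : ∀ x ∈ X, ∀ ε : ℝ, 0 < ε → ∃ j, ‖x - y j‖ < ε) {x : E} (hx : x ∈ X) {ε : ℝ} (hε : 0 < ε) :
    ∃ m₀ : ℕ, ∀ n, m₀ ≤ n → ∀ N, n ≤ N → ∀ t : ℕ → ℝ, (∀ i, |t i| ≤ 1) →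
      ‖x + psum w t N‖ ≤ max ‖x + psum w t n‖ 1 + ε := by
  obtain ⟨j, hj⟩ := hy x hx (ε / 4) (by positivity)
  have hs : ∀ᶠ n in atTop, sig n < ε := (tendsto_order.1 sig_tendsto).2 ε hε
  obtain ⟨m₁, hm₁⟩ := eventually_atTop.1 hs
  refine ⟨max j m₁, fun n hn N hN t ht => ?_⟩
  have h1 := W4_aux h j n ((le_max_left _ _).trans hn) t ht N hN
  have h2 := hm₁ n ((le_max_right _ _).trans hn)
  have h3 : ‖x + psum w t N‖ ≤ ‖x - y j‖ + ‖y j + psum w t N‖ := by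
    calc ‖x + psum w t N‖ = ‖(x - y j) + (y j + psum w t N)‖ := by congr 1; abel
      _ ≤ _ := norm_add_le _ _
  have h4 : ‖y j + psum w t n‖ ≤ ‖x - y j‖ + ‖x + psum w t n‖ := by
    calc ‖y j + psum w t n‖ = ‖(x + psum w t n) - (x - y j)‖ := by congr 1; abel
      _ ≤ ‖x + psum w t n‖ + ‖x - y j‖ := norm_sub_le _ _
      _ = _ := by ring
  have h5 : ‖y j + psum w t N‖ ≤ max ‖y j + psum w t N‖ 1 := le_max_left _ _
  have h6 : max ‖y j + psum w t n‖ 1 ≤ max ‖x + psum w t n‖ 1 + ε / 4 := by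
    refine max_le ?_ ?_
    · linarith [le_max_left ‖x + psum w t n‖ 1]
    · linarith [le_max_right ‖x + psum w t n‖ 1]
  linarith [sig_pos N]

theorem psum_smul (w : ℕ → E) (t : ℕ → ℝ) (c : ℝ) (m : ℕ) :
    psum w (fun i => c * t i) m = c • psum w t m := by
  simp [psum, Finset.smul_sum, smul_smul]

/-- W4 in the scaled form: coefficients bounded by `T`. -/
theorem W4_scaled {X : Set E} (hX : ∀ x ∈ X, ∀ c : ℝ, c • x ∈ X)
    (h : ∀ x ∈ X, ∀ ε : ℝ, 0 < ε → ∃ m₀ : ℕ, ∀ n, m₀ ≤ n → ∀ N, n ≤ N → ∀ t : ℕ → ℝ,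
      (∀ i, |t i| ≤ 1) → ‖x + psum w t N‖ ≤ max ‖x + psum w t n‖ 1 + ε)
    {x : E} (hx : x ∈ X) {T ε : ℝ} (hT : 0 < T) (hε : 0 < ε) :
    ∃ m₀ : ℕ, ∀ n, m₀ ≤ n → ∀ N, n ≤ N → ∀ t : ℕ → ℝ, (∀ i, |t i| ≤ T) →
      ‖x + psum w t N‖ ≤ max ‖x + psum w t n‖ T + ε := by
  obtain ⟨m₀, hm₀⟩ := h (T⁻¹ • x) (hX x hx _) (ε / T) (by positivity)
  refine ⟨m₀, fun n hn N hN t ht => ?_⟩
  have h1 := hm₀ n hn N hN (fun i => T⁻¹ * t i) (fun i => by
    rw [abs_mul, abs_inv, abs_of_pos hT, inv_mul_le_iff₀ hT, mul_one]; exact ht i)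
  rw [psum_smul, psum_smul, ← smul_add, ← smul_add, norm_smul, norm_smul, Real.norm_eq_abs,
    abs_inv, abs_of_pos hT] at h1
  have h2 := mul_le_mul_of_nonneg_left h1 hT.le
  rw [mul_inv_cancel_left₀ hT.ne', mul_add, mul_max_of_nonneg _ _ hT.le,
    mul_inv_cancel_left₀ hT.ne', mul_one, mul_div_cancel₀ _ hT.ne'] at h2
  exact h2

/-- W4, all in one. -/
theorem W4_of_step (h : ∀ m, StepIneq y w m (1 - sig m) (sig m / 4) (w m)) {X : Set E}
    (hX : ∀ x ∈ X, ∀ c : ℝ, c • x ∈ X)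
    (hy : ∀ x ∈ X, ∀ ε : ℝ, 0 < ε → ∃ j, ‖x - y j‖ < ε) {x : E} (hx : x ∈ X) {T ε : ℝ}
    (hT : 0 < T) (hε : 0 < ε) :
    ∃ m₀ : ℕ, ∀ n, m₀ ≤ n → ∀ N, n ≤ N → ∀ t : ℕ → ℝ, (∀ i, |t i| ≤ T) →
      ‖x + psum w t N‖ ≤ max ‖x + psum w t n‖ T + ε :=
  W4_scaled hX (fun _ hx _ hε => W4_of_step_one h hy hx hε) hx hT hε

/-! ## (C) nets -/

/-- The finite net: finitely many vectors control the step inequality. -/
theorem exists_net (y w : ℕ → E) (m : ℕ) {δ : ℝ} (hδ : 0 < δ) :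
    ∃ yy : Set E, yy.Finite ∧
      (∀ z ∈ yy, ∃ t : ℕ → ℝ, (∀ i, |t i| ≤ 1) ∧
        (z = psum w t m ∨ ∃ j ≤ m, z = y j + psum w t m)) ∧
      ∀ (κ : ℝ) (v : E), (∀ z ∈ yy, ‖z + v‖ ≤ max ‖z‖ κ + δ ∧ ‖z - v‖ ≤ max ‖z‖ κ + δ) →
        StepIneq y w m κ (3 * δ) v := by
  classical
  -- the cube and its image
  have hcube : IsCompact {t : ℕ → ℝ | ∀ i, |t i| ≤ 1} := by
    have : {t : ℕ → ℝ | ∀ i, |t i| ≤ 1} = Set.pi univ (fun _ => Icc (-1 : ℝ) 1) := by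
      ext t
      constructor
      · intro h i _
        exact abs_le.1 (h i)
      · intro h i
        exact abs_le.2 (h i (mem_univ i))
    rw [this]
    exact isCompact_univ_pi fun _ => isCompact_Icc
  have hcont : Continuous fun t : ℕ → ℝ => psum w t m := by
    unfold psum
    exact continuous_finsetSum _ fun i _ => (continuous_apply i).smul continuous_const
  have hC0 : IsCompact ((fun t : ℕ → ℝ => psum w t m) '' {t : ℕ → ℝ | ∀ i, |t i| ≤ 1}) :=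
    hcube.image hcont
  obtain ⟨N, hNs, hNf, hNc⟩ := hC0.finite_cover_balls hδ
  -- the net
  refine ⟨N ∪ ⋃ j ∈ Finset.range (m + 1), (fun z => y j + z) '' N, ?_, ?_, ?_⟩
  · exact hNf.union (Set.Finite.biUnion (Finset.finite_toSet _) fun j _ => hNf.image _)
  · rintro z (hz | hz)
    · obtain ⟨t, ht, rfl⟩ := hNs hz
      exact ⟨t, ht, Or.inl rfl⟩
    · simp only [mem_iUnion, Finset.mem_range] at hz
      obtain ⟨j, hj, z', hz', rfl⟩ := hz
      obtain ⟨t, ht, rfl⟩ := hNs hz'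
      exact ⟨t, ht, Or.inr ⟨j, by omega, rfl⟩⟩
  · intro κ v hv t ht s hs
    -- the basic estimate
    have key : ∀ (x z : E), ‖x - z‖ < δ → ‖z + v‖ ≤ max ‖z‖ κ + δ → ‖z - v‖ ≤ max ‖z‖ κ + δ →
        ‖x + s • v‖ ≤ max ‖x‖ κ + 3 * δ := by
      intro x z hxz h1 h2
      have hz : max ‖z‖ κ ≤ max ‖x‖ κ + δ := by
        refine max_le ?_ ?_
        · have : ‖z‖ ≤ ‖x‖ + ‖x - z‖ := by
            calc ‖z‖ = ‖x - (x - z)‖ := by congr 1; abel
              _ ≤ _ := norm_sub_le _ _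
          linarith [le_max_left ‖x‖ κ]
        · linarith [le_max_right ‖x‖ κ]
      have hp : ‖x + v‖ ≤ max ‖x‖ κ + 3 * δ := by
        have : ‖x + v‖ ≤ ‖x - z‖ + ‖z + v‖ := by
          calc ‖x + v‖ = ‖(x - z) + (z + v)‖ := by congr 1; abel
            _ ≤ _ := norm_add_le _ _
        linarith
      have hm : ‖x - v‖ ≤ max ‖x‖ κ + 3 * δ := by
        have : ‖x - v‖ ≤ ‖x - z‖ + ‖z - v‖ := by
          calc ‖x - v‖ = ‖(x - z) + (z - v)‖ := by congr 1; abel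
            _ ≤ _ := norm_add_le _ _
        linarith
      rw [abs_le] at hs
      have hcomb : x + s • v = ((1 + s) / 2) • (x + v) + ((1 - s) / 2) • (x - v) := by
        module
      calc ‖x + s • v‖ ≤ ‖((1 + s) / 2) • (x + v)‖ + ‖((1 - s) / 2) • (x - v)‖ := by
            rw [hcomb]; exact norm_add_le _ _
        _ = (1 + s) / 2 * ‖x + v‖ + (1 - s) / 2 * ‖x - v‖ := by
            rw [norm_smul, norm_smul, Real.norm_eq_abs, Real.norm_eq_abs,
              abs_of_nonneg (by linarith), abs_of_nonneg (by linarith)]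
        _ ≤ (1 + s) / 2 * (max ‖x‖ κ + 3 * δ) + (1 - s) / 2 * (max ‖x‖ κ + 3 * δ) := by
            have a1 : 0 ≤ (1 + s) / 2 := by linarith
            have a2 : 0 ≤ (1 - s) / 2 := by linarith
            gcongr
        _ = max ‖x‖ κ + 3 * δ := by ring
    obtain ⟨z, hzN, hz⟩ : ∃ z ∈ N, psum w t m ∈ Metric.ball z δ := by
      have := hNc ⟨t, ht, rfl⟩
      simpa using this
    rw [Metric.mem_ball, dist_eq_norm] at hz
    refine ⟨?_, fun j hj => ?_⟩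
    · obtain ⟨h1, h2⟩ := hv z (Or.inl hzN)
      exact key _ z hz h1 h2
    · have hmem : y j + z ∈ N ∪ ⋃ j ∈ Finset.range (m + 1), (fun z => y j + z) '' N := by
        refine Or.inr ?_
        simp only [mem_iUnion, Finset.mem_range]
        exact ⟨j, by omega, z, hzN, rfl⟩
      obtain ⟨h1, h2⟩ := hv _ hmem
      refine key _ (y j + z) ?_ h1 h2
      rwa [add_sub_add_left_eq_sub]

/-! ## The explicit forms used by `LimAbs` -/

/-- The step inequality, in explicit form. -/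
def STEP (m : ℕ) (y w : ℕ → E) (v : E) (κ ε : ℝ) : Prop :=
  ∀ t : ℕ → ℝ, (∀ i, |t i| ≤ 1) → ∀ s : ℝ, |s| ≤ 1 →
    ‖∑ i ∈ Finset.range m, t i • w i + s • v‖ ≤
      max ‖∑ i ∈ Finset.range m, t i • w i‖ κ + ε ∧
    ∀ j ≤ m, ‖y j + ∑ i ∈ Finset.range m, t i • w i + s • v‖ ≤
      max ‖y j + ∑ i ∈ Finset.range m, t i • w i‖ κ + ε

theorem STEP_iff {m : ℕ} {y w : ℕ → E} {v : E} {κ ε : ℝ} :
    STEP m y w v κ ε ↔ StepIneq y w m κ ε v := Iff.rfl

theorem sig_eq (m : ℕ) : sig m = (1 / 2 : ℝ) ^ (m + 3) := rfl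

theorem sig_div_four (m : ℕ) : sig m / 4 = (1 / 2 : ℝ) ^ (m + 5) := by
  unfold sig; ring

theorem stepIneq_of_STEP {y w : ℕ → E}
    (h : ∀ m, STEP m y w (w m) (1 - (1 / 2) ^ (m + 3)) ((1 / 2) ^ (m + 5))) (m : ℕ) :
    StepIneq y w m (1 - sig m) (sig m / 4) (w m) := by
  rw [sig_div_four, sig_eq]
  exact h m

/-- W1 from the steps. -/
theorem W1_of_STEP {y w : ℕ → E}
    (h : ∀ m, STEP m y w (w m) (1 - (1 / 2) ^ (m + 3)) ((1 / 2) ^ (m + 5))) (n : ℕ)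
    (t : ℕ → ℝ) (ht : ∀ m, |t m| ≤ 1) : ‖∑ m ∈ Finset.range n, t m • w m‖ ≤ 1 :=
  W1_of_step' (stepIneq_of_STEP h) n t ht

/-- The norms of the vectors. -/
theorem norm_le_of_STEP {y w : ℕ → E}
    (h : ∀ m, STEP m y w (w m) (1 - (1 / 2) ^ (m + 3)) ((1 / 2) ^ (m + 5))) (m : ℕ) :
    ‖w m‖ ≤ 1 :=
  norm_le_of_step (stepIneq_of_STEP h) m

/-- W4 from the steps, coefficients bounded by `T`; `x` only has to be a limit of the `y j` after
scaling. -/
theorem W4_of_STEP {y w : ℕ → E}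
    (h : ∀ m, STEP m y w (w m) (1 - (1 / 2) ^ (m + 3)) ((1 / 2) ^ (m + 5))) {x : E}
    (hx : ∀ c : ℝ, 0 < c → ∀ ε > 0, ∃ j, ‖c • x - y j‖ < ε) {T ε : ℝ} (hT : 0 < T) (hε : 0 < ε) :
    ∃ m₀ : ℕ, ∀ n ≥ m₀, ∀ N ≥ n, ∀ t : ℕ → ℝ, (∀ i, |t i| ≤ T) →
      ‖x + ∑ m ∈ Finset.range N, t m • w m‖ ≤
        max ‖x + ∑ m ∈ Finset.range n, t m • w m‖ T + ε := by
  have h1 : ∀ z ∈ {z : E | ∀ ε > 0, ∃ j, ‖z - y j‖ < ε}, ∀ ε : ℝ, 0 < ε → ∃ j, ‖z - y j‖ < ε :=
    fun z hz ε hε => hz ε hε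
  obtain ⟨m₀, hm₀⟩ := W4_of_step_one (stepIneq_of_STEP h) h1
    (x := T⁻¹ • x) (hx _ (by positivity)) (show 0 < ε / T by positivity)
  refine ⟨m₀, fun n hn N hN t ht => ?_⟩
  have h1 := hm₀ n hn N hN (fun i => T⁻¹ * t i) (fun i => by
    rw [abs_mul, abs_inv, abs_of_pos hT, inv_mul_le_iff₀ hT, mul_one]; exact ht i)
  rw [psum_smul, psum_smul, ← smul_add, ← smul_add, norm_smul, norm_smul, Real.norm_eq_abs,
    abs_inv, abs_of_pos hT] at h1
  have h2 := mul_le_mul_of_nonneg_left h1 hT.le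
  rw [mul_inv_cancel_left₀ hT.ne', mul_add, mul_max_of_nonneg _ _ hT.le,
    mul_inv_cancel_left₀ hT.ne', mul_one, mul_div_cancel₀ _ hT.ne'] at h2
  exact h2

/-- The net, in the form used by `LimAbs`. -/
theorem net (m : ℕ) (y w : ℕ → E) {κ ε : ℝ} (_hκ : 0 ≤ κ) (hε : 0 < ε) :
    ∃ yy : Finset E, (∀ z ∈ yy, z ∈ Submodule.span ℝ (y '' Set.Iic m ∪ w '' Set.Iio m)) ∧
      ∀ v, (∀ z ∈ yy, ‖z + v‖ ≤ max ‖z‖ κ + ε / 4 ∧ ‖z - v‖ ≤ max ‖z‖ κ + ε / 4) →
        STEP m y w v κ ε := by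
  classical
  obtain ⟨yy, hf, h1, h2⟩ := exists_net y w m (show 0 < ε / 4 by positivity)
  refine ⟨hf.toFinset, ?_, ?_⟩
  · intro z hz
    rw [Set.Finite.mem_toFinset] at hz
    have hp : ∀ t : ℕ → ℝ, psum w t m ∈ Submodule.span ℝ (y '' Set.Iic m ∪ w '' Set.Iio m) := by
      intro t
      refine Submodule.sum_mem _ fun i hi => Submodule.smul_mem _ _ (Submodule.subset_span ?_)
      exact Or.inr ⟨i, Finset.mem_range.1 hi, rfl⟩
    obtain ⟨t, -, rfl | ⟨j, hj, rfl⟩⟩ := h1 z hz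
    · exact hp t
    · exact Submodule.add_mem _ (Submodule.subset_span (Or.inl ⟨j, hj, rfl⟩)) (hp t)
  · intro v hv
    have h3 := h2 κ v fun z hz => hv z ((Set.Finite.mem_toFinset hf).2 hz)
    intro t ht s hs
    obtain ⟨h4, h5⟩ := h3 t ht s hs
    refine ⟨h4.trans (by unfold psum; linarith), fun j hj => (h5 j hj).trans ?_⟩
    unfold psum; linarith

end steps

end Pool.Agent.Dia
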