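import Pool.Agent.Work.MP_89a7db_an.Dia.SuccFar
import Pool.Agent.Work.MP_89a7db_an.Dia.Interp
import Pool.Agent.Work.MP_89a7db_an.Dia.RecAbs

/-!
# Cell DIAM (MP_89a7db_an), module M5, part 2: the datum at a successor stage (2.2)
-/

set_option autoImplicit false
set_option linter.unusedSectionVars false

namespace Pool.Agent.DIAM

open Set Filter Topology Pool.Agent.Dia Pool.Agent.DIAM.Itp
open scoped ENNReal

noncomputable section

namespace Succ

variable {W : Type} [LinearOrder W]
variable {Z : W × ℕ → Type} [∀ k, NormedAddCommGroup (Z k)] [∀ k, NormedSpace ℝ (Z k)]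
  [∀ k, CompleteSpace (Z k)]

/-! ### separability -/

/-- `X_a` is separable. -/
theorem XS_isSeparable [OmegaOne W] (fb : Fib Z) (D : ∀ a, Datum Z a) (a : W) :
    TopologicalSpace.IsSeparable (XS D a : Set (L Z)) := by
  have h1 : TopologicalSpace.IsSeparable
      {x : L Z | ∃ k : W × ℕ, k.1 < a ∧ ∃ z : Z k, x = J D k z} := by
    have hc : (ltS a : Set (W × ℕ)).Countable := by
      have : (ltS a : Set (W × ℕ)) = Set.Iio a ×ˢ (Set.univ : Set ℕ) := by
        ext k; simp [ltS]
      rw [this]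
      exact (countable_Iio a).prod Set.countable_univ
    have h2 : {x : L Z | ∃ k : W × ℕ, k.1 < a ∧ ∃ z : Z k, x = J D k z}
        = ⋃ k ∈ (ltS a : Set (W × ℕ)), Set.range (J D k) := by
      ext x
      simp only [Set.mem_ofPred_eq, Set.mem_iUnion, ltS, Set.mem_range, exists_prop]
      constructor
      · rintro ⟨k, hk, z, rfl⟩
        exact ⟨k, hk, z, rfl⟩
      · rintro ⟨k, hk, z, rfl⟩
        exact ⟨k, hk, z, rfl⟩
    rw [h2, Set.biUnion_eq_iUnion]
    have hc' : Countable (ltS a : Set (W × ℕ)) := hc.to_subtype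
    refine TopologicalSpace.IsSeparable.iUnion fun k => ?_
    have : TopologicalSpace.SeparableSpace (Z k) :=
      ⟨⟨Set.range (fb.e k), Set.countable_range _, fb.e_dense k⟩⟩
    exact TopologicalSpace.isSeparable_range (J D k).continuous
  exact h1.span.closure

/-- A dense sequence of `X_a`. -/
theorem exists_dense [OmegaOne W] (fb : Fib Z) (D : ∀ a, Datum Z a) (a : W) :
    ∃ y : ℕ → L Z, (∀ j, y j ∈ XS D a) ∧ ∀ x ∈ XS D a, ∀ ε > 0, ∃ j, ‖x - y j‖ < ε := by
  have hs : TopologicalSpace.SeparableSpace (XS D a : Set (L Z)) :=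
    (XS_isSeparable fb D a).separableSpace
  have hne : Nonempty (XS D a : Set (L Z)) := ⟨⟨0, zero_mem _⟩⟩
  obtain ⟨y, hy⟩ := TopologicalSpace.exists_dense_seq (XS D a : Set (L Z))
  refine ⟨fun j => y j, fun j => (y j).2, fun x hx ε hε => ?_⟩
  obtain ⟨j, hj⟩ := hy.exists_dist_lt ⟨x, hx⟩ hε
  refine ⟨j, ?_⟩
  rw [← dist_eq_norm]
  exact hj

/-! ### `P_b` of the generators -/

theorem P_J_self (D : ∀ a, Datum Z a) (a' : W) (j : ℕ) (u : Z (a', j)) :
    (D a').P (J D (a', j) u) = 0 := by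
  apply lp.ext
  funext k
  rw [P_apply', lp.coeFn_zero, Pi.zero_apply]
  have hT : (D a').T (J D (a', j) u) k = (D a').T (sg (a', j) u) k := by
    rw [Datum.T_apply, Datum.T_apply]
    refine tsum_congr fun m => ?_
    congr 1
    rw [Datum.th_apply, Datum.th_apply, J_apply, add_coord]
    rw [Succ.T_supp (D a') _ (k := (a', (D a').i m)) le_rfl, add_zero]
  rw [hT, cut_apply]
  by_cases hk : k ∈ geS a'
  · rw [if_pos hk, Succ.T_supp (D a') _ (show a' ≤ k.1 from hk), add_zero, sub_self]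
  · rw [if_neg hk, zero_add, J_apply, add_coord, sg_ne, zero_add, sub_self]
    rintro rfl
    exact hk (show a' ≤ a' from le_rfl)

theorem P_J_lt (D : ∀ a, Datum Z a) {a' b : W} (hb : b < a') (hw3 : CW3 D a' (D a')) :
    ∃ j0, ∀ j ≥ j0, ∀ u : Z (a', j), (D b).P (J D (a', j) u) = 0 := by
  obtain ⟨m0, hm0⟩ := hw3 b hb
  refine ⟨(Finset.range m0).sup (D a').i + 1, fun j hj u => ?_⟩
  have h0 : ∀ m < m0, (D a').th m (sg (a', j) u) = 0 := by
    intro m hm
    rw [Datum.th_apply, sg_ne, map_zero]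
    intro h
    have h1 : (D a').i m ≤ (Finset.range m0).sup (D a').i := Finset.le_sup (Finset.mem_range.2 hm)
    have h2 : (D a').i m = j := congrArg Prod.snd h
    omega
  have h1 : (D a').T (sg (a', j) u) = tl (D a') m0 (sg (a', j) u) := by
    rw [tl, Finset.sum_eq_zero, sub_zero]
    intro m hm
    rw [h0 m (Finset.mem_range.1 hm), zero_smul]
  rw [J_apply, map_add]
  show (D b).P (sg (a', j) u) + (D b).P ((D a').T (sg (a', j) u)) = 0
  rw [h1, P_tl_eq_zero (D a') (D b) m0 _ hm0, add_zero]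
  refine P_eq_zero_of_supp _ _ fun k hk => sg_ne _ _ ?_
  rintro rfl
  exact absurd hb (not_lt.2 hk)

/-- The far generators are killed by `P_b`, `b < a`. -/
theorem P_J_far (D : ∀ a, Datum Z a) {a' a : W} (hs : ∀ b < a, b ≤ a')
    (hw3 : CW3 D a' (D a')) {b : W} (hb : b < a) :
    ∃ j0, ∀ j ≥ j0, ∀ u : Z (a', j), (D b).P (J D (a', j) u) = 0 := by
  rcases (hs b hb).lt_or_eq with h | rfl
  · exact P_J_lt D h hw3
  · exact ⟨0, fun j _ u => P_J_self D b j u⟩

/-- The coordinates of stage `a'` of an element of `X_a` tend to zero. -/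
theorem coord_tendsto (D : ∀ a, Datum Z a) {a' a : W} (hs : ∀ b < a, b ≤ a') {y : L Z}
    (hy : y ∈ XS D a) : Tendsto (fun j => ‖y (a', j)‖) atTop (𝓝 0) := by
  rw [Metric.tendsto_atTop]
  intro ε hε
  have hy' : y ∈ closure ((Submodule.span ℝ
      {x | ∃ k : W × ℕ, k.1 < a ∧ ∃ z : Z k, x = J D k z} : Submodule ℝ (L Z)) : Set (L Z)) := hy
  obtain ⟨x, hx, hxy⟩ := Metric.mem_closure_iff.1 hy' ε hε
  obtain ⟨y0, hy0, v, hv, ⟨n0, hn0⟩, rfl⟩ := span_rep D hs hx
  refine ⟨n0, fun j hj => ?_⟩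
  rw [dist_zero_right, norm_norm]
  have h1 : (y0 + (v + (D a').T v)) (a', j) = 0 := by
    rw [add_coord, add_coord, Succ.XS_supp D hy0 (k := (a', j)) le_rfl, hn0 j hj,
      Succ.T_supp (D a') v (k := (a', j)) le_rfl, add_zero, add_zero]
  have h2 : y (a', j) = (y - (y0 + (v + (D a').T v))) (a', j) := by
    rw [sub_coord, h1, sub_zero]
  rw [h2]
  rw [dist_eq_norm] at hxy
  exact (norm_coord_le _ _).trans_lt hxy

/-! ### the datum at a successor -/

/-- **M5 (2.2).** The datum at a successor stage. -/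
theorem exists_succ [OmegaOne W] [∀ k, Nontrivial (Z k)] (fb : Fib Z) (gs : W → Lam Z)
    (D : ∀ a, Datum Z a) {a' a : W} (ha : a' < a) (hs : ∀ b < a, b ≤ a')
    (hw3 : CW3 D a' (D a')) (hw4 : CW4 D a' (D a')) : ∃ d : Datum Z a, Adm fb gs D a d := by
  classical
  -- norming vectors
  have hU : ∀ j : ℕ, ∃ (u : Z (a', j)) (ζ : StrongDual ℝ (Z (a', j))), ‖u‖ = 1 ∧ ‖ζ‖ = 1 ∧
      ζ u = 1 := by
    intro j
    obtain ⟨u, hu⟩ := exists_norm_eq (Z (a', j)) (zero_le_one (α := ℝ))
    have hu0 : u ≠ 0 := by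
      rintro rfl
      rw [norm_zero] at hu
      exact zero_ne_one hu
    obtain ⟨ζ, hζ, hζu⟩ := exists_dual_vector ℝ u (norm_ne_zero_iff.2 hu0)
    refine ⟨u, ζ, hu, hζ, ?_⟩
    rw [hζu, hu]
    norm_num
  choose u ζ hu hζ hζu using hU
  set V : ℕ → L Z := fun j => J D (a', j) (u j) with hV
  have hVmem : ∀ j, V j ∈ XS D a := fun j => J_mem D (a', j) ha (u j)
  -- the dense sequence and the enumeration of the coordinates
  obtain ⟨y, hy, hyd⟩ := exists_dense fb D a
  have hcount : (ltS a : Set (W × ℕ)).Countable := by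
    have : (ltS a : Set (W × ℕ)) = Set.Iio a ×ˢ (Set.univ : Set ℕ) := by
      ext k; simp [ltS]
    rw [this]
    exact (countable_Iio a).prod Set.countable_univ
  obtain ⟨h, hh⟩ := hcount.exists_eq_range ⟨(a', 0), ha⟩
  have hha : ∀ i, (h i).1 < a := by
    intro i
    have : h i ∈ (ltS a : Set (W × ℕ)) := by rw [hh]; exact ⟨i, rfl⟩
    exact this
  -- the recursion
  set s : ℕ → ℝ := fun m => 1 - (1 / 2 : ℝ) ^ (m + 3) with hsdef
  have hs0 : ∀ m, 0 ≤ s m := by
    intro m
    have : (1 / 2 : ℝ) ^ (m + 3) ≤ 1 := pow_le_one₀ (by norm_num) (by norm_num)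
    simp only [hsdef]; linarith
  have hs1 : ∀ m, s m ≤ 1 := by
    intro m
    have : 0 < (1 / 2 : ℝ) ^ (m + 3) := by positivity
    simp only [hsdef]; linarith
  let R : ℕ → (ℕ → ℕ) → ℕ → Prop := fun m f j =>
    (∀ i < m, f i < j) ∧
    STEP m y (fun i => s i • V (f i)) (s m • V j) (1 - (1 / 2) ^ (m + 3)) ((1 / 2) ^ (m + 5)) ∧
    ∀ i ≤ m, ‖V j (h i)‖ ≤ (1 / 2) ^ m
  have hloc : ∀ m (f g : ℕ → ℕ) j, (∀ i < m, f i = g i) → R m f j → R m g j := by
    rintro m f g j hfg ⟨r1, r2, r3⟩
    refine ⟨fun i hi => by rw [← hfg i hi]; exact r1 i hi, ?_, r3⟩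
    have hsum : ∀ t : ℕ → ℝ, ∑ i ∈ Finset.range m, t i • s i • V (g i)
        = ∑ i ∈ Finset.range m, t i • s i • V (f i) := by
      intro t
      refine Finset.sum_congr rfl fun i hi => ?_
      rw [hfg i (Finset.mem_range.1 hi)]
    intro t ht c hc
    have := r2 t ht c hc
    simp only at this ⊢
    rw [hsum t]
    exact this
  have hstep : ∀ m (f : ℕ → ℕ), (∀ i < m, R i f (f i)) → ∃ j, R m f j := by
    intro m f _
    have hκ : (0 : ℝ) ≤ 1 - (1 / 2) ^ (m + 3) := hs0 m
    obtain ⟨yy, hyy, hnet⟩ := net m y (fun i => s i • V (f i)) hκ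
      (show (0 : ℝ) < (1 / 2) ^ (m + 5) by positivity)
    have hyyX : ∀ z ∈ yy, z ∈ XS D a := by
      intro z hz
      refine (Submodule.span_le.2 ?_ : Submodule.span ℝ _ ≤ XS D a) (hyy z hz)
      rintro _ (⟨i, _, rfl⟩ | ⟨i, _, rfl⟩)
      · exact hy i
      · exact Submodule.smul_mem _ _ (hVmem _)
    -- eventually in `j`
    have e1 : ∀ᶠ j in atTop, ∀ i < m, f i < j := by
      filter_upwards [eventually_gt_atTop ((Finset.range m).sup f)] with j hj i hi
      exact (Finset.le_sup (Finset.mem_range.2 hi)).trans_lt hj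
    have e2 : ∀ᶠ j in atTop, ∀ z ∈ yy,
        ‖z + s m • V j‖ ≤ max ‖z‖ (1 - (1 / 2) ^ (m + 3)) + (1 / 2) ^ (m + 5) / 4 ∧
        ‖z - s m • V j‖ ≤ max ‖z‖ (1 - (1 / 2) ^ (m + 3)) + (1 / 2) ^ (m + 5) / 4 := by
      rw [Filter.eventually_all_finset]
      intro z hz
      obtain ⟨j0, hj0⟩ := far D hs hw4 (hyyX z hz) hκ
        (show (0 : ℝ) < (1 / 2) ^ (m + 5) / 4 by positivity)
      filter_upwards [eventually_ge_atTop j0] with j hj
      have hn : ‖s m • u j‖ ≤ 1 - (1 / 2) ^ (m + 3) := by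
        rw [norm_smul, hu j, mul_one, Real.norm_of_nonneg (hs0 m)]
      have hn' : ‖-(s m • u j)‖ ≤ 1 - (1 / 2) ^ (m + 3) := by rwa [norm_neg]
      have r1 := hj0 j hj (s m • u j) hn
      have r2 := hj0 j hj (-(s m • u j)) hn'
      rw [map_smul] at r1
      rw [map_neg, map_smul, ← sub_eq_add_neg] at r2
      exact ⟨r1, r2⟩
    have e3 : ∀ᶠ j in atTop, ∀ i ∈ Finset.range (m + 1), ‖V j (h i)‖ ≤ (1 / 2) ^ m := by
      rw [Filter.eventually_all_finset]
      intro i _
      rcases (hs _ (hha i)).lt_or_eq with hlt | heq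
      · obtain ⟨j0, hj0⟩ := far_small D hlt (show (0 : ℝ) < (1 / 2) ^ m by positivity)
        filter_upwards [eventually_ge_atTop j0] with j hj
        exact hj0 j hj (u j) (hu j).le
      · filter_upwards [eventually_gt_atTop (h i).2] with j hj
        have h0 : V j (h i) = 0 := by
          refine J_coord_ne D (a', j) (u j) heq.ge ?_
          intro h1
          have := congrArg Prod.snd h1
          simp only at this
          omega
        rw [h0, norm_zero]
        positivity
    obtain ⟨j, ⟨h1, h2⟩, h3⟩ := ((e1.and e2).and e3).exists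
    exact ⟨j, h1, hnet _ h2, fun i hi => h3 i (Finset.mem_range.2 (by omega))⟩
  obtain ⟨f, hf⟩ := exists_seq_of_step R hloc hstep
  have hfmono : StrictMono f := strictMono_nat_of_lt_succ fun m => (hf (m + 1)).1 m (by omega)
  have hfge : ∀ m, m ≤ f m := fun m => hfmono.le_apply
  set w : ℕ → L Z := fun m => s m • V (f m) with hw
  have hstepw : ∀ m, STEP m y w (w m) (1 - (1 / 2) ^ (m + 3)) ((1 / 2) ^ (m + 5)) :=
    fun m => (hf m).2.1
  have hwmem : ∀ m, w m ∈ XS D a := fun m => Submodule.smul_mem _ _ (hVmem _)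
  have hwk : ∀ m k, w m k = s m • V (f m) k := fun m k => smul_coord _ _ _
  -- the datum
  let d : Datum Z a :=
    { w := w
      i := fun m => (Nat.unpair (Nat.unpair m).1).1
      θ := fun m => fb.ds (a, (Nat.unpair (Nat.unpair m).1).1) (Nat.unpair (Nat.unpair m).1).2
      θ_le := fun m => fb.ds_le _ _
      supp := fun m k hk => Succ.XS_supp D (hwmem m) hk
      w1 := fun n t ht => W1_of_STEP hstepw n t ht
      w2 := by
        intro k
        by_cases hk : k.1 < a
        · have hk' : k ∈ (ltS a : Set (W × ℕ)) := hk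
          rw [hh] at hk'
          obtain ⟨i0, rfl⟩ := hk'
          rw [← summable_nat_add_iff i0]
          refine Summable.of_nonneg_of_le (fun _ => norm_nonneg _) (fun m => ?_)
            (summable_geometric_two)
          rw [hwk, norm_smul, Real.norm_of_nonneg (hs0 _)]
          have h1 := (hf (m + i0)).2.2 i0 (by omega)
          calc s (m + i0) * ‖V (f (m + i0)) (h i0)‖ ≤ 1 * (1 / 2) ^ (m + i0) := by
                gcongr
                exact hs1 _
            _ = (1 / 2) ^ (m + i0) := one_mul _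
            _ ≤ (1 / 2) ^ m :=
                pow_le_pow_of_le_one (by norm_num) (by norm_num) (by omega)
        · have : ∀ m, ‖w m k‖ = 0 := by
            intro m
            rw [Succ.XS_supp D (hwmem m) (not_lt.1 hk), norm_zero]
          simp only [this]
          exact summable_zero }
  have hdw : ∀ m, d.w m = w m := fun _ => rfl
  refine ⟨d, ?_, ?_, ?_, ?_, ?_⟩
  · exact hwmem
  · intro b hb
    obtain ⟨j0, hj0⟩ := P_J_far D hs hw3 hb
    refine ⟨j0, fun m hm => ?_⟩
    show (D b).P (s m • V (f m)) = 0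
    rw [map_smul, hj0 (f m) (hm.trans (hfge m)) (u (f m)), smul_zero]
  · intro x hx T hT ε hε
    exact W4_of_STEP hstepw (fun c _ δ hδ => hyd (c • x) (Submodule.smul_mem _ c hx) δ hδ) hT hε
  · intro _ i n
    set q : ℕ := Nat.pair i n with hq
    set mm : ℕ → ℕ := fun j => Nat.pair q j with hmm
    have hmmono : StrictMono mm := fun j l hjl => Nat.pair_lt_pair_right q hjl
    have hmge : ∀ j, j ≤ mm j := fun j => Nat.right_le_pair _ _
    have hcoord : ∀ l j, d.w l (a', f (mm j)) = if l = mm j then s l • u (f (mm j)) else 0 := by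
      intro l j
      show w l (a', f (mm j)) = _
      rw [hwk]
      by_cases hl : l = mm j
      · subst hl
        rw [if_pos rfl]
        congr 1
        exact J_coord_self D (a', f (mm j)) (u (f (mm j)))
      · rw [if_neg hl]
        have : V (f l) (a', f (mm j)) = 0 := by
          refine J_coord_ne D (a', f l) (u (f l)) le_rfl ?_
          intro h1
          exact hl (hfmono.injective (congrArg Prod.snd h1)).symm
        rw [this, smul_zero]
    refine ⟨mm, fun j => (a', f (mm j)), fun j => ζ (f (mm j)), hmmono, ?_, fun j => ha, ?_, ?_,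
      fun j => (hζ _).le, ?_, ?_, ?_⟩
    · intro j x
      have h1 : Nat.unpair (Nat.unpair (mm j)).1 = (i, n) := by
        simp only [hmm, hq, Nat.unpair_pair]
      have h2 := congrArg (fun p : ℕ × ℕ => fb.ds (a, p.1) p.2 (x (a, p.1))) h1
      exact h2
    · intro g hg
      exact ⟨0, fun j _ => hs g hg⟩
    · intro j l hjl
      exact hmmono.injective (hfmono.injective (congrArg Prod.snd hjl))
    · intro x hx
      have h1 := (coord_tendsto D hs hx).comp ((hfmono.comp hmmono).tendsto_atTop)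
      refine squeeze_zero_norm (fun j => ?_) h1
      refine ((ζ (f (mm j))).le_opNorm _).trans ?_
      rw [hζ, one_mul]
      rfl
    · have h1 : ∀ j, ζ (f (mm j)) (d.w (mm j) (a', f (mm j))) = s (mm j) := by
        intro j
        rw [hcoord, if_pos rfl, map_smul, hζu, smul_eq_mul, mul_one]
      have h2 : Tendsto s atTop (𝓝 1) := by
        have h3 : Tendsto (fun m : ℕ => ((1 : ℝ) / 2) ^ (m + 3)) atTop (𝓝 0) :=
          (tendsto_pow_atTop_nhds_zero_of_lt_one (by norm_num) (by norm_num)).comp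
            (tendsto_add_atTop_nat 3)
        have h4 := h3.const_sub 1
        rwa [sub_zero] at h4
      refine (h2.comp hmmono.tendsto_atTop).congr fun j => ?_
      exact (h1 j).symm
    · have h1 : ∀ j, (∑' l, if l = mm j then (0 : ℝ) else |ζ (f (mm j)) (d.w l (a', f (mm j)))|)
          = 0 := by
        intro j
        refine (tsum_congr (g := fun _ : ℕ => (0 : ℝ)) fun l => ?_).trans tsum_zero
        by_cases hl : l = mm j
        · rw [if_pos hl]
        · rw [if_neg hl, hcoord, if_neg hl, map_zero, abs_zero]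
      refine (tendsto_const_nhds (x := (0 : ℝ))).congr fun j => ?_
      exact (h1 j).symm
  · intro hlim
    obtain ⟨c, hc1, hc2⟩ := hlim.2 a' ha
    exact absurd (hs c hc2) (not_le.2 hc1)

/-- The trivial datum at the first stage. -/
theorem adm_triv (fb : Fib Z) (gs : W → Lam Z) (D : ∀ a, Datum Z a) {a : W}
    (ha : ¬ ∃ b, b < a) : Adm fb gs D a (Datum.triv a) := by
  refine ⟨fun m => zero_mem _, fun b hb => absurd ⟨b, hb⟩ ha, ?_, fun h => absurd h ha,
    fun h => absurd h.1 ha⟩
  intro y _ T hT ε hε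
  refine ⟨0, fun n _ N _ t _ => ?_⟩
  have h : ∀ n, ∑ m ∈ Finset.range n, t m • (Datum.triv (Z := Z) a).w m = 0 := by
    intro n
    refine Finset.sum_eq_zero fun m _ => ?_
    show t m • (0 : L Z) = 0
    rw [smul_zero]
  rw [h, h, add_zero]
  have := le_max_left ‖y‖ T
  linarith

end Succ

variable {W : Type} [LinearOrder W]
variable {Z : W × ℕ → Type} [∀ k, NormedAddCommGroup (Z k)] [∀ k, NormedSpace ℝ (Z k)]
  [∀ k, CompleteSpace (Z k)]

/-- **M5 + M6.** From the limit stages (M6) to all stages: the hypothesis of `exists_sys` (M7). -/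
theorem exists_adm_of_lim [OmegaOne W] [∀ k, Nontrivial (Z k)] (fb : Fib Z)
    (gs : W → W → Lam Z)
    (hlim : ∀ (a : W) (D : ∀ a, Datum Z a), IsLim a → (∀ b < a, Adm fb (gs b) D b (D b)) →
      ∃ d : Datum Z a, Adm fb (gs a) D a d) :
    ∀ (a : W) (D : ∀ a, Datum Z a), (∀ b < a, Adm fb (gs b) D b (D b)) →
      ∃ d : Datum Z a, Adm fb (gs a) D a d := by
  intro a D hD
  by_cases h0 : ∃ b, b < a
  · by_cases h1 : ∀ b < a, ∃ c, b < c ∧ c < a
    · exact hlim a D ⟨h0, h1⟩ hD
    · push Not at h1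
      obtain ⟨a', ha', hs⟩ := h1
      refine Succ.exists_succ fb (gs a) D ha' (fun b hb => ?_) (hD a' ha').w3 (hD a' ha').w4
      by_contra h
      exact absurd hb (not_lt.2 (hs b (not_le.1 h)))
  · exact ⟨_, Succ.adm_triv fb (gs a) D h0⟩

end

end Pool.Agent.DIAM
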