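import Pool.Agent.Work.MP_89a7db_an.Dia.Rec
import Pool.Agent.Work.MP_89a7db_an.Dia.Succ
import Pool.Agent.Work.MP_89a7db_an.Dia.Lim
import Pool.Agent.Work.MP_89a7db_an.Dia.Guess

/-!
Cell DIAM: a full system of data exists, with the guesses of diamond.
-/

set_option autoImplicit false
set_option linter.unusedSectionVars false

namespace Pool.Agent.DIAM

open Set Filter Topology Pool.Agent.Dia Cardinal
open scoped ENNReal

variable {W : Type} [LinearOrder W] [OmegaOne W]
variable {Z : W × ℕ → Type} [∀ k, NormedAddCommGroup (Z k)] [∀ k, NormedSpace ℝ (Z k)]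
  [∀ k, CompleteSpace (Z k)]

/-- A full system of data exists, whatever the guesses. -/
theorem exists_sys_all [∀ k, Nontrivial (Z k)] (fb : Fib Z) (gs : W → W → Lam Z)
    (lg : W → (ℕ → Lam Z) × ℝ) : Nonempty (Sys fb gs lg) :=
  exists_sys fb gs lg (exists_adm_of_lim fb gs fun a D ha hD =>
    exists_limit fb (gs a) D ha (countable_Iio a)
      (fun c _ => Succ.XS_isSeparable fb D c)
      (fun b hb => (hD b hb).w0) (fun b hb => (hD b hb).w3) (fun b hb => (hD b hb).w4))

/-- Under diamond there is a full system of data whose guesses catch every sequence `W → Lam`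
together with every pair `(Ds, q)` on a stationary set. -/
theorem exists_sys_guess [∀ k, Nontrivial (Z k)] [∀ k, TopologicalSpace.SeparableSpace (Z k)]
    (hD : Diamond W) (fb : Fib Z) :
    ∃ (gs : W → W → Lam Z) (lg : W → (ℕ → Lam Z) × ℝ),
      (∀ (G : W → Lam Z) (Ds : ℕ → Lam Z) (q : ℝ),
        IsStationary {a : W | (∀ b < a, gs a b = G b) ∧ lg a = (Ds, q)}) ∧
      Nonempty (Sys fb gs lg) := by
  obtain ⟨gs, lg, h⟩ := exists_guess Z hD
  exact ⟨gs, lg, h, exists_sys_all fb gs lg⟩

end Pool.Agent.DIAM
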