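import Pool.Agent.Work.MP_89a7db_an.Dia.EndEst
import Pool.Agent.Work.MP_89a7db_an.Dia.Fibres
import Pool.Agent.Work.MP_89a7db_an.Dia.CountGen
import Pool.Agent.Work.MP_89a7db_an.Dia.FibEx
import Pool.Agent.Work.MP_89a7db_an.Dia.LightStage
import Pool.Agent.Work.MP_89a7db_an.Dia.SysEx
import Pool.Agent.Work.MP_89a7db_an.Dia.NonSep

/-!
MP_89a7db_an, module M17: the end of the proof. If every equivalent norm on `X = XX D` is
controlled at arbitrarily late stages and the fibres are universal, then `X` is a nonseparable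
Banach space of finite Banach-Mazur diameter, and it is isometric to a closed subspace of `l_oo`.
-/

set_option autoImplicit false
set_option linter.unusedSectionVars false

namespace Pool.Agent.DIAM

open Set Filter Topology Pool.Agent.Dia BMAbs BMD
open scoped ENNReal

noncomputable section

section fin

variable {W : Type} [LinearOrder W] [OmegaOne W]
variable {Z : W × ℕ → Type} [∀ k, NormedAddCommGroup (Z k)] [∀ k, NormedSpace ℝ (Z k)]
  [∀ k, CompleteSpace (Z k)]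

/-- Every separable Banach space `V ≠ 0` has `c_0(V)` isometric to a fibre of arbitrarily late
stage. -/
def UnivFib (Z : W × ℕ → Type) [∀ k, NormedAddCommGroup (Z k)] [∀ k, NormedSpace ℝ (Z k)] : Prop :=
  ∀ (V : Type) [NormedAddCommGroup V] [NormedSpace ℝ V] [CompleteSpace V]
    [TopologicalSpace.SeparableSpace V] [Nontrivial V] (b : W),
    ∃ k : W × ℕ, b < k.1 ∧ Nonempty (Z k ≃ₗᵢ[ℝ] cz V)

variable {D : ∀ a, Datum Z a}

/-- The norm `N` is controlled at the stage `g`. -/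
def Ctrl (hD : ∀ b, CW0 D b (D b) ∧ CW3 D b (D b)) (N : XX D → ℝ) (g : W) : Prop :=
  ∃ r : ℝ, 0 < r ∧ (∀ x, r * lat D g x ≤ N x) ∧ ∀ x, N (AX hD g x) ≤ 4 * r * lat D g x

theorem ctrl_norm (hD : ∀ b, CW0 D b (D b) ∧ CW3 D b (D b)) (g : W) :
    Ctrl hD (fun x => ‖x‖) g := by
  refine ⟨1, one_pos, fun x => ?_, fun x => ?_⟩
  · rw [one_mul]
    exact norm_cut_le _ _
  · show ‖AX hD g x‖ ≤ 4 * 1 * lat D g x
    rw [norm_AX, mul_one]
    have : 0 ≤ lat D g x := norm_nonneg _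
    linarith

theorem mem_range_PX (hD : ∀ b, CW0 D b (D b) ∧ CW3 D b (D b)) (g : W) (x : XX D) :
    x ∈ LinearMap.range (PX hD g) ↔ (x : L Z) ∈ XS D g := by
  constructor
  · rintro ⟨y, rfl⟩
    rw [PX_coe]
    exact P_mem_of_mem_XX hD g y.2
  · intro h
    refine ⟨x, Subtype.ext ?_⟩
    rw [PX_coe]
    exact P_of_mem D h

/-- The image of `X_g` in an isomorphic copy of `X` is a nontrivial separable Banach space. -/
theorem image_props (hD : ∀ b, CW0 D b (D b) ∧ CW3 D b (D b)) {a g : W} (hag : a < g)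
    [Nontrivial (Z (a, 0))] (hsep : TopologicalSpace.IsSeparable (XS D g : Set (L Z)))
    {Y : Type*} [NormedAddCommGroup Y] [NormedSpace ℝ Y] [CompleteSpace Y] (T : XX D ≃L[ℝ] Y) :
    CompleteSpace (Submodule.map (T : XX D →ₗ[ℝ] Y) (LinearMap.range (PX hD g))) ∧
    TopologicalSpace.SeparableSpace
      (Submodule.map (T : XX D →ₗ[ℝ] Y) (LinearMap.range (PX hD g))) ∧
    Nontrivial (Submodule.map (T : XX D →ₗ[ℝ] Y) (LinearMap.range (PX hD g))) := by
  set V := Submodule.map (T : XX D →ₗ[ℝ] Y) (LinearMap.range (PX hD g)) with hV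
  have hVset : (V : Set Y) = T '' {x : XX D | (x : L Z) ∈ XS D g} := by
    ext y
    constructor
    · rintro ⟨x, hx, rfl⟩
      exact ⟨x, (mem_range_PX hD g x).1 hx, rfl⟩
    · rintro ⟨x, hx, rfl⟩
      exact ⟨x, (mem_range_PX hD g x).2 hx, rfl⟩
  refine ⟨?_, ?_, ?_⟩
  · have h1 : IsClosed {x : XX D | (x : L Z) ∈ XS D g} :=
      (isClosed_XS D g).preimage continuous_subtype_val
    have h2 : IsClosed (V : Set Y) := by
      rw [hVset]
      exact T.toHomeomorph.isClosedMap _ h1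
    exact h2.completeSpace_coe
  · have h1 : TopologicalSpace.SeparableSpace (XS D g) := hsep.separableSpace
    have h2 : TopologicalSpace.IsSeparable (V : Set Y) := by
      have h3 : (V : Set Y) = range fun x : XS D g => T ⟨(x : L Z), XS_le_XX D g x.2⟩ := by
        rw [hVset]
        ext y
        constructor
        · rintro ⟨x, hx, rfl⟩
          exact ⟨⟨(x : L Z), hx⟩, rfl⟩
        · rintro ⟨x, rfl⟩
          exact ⟨⟨(x : L Z), XS_le_XX D g x.2⟩, x.2, rfl⟩
      rw [h3]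
      refine TopologicalSpace.isSeparable_range ?_
      exact T.continuous.comp (Continuous.subtype_mk continuous_subtype_val _)
    exact h2.separableSpace
  · obtain ⟨z, hz⟩ := exists_ne (0 : Z (a, 0))
    have h1 : J D (a, 0) z ∈ XS D g := J_mem D (k := (a, 0)) hag z
    have h2 : (⟨J D (a, 0) z, XS_le_XX D g h1⟩ : XX D) ≠ 0 := by
      intro h
      apply hz
      have h3 : J D (a, 0) z = 0 := congrArg Subtype.val h
      have h4 := J_self D (a, 0) z
      rw [h3] at h4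
      exact h4.symm
    refine ⟨⟨⟨T ⟨J D (a, 0) z, XS_le_XX D g h1⟩, Submodule.mem_map_of_mem
      ((mem_range_PX hD g _).2 h1)⟩, 0, fun h => h2 ?_⟩⟩
    have h3 : T ⟨J D (a, 0) z, XS_le_XX D g h1⟩ = 0 := congrArg Subtype.val h
    exact T.map_eq_zero_iff.1 h3

/-- The diameter of `X` is finite. -/
theorem bmDiam_XX_le [∀ k, Nontrivial (Z k)] (hD : ∀ b, CW0 D b (D b) ∧ CW3 D b (D b))
    (hsep : ∀ a, TopologicalSpace.IsSeparable (XS D a : Set (L Z))) (hfib : UnivFib Z)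
    (hctrl : ∀ (N : Seminorm ℝ (XX D)) (del C : ℝ), 0 < del → (∀ x, del * ‖x‖ ≤ N x) →
      (∀ x, N x ≤ C * ‖x‖) → ∀ g0 : W, ∃ g, g0 < g ∧ Ctrl hD N g) :
    bmDiam (XX D) ≤ ENNReal.ofReal ((((3 * 5) * (5 * 3)) ^ 2) ^ 2) := by
  refine bmDiam_le_of_common (XX D) (a := 3 * 5) (b := 5 * 3) (by norm_num) (by norm_num) ?_
  intro Y _ _ _ hY
  obtain ⟨T⟩ := hY
  obtain ⟨a⟩ := nonempty' W
  -- the seminorm
  let N : Seminorm ℝ (XX D) := (normSeminorm ℝ Y).comp (T : XX D →ₗ[ℝ] Y)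
  have hN : ∀ x, N x = ‖T x‖ := fun x => rfl
  have hnt : Nontrivial (XX D) := by
    obtain ⟨z, hz⟩ := exists_ne (0 : Z (a, 0))
    refine ⟨⟨⟨J D (a, 0) z, J_mem_XX (a, 0) z⟩, 0, fun h => hz ?_⟩⟩
    have h3 : J D (a, 0) z = 0 := congrArg Subtype.val h
    have h4 := J_self D (a, 0) z
    rw [h3] at h4
    exact h4.symm
  have hTs : 0 < ‖(T.symm : Y →L[ℝ] XX D)‖ := by
    rcases (norm_nonneg (T.symm : Y →L[ℝ] XX D)).eq_or_lt with h0 | h0
    · exfalso
      obtain ⟨x, hx⟩ := exists_ne (0 : XX D)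
      have h1 : (T.symm : Y →L[ℝ] XX D) (T x) = x := T.symm_apply_apply x
      have h2 := (T.symm : Y →L[ℝ] XX D).le_opNorm (T x)
      rw [← h0, zero_mul, h1] at h2
      exact hx (norm_le_zero_iff.1 h2)
    · exact h0
  obtain ⟨g, hg, r, hr, h1, h2⟩ := hctrl N (‖(T.symm : Y →L[ℝ] XX D)‖⁻¹) ‖(T : XX D →L[ℝ] Y)‖
    (inv_pos.2 hTs) (fun x => by
      rw [hN, inv_mul_le_iff₀ hTs]
      have h1 : (T.symm : Y →L[ℝ] XX D) (T x) = x := T.symm_apply_apply x
      calc ‖x‖ = ‖(T.symm : Y →L[ℝ] XX D) (T x)‖ := by rw [h1]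
        _ ≤ _ := (T.symm : Y →L[ℝ] XX D).le_opNorm _)
    (fun x => (T : XX D →L[ℝ] Y).le_opNorm x) a
  refine ⟨KerP hD g, inferInstance, inferInstance, ?_, ?_⟩
  · -- the norm itself
    obtain ⟨r0, hr0, h3, h4⟩ := ctrl_norm hD g
    have hc : CompleteSpace (XX D) := (isClosed_XX D).completeSpace_coe
    obtain ⟨c1, c2, c3⟩ := image_props hD hg (hsep g) (ContinuousLinearEquiv.refl ℝ (XX D))
    obtain ⟨k, hk, ek⟩ := hfib (Submodule.map
      ((ContinuousLinearEquiv.refl ℝ (XX D) : XX D ≃L[ℝ] XX D) : XX D →ₗ[ℝ] XX D)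
      (LinearMap.range (PX hD g))) g
    exact near_ker hD (ContinuousLinearEquiv.refl ℝ (XX D)) hr0 h3 h4 ⟨k, hk.le, ek⟩
  · obtain ⟨c1, c2, c3⟩ := image_props hD hg (hsep g) T
    obtain ⟨k, hk, ek⟩ := hfib (Submodule.map (T : XX D →ₗ[ℝ] Y) (LinearMap.range (PX hD g))) g
    exact near_ker hD T hr h1 h2 ⟨k, hk.le, ek⟩

/-- The main theorem for a family of universal fibres. -/
theorem exists_space_of_univ [∀ k, Nontrivial (Z k)]
    [∀ k, TopologicalSpace.SeparableSpace (Z k)] (hdia : Diamond W) (hfib : UnivFib Z) :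
    ∃ X : Submodule ℝ (lp (fun _ : ℕ => ℝ) ∞), IsClosed (X : Set (lp (fun _ : ℕ => ℝ) ∞)) ∧
      ¬ TopologicalSpace.SeparableSpace X ∧ bmDiam X ≤ 225 ^ 4 := by
  obtain ⟨fb⟩ := exists_Fib Z
  obtain ⟨gs, lg, hguess, ⟨S⟩⟩ := exists_sys_guess hdia fb
  have hc : CompleteSpace (XX S.D) := (isClosed_XX S.D).completeSpace_coe
  have hC1 : C1Concl S.D := S.c1Concl fun G => (hguess G (fun _ => 0) 0).mono fun a ha => ha.1
  obtain ⟨e⟩ := exists_embedding (Om := W) countable_Iio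
    (mkFrame S.D S.duality hC1).toCollapse
  have h225 : bmDiam (XX S.D) ≤ 225 ^ 4 := by
    refine le_of_le_of_eq (bmDiam_XX_le S.w03
      (fun a => isSeparable_XS S.D (countable_Iio a)) hfib fun N del C hdel hN' hN g0 => ?_) ?_
    · have hC : 0 ≤ max C 0 := le_max_right _ _
      obtain ⟨r, hr, h⟩ := S.exists_stage hguess N hC hdel
        (fun x => (hN x).trans (mul_le_mul_of_nonneg_right (le_max_left _ _) (norm_nonneg _))) hN'
      obtain ⟨g, hg, -, h1, h2⟩ := h _ (isClub_Ioi g0)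
      exact ⟨g, hg, r, hr, h1, h2⟩
    · have h1 : (((3 * 5) * (5 * 3)) ^ 2) ^ 2 = (225 : ℝ) ^ 4 := by norm_num
      rw [h1, ENNReal.ofReal_pow (by norm_num)]
      norm_num
  have E : XX S.D ≃ₗᵢ[ℝ] LinearMap.range e.toLinearMap := e.equivRange
  refine ⟨LinearMap.range e.toLinearMap, ?_, ?_,
    (bmDiam_congr E.toContinuousLinearEquiv).trans h225⟩
  · have h1 : IsClosed (Set.range e) := e.isometry.isClosedEmbedding.isClosed_range
    convert h1 using 1
    ext x
    simp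
  · intro h
    apply not_separable_XX S.D
    exact (E.symm.toHomeomorph.surjective.denseRange).separableSpace E.symm.continuous

end fin

/-- **The main theorem.** Under Jensen's diamond there is a closed nonseparable subspace `X` of
`ℓ^∞` of Banach-Mazur diameter at most `225 ^ 4`. -/
theorem exists_of_diamond {W : Type} [LinearOrder W] [OmegaOne W] (hdia : Diamond W) :
    ∃ X : Submodule ℝ (lp (fun _ : ℕ => ℝ) ∞), IsClosed (X : Set (lp (fun _ : ℕ => ℝ) ∞)) ∧
      ¬ TopologicalSpace.SeparableSpace X ∧ bmDiam X ≤ 225 ^ 4 := by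
  obtain ⟨s, hs⟩ := exists_fullEnum hdia
  refine exists_space_of_univ (W := W) (Z := Fibre s) hdia ?_
  intro V _ _ _ _ _ b
  obtain ⟨a, ha, h⟩ := hs.exists_fibre V b
  obtain ⟨e⟩ := h 0
  exact ⟨(a, 0), ha, ⟨e.symm⟩⟩

end

end Pool.Agent.DIAM
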