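import Pool.Agent.Work.MP_89a7db_an.Dia.CountGen

/-!
MP_89a7db_an, the consequences C2-C5 of the collapse lemma (C1), in an abstract frame.
-/

set_option autoImplicit false

namespace Pool.Agent.Dia

open Set

/-- A space `X` with the late seminorms `lat a x` (the supremum of the coordinates of `x` of stage
at least `a`), the tail masses `tail lam a` of the functionals, and the collapse property C1. -/
structure Frame (Om : Type*) [LinearOrder Om] (X : Type*) [NormedAddCommGroup X]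
    [NormedSpace ℝ X] where
  lat : Om → X → ℝ
  lat_nonneg : ∀ a x, 0 ≤ lat a x
  lat_le : ∀ a x, lat a x ≤ ‖x‖
  lat_anti : ∀ a b x, a ≤ b → lat b x ≤ lat a x
  tail : (X →L[ℝ] ℝ) → Om → ℝ
  tail_anti : ∀ lam a b, a ≤ b → tail lam b ≤ tail lam a
  tail_smul : ∀ (c : ℝ) lam a, tail (c • lam) a = |c| * tail lam a
  tail_nonneg : ∀ lam a, 0 ≤ tail lam a
  tail_le : ∀ lam a, tail lam a ≤ ‖lam‖
  tail_add : ∀ lam mu a, tail (lam + mu) a ≤ tail lam a + tail mu a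
  /-- a functional of norm one living on one late coordinate -/
  unit : ∀ a, ∃ f : X →L[ℝ] ℝ, (∀ x, |f x| ≤ lat a x) ∧ 1 ≤ tail f a
  /-- C1 -/
  collapse : ∀ (M : ℝ) (lam : Om → X →L[ℝ] ℝ), (∀ s, ‖lam s‖ ≤ M) → ∀ eps : ℝ, 0 < eps →
    ∃ (S : Set Om) (c : ℝ) (b0 g : Om), ¬ S.Countable ∧ 0 ≤ c ∧
      (∀ s ∈ S, |tail (lam s) b0 - c| ≤ eps) ∧
      ∀ b1 : Om, {s ∈ S | ¬ ∃ rho : X →L[ℝ] ℝ,
        (∀ x, |lam s x - rho x| ≤ (c + eps) * lat b1 x + eps * ‖x‖) ∧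
        ∀ (x : X) (r : ℝ), (∀ s' ∈ S, s' < g → |lam s' x| ≤ r) →
          |rho x| + c * lat g x ≤ r + 6 * eps * ‖x‖}.Countable

namespace Frame

variable {Om : Type*} [LinearOrder Om] {X : Type*} [NormedAddCommGroup X] [NormedSpace ℝ X]

private theorem exists_late {S : Set Om} (hI : ∀ a : Om, (Iio a).Countable)
    (hS : ¬ S.Countable) {P : Om → Prop} (hE : {s ∈ S | ¬ P s}.Countable) (a : Om) :
    ∃ s ∈ S, a ≤ s ∧ P s := by
  by_contra hno
  refine hS (((hI a).union hE).mono ?_)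
  intro s hs
  rcases lt_or_ge s a with h | h
  · exact Or.inl h
  · refine Or.inr ⟨hs, fun h2 => hno ⟨s, hs, h, h2⟩⟩

/-- C1 implies the form used for countable generation. -/
theorem toCollapse (Fr : Frame Om X) : Collapse Om X := by
  intro M lam hM eps heps
  obtain ⟨S, c, b0, g, hS, hc, _, h2⟩ := Fr.collapse M lam hM (eps / 8) (by positivity)
  refine ⟨S, g, hS, (h2 g).mono ?_⟩
  rintro s ⟨hs, hs2⟩
  refine ⟨hs, fun hrho => hs2 ?_⟩
  obtain ⟨rho, h3, h4⟩ := hrho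
  intro x r hr
  have h5 := h3 x
  have h6 := h4 x r hr
  have h7 := Fr.lat_le g x
  have h8 : |lam s x| ≤ |lam s x - rho x| + |rho x| := by
    have := abs_add_le (lam s x - rho x) (rho x)
    simpa using this
  nlinarith [Fr.lat_nonneg g x]

/-- C3, the tail radius. -/
theorem tail_radius (Fr : Frame Om X) (hI : ∀ a : Om, (Iio a).Countable)
    (hB : ∀ f : ℕ → Om, ∃ b, ∀ n, f n ≤ b) {N : X → ℝ} {C : ℝ} (hC : 0 ≤ C)
    (hN : ∀ x, N x ≤ C * ‖x‖) {r : ℝ} (h : ∀ (s : Om) (eps : ℝ), 0 < eps →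
      ∃ lam : X →L[ℝ] ℝ, (∀ x, |lam x| ≤ N x) ∧ r - eps ≤ Fr.tail lam s) :
    ∃ g, ∀ x, r * Fr.lat g x ≤ N x := by
  have key : ∀ n : ℕ, ∃ g, ∀ x, (r - 2 * (1 / ((n : ℝ) + 1))) * Fr.lat g x ≤
      N x + 6 * (1 / ((n : ℝ) + 1)) * ‖x‖ := by
    intro n
    set eps : ℝ := 1 / ((n : ℝ) + 1) with heps_def
    have heps : 0 < eps := by positivity
    choose lam h1 h2 using fun s => h s eps heps
    have hM : ∀ s, ‖lam s‖ ≤ C := fun s =>
      ContinuousLinearMap.opNorm_le_bound _ hC (fun x => (h1 s x).trans (hN x))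
    obtain ⟨S, c, b0, g, hS, hc, h3, h4⟩ := Fr.collapse C lam hM eps heps
    obtain ⟨s, hs, hbs, rho, h5, h6⟩ := exists_late hI hS (h4 g) b0
    refine ⟨g, fun x => ?_⟩
    have h7 := h6 x (N x) (fun s' _ _ => h1 s' x)
    have h8 := h2 s
    have h9 := Fr.tail_anti (lam s) b0 s hbs
    have h10 := (abs_le.1 (h3 s hs)).2
    have h11 : r - 2 * eps ≤ c := by linarith
    have h12 := mul_le_mul_of_nonneg_right h11 (Fr.lat_nonneg g x)
    have h13 := abs_nonneg (rho x)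
    linarith
  choose g hg using key
  obtain ⟨b, hb⟩ := hB g
  refine ⟨b, fun x => ?_⟩
  -- `(r - 2 / (n + 1)) * lat b x ≤ N x + 6 / (n + 1) * ‖x‖` if `r ≥ 2 / (n + 1)`; in general:
  have h1 : ∀ n : ℕ, r * Fr.lat b x ≤ N x + 8 * (1 / ((n : ℝ) + 1)) * ‖x‖ := by
    intro n
    have hpos : 0 < 1 / ((n : ℝ) + 1) := by positivity
    have h2 := hg n x
    have h3 := Fr.lat_anti _ _ x (hb n)
    have h4 := Fr.lat_nonneg b x
    have h5 := Fr.lat_le (g n) x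
    have h7 := Fr.lat_nonneg (g n) x
    have hN0 : 0 ≤ N x := by
      obtain ⟨lam, hl, _⟩ := h b 1 one_pos
      exact (abs_nonneg _).trans (hl x)
    rcases le_or_gt 0 r with hr | hr
    · have h6 := mul_le_mul_of_nonneg_left h3 hr
      have h8 := mul_le_mul_of_nonneg_left h5 hpos.le
      nlinarith
    · have h6 : r * Fr.lat b x ≤ 0 := mul_nonpos_of_nonpos_of_nonneg hr.le h4
      have h8 : 0 ≤ 8 * (1 / ((n : ℝ) + 1)) * ‖x‖ := by positivity
      linarith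
  have h2 : Filter.Tendsto (fun n : ℕ => N x + 8 * (1 / ((n : ℝ) + 1)) * ‖x‖) Filter.atTop
      (nhds (N x + 8 * 0 * ‖x‖)) :=
    tendsto_const_nhds.add ((tendsto_one_div_add_atTop_nhds_zero_nat.const_mul 8).mul_const _)
  have h3 := ge_of_tendsto' h2 h1
  simpa using h3

/-- The set `TT_c`. -/
def TT (Fr : Frame Om X) (p : X → ℝ) (c : ℝ) : Set (X →L[ℝ] ℝ) :=
  {lam | ∃ a, ∀ x, |lam x| + c * Fr.lat a x ≤ p x}

theorem TT_anti (Fr : Frame Om X) (p : X → ℝ) {c c' : ℝ} (h : c ≤ c') :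
    Fr.TT p c' ⊆ Fr.TT p c := by
  rintro lam ⟨a, ha⟩
  refine ⟨a, fun x => ?_⟩
  have := mul_le_mul_of_nonneg_right h (Fr.lat_nonneg a x)
  linarith [ha x]

theorem mem_TT_zero (Fr : Frame Om X) [Nonempty Om] (p : X → ℝ) (lam : X →L[ℝ] ℝ) :
    lam ∈ Fr.TT p 0 ↔ ∀ x, |lam x| ≤ p x := by
  constructor
  · rintro ⟨a, ha⟩ x
    simpa using ha x
  · intro h
    obtain ⟨a⟩ := ‹Nonempty Om›
    exact ⟨a, fun x => by simpa using h x⟩

/-- C4: one late stage works for all elements of `TT_c`. -/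
theorem TT_uniform [WellFoundedLT Om] (Fr : Frame Om X) [Nonempty Om]
    (hI : ∀ a : Om, (Iio a).Countable)
    (hB : ∀ f : ℕ → Om, ∃ b, ∀ n, f n ≤ b) {p : X → ℝ} {C : ℝ} (hC : 0 ≤ C)
    (hp : ∀ x, p x ≤ C * ‖x‖) {c : ℝ} (hc : 0 ≤ c) :
    ∃ a, ∀ lam ∈ Fr.TT p c, ∀ x, |lam x| + c * Fr.lat a x ≤ p x := by
  by_cases hne : (Fr.TT p c).Nonempty
  swap
  · obtain ⟨a⟩ := ‹Nonempty Om›
    exact ⟨a, fun lam hlam => absurd ⟨lam, hlam⟩ hne⟩
  obtain ⟨lam0, hlam0⟩ := hne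
  have hM : ∀ lam ∈ Fr.TT p c, ‖lam‖ ≤ C := by
    rintro lam ⟨a, ha⟩
    refine ContinuousLinearMap.opNorm_le_bound _ hC (fun x => ?_)
    have h1 := ha x
    have h2 := mul_nonneg hc (Fr.lat_nonneg a x)
    rw [Real.norm_eq_abs]
    linarith [hp x]
  obtain ⟨D, hD1, hD2, hD3⟩ := countable_generation hI Fr.toCollapse hM
  obtain ⟨E, hE⟩ := (hD2.insert lam0).exists_eq_range (insert_nonempty _ _)
  have hEmem : ∀ n, E n ∈ Fr.TT p c := by
    intro n
    have : E n ∈ insert lam0 D := hE ▸ mem_range_self n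
    rcases this with h | h
    · rw [h]; exact hlam0
    · exact hD1 h
  choose a ha using hEmem
  obtain ⟨b, hb⟩ := hB a
  have hEb : ∀ n x, |E n x| ≤ p x - c * Fr.lat b x := by
    intro n x
    have h1 := ha n x
    have h2 := mul_le_mul_of_nonneg_left (Fr.lat_anti _ _ x (hb n)) hc
    linarith
  refine ⟨b, fun lam hlam x => ?_⟩
  have h1 := hD3 lam hlam x (p x - c * Fr.lat b x) ((abs_nonneg _).trans (hEb 0 x))
    (fun d hd => by
      have : d ∈ range E := hE ▸ mem_insert_of_mem _ hd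
      obtain ⟨n, rfl⟩ := this
      exact hEb n x)
  linarith

/-- C4: `TT_c` is empty for `c > 1` if the tail radius is at most one. -/
theorem le_one_of_TT (Fr : Frame Om X) {p : X → ℝ}
    (h : ∀ eps : ℝ, 0 < eps → ∃ a, ∀ lam : X →L[ℝ] ℝ, (∀ x, |lam x| ≤ p x) →
      Fr.tail lam a ≤ 1 + eps) {c : ℝ} (hc : 0 ≤ c) (hne : (Fr.TT p c).Nonempty) : c ≤ 1 := by
  refine le_of_forall_pos_le_add (fun eps heps => ?_)
  obtain ⟨lam0, a0, ha0⟩ := hne
  obtain ⟨a, ha⟩ := h eps heps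
  obtain ⟨f, hf1, hf2⟩ := Fr.unit (max a0 a)
  have h1 : ∀ x, |(c • f) x| ≤ p x := by
    intro x
    have h2 := hf1 x
    have h3 := Fr.lat_anti _ _ x (le_max_left a0 a)
    have h4 : |(c • f) x| = c * |f x| := by
      rw [_root_.smul_apply, smul_eq_mul, abs_mul, abs_of_nonneg hc]
    rw [h4]
    have h5 := mul_le_mul_of_nonneg_left (h2.trans h3) hc
    have h6 := abs_nonneg (lam0 x)
    linarith [ha0 x]
  have h2 := ha (c • f) h1
  rw [Fr.tail_smul, abs_of_nonneg hc] at h2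
  have h3 := Fr.tail_anti f a (max a0 a) (le_max_right _ _)
  nlinarith

/-- the condition `L_del` for a finite family of vectors -/
def Light (Fr : Frame Om X) (p : X → ℝ) {ι : Type*} (I : Finset ι) (v : ι → X) (del : ℝ) : Prop :=
  ∀ c, 0 ≤ c → ∀ rho ∈ Fr.TT p c, ∑ i ∈ I, |rho (v i)| ≤ 1 + del - c

theorem light_empty (Fr : Frame Om X) {p : X → ℝ}
    (h : ∀ eps : ℝ, 0 < eps → ∃ a, ∀ lam : X →L[ℝ] ℝ, (∀ x, |lam x| ≤ p x) →
      Fr.tail lam a ≤ 1 + eps) {ι : Type*} (v : ι → X) : Fr.Light p ∅ v 0 := by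
  intro c hc rho hrho
  have := Fr.le_one_of_TT h hc ⟨rho, hrho⟩
  simp
  linarith

/-- C5, the conditional tail bound. -/
theorem cond_tail [WellFoundedLT Om] (Fr : Frame Om X) [Nonempty Om]
    (hI : ∀ a : Om, (Iio a).Countable)
    (hB : ∀ f : ℕ → Om, ∃ b, ∀ n, f n ≤ b) {p : X → ℝ} {C C' : ℝ} (hC : 0 ≤ C) (hC' : 0 ≤ C')
    (hp : ∀ x, p x ≤ C * ‖x‖) (hp' : ∀ x, ‖x‖ ≤ C' * p x)
    {ι : Type*} {I : Finset ι} {v : ι → X} {del : ℝ} (hL : Fr.Light p I v del)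
    {b1 : Om} (hb1 : ∀ i ∈ I, Fr.lat b1 (v i) = 0) {c : ℝ} (hc : 0 ≤ c) {eps : ℝ}
    (heps : 0 < eps) :
    ∃ b, ∀ rho ∈ Fr.TT p c, ∑ i ∈ I, |rho (v i)| + Fr.tail rho b ≤ 1 + del - c + eps := by
  by_contra hcon
  push Not at hcon
  choose rho hrho hbig using hcon
  obtain ⟨ac, hac⟩ := Fr.TT_uniform hI hB hC hp hc
  have hp0 : ∀ x, 0 ≤ p x := fun x => by
    have h1 := hac _ (hrho ac) x
    have h2 := mul_nonneg hc (Fr.lat_nonneg ac x)
    have h3 := abs_nonneg (rho ac x)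
    linarith
  have hM : ∀ s, ‖rho s‖ ≤ C := by
    intro s
    refine ContinuousLinearMap.opNorm_le_bound _ hC (fun x => ?_)
    have h1 := hac _ (hrho s) x
    have h2 := mul_nonneg hc (Fr.lat_nonneg ac x)
    rw [Real.norm_eq_abs]
    linarith [hp x]
  set K : ℝ := 6 * C' * |1 + del| + ∑ i ∈ I, ‖v i‖ + 1 with hK
  have hsum0 : 0 ≤ ∑ i ∈ I, ‖v i‖ := Finset.sum_nonneg (fun i _ => norm_nonneg _)
  have hK0 : 0 < K := by positivity
  set e : ℝ := eps / K with he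
  have he0 : 0 < e := by positivity
  have heK : e * K = eps := by rw [he]; field_simp
  obtain ⟨S, c', b0, g, hS, hc', h3, h4⟩ := Fr.collapse C rho hM e he0
  obtain ⟨s, hs, hbs, rh, h5, h6⟩ := exists_late hI hS (h4 b1) b0
  -- the bound for `rh`
  have h7 : ∀ x, |rh x| + (c + c') * Fr.lat (max g ac) x ≤ (1 + 6 * e * C') * p x := by
    intro x
    have h8 := h6 x (p x - c * Fr.lat ac x) (fun s' _ _ => by linarith [hac _ (hrho s') x])
    have h9 := mul_le_mul_of_nonneg_left (Fr.lat_anti _ _ x (le_max_left g ac)) hc'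
    have h10 := mul_le_mul_of_nonneg_left (Fr.lat_anti _ _ x (le_max_right g ac)) hc
    have h11 := mul_le_mul_of_nonneg_left (hp' x) (by positivity : (0:ℝ) ≤ 6 * e)
    nlinarith
  set κ : ℝ := 1 + 6 * e * C' with hκ
  have hκ0 : 0 < κ := by positivity
  have hmem : κ⁻¹ • rh ∈ Fr.TT p ((c + c') / κ) := by
    refine ⟨max g ac, fun x => ?_⟩
    have h8 : |(κ⁻¹ • rh) x| = κ⁻¹ * |rh x| := by
      rw [_root_.smul_apply, smul_eq_mul, abs_mul, abs_of_pos (inv_pos.2 hκ0)]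
    rw [h8]
    have h9 : κ⁻¹ * |rh x| + (c + c') / κ * Fr.lat (max g ac) x =
        κ⁻¹ * (|rh x| + (c + c') * Fr.lat (max g ac) x) := by
      field_simp
    rw [h9, inv_mul_le_iff₀ hκ0]
    exact h7 x
  have h8 := hL _ (by positivity) _ hmem
  have h9 : ∑ i ∈ I, |(κ⁻¹ • rh) (v i)| = κ⁻¹ * ∑ i ∈ I, |rh (v i)| := by
    rw [Finset.mul_sum]
    refine Finset.sum_congr rfl (fun i _ => ?_)
    rw [_root_.smul_apply, smul_eq_mul, abs_mul, abs_of_pos (inv_pos.2 hκ0)]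
  rw [h9] at h8
  have h10 : ∑ i ∈ I, |rh (v i)| ≤ κ * (1 + del) - (c + c') := by
    have h11 := mul_le_mul_of_nonneg_left h8 hκ0.le
    have h12 : κ * (κ⁻¹ * ∑ i ∈ I, |rh (v i)|) = ∑ i ∈ I, |rh (v i)| := by
      field_simp
    have h13 : κ * (1 + del - (c + c') / κ) = κ * (1 + del) - (c + c') := by
      field_simp
    rw [h12, h13] at h11
    exact h11
  have h14 : ∑ i ∈ I, |rho s (v i)| ≤ ∑ i ∈ I, |rh (v i)| + e * ∑ i ∈ I, ‖v i‖ := by
    rw [Finset.mul_sum, ← Finset.sum_add_distrib]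
    refine Finset.sum_le_sum (fun i hi => ?_)
    have h15 := h5 (v i)
    rw [hb1 i hi, mul_zero, zero_add] at h15
    have h16 : |rho s (v i)| ≤ |rho s (v i) - rh (v i)| + |rh (v i)| := by
      have := abs_add_le (rho s (v i) - rh (v i)) (rh (v i))
      simpa using this
    linarith
  have h17 := hbig s
  have h18 := Fr.tail_anti (rho s) b0 s hbs
  have h19 := (abs_le.1 (h3 s hs)).2
  have h20 : e * (6 * C') * (1 + del) ≤ e * (6 * C' * |1 + del|) := by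
    have := mul_le_mul_of_nonneg_left (le_abs_self (1 + del)) (by positivity : (0:ℝ) ≤ e * (6 * C'))
    linarith
  have h21 : e * K = e * (6 * C' * |1 + del|) + e * ∑ i ∈ I, ‖v i‖ + e := by
    rw [hK]; ring
  have h22 : κ * (1 + del) = (1 + del) + e * (6 * C') * (1 + del) := by rw [hκ]; ring
  linarith

end Frame

end Pool.Agent.Dia
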