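import Pool.Agent.Work.MP_89a7db_an.Dia.Dual
import Pool.Agent.Work.MP_89a7db_an.Dia.Frame
import Pool.Agent.Work.MP_89a7db_an.Dia.CollapseC

/-!
MP_89a7db_an, the bridge from the collapse lemma C1 to the abstract frame: the space `XX D` with the
late seminorms and the tail masses is a `Frame`.
-/

set_option autoImplicit false
set_option linter.unusedSectionVars false

namespace Pool.Agent.DIAM

open Set Filter Topology Pool.Agent.Dia
open scoped ENNReal

noncomputable section

variable {W : Type} [LinearOrder W]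
variable {Z : W × ℕ → Type} [∀ k, NormedAddCommGroup (Z k)] [∀ k, NormedSpace ℝ (Z k)]

/-! ### restrictions -/

theorem cut_norm_mono {S S' : Set (W × ℕ)} (h : S ⊆ S') (x : L Z) : ‖cut S x‖ ≤ ‖cut S' x‖ := by
  rw [norm_le_iff _ (norm_nonneg _)]
  intro k
  have h1 := norm_coord_le (cut S' x) k
  rw [cut_apply] at h1 ⊢
  split_ifs with hk
  · rwa [if_pos (h hk)] at h1
  · simp

theorem res_norm_eq_mass (S : Set (W × ℕ)) (l : Lam Z) :
    ‖res S l‖ = mass (fun k => ‖l k‖) S := by
  classical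
  rw [norm_eq_tsum, mass]
  refine tsum_congr fun k => ?_
  rw [res_apply]
  by_cases hk : k ∈ S
  · rw [if_pos hk, Set.indicator_of_mem hk]
  · rw [if_neg hk, Set.indicator_of_notMem hk, norm_zero]

theorem res_norm_mono {S S' : Set (W × ℕ)} (h : S ⊆ S') (l : Lam Z) : ‖res S l‖ ≤ ‖res S' l‖ := by
  rw [res_norm_eq_mass, res_norm_eq_mass]
  exact mass_mono (fun k => norm_nonneg _) (summable_norm l) h

theorem geS_anti {a b : W} (h : a ≤ b) : geS b ⊆ geS a := fun _ hk => le_trans h hk

theorem compl_Kb (b : W) : (Kb b)ᶜ = geS b := by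
  ext k
  simp [Kb, geS]

/-! ### the frame -/

section frame

variable [∀ k, CompleteSpace (Z k)]

/-- The duality `Lam = X^*`. -/
structure Duality (D : ∀ a, Datum Z a) : Prop where
  surj : ∀ f : (XX D) →L[ℝ] ℝ, ∃ l : Lam Z, ∀ x : XX D, f x = pair l (x : L Z)
  iso : ∀ (l : Lam Z) (C : ℝ), 0 ≤ C → (∀ x : XX D, |pair l (x : L Z)| ≤ C * ‖x‖) → ‖l‖ ≤ C

/-- The element of `Lam` that represents a functional. -/
def Duality.toLam {D : ∀ a, Datum Z a} (hD : Duality D) (f : (XX D) →L[ℝ] ℝ) : Lam Z :=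
  (hD.surj f).choose

theorem Duality.toLam_apply {D : ∀ a, Datum Z a} (hD : Duality D) (f : (XX D) →L[ℝ] ℝ)
    (x : XX D) : f x = pair (hD.toLam f) (x : L Z) := (hD.surj f).choose_spec x

theorem Duality.eq_of {D : ∀ a, Datum Z a} (hD : Duality D) {l l' : Lam Z}
    (h : ∀ x : XX D, pair l (x : L Z) = pair l' (x : L Z)) : l = l' := by
  rw [← sub_eq_zero, ← norm_le_zero_iff]
  refine hD.iso _ 0 le_rfl (fun x => ?_)
  rw [map_sub, _root_.sub_apply, h x, sub_self]
  simp

theorem Duality.norm_toLam_le {D : ∀ a, Datum Z a} (hD : Duality D) (f : (XX D) →L[ℝ] ℝ) :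
    ‖hD.toLam f‖ ≤ ‖f‖ :=
  hD.iso _ _ (norm_nonneg f) (fun x => by
    rw [← hD.toLam_apply]
    exact f.le_opNorm x)

/-- The functional on `X` given by an element of `Lam`. -/
def toDual (D : ∀ a, Datum Z a) (l : Lam Z) : (XX D) →L[ℝ] ℝ := (pair l).comp (XX D).subtypeL

theorem toDual_apply (D : ∀ a, Datum Z a) (l : Lam Z) (x : XX D) :
    toDual D l x = pair l (x : L Z) := rfl

theorem Duality.toLam_toDual {D : ∀ a, Datum Z a} (hD : Duality D) (l : Lam Z) :
    hD.toLam (toDual D l) = l :=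
  hD.eq_of (fun x => by rw [← hD.toLam_apply, toDual_apply])

theorem Duality.toDual_toLam {D : ∀ a, Datum Z a} (hD : Duality D) (f : (XX D) →L[ℝ] ℝ) :
    toDual D (hD.toLam f) = f := by
  ext x
  rw [toDual_apply, ← hD.toLam_apply]

theorem Duality.toLam_smul {D : ∀ a, Datum Z a} (hD : Duality D) (c : ℝ) (f : (XX D) →L[ℝ] ℝ) :
    hD.toLam (c • f) = c • hD.toLam f :=
  hD.eq_of (fun x => by
    rw [← hD.toLam_apply, map_smul, _root_.smul_apply, _root_.smul_apply, hD.toLam_apply])

theorem Duality.toLam_add {D : ∀ a, Datum Z a} (hD : Duality D) (f g : (XX D) →L[ℝ] ℝ) :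
    hD.toLam (f + g) = hD.toLam f + hD.toLam g :=
  hD.eq_of (fun x => by
    rw [← hD.toLam_apply, map_add, _root_.add_apply, _root_.add_apply, hD.toLam_apply,
      hD.toLam_apply])

/-- the late seminorm `‖x|≥a‖` -/
def lat (D : ∀ a, Datum Z a) (a : W) (x : XX D) : ℝ := ‖cut (geS a) (x : L Z)‖

/-- the tail mass of a functional -/
def Duality.tail {D : ∀ a, Datum Z a} (hD : Duality D) (f : (XX D) →L[ℝ] ℝ) (a : W) : ℝ :=
  ‖res (geS a) (hD.toLam f)‖

theorem pair_eq_tsum (l : Lam Z) (x : L Z) : pair l x = ∑' k, l k (x k) := rfl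

/-- A functional restricted to late coordinates is dominated by the late seminorm. -/
theorem pair_res_le (S : Set (W × ℕ)) (l : Lam Z) (x : L Z) :
    |pair (res S l) x| ≤ ‖res S l‖ * ‖cut S x‖ := by
  have h : pair (res S l) x = pair (res S l) (cut S x) := by
    rw [pair_eq_tsum, pair_eq_tsum]
    refine tsum_congr fun k => ?_
    rw [res_apply, cut_apply]
    by_cases hk : k ∈ S
    · rw [if_pos hk, if_pos hk]
    · rw [if_neg hk, if_neg hk]; simp
  rw [h]
  exact norm_pair_le _ _

/-- The conclusion of the collapse lemma for the coordinates of `XX D`. -/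
def C1Concl (D : ∀ a, Datum Z a) : Prop :=
  ∀ (lam : W → Lam Z) (M : ℝ), (∀ s, ‖lam s‖ ≤ M) → ∀ eps : ℝ, 0 < eps →
    ∃ (S : Set W) (R : Finset (W × ℕ)) (c : ℝ) (b0 g : W), ¬ S.Countable ∧ 0 ≤ c ∧
      (∀ k ∈ R, k.1 < b0) ∧ (∀ s ∈ S, |‖res (geS b0) (lam s)‖ - c| < eps) ∧
      (∀ b, b0 ≤ b → {s ∈ S | ¬ ∃ F : Finset (W × ℕ), (∀ k ∈ F, b ≤ k.1) ∧
        ‖lam s - res (R ∪ F) (lam s)‖ < eps ∧
          |‖res (F : Set (W × ℕ)) (lam s)‖ - c| < eps}.Countable) ∧
      {s ∈ S | ¬ ∀ x ∈ XX D, ∀ r : ℝ, (∀ s' ∈ S, s' < g → |pair (lam s') x| ≤ r) →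
        ∀ k : W × ℕ, g ≤ k.1 → |pair (res (R : Set (W × ℕ)) (lam s)) x| + c * ‖x k‖ ≤
          r + 6 * eps * ‖x‖}.Countable

theorem c1Concl_of [OmegaOne W] (fb : Fib Z) (gs : W → W → Lam Z) (D : ∀ a, Datum Z a)
    (hgs : ∀ G : W → Lam Z, IsStationary {a | ∀ b < a, gs a b = G b})
    (hT1 : ∀ g, IsLim g → CT1 fb (gs g) D g (D g))
    (hP : ∀ x ∈ XX D, ∀ g, (D g).P x ∈ XS D g)
    (hC0 : ∀ x ∈ XX D, ∀ (g : W) (r : ℝ), (∀ i, ‖x (g, i)‖ ≤ r) → ∀ k : W × ℕ, g ≤ k.1 →
      ‖x k‖ ≤ r) : C1Concl D :=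
  fun lam _ hM _ heps => collapse_sys fb gs D hgs hT1 hP hC0 lam hM heps

theorem norm_split (S : Set (W × ℕ)) (l : Lam Z) : ‖l‖ = ‖res S l‖ + ‖res Sᶜ l‖ := by
  rw [res_norm_eq_mass, res_norm_eq_mass, ← mass_union (summable_norm l) disjoint_compl_right,
    Set.union_compl_self, mass_univ, norm_eq_tsum]

theorem res_add_compl (S : Set (W × ℕ)) (l : Lam Z) : res S l + res Sᶜ l = l := by
  classical
  apply lp.ext
  funext k
  rw [lp.coeFn_add, Pi.add_apply, res_apply, res_apply]
  by_cases hk : k ∈ S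
  · rw [if_pos hk, if_neg (by simpa using hk), add_zero]
  · rw [if_neg hk, if_pos (by simpa using hk), zero_add]

theorem Duality.tail_le {D : ∀ a, Datum Z a} (hD : Duality D) (f : (XX D) →L[ℝ] ℝ) (a : W) :
    hD.tail f a ≤ ‖f‖ := by
  have h1 := norm_split (geS a) (hD.toLam f)
  have h2 := hD.norm_toLam_le f
  have h3 := norm_nonneg (res (geS a)ᶜ (hD.toLam f))
  unfold Duality.tail
  linarith

/-- A vector without late coordinates does not see the tail of a functional. -/
theorem Duality.early {D : ∀ a, Datum Z a} (hD : Duality D) (f : (XX D) →L[ℝ] ℝ) {b : W}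
    {y : XX D} (hy : lat D b y = 0) : |f y| + ‖y‖ * hD.tail f b ≤ ‖y‖ * ‖f‖ := by
  have h0 : pair (res (geS b) (hD.toLam f)) (y : L Z) = 0 := by
    have h1 := pair_res_le (geS b) (hD.toLam f) (y : L Z)
    unfold lat at hy
    rw [hy, mul_zero] at h1
    exact abs_nonpos_iff.1 h1
  have h2 : f y = pair (res (geS b)ᶜ (hD.toLam f)) (y : L Z) := by
    have h3 := hD.toLam_apply f y
    rw [← res_add_compl (geS b) (hD.toLam f), map_add, _root_.add_apply, h0, zero_add] at h3
    exact h3
  have h4 : |f y| ≤ ‖res (geS b)ᶜ (hD.toLam f)‖ * ‖y‖ := by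
    rw [h2]
    exact norm_pair_le _ _
  have h5 := norm_split (geS b) (hD.toLam f)
  have h6 := hD.norm_toLam_le f
  unfold Duality.tail
  nlinarith [norm_nonneg y]

/-- F1 in the form used by the selection lemma. -/
theorem Duality.late_le {D : ∀ a, Datum Z a} (hD : Duality D) (f : (XX D) →L[ℝ] ℝ) {b : W}
    {v : XX D} (hv : pair (res (geS b)ᶜ (hD.toLam f)) (v : L Z) = 0) :
    |f v| ≤ lat D b v * hD.tail f b := by
  have h3 := hD.toLam_apply f v
  rw [← res_add_compl (geS b) (hD.toLam f), map_add, _root_.add_apply, hv, add_zero] at h3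
  rw [h3, mul_comm]
  exact pair_res_le _ _ _

/-- interpolation on finitely many coordinates (a consequence of 1.4) -/
def Interp (D : ∀ a, Datum Z a) : Prop :=
  ∀ (F : Finset (W × ℕ)) (z : ∀ k, Z k), (∀ k, ‖z k‖ ≤ 1) → ∀ ε > 0, ∃ x ∈ XX D, ‖x‖ ≤ 1 + ε ∧
    ∀ k ∈ F, ‖x k - z k‖ ≤ ε

theorem interp_of [NoMaxOrder W] {D : ∀ a, Datum Z a} (h0 : ∀ a, CW0 D a (D a))
    (hI : Interp0 D) : Interp D := by
  intro F z hz ε hε
  obtain ⟨n, _, hn, hk⟩ := hI F z hz ε hε 0
  exact ⟨∑ k ∈ F, Jn D k (n k) (z k), (XX D).sum_mem fun k _ => Jn_mem_XX h0 k _ _, hn, hk⟩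

theorem duality_of [WellFoundedLT W] [NoMaxOrder W] {D : ∀ a, Datum Z a}
    (h0 : ∀ a, CW0 D a (D a)) (hI : Interp0 D) : Duality D where
  surj f := by
    obtain ⟨l, _, hl⟩ := exists_rep h0 hI f
    exact ⟨l, fun x => (hl x).symm⟩
  iso l C hC h := norm_le_of_pair h0 hI l hC (fun x hx => (le_abs_self _).trans (h ⟨x, hx⟩))

private theorem fi_pair_res_finset (R : Finset (W × ℕ)) (l : Lam Z) (x : L Z) :
    pair (res (R : Set (W × ℕ)) l) x = ∑ j ∈ R, l j (x j) := by
  classical
  rw [pair_eq_tsum, tsum_eq_sum (s := R)]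
  · refine Finset.sum_congr rfl fun k hk => ?_
    rw [res_apply, if_pos (by exact hk)]
  · intro k hk
    rw [res_apply, if_neg (by exact hk)]
    simp

/-- A functional dominated by the coordinate `h` lives on the coordinate `h`. -/
theorem coord_eq_zero_of_dominated {D : ∀ a, Datum Z a} (hI : Interp D) {l : Lam Z}
    {h : W × ℕ} (hl : ∀ x ∈ XX D, |pair l x| ≤ ‖x h‖) {k : W × ℕ} (hk : k ≠ h) : l k = 0 := by
  classical
  have key : ∀ z : Z k, ‖z‖ ≤ 1 → l k z = 0 := by
    intro z hz
    have hb : ∀ ε : ℝ, 0 < ε → |l k z| ≤ ε * (‖l‖ + 2 + ε) := by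
      intro ε hε
      obtain ⟨G0, _, hG0, _⟩ := exists_finset_mass (fun k => norm_nonneg (l k)) (summable_norm l)
        Set.univ hε
      obtain ⟨x, hx, hxn, hxF⟩ := hI (insert k (insert h G0))
        (fun j => if hj : j = k then hj ▸ z else 0) (by
          intro j
          by_cases hj : j = k
          · subst hj; simpa using hz
          · simp [hj]) ε hε
      have h1 : ‖x h‖ ≤ ε := by
        have := hxF h (by simp)
        rwa [dif_neg (Ne.symm hk), sub_zero] at this
      have h2 : ‖x k - z‖ ≤ ε := by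
        have := hxF k (by simp)
        rwa [dif_pos rfl] at this
      have h3 := hl x hx
      -- the value at `x` is close to `l k z`
      have hs := summable_pair l x
      have h4 : pair l x = ∑ j ∈ insert k (insert h G0), l j (x j) +
          pair (res ((insert k (insert h G0) : Finset (W × ℕ)) : Set (W × ℕ))ᶜ l) x := by
        have h5 : l = res ((insert k (insert h G0) : Finset (W × ℕ)) : Set (W × ℕ)) l +
          res ((insert k (insert h G0) : Finset (W × ℕ)) : Set (W × ℕ))ᶜ l := (res_add_compl _ l).symm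
        conv_lhs => rw [h5]
        rw [map_add, _root_.add_apply, fi_pair_res_finset]
      have h6 : |pair (res ((insert k (insert h G0) : Finset (W × ℕ)) : Set (W × ℕ))ᶜ l) x| ≤
          ε * (1 + ε) := by
        refine (norm_pair_le _ _).trans ?_
        have h7 : ‖res ((insert k (insert h G0) : Finset (W × ℕ)) : Set (W × ℕ))ᶜ l‖ ≤ ε := by
          rw [res_norm_eq_mass]
          refine (mass_mono (fun k => norm_nonneg _) (summable_norm l) ?_).trans hG0.le
          intro j hj
          refine ⟨Set.mem_univ j, fun hj2 => hj ?_⟩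
          simp only [Finset.coe_insert]
          exact Or.inr (Or.inr hj2)
        exact mul_le_mul h7 hxn (norm_nonneg _) hε.le
      have h8 : |∑ j ∈ insert k (insert h G0), l j (x j) - l k z| ≤ ε * ‖l‖ := by
        have h9 : ∑ j ∈ insert k (insert h G0), l j (x j) - l k z =
            ∑ j ∈ insert k (insert h G0),
              l j (x j - (if hj : j = k then hj ▸ z else 0 : Z j)) := by
          simp only [map_sub, Finset.sum_sub_distrib]
          congr 1
          rw [Finset.sum_eq_single k]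
          · rw [dif_pos rfl]
          · intro j _ hj
            rw [dif_neg hj, map_zero]
          · intro hk'
            exact absurd (Finset.mem_insert_self _ _) hk'
        rw [h9]
        refine (Finset.abs_sum_le_sum_abs _ _).trans ?_
        calc ∑ j ∈ insert k (insert h G0), |l j (x j - (if hj : j = k then hj ▸ z else 0 : Z j))|
            ≤ ∑ j ∈ insert k (insert h G0), ‖l j‖ * ε := by
              refine Finset.sum_le_sum fun j hj => ?_
              exact ((l j).le_opNorm _).trans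
                (mul_le_mul_of_nonneg_left (hxF j hj) (norm_nonneg _))
          _ = (∑ j ∈ insert k (insert h G0), ‖l j‖) * ε := by rw [Finset.sum_mul]
          _ ≤ ‖l‖ * ε := by
              refine mul_le_mul_of_nonneg_right ?_ hε.le
              rw [norm_eq_tsum]
              exact (summable_norm l).sum_le_tsum _ fun _ _ => norm_nonneg _
          _ = ε * ‖l‖ := mul_comm _ _
      have h10 : |pair l x| ≤ ε := h3.trans h1
      rw [h4] at h10
      rw [abs_le] at h6 h8 h10 ⊢
      constructor <;> nlinarith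
    have h0 : |l k z| ≤ 0 := by
      have hlim : Tendsto (fun ε : ℝ => ε * (‖l‖ + 2 + ε)) (𝓝[>] 0) (𝓝 (0 * (‖l‖ + 2 + 0))) := by
        apply Tendsto.mono_left _ nhdsWithin_le_nhds
        apply Continuous.tendsto
        fun_prop
      have := ge_of_tendsto hlim (eventually_nhdsWithin_of_forall fun ε hε => hb ε hε)
      simpa using this
    exact abs_nonpos_iff.1 h0
  ext z
  rcases eq_or_ne z 0 with h0 | h0
  · simp [h0]
  · have h1 := key ((‖z‖)⁻¹ • z) (by
      rw [norm_smul, norm_inv, norm_norm, inv_mul_cancel₀ (norm_ne_zero_iff.2 h0)])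
    rw [map_smul, smul_eq_mul] at h1
    rcases mul_eq_zero.1 h1 with h2 | h2
    · exact absurd (inv_eq_zero.1 h2) (norm_ne_zero_iff.2 h0)
    · simpa using h2

theorem Duality.tail_eq_zero {D : ∀ a, Datum Z a} (hD : Duality D) (hI : Interp D)
    {f : (XX D) →L[ℝ] ℝ} {h : W × ℕ} (hf : ∀ x : XX D, |f x| ≤ ‖(x : L Z) h‖) {b : W}
    (hb : h.1 < b) : hD.tail f b = 0 := by
  unfold Duality.tail
  rw [norm_eq_zero]
  apply lp.ext
  funext k
  rw [res_apply]
  split_ifs with hk
  · have hne : k ≠ h := by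
      rintro rfl
      exact absurd hb (not_lt.2 hk)
    rw [coord_eq_zero_of_dominated hI (l := hD.toLam f) (fun x hx => by
      have := hf ⟨x, hx⟩
      rwa [hD.toLam_apply] at this) hne]
    rfl
  · rfl

/-- The frame of the space `XX D`. -/
def mkFrame [∀ k, Nontrivial (Z k)] (D : ∀ a, Datum Z a) (hD : Duality D) (hC : C1Concl D) :
    Frame W (XX D) where
  lat := lat D
  lat_nonneg a x := norm_nonneg _
  lat_le a x := norm_cut_le _ _
  lat_anti a b x h := cut_norm_mono (geS_anti h) _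
  tail := hD.tail
  tail_anti f a b h := res_norm_mono (geS_anti h) _
  tail_smul c f a := by
    unfold Duality.tail
    rw [hD.toLam_smul, map_smul, norm_smul, Real.norm_eq_abs]
  tail_nonneg f a := norm_nonneg _
  tail_le f a := hD.tail_le f a
  tail_add f g a := by
    unfold Duality.tail
    rw [hD.toLam_add, map_add]
    exact norm_add_le _ _
  unit a := by
    obtain ⟨z, hz⟩ := exists_ne (0 : Z (a, 0))
    obtain ⟨ζ, hζ1, hζ2⟩ := exists_dual_vector ℝ z (norm_ne_zero_iff.2 hz)
    refine ⟨toDual D (pl (a, 0) ζ), fun x => ?_, ?_⟩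
    · rw [toDual_apply, pair_eq_tsum, tsum_eq_single (a, 0)]
      · rw [pl_self]
        have h1 : |ζ ((x : L Z) (a, 0))| ≤ ‖ζ‖ * ‖(x : L Z) (a, 0)‖ := ζ.le_opNorm _
        rw [hζ1, one_mul] at h1
        exact h1.trans (norm_coord_le_cut (S := geS a) (k := (a, 0)) (le_refl a) _)
      · intro k hk
        rw [pl_ne _ _ hk]
        simp
    · unfold Duality.tail
      rw [hD.toLam_toDual]
      have h1 : res (geS a) (pl (a, 0) ζ) (a, 0) = ζ := by
        classical
        rw [res_apply, if_pos (show (a, 0) ∈ geS a from le_refl a), pl_self]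
      have h2 : ‖res (geS a) (pl (a, 0) ζ) (a, 0)‖ ≤ ‖res (geS a) (pl (a, 0) ζ)‖ := by
        rw [norm_eq_tsum]
        exact (summable_norm _).le_tsum (a, 0) fun j _ => norm_nonneg _
      rw [h1, hζ1] at h2
      exact h2
  collapse M lam hM eps heps := by
    obtain ⟨S, R, c, b0, g, hS, hc, hR, h1, h2, h3⟩ := hC (fun s => hD.toLam (lam s)) M
      (fun s => (hD.norm_toLam_le _).trans (hM s)) eps heps
    refine ⟨S, c, b0, g, hS, hc, fun s hs => (h1 s hs).le, fun b1 => ?_⟩
    refine ((h2 (max b0 b1) (le_max_left _ _)).union h3).mono ?_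
    rintro s ⟨hs, hno⟩
    by_contra hcon
    rw [Set.mem_union, not_or] at hcon
    obtain ⟨hA, hB⟩ := hcon
    have hA' : ∃ F : Finset (W × ℕ), (∀ k ∈ F, max b0 b1 ≤ k.1) ∧
        ‖hD.toLam (lam s) - res (R ∪ F) (hD.toLam (lam s))‖ < eps ∧
        |‖res (F : Set (W × ℕ)) (hD.toLam (lam s))‖ - c| < eps := by
      by_contra h
      exact hA ⟨hs, h⟩
    have hB' : ∀ x ∈ XX D, ∀ r : ℝ,
        (∀ s' ∈ S, s' < g → |pair (hD.toLam (lam s')) x| ≤ r) →
        ∀ k : W × ℕ, g ≤ k.1 → |pair (res (R : Set (W × ℕ)) (hD.toLam (lam s))) x| +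
          c * ‖x k‖ ≤ r + 6 * eps * ‖x‖ := by
      by_contra h
      exact hB ⟨hs, h⟩
    obtain ⟨F, hF1, hF2, hF3⟩ := hA'
    refine hno ⟨toDual D (res (R : Set (W × ℕ)) (hD.toLam (lam s))), fun x => ?_,
      fun x r hr => ?_⟩
    · have hdisj : ∀ k, k ∈ R → k ∉ F := by
        intro k hk1 hk2
        exact absurd ((hR k hk1).trans_le ((le_max_left b0 b1).trans (hF1 k hk2))) (lt_irrefl _)
      have hsum : res ((R : Set (W × ℕ)) ∪ F) (hD.toLam (lam s)) =
          res (R : Set (W × ℕ)) (hD.toLam (lam s)) + res (F : Set (W × ℕ)) (hD.toLam (lam s)) := by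
        classical
        apply lp.ext
        funext k
        rw [lp.coeFn_add, Pi.add_apply, res_apply, res_apply, res_apply]
        by_cases hkR : k ∈ R
        · have := hdisj k hkR
          simp [hkR, this]
        · by_cases hkF : k ∈ F <;> simp [hkR, hkF]
      have h4 : lam s x - toDual D (res (R : Set (W × ℕ)) (hD.toLam (lam s))) x =
          pair (hD.toLam (lam s) - res ((R : Set (W × ℕ)) ∪ F) (hD.toLam (lam s))) (x : L Z) +
          pair (res (F : Set (W × ℕ)) (hD.toLam (lam s))) (x : L Z) := by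
        rw [hD.toLam_apply (lam s) x, toDual_apply, hsum, map_sub, map_add,
          _root_.sub_apply, _root_.add_apply]
        ring
      have h5 : |pair (hD.toLam (lam s) - res ((R : Set (W × ℕ)) ∪ F) (hD.toLam (lam s)))
          (x : L Z)| ≤ eps * ‖x‖ := by
        refine (norm_pair_le _ _).trans ?_
        refine mul_le_mul_of_nonneg_right ?_ (norm_nonneg _)
        exact hF2.le
      have h6 : |pair (res (F : Set (W × ℕ)) (hD.toLam (lam s))) (x : L Z)| ≤
          (c + eps) * lat D b1 x := by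
        refine (pair_res_le _ _ _).trans ?_
        have h7 : ‖res (F : Set (W × ℕ)) (hD.toLam (lam s))‖ ≤ c + eps := by
          have := (abs_lt.1 hF3).2
          linarith
        have h8 : ‖cut (F : Set (W × ℕ)) (x : L Z)‖ ≤ lat D b1 x :=
          cut_norm_mono (fun k hk => (le_max_right b0 b1).trans (hF1 k hk)) _
        exact mul_le_mul h7 h8 (norm_nonneg _) (by linarith)
      rw [h4]
      refine (abs_add_le _ _).trans ?_
      linarith
    · rw [toDual_apply]
      have h4 := hB' x x.2 r (fun s' hs' hlt => by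
        have := hr s' hs' hlt
        rwa [hD.toLam_apply] at this)
      rcases hc.eq_or_lt with h0 | h0
      · have := h4 (g, 0) le_rfl
        rw [← h0, zero_mul, add_zero] at this ⊢
        exact this
      · have h5 : lat D g x ≤ (r + 6 * eps * ‖x‖ -
            |pair (res (R : Set (W × ℕ)) (hD.toLam (lam s))) (x : L Z)|) / c := by
          have h6 : ∀ k : W × ℕ, g ≤ k.1 → ‖(x : L Z) k‖ ≤ (r + 6 * eps * ‖x‖ -
              |pair (res (R : Set (W × ℕ)) (hD.toLam (lam s))) (x : L Z)|) / c := by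
            intro k hk
            rw [le_div_iff₀ h0]
            have := h4 k hk
            rw [Submodule.norm_coe] at this
            linarith
          have h7 : 0 ≤ (r + 6 * eps * ‖x‖ -
              |pair (res (R : Set (W × ℕ)) (hD.toLam (lam s))) (x : L Z)|) / c :=
            (norm_nonneg _).trans (h6 (g, 0) le_rfl)
          unfold lat
          rw [norm_le_iff _ h7]
          intro k
          rw [cut_apply]
          split_ifs with hk
          · exact h6 k hk
          · simpa using h7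
        rw [le_div_iff₀ h0] at h5
        linarith

end frame

end

end Pool.Agent.DIAM
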