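import Pool.Agent.Work.MP_89a7db_an.Dia.Amb

/-!
MP_89a7db_an, module M15, first part: the light extension property reflects to a club of stages.
-/

set_option autoImplicit false

namespace Pool.Agent.DIAM

open Set Filter Topology Pool.Agent.Dia

noncomputable section

section reflect

variable {W : Type} [LinearOrder W]
variable {Z : W × ℕ → Type} [∀ k, NormedAddCommGroup (Z k)] [∀ k, NormedSpace ℝ (Z k)]
  [∀ k, CompleteSpace (Z k)]

/-- the response of the light extension step beyond the stage `b` -/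
def RespG (D : ∀ a, Datum Z a) (LD : ℝ → ℕ → (ℕ → L Z) → Prop) (del' : ℝ) (n : ℕ) (w : ℕ → L Z)
    (yy : Finset (L Z)) (Q : Finset W) (H : Finset (W × ℕ)) (kap eps : ℝ) (b : W) : Prop :=
  ∀ (F : Finset (W × ℕ)) (u : ∀ k, Z k), (∀ k ∈ F, b ≤ k.1) → (∀ k ∈ F, ‖u k‖ ≤ kap) →
    ∀ eps' : ℝ, 0 < eps' → ∃ v : L Z,
      (∀ a, b ≤ a → (∀ k ∈ F, k.1 < a) → v ∈ XS D a) ∧ (∀ q ∈ Q, (D q).P v = 0) ∧
      LD del' (n + 1) (Function.update w n v) ∧
      (∀ y ∈ yy, ‖y + v‖ ≤ max ‖y‖ kap + eps ∧ ‖y - v‖ ≤ max ‖y‖ kap + eps) ∧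
      (∀ k ∈ F, ‖v k - u k‖ ≤ eps') ∧ (∀ h ∈ H, ‖v h‖ ≤ eps)

/-- a finite family of upward closed conditions below `g` holds at a common stage below `g` -/
theorem exists_common {ι : Type*} (s : Finset ι) (g : W) (hg : ∃ b, b < g) (P : ι → W → Prop)
    (hP : ∀ i a b, a ≤ b → P i a → P i b) (h : ∀ i ∈ s, ∃ a < g, P i a) :
    ∃ a < g, ∀ i ∈ s, P i a := by
  classical
  induction s using Finset.induction_on with
  | empty =>
    obtain ⟨b, hb⟩ := hg
    exact ⟨b, hb, fun i hi => absurd hi (Finset.notMem_empty i)⟩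
  | insert i s _ ih =>
    obtain ⟨a, ha, h1⟩ := ih fun j hj => h j (Finset.mem_insert_of_mem hj)
    obtain ⟨b, hb, h2⟩ := h i (Finset.mem_insert_self i s)
    refine ⟨max a b, max_lt ha hb, fun j hj => ?_⟩
    rcases Finset.mem_insert.1 hj with rfl | hj
    · exact hP _ _ _ (le_max_right _ _) h2
    · exact hP _ _ _ (le_max_left _ _) (h1 j hj)

/-- perturbation of the response -/
theorem RespG.perturb {D : ∀ a, Datum Z a} {LD : ℝ → ℕ → (ℕ → L Z) → Prop}
    (hmono : ∀ del del' n w, del ≤ del' → LD del n w → LD del' n w) {C : ℝ}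
    (hstab : ∀ del n w w' t, 0 ≤ t → LD del n w → (∀ i < n, w i ∈ XX D) →
      (∀ i < n, w' i ∈ XX D) → (∀ i < n, ‖w i - w' i‖ ≤ t) → LD (del + C * n * t) n w')
    {del1 del' : ℝ} {n : ℕ} {w w' : ℕ → L Z} {yy yy' : Finset (L Z)} {Q : Finset W}
    {H : Finset (W × ℕ)} {kap kap1 eps eps1 t : ℝ} {b : W}
    (hR : RespG D LD del1 n w' yy' Q H kap1 eps1 b) (ht : 0 ≤ t)
    (hw : ∀ i < n, w i ∈ XX D) (hw' : ∀ i < n, w' i ∈ XX D) (hww : ∀ i < n, ‖w i - w' i‖ ≤ t)
    (hyy : ∀ y ∈ yy, ∃ y' ∈ yy', ‖y - y'‖ ≤ t) (hkap : kap ≤ kap1) (hkap1 : kap1 ≤ kap + t)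
    (hbb : ∀ F : Finset (W × ℕ), ∃ a, b ≤ a ∧ ∀ k ∈ F, k.1 < a)
    (heps : eps1 + 2 * t ≤ eps) (heps1 : eps1 ≤ eps)
    (hdel : del1 + C * (n + 1 : ℕ) * t ≤ del') : RespG D LD del' n w yy Q H kap eps b := by
  intro F u hF hu eps' heps'
  obtain ⟨v, h1, h2, h3, h4, h5, h6⟩ := hR F u hF (fun k hk => (hu k hk).trans hkap) eps' heps'
  have hv : v ∈ XX D := by
    obtain ⟨a, ha, hFa⟩ := hbb F
    exact XS_le_XX D a (h1 a ha hFa)
  refine ⟨v, h1, h2, ?_, ?_, h5, fun h hh => (h6 h hh).trans heps1⟩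
  · refine hmono _ _ _ _ hdel (hstab _ _ _ _ t ht h3 ?_ ?_ ?_)
    · intro i hi
      rcases eq_or_ne i n with rfl | hne
      · rwa [Function.update_self]
      · rw [Function.update_of_ne hne]; exact hw' i (by omega)
    · intro i hi
      rcases eq_or_ne i n with rfl | hne
      · rwa [Function.update_self]
      · rw [Function.update_of_ne hne]; exact hw i (by omega)
    · intro i hi
      rcases eq_or_ne i n with rfl | hne
      · rw [Function.update_self, Function.update_self, sub_self, norm_zero]; exact ht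
      · rw [Function.update_of_ne hne, Function.update_of_ne hne, norm_sub_rev]
        exact hww i (by omega)
  · intro y hy
    obtain ⟨y', hy', hyt⟩ := hyy y hy
    obtain ⟨h7, h8⟩ := h4 y' hy'
    have h9 : ‖y'‖ ≤ ‖y‖ + t := by
      have := norm_sub_norm_le y' y
      rw [norm_sub_rev] at this
      linarith
    have h10 : max ‖y'‖ kap1 ≤ max ‖y‖ kap + t := by
      refine max_le ?_ ?_
      · linarith [le_max_left ‖y‖ kap]
      · linarith [le_max_right ‖y‖ kap]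
    constructor
    · have : y + v = (y - y') + (y' + v) := by abel
      rw [this]
      refine (norm_add_le _ _).trans ?_
      linarith
    · have : y - v = (y - y') + (y' - v) := by abel
      rw [this]
      refine (norm_add_le _ _).trans ?_
      linarith

variable [OmegaOne W]

/-- **reflection** of the light extension property to a club of stages -/
theorem reflect (D : ∀ a, Datum Z a) (hsep : ∀ a, TopologicalSpace.IsSeparable (XS D a : Set (L Z)))
    (LD : ℝ → ℕ → (ℕ → L Z) → Prop)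
    (hmono : ∀ del del' n w, del ≤ del' → LD del n w → LD del' n w) {C : ℝ} (hC : 0 ≤ C)
    (hstab : ∀ del n w w' t, 0 ≤ t → LD del n w → (∀ i < n, w i ∈ XX D) →
      (∀ i < n, w' i ∈ XX D) → (∀ i < n, ‖w i - w' i‖ ≤ t) → LD (del + C * n * t) n w')
    (hS2 : ∀ (del del' : ℝ) (n : ℕ) (w : ℕ → L Z) (yy : Finset (L Z)) (Q : Finset W)
      (H : Finset (W × ℕ)) (kap eps : ℝ), (∀ i < n, w i ∈ XX D) → LD del n w → del < del' →
      (∀ y ∈ yy, y ∈ XX D) → 0 ≤ kap → kap ≤ 1 → 0 < eps →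
      ∃ b, RespG D LD del' n w yy Q H kap eps b) :
    ∃ CC : Set W, IsClub CC ∧ ∀ g ∈ CC, IsLim g ∧
      ∀ (del del' : ℝ) (n : ℕ) (w : ℕ → L Z) (yy : Finset (L Z)) (Q : Finset W)
        (H : Finset (W × ℕ)) (kap eps : ℝ), (∀ i < n, ∃ a < g, w i ∈ XS D a) → LD del n w →
        del < del' → (∀ y ∈ yy, ∃ a < g, y ∈ XS D a) → (∀ q ∈ Q, q < g) → (∀ h ∈ H, h.1 < g) →
        0 ≤ kap → kap ≤ 1 → 0 < eps → ∃ b < g, RespG D LD del' n w yy Q H kap eps b := by
  classical
  -- dense sequences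
  have hdense : ∀ a : W, ∃ f : ℕ → L Z, (∀ i, f i ∈ XS D a) ∧
      ∀ x ∈ XS D a, ∀ ε : ℝ, 0 < ε → ∃ i, ‖x - f i‖ < ε := by
    intro a
    obtain ⟨c, hc1, hc2, hc3⟩ := (hsep a).exists_countable_dense_subset
    have hne : c.Nonempty := by
      have h0 : (0 : L Z) ∈ closure c := hc3 (XS D a).zero_mem
      exact closure_nonempty_iff.1 ⟨0, h0⟩
    obtain ⟨f, hf⟩ := hc2.exists_eq_range hne
    refine ⟨f, fun i => hc1 (hf ▸ mem_range_self i), fun x hx ε hε => ?_⟩
    have h1 := hc3 hx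
    rw [hf, Metric.mem_closure_range_iff] at h1
    obtain ⟨i, hi⟩ := h1 ε hε
    exact ⟨i, by rwa [dist_eq_norm] at hi⟩
  choose ds hds1 hds2 using hdense
  -- codes
  let Code : W → Type := fun b => List ℕ × List ℕ × Finset {q : W // q ≤ b} ×
    Finset ({q : W // q ≤ b} × ℕ) × ℚ × ℚ × ℚ
  let cw : ∀ b, Code b → ℕ → L Z := fun b c i => ds b (c.1.getD i 0)
  let cy : ∀ b, Code b → Finset (L Z) := fun b c => (c.2.1.map (ds b)).toFinset
  let cQ : ∀ b, Code b → Finset W := fun b c => c.2.2.1.map (Function.Embedding.subtype _)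
  let cH : ∀ b, Code b → Finset (W × ℕ) := fun b c =>
    c.2.2.2.1.image fun x => ((x.1 : W), x.2)
  have hchoice : ∀ (b : W) (c : Code b), ∃ b' : W, (∃ del, del < (c.2.2.2.2.1 : ℝ) ∧
      LD del c.1.length (cw b c)) → 0 ≤ (c.2.2.2.2.2.1 : ℝ) → (c.2.2.2.2.2.1 : ℝ) ≤ 1 →
      0 < (c.2.2.2.2.2.2 : ℝ) →
      RespG D LD c.2.2.2.2.1 c.1.length (cw b c) (cy b c) (cQ b c) (cH b c) c.2.2.2.2.2.1
        c.2.2.2.2.2.2 b' := by
    intro b c
    by_cases h : (∃ del, del < (c.2.2.2.2.1 : ℝ) ∧ LD del c.1.length (cw b c)) ∧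
        0 ≤ (c.2.2.2.2.2.1 : ℝ) ∧ (c.2.2.2.2.2.1 : ℝ) ≤ 1 ∧ 0 < (c.2.2.2.2.2.2 : ℝ)
    · obtain ⟨⟨del, h1, h2⟩, h3, h4, h5⟩ := h
      obtain ⟨b', hb'⟩ := hS2 del c.2.2.2.2.1 c.1.length (cw b c) (cy b c) (cQ b c) (cH b c)
        c.2.2.2.2.2.1 c.2.2.2.2.2.2 (fun i _ => XS_le_XX D b (hds1 b _)) h2 h1
        (by
          intro y hy
          simp only [cy, List.mem_toFinset, List.mem_map] at hy
          obtain ⟨i, _, rfl⟩ := hy
          exact XS_le_XX D b (hds1 b i)) h3 h4 h5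
      exact ⟨b', fun _ _ _ _ => hb'⟩
    · exact ⟨b, fun h1 h2 h3 h4 => absurd ⟨h1, h2, h3, h4⟩ h⟩
  choose φ hφ using hchoice
  have hcount : ∀ b, Countable (Code b) := by
    intro b
    have : Countable {q : W // q ≤ b} := (countable_Iic b).to_subtype
    infer_instance
  have hclub := IsClub.inter' (isClub_limit (W := W)) (isClub_closed_family (D := Code) φ)
  refine ⟨_, hclub, ?_⟩
  rintro g ⟨hlim, hcl⟩
  have hclosed : ∀ b < g, ∀ c : Code b, φ b c < g := hcl
  refine ⟨hlim, ?_⟩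
  intro del del' n w yy Q H kap eps hw hLD hdel hyy hQ hH hkap hkap1 heps
  obtain ⟨hne, hlim'⟩ := hlim
  -- a common stage
  obtain ⟨b1, hb1, hw1⟩ := exists_common (Finset.range n) g hne (fun i a => w i ∈ XS D a)
    (fun i a b hab h => XS_mono D hab h) (fun i hi => hw i (Finset.mem_range.1 hi))
  obtain ⟨b2, hb2, hy1⟩ := exists_common yy g hne (fun y a => y ∈ XS D a)
    (fun i a b hab h => XS_mono D hab h) hyy
  obtain ⟨b3, hb3, hQ1⟩ := exists_common Q g hne (fun q a => q ≤ a)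
    (fun i a b hab h => h.trans hab) (fun q hq => ⟨q, hQ q hq, le_rfl⟩)
  obtain ⟨b4, hb4, hH1⟩ := exists_common H g hne (fun h a => h.1 ≤ a)
    (fun i a b hab h => h.trans hab) (fun q hq => ⟨q.1, hH q hq, le_rfl⟩)
  obtain ⟨b, hb, hbb1, hbb2, hbb3, hbb4⟩ : ∃ b < g, b1 ≤ b ∧ b2 ≤ b ∧ b3 ≤ b ∧ b4 ≤ b :=
    ⟨max (max b1 b2) (max b3 b4), max_lt (max_lt hb1 hb2) (max_lt hb3 hb4),
      (le_max_left _ _).trans (le_max_left _ _), (le_max_right _ _).trans (le_max_left _ _),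
      (le_max_left _ _).trans (le_max_right _ _), (le_max_right _ _).trans (le_max_right _ _)⟩
  -- the accuracy
  have hd : 0 < del' - del := by linarith
  set t : ℝ := min (eps / 8) ((del' - del) / (4 * (C + 1) * (n + 1))) with htdef
  have ht0 : 0 < t := lt_min (by positivity) (by positivity)
  have ht1 : t ≤ eps / 8 := min_le_left _ _
  have ht2 : C * (n + 1 : ℕ) * t ≤ (del' - del) / 4 := by
    have h1 : t ≤ (del' - del) / (4 * (C + 1) * (n + 1)) := min_le_right _ _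
    rw [le_div_iff₀ (by positivity)] at h1
    have h2 : C * ((n : ℝ) + 1) * t ≤ (C + 1) * (n + 1) * t := by
      have : 0 ≤ ((n : ℝ) + 1) * t := by positivity
      nlinarith
    push_cast
    linarith
  have ht3 : C * n * t ≤ (del' - del) / 4 := by
    refine le_trans ?_ ht2
    have : (n : ℝ) ≤ (n + 1 : ℕ) := by push_cast; linarith
    have h0 : 0 ≤ C * t := by positivity
    nlinarith
  -- approximations
  have hwa : ∀ i, ∃ j, i < n → ‖w i - ds b j‖ < t := by
    intro i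
    by_cases hi : i < n
    · obtain ⟨j, hj⟩ := hds2 b (w i) (XS_mono D hbb1 (hw1 i (Finset.mem_range.2 hi))) t ht0
      exact ⟨j, fun _ => hj⟩
    · exact ⟨0, fun h => absurd h hi⟩
  choose jw hjw using hwa
  have hya : ∀ y : L Z, ∃ j, y ∈ yy → ‖y - ds b j‖ < t := by
    intro y
    by_cases hy : y ∈ yy
    · obtain ⟨j, hj⟩ := hds2 b y (XS_mono D hbb2 (hy1 y hy)) t ht0
      exact ⟨j, fun _ => hj⟩
    · exact ⟨0, fun h => absurd h hy⟩
  choose jy hjy using hya
  obtain ⟨dq, hdq1, hdq2⟩ := exists_rat_btwn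
    (show del + (del' - del) / 4 < del + (del' - del) / 2 by linarith)
  obtain ⟨eq, heq1, heq2⟩ := exists_rat_btwn (show 0 < eps / 8 by positivity)
  obtain ⟨kq, hkq0, hkq1, hkq2⟩ : ∃ kq : ℚ, kap ≤ kq ∧ (kq : ℝ) ≤ 1 ∧ (kq : ℝ) ≤ kap + t := by
    rcases eq_or_lt_of_le hkap1 with h | h
    · refine ⟨1, ?_, ?_, ?_⟩ <;> push_cast <;> linarith
    · obtain ⟨kq, h1, h2⟩ := exists_rat_btwn (show kap < min 1 (kap + t) from
        lt_min h (by linarith))
      exact ⟨kq, h1.le, h2.le.trans (min_le_left _ _), h2.le.trans (min_le_right _ _)⟩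
  -- the code
  let c : Code b := ((List.range n).map jw, yy.toList.map jy,
    Q.subtype (fun q => q ≤ b), (H.image fun h => if hh : h.1 ≤ b then
      ((⟨h.1, hh⟩ : {q : W // q ≤ b}), h.2) else (⟨b, le_rfl⟩, h.2)), dq, kq, eq)
  have hlen : c.1.length = n := by simp [c]
  have hcw : ∀ i < n, cw b c i = ds b (jw i) := by
    intro i hi
    simp only [cw, c]
    rw [List.getD_eq_getElem _ _ (by simpa using hi)]
    simp
  have hcQ : cQ b c = Q := by
    simp only [cQ, c, Finset.subtype_map]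
    exact Finset.filter_true_of_mem fun q hq => (hQ1 q hq).trans hbb3
  have hcH : cH b c = H := by
    simp only [cH, c]
    rw [Finset.image_image]
    ext h
    simp only [Finset.mem_image, Function.comp]
    constructor
    · rintro ⟨h', hh', rfl⟩
      rw [dif_pos ((hH1 h' hh').trans hbb4)]
      exact hh'
    · intro hh
      refine ⟨h, hh, ?_⟩
      rw [dif_pos ((hH1 h hh).trans hbb4)]
  have hwXX : ∀ i < n, w i ∈ XX D := fun i hi =>
    XS_le_XX D b1 (hw1 i (Finset.mem_range.2 hi))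
  have hcwXX : ∀ i < n, cw b c i ∈ XX D := fun i hi => XS_le_XX D b (hds1 b _)
  have hLD' : LD (del + C * n * t) n (cw b c) := by
    refine hstab del n w (cw b c) t ht0.le hLD hwXX hcwXX fun i hi => ?_
    rw [hcw i hi]
    exact (hjw i hi).le
  have hresp := hφ b c ⟨del + C * n * t, by
    show del + C * n * t < (dq : ℝ)
    linarith, by rw [hlen]; exact hLD'⟩ (hkap.trans hkq0) hkq1 heq1
  rw [hlen, hcQ, hcH] at hresp
  refine ⟨φ b c, hclosed b hb c, ?_⟩
  refine RespG.perturb hmono hstab (t := t) hresp ht0.le hwXX hcwXX ?_ ?_ hkq0 hkq2 ?_ ?_ ?_ ?_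
  · intro i hi
    rw [hcw i hi]
    exact (hjw i hi).le
  · intro y hy
    refine ⟨ds b (jy y), ?_, (hjy y hy).le⟩
    simp only [cy, c, List.mem_toFinset, List.mem_map]
    exact ⟨jy y, ⟨y, by simpa using hy, rfl⟩, rfl⟩
  · intro F
    obtain ⟨a, ha⟩ := exists_gt_of_countable (F.image Prod.fst).countable_toSet
    refine ⟨max a (φ b c), le_max_right _ _, fun k hk => lt_max_of_lt_left (ha _ ?_)⟩
    simp only [Finset.coe_image, mem_image, Finset.mem_coe]
    exact ⟨k, hk, rfl⟩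
  · show (eq : ℝ) + 2 * t ≤ eps
    linarith
  · show (eq : ℝ) ≤ eps
    linarith
  · show (dq : ℝ) + C * (n + 1 : ℕ) * t ≤ del'
    linarith

end reflect

end

end Pool.Agent.DIAM
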