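import Pool.Agent.Work.MP_89a7db_an.Dia.S2
import Pool.Agent.Work.MP_89a7db_an.Dia.Frame

/-!
MP_89a7db_an, module M14: the light extension step over a frame.
-/

open Set Topology

noncomputable section

namespace Pool.Agent.Dia

variable {W : Type*} [LinearOrder W] {Z : W × ℕ → Type*} [∀ k, NormedAddCommGroup (Z k)]
  [∀ k, NormedSpace ℝ (Z k)] {V : Type*} [NormedAddCommGroup V] [NormedSpace ℝ V]

/-- A frame with coordinates `pi k`, the subspaces `XX b` (stages below `b`) and `XQ Q` (vectors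
killed by the projections of the stages in `Q`), F1 (1.3) and the interpolation lemma 1.4. -/
structure LFrame (W : Type*) [LinearOrder W] (Z : W × ℕ → Type*) [∀ k, NormedAddCommGroup (Z k)]
    [∀ k, NormedSpace ℝ (Z k)] (V : Type*) [NormedAddCommGroup V] [NormedSpace ℝ V]
    extends Frame W V where
  pi : ∀ k, V →L[ℝ] Z k
  pi_le : ∀ k x, ‖pi k x‖ ≤ ‖x‖
  tail_convex : ∀ b, ConvexOn ℝ Set.univ fun lam => tail lam b
  XX : W → Submodule ℝ V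
  XX_closed : ∀ b, IsClosed (XX b : Set V)
  XX_mono : ∀ a b, a ≤ b → XX a ≤ XX b
  XX_exh : ∀ x, ∃ b, x ∈ XX b
  XX_zero : ∀ b, ∀ y ∈ XX b, ∀ k : W × ℕ, b ≤ k.1 → pi k y = 0
  lat_XX : ∀ b, ∀ y ∈ XX b, lat b y = 0
  tail_XX : ∀ (lam : StrongDual ℝ V) b, ∀ y ∈ XX b, lam y + tail lam b * ‖y‖ ≤ ‖lam‖ * ‖y‖
  tail_pi : ∀ (lam : StrongDual ℝ V) (h : W × ℕ) b, (∀ z, |lam z| ≤ ‖pi h z‖) → h.1 < b →
    tail lam b = 0
  XQ : Finset W → Submodule ℝ V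
  XQ_closed : ∀ Q, IsClosed (XQ Q : Set V)
  F1 : ∀ (b : W) (Q : Finset W), (∀ q ∈ Q, q < b) → ∀ v0 ∈ XQ Q, ∀ lam : StrongDual ℝ V,
    (∀ y ∈ XX b ⊓ XQ Q, lam y = 0) → lam v0 ≤ lat b v0 * tail lam b
  interp : ∀ (b : W) (F : Finset (W × ℕ)) (u : ∀ k, Z k) (Q : Finset W) (e : ℝ), F.Nonempty →
    (∀ k ∈ F, b ≤ k.1) → (∀ q ∈ Q, q < b) → (∀ k ∈ F, ‖u k‖ ≤ 1) → 0 < e →
    ∃ x ∈ XQ Q, (∀ b', (∀ k ∈ F, k.1 < b') → x ∈ XX b') ∧ ‖x‖ ≤ 1 + e ∧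
      ∀ k ∈ F, ‖pi k x - u k‖ ≤ e

omit [NormedSpace ℝ V] in
lemma absSum_range [Module ℝ V] (f : V →ₗ[ℝ] ℝ) (w : ℕ → V) (n : ℕ) :
    absSum f ((List.range n).map w) = ∑ i ∈ Finset.range n, |f (w i)| := by
  induction n with
  | zero => rfl
  | succ n ih =>
    rw [Finset.sum_range_succ, ← ih]
    simp [absSum, List.range_succ]

variable [OmegaOne W]

/-- The light extension step over a frame. -/
theorem LFrame.light_step (Fr : LFrame W Z V) {p : V → ℝ} {C C' : ℝ} (hC : 0 ≤ C) (hC' : 0 ≤ C')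
    (hp : ∀ x, p x ≤ C * ‖x‖) (hp' : ∀ x, ‖x‖ ≤ C' * p x)
    (hrad : ∀ eps : ℝ, 0 < eps → ∃ a, ∀ lam : V →L[ℝ] ℝ, (∀ x, |lam x| ≤ p x) →
      Fr.tail lam a ≤ 1 + eps)
    (w : ℕ → V) (n : ℕ) {del del' : ℝ} (hdel0 : 0 ≤ del) (hdel : del < del')
    (hL : Fr.toFrame.Light p (Finset.range n) w del)
    (Q : Finset W) (H : Finset (W × ℕ)) (yy : Finset V) {kap e : ℝ} (hkap0 : 0 < kap)
    (hkap1 : kap ≤ 1) (he : 0 < e) :
    ∃ b : W, ∀ F : Finset (W × ℕ), F.Nonempty → (∀ k ∈ F, b ≤ k.1) → ∀ u : ∀ k, Z k,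
      (∀ k ∈ F, ‖u k‖ ≤ kap) → ∀ eF, 0 < eF →
      ∃ v ∈ Fr.XQ Q, (∀ b', (∀ k ∈ F, k.1 < b') → v ∈ Fr.XX b') ∧
        Fr.toFrame.Light p (Finset.range (n + 1)) (Function.update w n v) del' ∧
        (∀ y ∈ yy, ‖y + v‖ ≤ max ‖y‖ kap + e ∧ ‖y - v‖ ≤ max ‖y‖ kap + e) ∧
        (∀ k ∈ F, ‖Fr.pi k v - u k‖ ≤ eF) ∧ (∀ h ∈ H, ‖Fr.pi h v‖ ≤ e) := by
  have hI : ∀ a : W, (Iio a).Countable := countable_Iio
  have hB : ∀ f : ℕ → W, ∃ b, ∀ n, f n ≤ b := fun f => by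
    obtain ⟨b, hb⟩ := exists_gt_fun f
    exact ⟨b, fun n => (hb n).le⟩
  have : Nonempty W := nonempty' W
  -- a late stage for the list
  have hb1 : ∃ b1, ∀ i ∈ Finset.range n, Fr.lat b1 (w i) = 0 := by
    choose bw hbw using fun i => Fr.XX_exh (w i)
    obtain ⟨b, hb⟩ := hB bw
    refine ⟨b, fun i _ => Fr.lat_XX b _ (Fr.XX_mono _ _ (hb i) (hbw i))⟩
  obtain ⟨b1, hb1⟩ := hb1
  have hsum : ∀ rho : StrongDual ℝ V, absSum (rho : V →ₗ[ℝ] ℝ) ((List.range n).map w) =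
      ∑ i ∈ Finset.range n, |rho (w i)| := fun rho => absSum_range _ w n
  have hC4 : ∀ c, 0 ≤ c → ∃ a, ∀ lam ∈ TTset Fr.lat p c, ∀ x, |lam x| + c * Fr.lat a x ≤ p x :=
    fun c hc => Fr.toFrame.TT_uniform hI hB hC hp hc
  have hC4' : ∀ c, (TTset Fr.lat p c).Nonempty → c ≤ 1 := by
    intro c hne
    rcases le_total 0 c with hc | hc
    · exact Fr.toFrame.le_one_of_TT hrad hc hne
    · linarith
  have hC5 : ∀ c, 0 ≤ c → ∀ e, 0 < e → ∃ b, ∀ rho ∈ TTset Fr.lat p c,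
      absSum (rho : V →ₗ[ℝ] ℝ) ((List.range n).map w) + Fr.tail rho b ≤ 1 + del - c + e := by
    intro c hc e he
    obtain ⟨b, hb⟩ := Fr.toFrame.cond_tail hI hB hC hC' hp hp' hL hb1 hc he
    refine ⟨b, fun rho hrho => ?_⟩
    rw [hsum]
    exact hb rho hrho
  obtain ⟨b, hb⟩ := light_extension Fr.pi Fr.pi_le Fr.lat Fr.lat_nonneg Fr.lat_le Fr.tail
    Fr.tail_convex Fr.tail_nonneg Fr.tail_le Fr.tail_anti Fr.XX Fr.XX_closed Fr.XX_mono Fr.XX_exh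
    Fr.XX_zero Fr.tail_XX Fr.tail_pi Fr.XQ Fr.XQ_closed Fr.F1 Fr.interp p hp hC4 hC4'
    ((List.range n).map w) hdel0 hdel hC5 Q H yy hkap0 hkap1 he
  refine ⟨b, fun F hF hFb u hu eF heF => ?_⟩
  obtain ⟨v, hv1, hv2, hv3, hv4⟩ := hb F hF hFb u hu eF heF
  refine ⟨v, hv1, hv2, fun c hc rho hrho => ?_, hv4⟩
  have h1 := hv3 c hc rho hrho
  rw [absSum_cons, hsum] at h1
  rw [Finset.sum_range_succ, Function.update_self]
  have h2 : ∑ i ∈ Finset.range n, |rho (Function.update w n v i)| =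
      ∑ i ∈ Finset.range n, |rho (w i)| := by
    refine Finset.sum_congr rfl fun i hi => ?_
    rw [Function.update_of_ne (Finset.mem_range.1 hi).ne]
  rw [h2]
  change |rho v| + _ ≤ _ at h1
  linarith

end Pool.Agent.Dia
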