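import Pool.Agent.Work.MP_89a7db_an.Dia.Amb
import Pool.Agent.Work.MP_89a7db_an.Dia.FrameInst
import Pool.Agent.Work.MP_89a7db_an.Dia.Interp
import Pool.Agent.Work.MP_89a7db_an.Dia.S2F
import Pool.Agent.Work.MP_89a7db_an.Dia.Reflect

/-!
# Cell DIAM, module M14: the light extension step for the space `XX D`, and its reflection
-/

set_option autoImplicit false
set_option linter.unusedSectionVars false

namespace Pool.Agent.DIAM

open Set Filter Topology Pool.Agent.Dia
open scoped ENNReal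

noncomputable section

variable {W : Type} [LinearOrder W] [OmegaOne W]
variable {Z : W × ℕ → Type} [∀ k, NormedAddCommGroup (Z k)] [∀ k, NormedSpace ℝ (Z k)]
  [∀ k, CompleteSpace (Z k)]

/-- a stage below all the stages of a nonempty finite set -/
theorem exists_min_stage (F : Finset (W × ℕ)) : ∃ b : W, ∀ k ∈ F, b ≤ k.1 := by
  classical
  have : Nonempty W := nonempty' W
  induction F using Finset.induction_on with
  | empty => exact ⟨Classical.arbitrary W, fun k hk => absurd hk (Finset.notMem_empty k)⟩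
  | insert k F _ ih =>
    obtain ⟨b, hb⟩ := ih
    refine ⟨min b k.1, fun j hj => ?_⟩
    rcases Finset.mem_insert.1 hj with rfl | hj
    · exact min_le_right _ _
    · exact (min_le_left _ _).trans (hb j hj)

/-- The weak form of interpolation. -/
theorem Interp_of_reg {D : ∀ a, Datum Z a} (hR : ∀ b, Reg D b) : Interp D := by
  intro F z hz ε hε
  obtain ⟨b, hb⟩ := exists_min_stage F
  obtain ⟨n, -, h1, -, -, h2, h3, -, -⟩ := interp D z zero_lt_one F (fun k _ => (hR k.1).w0)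
    (fun k _ => (hR k.1).w3) (fun k _ => (hR k.1).w4) (fun k _ => hz k) ∅ b hb
    (fun y hy => absurd hy (Finset.notMem_empty y)) ∅ (fun q hq => absurd hq (Finset.notMem_empty q))
    ∅ (Finset.disjoint_empty_left F) ε hε 0
  obtain ⟨a, ha⟩ := exists_gt_of_countable (W := W) (s := Prod.fst '' (F : Set (W × ℕ)))
    ((F.finite_toSet.countable).image _)
  exact ⟨_, XS_le_XX D a (h1 a fun k hk => ha _ ⟨k, hk, rfl⟩), h2, h3⟩

section inst

variable [∀ k, Nontrivial (Z k)]

/-- The frame of `XX D` with all the structure used by the light extension step. -/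
def mkLFrame (D : ∀ a, Datum Z a) (hR : ∀ b, Reg D b) (hD : Duality D) (hC : C1Concl D) :
    LFrame W Z (XX D) where
  toFrame := mkFrame D hD hC
  pi k := (pr k).comp (XX D).subtypeL
  pi_le k x := norm_coord_le (x : L Z) k
  tail_convex b := by
    refine ⟨convex_univ, fun lam _ mu _ s t hs ht _ => ?_⟩
    refine ((mkFrame D hD hC).tail_add _ _ b).trans ?_
    rw [(mkFrame D hD hC).tail_smul, (mkFrame D hD hC).tail_smul, abs_of_nonneg hs,
      abs_of_nonneg ht, smul_eq_mul, smul_eq_mul]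
  XX b := (XS D b).comap (XX D).subtype
  XX_closed b := (isClosed_XS D b).preimage (XX D).subtypeL.continuous
  XX_mono a b h := Submodule.comap_mono (XS_mono D h)
  XX_exh x := by
    have : Nonempty W := nonempty' W
    obtain ⟨a, ha⟩ := mem_XX.1 x.2
    exact ⟨a, ha⟩
  XX_zero b y hy k hk := XS_supp D (a := b) hy hk
  lat_XX b y hy := by
    change ‖cut (geS b) (y : L Z)‖ = 0
    rw [norm_eq_zero]
    apply lp.ext
    funext k
    by_cases hk : k ∈ geS b
    · rw [cut_mem hk]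
      exact XS_supp D (a := b) hy hk
    · rw [cut_notMem hk]
      rfl
  tail_XX lam b y hy := by
    have h0 : lat D b y = 0 := by
      change ‖cut (geS b) (y : L Z)‖ = 0
      rw [norm_eq_zero]
      apply lp.ext
      funext k
      by_cases hk : k ∈ geS b
      · rw [cut_mem hk]
        exact XS_supp D (a := b) hy hk
      · rw [cut_notMem hk]
        rfl
    have h1 := hD.early lam h0
    have h2 := le_abs_self (lam y)
    change lam y + hD.tail lam b * ‖y‖ ≤ ‖lam‖ * ‖y‖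
    linarith [mul_comm ‖y‖ (hD.tail lam b), mul_comm ‖y‖ ‖lam‖]
  tail_pi lam h b hl hb := hD.tail_eq_zero (Interp_of_reg hR) (f := lam) (h := h) hl hb
  XQ Q := (XQ D Q).comap (XX D).subtype
  XQ_closed Q := by
    have h1 : ((Submodule.comap (XX D).subtype (XQ D Q) : Submodule ℝ (XX D)) : Set (XX D)) =
        ⋂ q ∈ Q, {x : XX D | (D q).P (x : L Z) = 0} := by
      ext x
      simp only [Set.mem_iInter]
      constructor
      · intro hx q hq
        exact (mem_XQ.1 hx).2 q hq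
      · intro hx
        exact mem_XQ.2 ⟨x.2, fun q hq => hx q hq⟩
    rw [h1]
    refine isClosed_iInter fun q => isClosed_iInter fun _ => ?_
    exact isClosed_eq ((D q).P.continuous.comp (XX D).subtypeL.continuous) continuous_const
  F1 b Q hQ v0 hv0 lam hl := by
    have h1 : pair (res (ltS b) (hD.toLam lam)) (v0 : L Z) = 0 := by
      refine F1 (fun b => ⟨(hR b).w0, (hR b).w3⟩) hQ (fun y hy hyQ => ?_) hv0
      have h2 := hl ⟨y, XS_le_XX D b hy⟩ ⟨hy, hyQ⟩
      rwa [hD.toLam_apply] at h2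
    have h3 : (geS b : Set (W × ℕ))ᶜ = ltS b := by
      ext k
      simp [geS, ltS]
    have h4 := hD.late_le lam (b := b) (v := v0) (by rw [h3]; exact h1)
    exact (le_abs_self _).trans h4
  interp b F u Q e hF hFb hQ hu he := by
    classical
    -- the values off `F` are irrelevant
    obtain ⟨n, -, h1, h2, -, h3, h4, -, -⟩ := interp D u zero_lt_one F (fun k _ => (hR k.1).w0)
      (fun k _ => (hR k.1).w3) (fun k _ => (hR k.1).w4) hu ∅ b hFb
      (fun y hy => absurd hy (Finset.notMem_empty y)) Q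
      (fun q hq k hk => (hQ q hq).trans_le (hFb k hk)) ∅ (Finset.disjoint_empty_left F) e he 0
    obtain ⟨a, ha⟩ := exists_gt_of_countable (W := W) (s := Prod.fst '' (F : Set (W × ℕ)))
      ((F.finite_toSet.countable).image _)
    have hx : ∑ j ∈ F, Jn D j (n j) (u j) ∈ XX D :=
      XS_le_XX D a (h1 a fun k hk => ha _ ⟨k, hk, rfl⟩)
    exact ⟨⟨_, hx⟩, mem_XQ.2 ⟨hx, h2⟩, fun b' hb' => h1 b' hb', h3, h4⟩

/-- The lightness condition for a sequence of vectors of the ambient space. -/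
def LDp (D : ∀ a, Datum Z a) (Fr : Frame W (XX D)) (p : XX D → ℝ) (del : ℝ) (n : ℕ)
    (w : ℕ → L Z) : Prop :=
  0 ≤ del ∧ ∃ w' : ℕ → XX D, (∀ i < n, (w' i : L Z) = w i) ∧
    Fr.Light p (Finset.range n) w' del

theorem LDp_zero (D : ∀ a, Datum Z a) (Fr : Frame W (XX D)) {p : XX D → ℝ}
    (hrad : ∀ eps : ℝ, 0 < eps → ∃ a, ∀ lam : (XX D) →L[ℝ] ℝ, (∀ x, |lam x| ≤ p x) →
      Fr.tail lam a ≤ 1 + eps) (w : ℕ → L Z) : LDp D Fr p 0 0 w :=
  ⟨le_rfl, fun _ => 0, fun i hi => absurd hi (Nat.not_lt_zero i), Fr.light_empty hrad _⟩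

theorem LDp_mono (D : ∀ a, Datum Z a) (Fr : Frame W (XX D)) (p : XX D → ℝ) {del del' : ℝ} {n : ℕ}
    {w : ℕ → L Z} (h : del ≤ del') (hl : LDp D Fr p del n w) : LDp D Fr p del' n w := by
  obtain ⟨h0, w', h1, h2⟩ := hl
  refine ⟨h0.trans h, w', h1, fun c hc rho hrho => ?_⟩
  have := h2 c hc rho hrho
  linarith

/-- The condition only sees the first `n` vectors. -/
theorem LDp_congr (D : ∀ a, Datum Z a) (Fr : Frame W (XX D)) (p : XX D → ℝ) {del : ℝ} {n : ℕ}
    {w v : ℕ → L Z} (h : ∀ i < n, w i = v i) (hl : LDp D Fr p del n w) : LDp D Fr p del n v := by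
  obtain ⟨h0, w', h1, h2⟩ := hl
  exact ⟨h0, w', fun i hi => (h1 i hi).trans (h i hi), h2⟩

/-- The consequence used for lightness: `∑ |rho (w i)| ≤ 1 + del` for `|rho| ≤ p`. -/
theorem LDp_sum_le (D : ∀ a, Datum Z a) (Fr : Frame W (XX D)) {p : XX D → ℝ} {del : ℝ} {n : ℕ}
    {w : ℕ → L Z} (hl : LDp D Fr p del n w) (l : Lam Z)
    (hp : ∀ x : XX D, |pair l (x : L Z)| ≤ p x) :
    ∑ i ∈ Finset.range n, |pair l (w i)| ≤ 1 + del := by
  have : Nonempty W := nonempty' W
  obtain ⟨h0, w', h1, h2⟩ := hl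
  have h3 := h2 0 le_rfl (toDual D l) ((Fr.mem_TT_zero p _).2 hp)
  rw [sub_zero] at h3
  refine le_trans (le_of_eq ?_) h3
  refine Finset.sum_congr rfl fun i hi => ?_
  rw [toDual_apply, h1 i (Finset.mem_range.1 hi)]

theorem LDp_stab (D : ∀ a, Datum Z a) (Fr : Frame W (XX D)) {p : XX D → ℝ} {C : ℝ} (hC : 0 ≤ C)
    (hp : ∀ x, p x ≤ C * ‖x‖) (del : ℝ) (n : ℕ) (w v : ℕ → L Z) (t : ℝ) (ht : 0 ≤ t)
    (hl : LDp D Fr p del n w) (_hw : ∀ i < n, w i ∈ XX D) (hv : ∀ i < n, v i ∈ XX D)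
    (hwv : ∀ i < n, ‖w i - v i‖ ≤ t) : LDp D Fr p (del + C * n * t) n v := by
  classical
  obtain ⟨h0, w', h1, h2⟩ := hl
  refine ⟨by positivity, fun i => if hi : i < n then ⟨v i, hv i hi⟩ else 0, fun i hi => ?_, ?_⟩
  · simp only [dif_pos hi]
  · intro c hc rho hrho
    have h3 := h2 c hc rho hrho
    have hrn : ∀ x, |rho x| ≤ C * ‖x‖ := by
      intro x
      obtain ⟨a, ha⟩ := hrho
      have h4 := ha x
      have h5 := mul_nonneg hc (Fr.lat_nonneg a x)
      linarith [hp x]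
    have h6 : ∑ i ∈ Finset.range n, |rho (if hi : i < n then (⟨v i, hv i hi⟩ : XX D) else 0)| ≤
        ∑ i ∈ Finset.range n, (|rho (w' i)| + C * t) := by
      refine Finset.sum_le_sum fun i hi => ?_
      have hi' := Finset.mem_range.1 hi
      rw [dif_pos hi']
      have h7 : rho (⟨v i, hv i hi'⟩ : XX D) = rho (w' i) + rho (⟨v i, hv i hi'⟩ - w' i) := by
        rw [← map_add]
        congr 1
        abel
      have h8 : ‖(⟨v i, hv i hi'⟩ - w' i : XX D)‖ ≤ t := by
        have h9 : ((⟨v i, hv i hi'⟩ - w' i : XX D) : L Z) = v i - w i := by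
          rw [Submodule.coe_sub, h1 i hi']
        change ‖((⟨v i, hv i hi'⟩ - w' i : XX D) : L Z)‖ ≤ t
        rw [h9, norm_sub_rev]
        exact hwv i hi'
      rw [h7]
      refine (abs_add_le _ _).trans (add_le_add le_rfl ?_)
      exact (hrn _).trans (mul_le_mul_of_nonneg_left h8 hC)
    rw [Finset.sum_add_distrib, Finset.sum_const, Finset.card_range, nsmul_eq_mul] at h6
    have h10 : (n : ℝ) * (C * t) = C * n * t := by ring
    rw [h10] at h6
    linarith

/-- The light extension step in the form of `RespG`. -/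
theorem S2_resp (D : ∀ a, Datum Z a) (hR : ∀ b, Reg D b) (hD : Duality D) (hC1 : C1Concl D)
    {p : XX D → ℝ} {C C' : ℝ} (hC : 0 ≤ C) (hC' : 0 ≤ C')
    (hp : ∀ x, p x ≤ C * ‖x‖) (hp' : ∀ x, ‖x‖ ≤ C' * p x)
    (hrad : ∀ eps : ℝ, 0 < eps → ∃ a, ∀ lam : (XX D) →L[ℝ] ℝ, (∀ x, |lam x| ≤ p x) →
      (mkFrame D hD hC1).tail lam a ≤ 1 + eps)
    (del del' : ℝ) (n : ℕ) (w : ℕ → L Z) (yy : Finset (L Z)) (Q : Finset W)
    (H : Finset (W × ℕ)) (kap eps : ℝ) (hw : ∀ i < n, w i ∈ XX D)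
    (hl : LDp D (mkFrame D hD hC1) p del n w) (hdel : del < del')
    (hyy : ∀ y ∈ yy, y ∈ XX D) (hkap0 : 0 ≤ kap) (hkap1 : kap ≤ 1) (heps : 0 < eps) :
    ∃ b, RespG D (LDp D (mkFrame D hD hC1) p) del' n w yy Q H kap eps b := by
  classical
  obtain ⟨h0, w', h1, h2⟩ := hl
  -- the trivial response
  have htriv : ∀ (b : W) (F : Finset (W × ℕ)) (u : ∀ k, Z k), (∀ k ∈ F, u k = 0) →
      ∀ eps' : ℝ, 0 < eps' → ∃ v : L Z,
      (∀ a, b ≤ a → (∀ k ∈ F, k.1 < a) → v ∈ XS D a) ∧ (∀ q ∈ Q, (D q).P v = 0) ∧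
      LDp D (mkFrame D hD hC1) p del' (n + 1) (Function.update w n v) ∧
      (∀ y ∈ yy, ‖y + v‖ ≤ max ‖y‖ kap + eps ∧ ‖y - v‖ ≤ max ‖y‖ kap + eps) ∧
      (∀ k ∈ F, ‖v k - u k‖ ≤ eps') ∧ (∀ h ∈ H, ‖v h‖ ≤ eps) := by
    intro b F u hu eps' heps'
    refine ⟨0, fun a _ _ => (XS D a).zero_mem, fun q _ => map_zero _, ?_, ?_, ?_, ?_⟩
    · refine ⟨h0.trans hdel.le, Function.update w' n 0, fun i hi => ?_, fun c hc rho hrho => ?_⟩
      · rcases eq_or_ne i n with rfl | hne
        · rw [Function.update_self, Function.update_self]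
          rfl
        · rw [Function.update_of_ne hne, Function.update_of_ne hne]
          exact h1 i (by omega)
      · have h3 := h2 c hc rho hrho
        rw [Finset.sum_range_succ, Function.update_self, map_zero, abs_zero, add_zero]
        have h4 : ∑ i ∈ Finset.range n, |rho (Function.update w' n 0 i)| =
            ∑ i ∈ Finset.range n, |rho (w' i)| := by
          refine Finset.sum_congr rfl fun i hi => ?_
          rw [Function.update_of_ne (Finset.mem_range.1 hi).ne]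
        rw [h4]
        linarith
    · intro y _
      rw [add_zero, sub_zero]
      have := le_max_left ‖y‖ kap
      constructor <;> linarith
    · intro k hk
      rw [hu k hk, sub_zero]
      change ‖(0 : Z k)‖ ≤ eps'
      rw [norm_zero]
      exact heps'.le
    · intro h _
      change ‖(0 : Z h)‖ ≤ eps
      rw [norm_zero]
      exact heps.le
  rcases hkap0.eq_or_lt with hk0 | hk0
  · obtain ⟨b⟩ := nonempty' W
    refine ⟨b, fun F u _ hu eps' heps' => htriv b F u (fun k hk => ?_) eps' heps'⟩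
    have := hu k hk
    rw [← hk0] at this
    exact norm_le_zero_iff.1 this
  · obtain ⟨b, hb⟩ := (mkLFrame D hR hD hC1).light_step hC hC' hp hp' hrad w' n h0 hdel h2 Q H
      (yy.subtype (fun y => y ∈ XX D)) hk0 hkap1 heps
    refine ⟨b, fun F u hF hu eps' heps' => ?_⟩
    rcases F.eq_empty_or_nonempty with hFe | hFne
    · subst hFe
      exact htriv b ∅ u (fun k hk => absurd hk (Finset.notMem_empty k)) eps' heps'
    obtain ⟨v, hv1, hv2, hv3, hv4, hv5, hv6⟩ := hb F hFne hF u hu eps' heps'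
    refine ⟨(v : L Z), fun a _ ha => hv2 a ha, (mem_XQ.1 hv1).2, ?_, ?_, hv5, hv6⟩
    · refine ⟨h0.trans hdel.le, Function.update w' n v, fun i hi => ?_, hv3⟩
      rcases eq_or_ne i n with rfl | hne
      · rw [Function.update_self, Function.update_self]
      · rw [Function.update_of_ne hne, Function.update_of_ne hne]
        exact h1 i (by omega)
    · intro y hy
      exact hv4 ⟨y, hyy y hy⟩ (Finset.mem_subtype.2 hy)

/-- Reflection of the light extension step to a club of stages. -/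
theorem exists_club_light (D : ∀ a, Datum Z a) (hR : ∀ b, Reg D b) (hD : Duality D)
    (hC1 : C1Concl D) (hsep : ∀ a, TopologicalSpace.IsSeparable (XS D a : Set (L Z)))
    {p : XX D → ℝ} {C C' : ℝ} (hC : 0 ≤ C) (hC' : 0 ≤ C')
    (hp : ∀ x, p x ≤ C * ‖x‖) (hp' : ∀ x, ‖x‖ ≤ C' * p x)
    (hrad : ∀ eps : ℝ, 0 < eps → ∃ a, ∀ lam : (XX D) →L[ℝ] ℝ, (∀ x, |lam x| ≤ p x) →
      (mkFrame D hD hC1).tail lam a ≤ 1 + eps) :
    ∃ CC : Set W, IsClub CC ∧ ∀ g ∈ CC, IsLim g ∧
      ∀ (del del' : ℝ) (n : ℕ) (w : ℕ → L Z) (yy : Finset (L Z)) (Q : Finset W)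
        (H : Finset (W × ℕ)) (kap eps : ℝ), (∀ i < n, ∃ a < g, w i ∈ XS D a) →
        LDp D (mkFrame D hD hC1) p del n w →
        del < del' → (∀ y ∈ yy, ∃ a < g, y ∈ XS D a) → (∀ q ∈ Q, q < g) → (∀ h ∈ H, h.1 < g) →
        0 ≤ kap → kap ≤ 1 → 0 < eps →
        ∃ b < g, RespG D (LDp D (mkFrame D hD hC1) p) del' n w yy Q H kap eps b :=
  reflect D hsep (LDp D (mkFrame D hD hC1) p) (fun _ _ _ _ h hl => LDp_mono D _ p h hl) hC
    (LDp_stab D _ hC hp)
    (fun del del' n w yy Q H kap eps hw hl hdel hyy hk0 hk1 he =>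
      S2_resp D hR hD hC1 hC hC' hp hp' hrad del del' n w yy Q H kap eps hw hl hdel hyy hk0 hk1 he)

end inst

end

end Pool.Agent.DIAM
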