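import Pool.Agent.Work.MP_89a7db_an.Dia.RecAbs

/-!
MP_89a7db_an, module M6, abstract part: the recursion at a limit stage.
-/

set_option autoImplicit false

namespace Pool.Agent.Dia

open Filter Topology Set
open scoped ENNReal

section lim

variable {Om : Type*} [LinearOrder Om]
variable {Z : Om × ℕ → Type*} [∀ k, NormedAddCommGroup (Z k)] [∀ k, NormedSpace ℝ (Z k)]

/-- the extension property at `g`: the accuracy `ε'` on `F` is chosen after `F` and `u`. -/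
def EP (g : Om) (X : Om → Submodule ℝ (lp Z ∞)) (P : Om → lp Z ∞ → lp Z ∞)
    (Good : ℕ → (ℕ → lp Z ∞) → Prop) : Prop :=
  ∀ (n : ℕ) (w : ℕ → lp Z ∞), (∀ i < n, ∃ c < g, w i ∈ X c) → Good n w →
    ∀ (yy : Finset (lp Z ∞)) (Q : Finset Om) (H : Finset (Om × ℕ)) (κ ε : ℝ),
    (∀ y ∈ yy, ∃ c < g, y ∈ X c) → (∀ q ∈ Q, q < g) → (∀ h ∈ H, h.1 < g) →
    0 ≤ κ → κ ≤ 1 → 0 < ε →
    ∃ b < g, ∀ (F : Finset (Om × ℕ)) (u : ∀ k, Z k), (∀ k ∈ F, b ≤ k.1 ∧ k.1 < g) →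
      (∀ k ∈ F, ‖u k‖ ≤ κ) → ∀ ε' : ℝ, 0 < ε' → ∃ v : lp Z ∞, (∃ c < g, v ∈ X c) ∧
        (∀ q ∈ Q, P q v = 0) ∧ Good (n + 1) (Function.update w n v) ∧
        (∀ y ∈ yy, ‖y + v‖ ≤ max ‖y‖ κ + ε ∧ ‖y - v‖ ≤ max ‖y‖ κ + ε) ∧
        (∀ k ∈ F, ‖v k - u k‖ ≤ ε') ∧ (∀ h ∈ H, ‖v h‖ ≤ ε)

/-- an active task -/
def Act {𝒯 : Type*} (g : Om) (Adm : 𝒯 → Finset (Om × ℕ) → (∀ k, Z k) → ℝ → Prop) (τ : 𝒯) : Prop :=
  ∀ b < g, ∃ (F : Finset (Om × ℕ)) (u : ∀ k, Z k) (tol : ℝ), 0 < tol ∧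
    (∀ k ∈ F, b ≤ k.1 ∧ k.1 < g) ∧ (∀ k ∈ F, ‖u k‖ ≤ 1) ∧ Adm τ F u tol

variable (Z) in
/-- one step of the recursion -/
structure LimStep where
  w : lp Z ∞
  F : Finset (Om × ℕ)
  u : ∀ k, Z k
  tol : ℝ
  c : Om

/-- the relation between the history `f 0, …, f (m-1)` and the step `a` -/
structure LimRel {𝒯 : Type*} (g : Om) (X : Om → Submodule ℝ (lp Z ∞))
    (P : Om → lp Z ∞ → lp Z ∞) (Good : ℕ → (ℕ → lp Z ∞) → Prop)
    (Adm : 𝒯 → Finset (Om × ℕ) → (∀ k, Z k) → ℝ → Prop) (y : ℕ → lp Z ∞) (q : ℕ → Om)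
    (κ : ℕ → Om × ℕ) (task : ℕ → 𝒯) (m : ℕ) (f : ℕ → LimStep Z) (a : LimStep Z) : Prop where
  good : Good (m + 1) (Function.update (fun i => (f i).w) m a.w)
  cg : a.c < g
  wc : a.w ∈ X a.c
  pq : ∀ j < m, P (q j) a.w = 0
  st : STEP m y (fun i => (f i).w) a.w (1 - (1 / 2 : ℝ) ^ (m + 3)) ((1 / 2 : ℝ) ^ (m + 5))
  Fg : ∀ k ∈ a.F, k.1 < g
  Fq : ∀ k ∈ a.F, ∀ j < m, q j ≤ k.1
  Fc : ∀ k ∈ a.F, ∀ i < m, (f i).c ≤ k.1
  hk : ∀ j < m, ‖a.w (κ j)‖ ≤ (1 / 2 : ℝ) ^ m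
  hF : ∀ i < m, ∀ k ∈ (f i).F, ‖a.w k‖ ≤ (1 / 2 : ℝ) ^ m
  tolpos : 0 < a.tol
  acc : ∀ k ∈ a.F, ‖a.w k - (1 - (1 / 2 : ℝ) ^ (m + 3)) • a.u k‖ ≤ min a.tol ((1 / 2 : ℝ) ^ m)
  un : ∀ k ∈ a.F, ‖a.u k‖ ≤ 1
  adm : Act g Adm (task m) → Adm (task m) a.F a.u a.tol

/-- the output of the recursion at a limit stage -/
structure LimOut {𝒯 : Type*} (g : Om) (X : Om → Submodule ℝ (lp Z ∞))
    (P : Om → lp Z ∞ → lp Z ∞) (Good : ℕ → (ℕ → lp Z ∞) → Prop)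
    (Adm : 𝒯 → Finset (Om × ℕ) → (∀ k, Z k) → ℝ → Prop)
    (w : ℕ → lp Z ∞) (task : ℕ → 𝒯) (F : ℕ → Finset (Om × ℕ)) (u : ℕ → ∀ k, Z k)
    (tol : ℕ → ℝ) : Prop where
  inX : ∀ m, ∃ c < g, w m ∈ X c
  good : ∀ m, Good m w
  w1 : ∀ (n : ℕ) (t : ℕ → ℝ), (∀ i, |t i| ≤ 1) → ‖∑ i ∈ Finset.range n, t i • w i‖ ≤ 1
  w2 : ∀ k : Om × ℕ, k.1 < g → Summable fun m => ‖w m k‖
  w3 : ∀ b < g, ∃ m0, ∀ m ≥ m0, P b (w m) = 0
  w4 : ∀ x, (∀ ε : ℝ, 0 < ε → ∃ c < g, ∃ x' ∈ X c, ‖x - x'‖ < ε) → ∀ T : ℝ, 0 < T →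
    ∀ ε : ℝ, 0 < ε → ∃ m0, ∀ n ≥ m0, ∀ N ≥ n, ∀ t : ℕ → ℝ, (∀ i, |t i| ≤ T) →
      ‖x + ∑ i ∈ Finset.range N, t i • w i‖
        ≤ max ‖x + ∑ i ∈ Finset.range n, t i • w i‖ T + ε
  freq : ∀ τ, ∃ᶠ m in atTop, task m = τ
  adm : ∀ m, Act g Adm (task m) → Adm (task m) (F m) (u m) (tol m)
  Flt : ∀ m, ∀ k ∈ F m, k.1 < g
  Fge : ∀ b < g, ∃ m0, ∀ m ≥ m0, ∀ k ∈ F m, b ≤ k.1
  tolpos : ∀ m, 0 < tol m
  un : ∀ m, ∀ k ∈ F m, ‖u m k‖ ≤ 1
  acc : ∀ m, ∀ k ∈ F m,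
    ‖w m k - (1 - (1 / 2 : ℝ) ^ (m + 3)) • u m k‖ ≤ min (tol m) ((1 / 2 : ℝ) ^ m)
  before : ∀ m, ∀ i < m, ∀ k ∈ F m, w i k = 0
  after : ∀ m, ∀ i, m < i → ∀ k ∈ F m, ‖w i k‖ ≤ (1 / 2 : ℝ) ^ i

theorem exists_common_X {g : Om} {X : Om → Submodule ℝ (lp Z ∞)}
    (hX : ∀ b c, b ≤ c → X b ≤ X c) (hne : ∃ b, b < g) {S : Set (lp Z ∞)} (hS : S.Finite)
    (h : ∀ x ∈ S, ∃ c < g, x ∈ X c) : ∃ c < g, ∀ x ∈ S, x ∈ X c := by
  induction S, hS using Set.Finite.induction_on with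
  | empty =>
    obtain ⟨b, hb⟩ := hne
    exact ⟨b, hb, by simp⟩
  | @insert x S _ _ ih =>
    obtain ⟨c, hc, h1⟩ := ih (fun z hz => h z (Set.mem_insert_of_mem _ hz))
    obtain ⟨c', hc', h2⟩ := h x (Set.mem_insert _ _)
    refine ⟨max c c', max_lt hc hc', ?_⟩
    intro z hz
    rcases Set.mem_insert_iff.1 hz with rfl | hz
    · exact hX _ _ (le_max_right _ _) h2
    · exact hX _ _ (le_max_left _ _) (h1 z hz)

theorem exists_ub_lt {g : Om} (hne : ∃ b, b < g) {S : Set Om} (hS : S.Finite)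
    (h : ∀ x ∈ S, x < g) : ∃ c < g, ∀ x ∈ S, x ≤ c := by
  induction S, hS using Set.Finite.induction_on with
  | empty =>
    obtain ⟨b, hb⟩ := hne
    exact ⟨b, hb, by simp⟩
  | @insert x S _ _ ih =>
    obtain ⟨c, hc, h1⟩ := ih (fun z hz => h z (Set.mem_insert_of_mem _ hz))
    refine ⟨max c x, max_lt hc (h x (Set.mem_insert _ _)), ?_⟩
    intro z hz
    rcases Set.mem_insert_iff.1 hz with rfl | hz
    · exact le_max_right _ _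
    · exact (h1 z hz).trans (le_max_left _ _)

section
variable {𝒯 : Type*} {g : Om} {X : Om → Submodule ℝ (lp Z ∞)} {P : Om → lp Z ∞ → lp Z ∞}
  {Good : ℕ → (ℕ → lp Z ∞) → Prop} {Adm : 𝒯 → Finset (Om × ℕ) → (∀ k, Z k) → ℝ → Prop}
  {y : ℕ → lp Z ∞} {q : ℕ → Om} {κ : ℕ → Om × ℕ} {task : ℕ → 𝒯}

theorem good_of_hist (hloc : ∀ n (w w' : ℕ → lp Z ∞), (∀ i < n, w i = w' i) → Good n w → Good n w')
    (h0 : ∀ w, Good 0 w) (m : ℕ) (f : ℕ → LimStep Z)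
    (hf : ∀ i < m, LimRel g X P Good Adm y q κ task i f (f i)) : Good m (fun i => (f i).w) := by
  rcases m with _ | m
  · exact h0 _
  · have := (hf m (Nat.lt_succ_self m)).good
    refine hloc _ _ _ (fun i hi => ?_) this
    rcases eq_or_ne i m with rfl | hne
    · rw [Function.update_self]
    · rw [Function.update_of_ne hne]

theorem lim_step (hX : ∀ b c, b ≤ c → X b ≤ X c) (hne : ∃ b, b < g)
    (hloc : ∀ n (w w' : ℕ → lp Z ∞), (∀ i < n, w i = w' i) → Good n w → Good n w')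
    (h0 : ∀ w, Good 0 w)
    (hEP : EP g X P Good) (hy : ∀ j, ∃ c < g, y j ∈ X c) (hq : ∀ j, q j < g)
    (hκ : ∀ j, (κ j).1 < g) (m : ℕ) (f : ℕ → LimStep Z)
    (hf : ∀ i < m, LimRel g X P Good Adm y q κ task i f (f i)) :
    ∃ a, LimRel g X P Good Adm y q κ task m f a := by
  classical
  have hgood := good_of_hist hloc h0 m f hf
  set w : ℕ → lp Z ∞ := fun i => (f i).w with hw
  have hp3 : (0 : ℝ) < (1 / 2 : ℝ) ^ (m + 3) := by positivity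
  have hp3' : (1 / 2 : ℝ) ^ (m + 3) ≤ 1 := pow_le_one₀ (by norm_num) (by norm_num)
  have hp5 : (0 : ℝ) < (1 / 2 : ℝ) ^ (m + 5) := by positivity
  have hp5' : (1 / 2 : ℝ) ^ (m + 5) / 4 ≤ (1 / 2 : ℝ) ^ m := by
    have : (1 / 2 : ℝ) ^ (m + 5) = (1 / 2 : ℝ) ^ m * (1 / 32) := by
      rw [pow_add]; norm_num
    have h2 : (0 : ℝ) < (1 / 2 : ℝ) ^ m := by positivity
    rw [this]; linarith
  have hκ0 : (0 : ℝ) ≤ 1 - (1 / 2 : ℝ) ^ (m + 3) := by linarith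
  obtain ⟨yy, hyy, hnet⟩ := net m y w hκ0 hp5
  -- everything so far lies in one `X c`
  obtain ⟨c₀, hc₀, hc₀S⟩ : ∃ c < g, ∀ x ∈ y '' Set.Iic m ∪ w '' Set.Iio m, x ∈ X c := by
    refine exists_common_X hX hne
      (((Set.finite_Iic m).image y).union ((Set.finite_Iio m).image w)) ?_
    rintro x (⟨j, _, rfl⟩ | ⟨i, hi, rfl⟩)
    · exact hy j
    · exact ⟨(f i).c, (hf i hi).cg, (hf i hi).wc⟩
  have hyyX : ∀ z ∈ yy, ∃ c < g, z ∈ X c := by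
    intro z hz
    exact ⟨c₀, hc₀, (Submodule.span_le.2 hc₀S) (hyy z hz)⟩
  obtain ⟨b, hb, hbF⟩ := hEP m w (fun i hi => ⟨(f i).c, (hf i hi).cg, (hf i hi).wc⟩) hgood yy
    ((Finset.range m).image q)
    ((Finset.range m).image κ ∪ (Finset.range m).biUnion fun i => (f i).F)
    (1 - (1 / 2 : ℝ) ^ (m + 3)) ((1 / 2 : ℝ) ^ (m + 5) / 4) hyyX
    (by
      intro x hx
      obtain ⟨j, _, rfl⟩ := Finset.mem_image.1 hx
      exact hq j)
    (by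
      intro x hx
      rcases Finset.mem_union.1 hx with hx | hx
      · obtain ⟨j, _, rfl⟩ := Finset.mem_image.1 hx
        exact hκ j
      · obtain ⟨i, hi, hx⟩ := Finset.mem_biUnion.1 hx
        exact (hf i (Finset.mem_range.1 hi)).Fg x hx)
    hκ0 (by linarith) (by positivity)
  obtain ⟨b', hb', hb'S⟩ : ∃ c < g, ∀ x ∈ ({b} ∪ q '' Set.Iio m ∪ (fun i => (f i).c) '' Set.Iio m),
      x ≤ c := by
    refine exists_ub_lt hne (((Set.finite_singleton b).union ((Set.finite_Iio m).image q)).union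
      ((Set.finite_Iio m).image _)) ?_
    rintro x ((rfl | ⟨j, _, rfl⟩) | ⟨i, hi, rfl⟩)
    · exact hb
    · exact hq j
    · exact (hf i hi).cg
  obtain ⟨F, u, tol, htol, hF, hu, hadm⟩ : ∃ (F : Finset (Om × ℕ)) (u : ∀ k, Z k) (tol : ℝ),
      0 < tol ∧ (∀ k ∈ F, b' ≤ k.1 ∧ k.1 < g) ∧ (∀ k ∈ F, ‖u k‖ ≤ 1) ∧
        (Act g Adm (task m) → Adm (task m) F u tol) := by
    by_cases hact : Act g Adm (task m)
    · obtain ⟨F, u, tol, h1, h2, h3, h4⟩ := hact b' hb'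
      exact ⟨F, u, tol, h1, h2, h3, fun _ => h4⟩
    · exact ⟨∅, fun _ => 0, 1, one_pos, by simp, by simp, fun h => absurd h hact⟩
  have hpm : (0 : ℝ) < (1 / 2 : ℝ) ^ m := by positivity
  obtain ⟨v, ⟨c, hc, hvc⟩, hvQ, hvG, hvy, hvF, hvH⟩ := hbF F
    (fun k => (1 - (1 / 2 : ℝ) ^ (m + 3)) • u k)
    (fun k hk => ⟨(hb'S b (by simp)).trans (hF k hk).1, (hF k hk).2⟩)
    (fun k hk => by
      rw [norm_smul, Real.norm_of_nonneg hκ0]
      calc (1 - (1 / 2 : ℝ) ^ (m + 3)) * ‖u k‖ ≤ (1 - (1 / 2 : ℝ) ^ (m + 3)) * 1 := by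
            gcongr; exact hu k hk
        _ = _ := mul_one _)
    (min tol ((1 / 2 : ℝ) ^ m)) (lt_min htol hpm)
  refine ⟨⟨v, F, u, tol, c⟩, ⟨hvG, hc, hvc, ?_, hnet v hvy, fun k hk => (hF k hk).2, ?_, ?_, ?_, ?_,
    htol, hvF, hu, hadm⟩⟩
  · intro j hj
    exact hvQ _ (Finset.mem_image_of_mem _ (Finset.mem_range.2 hj))
  · intro k hk j hj
    exact (hb'S (q j) (Or.inl (Or.inr ⟨j, hj, rfl⟩))).trans (hF k hk).1
  · intro k hk i hi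
    exact (hb'S (f i).c (Or.inr ⟨i, hi, rfl⟩)).trans (hF k hk).1
  · intro j hj
    refine (hvH (κ j) ?_).trans hp5'
    exact Finset.mem_union_left _ (Finset.mem_image_of_mem _ (Finset.mem_range.2 hj))
  · intro i hi k hk
    refine (hvH k ?_).trans hp5'
    exact Finset.mem_union_right _ (Finset.mem_biUnion.2 ⟨i, Finset.mem_range.2 hi, hk⟩)

end

/-- every value is taken infinitely often -/
theorem exists_task_enum (𝒯 : Type*) [Countable 𝒯] [Nonempty 𝒯] :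
    ∃ task : ℕ → 𝒯, ∀ τ, ∃ᶠ m in atTop, task m = τ := by
  obtain ⟨f, hf⟩ := exists_surjective_nat 𝒯
  refine ⟨fun m => f (Nat.unpair m).1, fun τ => frequently_atTop.2 fun n => ?_⟩
  obtain ⟨i, hi⟩ := hf τ
  refine ⟨Nat.pair i n, Nat.right_le_pair i n, ?_⟩
  simp [hi]

/-- The recursion at a limit stage `g`. -/
theorem lim_exists {g : Om} (hne : ∃ b, b < g)
    (hcount : (Set.Iio g).Countable) {X : Om → Submodule ℝ (lp Z ∞)}
    {P : Om → lp Z ∞ → lp Z ∞} (hX : ∀ b c, b ≤ c → X b ≤ X c)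
    (hvan : ∀ b, ∀ x ∈ X b, ∀ k : Om × ℕ, b ≤ k.1 → x k = 0)
    (hsep : ∃ y : ℕ → lp Z ∞, (∀ j, ∃ c < g, y j ∈ X c) ∧
      ∀ c < g, ∀ x ∈ X c, ∀ ε : ℝ, 0 < ε → ∃ j, ‖x - y j‖ < ε)
    {Good : ℕ → (ℕ → lp Z ∞) → Prop}
    (hloc : ∀ n (w w' : ℕ → lp Z ∞), (∀ i < n, w i = w' i) → Good n w → Good n w')
    (h0 : ∀ w, Good 0 w) (hEP : EP g X P Good)
    {𝒯 : Type*} [Countable 𝒯] [Nonempty 𝒯]
    (Adm : 𝒯 → Finset (Om × ℕ) → (∀ k, Z k) → ℝ → Prop) :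
    ∃ (w : ℕ → lp Z ∞) (task : ℕ → 𝒯) (F : ℕ → Finset (Om × ℕ)) (u : ℕ → ∀ k, Z k) (tol : ℕ → ℝ),
      LimOut g X P Good Adm w task F u tol := by
  classical
  obtain ⟨y, hyX, hyd⟩ := hsep
  -- enumerations
  have hcne : (Set.Iio g).Nonempty := hne
  obtain ⟨q, hq⟩ := hcount.exists_eq_range hcne
  have hq1 : ∀ j, q j < g := fun j => by
    have : q j ∈ Set.range q := ⟨j, rfl⟩
    rw [← hq] at this; exact this
  have hq2 : ∀ b < g, ∃ j, q j = b := fun b hb => by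
    have : b ∈ Set.Iio g := hb
    rw [hq] at this; exact this
  set κ : ℕ → Om × ℕ := fun n => (q (Nat.unpair n).1, (Nat.unpair n).2) with hκ
  have hκ1 : ∀ j, (κ j).1 < g := fun j => hq1 _
  have hκ2 : ∀ k : Om × ℕ, k.1 < g → ∃ j, κ j = k := by
    rintro ⟨a, i⟩ ha
    obtain ⟨j, hj⟩ := hq2 a ha
    exact ⟨Nat.pair j i, by simp [hκ, hj]⟩
  obtain ⟨task, htask⟩ := exists_task_enum 𝒯
  -- the recursion
  obtain ⟨b0, hb0⟩ := hne
  have : Nonempty (LimStep Z) := ⟨⟨0, ∅, fun _ => 0, 0, b0⟩⟩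
  obtain ⟨f, hf⟩ := exists_seq_of_step (LimRel g X P Good Adm y q κ task)
    (by
      intro m f f' a hff' h
      refine ⟨?_, h.cg, h.wc, h.pq, ?_, h.Fg, h.Fq, ?_, h.hk, ?_, h.tolpos, h.acc, h.un, h.adm⟩
      · refine hloc _ _ _ (fun i hi => ?_) h.good
        rcases eq_or_ne i m with rfl | hne
        · rw [Function.update_self, Function.update_self]
        · rw [Function.update_of_ne hne, Function.update_of_ne hne, hff' i (by omega)]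
      · intro t ht s hs
        have e : ∑ i ∈ Finset.range m, t i • (f' i).w = ∑ i ∈ Finset.range m, t i • (f i).w := by
          refine Finset.sum_congr rfl fun i hi => ?_
          rw [hff' i (Finset.mem_range.1 hi)]
        have := h.st t ht s hs
        simp only [e]
        exact this
      · intro k hk i hi
        rw [← hff' i hi]; exact h.Fc k hk i hi
      · intro i hi k hk
        rw [← hff' i hi] at hk; exact h.hF i hi k hk)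
    (fun m f hf => lim_step hX ⟨b0, hb0⟩ hloc h0 hEP hyX hq1 hκ1 m f hf)
  have hst : ∀ m, STEP m y (fun i => (f i).w) (f m).w (1 - (1 / 2 : ℝ) ^ (m + 3))
      ((1 / 2 : ℝ) ^ (m + 5)) := fun m => (hf m).st
  refine ⟨fun m => (f m).w, task, fun m => (f m).F, fun m => (f m).u, fun m => (f m).tol, ?_⟩
  refine
    { inX := fun m => ⟨(f m).c, (hf m).cg, (hf m).wc⟩
      good := fun m => good_of_hist hloc h0 m f fun i _ => hf i
      w1 := fun n t ht => W1_of_STEP hst n t ht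
      w2 := ?_
      w3 := ?_
      w4 := ?_
      freq := htask
      adm := fun m => (hf m).adm
      Flt := fun m => (hf m).Fg
      Fge := ?_
      tolpos := fun m => (hf m).tolpos
      un := fun m => (hf m).un
      acc := fun m => (hf m).acc
      before := fun m i hi k hk => hvan _ _ (hf i).wc k ((hf m).Fc k hk i hi)
      after := fun m i hi k hk => (hf i).hF m hi k hk }
  · intro k hk
    obtain ⟨j, rfl⟩ := hκ2 k hk
    have h1 : ∀ m, ‖(f (m + (j + 1))).w (κ j)‖ ≤ (1 / 2 : ℝ) ^ (m + (j + 1)) := fun m =>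
      (hf (m + (j + 1))).hk j (by omega)
    rw [← summable_nat_add_iff (j + 1)]
    refine Summable.of_nonneg_of_le (fun _ => norm_nonneg _) h1 ?_
    simpa [pow_add] using (summable_geometric_two).mul_right ((1 / 2 : ℝ) ^ (j + 1))
  · intro b hb
    obtain ⟨j, rfl⟩ := hq2 b hb
    exact ⟨j + 1, fun m hm => (hf m).pq j (by omega)⟩
  · intro x hx T hT ε hε
    refine W4_of_STEP hst ?_ hT hε
    intro d hd ε' hε'
    obtain ⟨c, hc, x', hx', h1⟩ := hx (ε' / (2 * d)) (by positivity)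
    obtain ⟨j, hj⟩ := hyd c hc (d • x') ((X c).smul_mem d hx') (ε' / 2) (by positivity)
    refine ⟨j, ?_⟩
    have h2 : ‖d • (x - x')‖ < ε' / 2 := by
      rw [norm_smul, Real.norm_of_nonneg hd.le]
      calc d * ‖x - x'‖ < d * (ε' / (2 * d)) := by gcongr
        _ = ε' / 2 := by field_simp
    calc ‖d • x - y j‖ = ‖d • (x - x') + (d • x' - y j)‖ := by congr 1; module
      _ ≤ ‖d • (x - x')‖ + ‖d • x' - y j‖ := norm_add_le _ _
      _ < ε' := by linarith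
  · intro b hb
    obtain ⟨j, rfl⟩ := hq2 b hb
    exact ⟨j + 1, fun m hm k hk => (hf m).Fq k hk j (by omega)⟩

end lim

end Pool.Agent.Dia
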