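import Mathlib

/-!
MP_89a7db_an, module M1: the first uncountable well order, clubs, and Jensen's diamond.
-/

open Set Order Cardinal Ordinal

namespace Pool.Agent.Dia

/-- `W` is a well order of type omega_1: uncountable with countable initial segments. -/
class OmegaOne (W : Type*) [LinearOrder W] : Prop where
  wf : WellFoundedLT W
  countable_Iio : ∀ a : W, (Set.Iio a).Countable
  uncountable : ¬ (Set.univ : Set W).Countable

section basic

variable {W : Type*} [LinearOrder W] [OmegaOne W]

instance (priority := 100) : WellFoundedLT W := OmegaOne.wf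

lemma countable_Iio (a : W) : (Set.Iio a).Countable := OmegaOne.countable_Iio a

lemma countable_Iic (a : W) : (Set.Iic a).Countable := by
  rw [← Set.Iio_insert]
  exact (countable_Iio a).insert a

variable (W) in
lemma uncountable_univ : ¬ (Set.univ : Set W).Countable := OmegaOne.uncountable

/-- countable sets are strictly bounded -/
lemma exists_gt_of_countable {s : Set W} (hs : s.Countable) : ∃ b, ∀ a ∈ s, a < b := by
  by_contra h
  push Not at h
  apply uncountable_univ W
  have h1 : (Set.univ : Set W) ⊆ ⋃ a ∈ s, Set.Iic a := by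
    intro b _
    obtain ⟨a, ha, hb⟩ := h b
    exact Set.mem_biUnion ha hb
  exact (hs.biUnion fun a _ => countable_Iic a).mono h1

lemma exists_gt_fun {ι : Sort*} [Countable ι] (f : ι → W) : ∃ b, ∀ i, f i < b := by
  obtain ⟨b, hb⟩ := exists_gt_of_countable (Set.countable_range f)
  exact ⟨b, fun i => hb _ ⟨i, rfl⟩⟩

instance (priority := 100) : NoMaxOrder W :=
  ⟨fun a => by
    obtain ⟨b, hb⟩ := exists_gt_of_countable (Set.countable_singleton a)
    exact ⟨b, hb a rfl⟩⟩

variable (W) in
lemma nonempty' : Nonempty W := by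
  by_contra h
  rw [not_nonempty_iff] at h
  apply uncountable_univ W
  exact Set.countable_univ

lemma uncountable_Ici (a : W) : ¬ (Set.Ici a).Countable := by
  intro h
  apply uncountable_univ W
  have : (Set.univ : Set W) = Set.Iio a ∪ Set.Ici a := by
    ext x; simpa using lt_or_ge x a
  rw [this]
  exact (countable_Iio a).union h

/-- a set is unbounded iff it is uncountable -/
lemma not_countable_iff {s : Set W} : ¬ s.Countable ↔ ∀ b, ∃ a ∈ s, b < a := by
  constructor
  · intro h b
    by_contra hb
    push Not at hb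
    exact h ((countable_Iic b).mono fun a ha => hb a ha)
  · intro h hs
    obtain ⟨b, hb⟩ := exists_gt_of_countable hs
    obtain ⟨a, ha, hab⟩ := h b
    exact lt_asymm hab (hb a ha)

/-- every nonempty bounded set has a least upper bound -/
lemma exists_lub {s : Set W} (hs : BddAbove s) : ∃ x, IsLUB s x := by
  have h : (upperBounds s).Nonempty := hs
  refine ⟨WellFounded.min (wellFounded_lt) _ h, WellFounded.min_mem _ _ h, fun y hy => ?_⟩
  exact WellFounded.min_le _ hy

lemma exists_lub_seq (g : ℕ → W) : ∃ x, IsLUB (Set.range g) x := by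
  obtain ⟨b, hb⟩ := exists_gt_fun g
  exact exists_lub ⟨b, by rintro _ ⟨n, rfl⟩; exact (hb n).le⟩

/-- an uncountable union of countably many pieces has an uncountable piece -/
lemma exists_uncountable_fibre {α β : Type*} [Countable β] {s : Set α} (hs : ¬ s.Countable)
    (f : α → β) : ∃ b, ¬ {a ∈ s | f a = b}.Countable := by
  by_contra h
  push Not at h
  apply hs
  have : s ⊆ ⋃ b, {a ∈ s | f a = b} := by
    intro a ha
    exact Set.mem_iUnion.2 ⟨f a, ha, rfl⟩
  exact (Set.countable_iUnion h).mono this

/-! ### clubs -/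

/-- the set of points closed under `f` -/
def ClosedPts (f : W → W) : Set W := {a | ∀ b < a, f b < a}

lemma isClub_closedPts (f : W → W) : IsClub (ClosedPts f) := by
  constructor
  · intro d hd hne _ x hx b hb
    obtain ⟨c, hc, hbc⟩ := (lt_isLUB_iff hx).1 hb
    exact (hd hc b hbc).trans_le (hx.1 hc)
  · intro a0
    have hstep : ∀ a : W, ∃ a', a < a' ∧ ∀ b ≤ a, f b < a' := by
      intro a
      obtain ⟨c, hc⟩ := exists_gt_of_countable ((countable_Iic a).image f)
      obtain ⟨d, hd⟩ := exists_gt a
      exact ⟨max c d, lt_max_of_lt_right hd,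
        fun b hb => lt_max_of_lt_left (hc _ ⟨b, hb, rfl⟩)⟩
    choose g hg1 hg2 using hstep
    let s : ℕ → W := fun n => Nat.rec a0 (fun _ a => g a) n
    have hs : ∀ n, s (n + 1) = g (s n) := fun n => rfl
    obtain ⟨x, hx⟩ := exists_lub_seq s
    refine ⟨x, ?_, hx.1 ⟨0, rfl⟩⟩
    intro b hb
    obtain ⟨_, ⟨n, rfl⟩, hbn⟩ := (lt_isLUB_iff hx).1 hb
    calc f b < g (s n) := hg2 _ _ hbn.le
      _ = s (n + 1) := rfl
      _ ≤ x := hx.1 ⟨n + 1, rfl⟩

lemma isClub_Ioi (b : W) : IsClub (Set.Ioi b) := by
  constructor
  · intro d hd hne _ x hx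
    obtain ⟨c, hc⟩ := hne
    exact lt_of_lt_of_le (hd hc) (hx.1 hc)
  · intro a
    obtain ⟨c, hc⟩ := exists_gt (max a b)
    exact ⟨c, (le_max_right a b).trans_lt hc, ((le_max_left a b).trans_lt hc).le⟩

variable (W) in
lemma cof_ne : Order.cof W ≠ ℵ₀ := by
  intro h
  obtain ⟨s, hs, hc⟩ := Order.exists_cof_eq W
  rw [h] at hc
  have hcs : s.Countable := by rw [← Cardinal.le_aleph0_iff_set_countable, hc]
  obtain ⟨b, hb⟩ := exists_gt_of_countable hcs
  obtain ⟨a, ha, hab⟩ := hs b
  exact absurd (hb a ha) (not_lt.mpr hab)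

lemma IsClub.inter' {s t : Set W} (hs : IsClub s) (ht : IsClub t) : IsClub (s ∩ t) :=
  hs.inter (cof_ne W) ht

lemma isClub_iInter {ι : Type*} [Countable ι] {f : ι → Set W} (hf : ∀ i, IsClub (f i)) :
    IsClub (⋂ i, f i) := IsClub.iInter_of_countable (cof_ne W) hf

/-- closing off under countably many data below each point -/
lemma isClub_closed_family {D : W → Type*} [∀ b, Countable (D b)] (φ : ∀ b, D b → W) :
    IsClub {a : W | ∀ b < a, ∀ d : D b, φ b d < a} := by
  have h : ∀ b : W, ∃ c, ∀ d : D b, φ b d < c := fun b => exists_gt_fun (φ b)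
  choose f hf using h
  constructor
  · intro d hd hne _ x hx b hb e
    obtain ⟨c, hc, hbc⟩ := (lt_isLUB_iff hx).1 hb
    exact (hd hc b hbc e).trans_le (hx.1 hc)
  · intro a
    obtain ⟨b, hb, hab⟩ := (isClub_closedPts f).isCofinal a
    exact ⟨b, fun c hc d => (hf c d).trans (hb c hc), hab⟩

/-- closing off under a function of finite lists -/
lemma isClub_closed_list (φ : List W → W) :
    IsClub {a : W | (∃ b, b < a) ∧ ∀ l : List W, (∀ b ∈ l, b < a) → φ l < a} := by
  have hcount : ∀ b : W, Countable {l : List W // ∀ c ∈ l, c ≤ b} := by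
    intro b
    have : Countable (Set.Iic b) := (countable_Iic b).to_subtype
    refine Countable.of_equiv (List (Set.Iic b)) ?_
    exact
      { toFun := fun l => ⟨l.map Subtype.val, by
          intro c hc
          rw [List.mem_map] at hc
          obtain ⟨x, _, rfl⟩ := hc
          exact x.2⟩
        invFun := fun l => l.1.attach.map fun x => ⟨x.1, l.2 x.1 x.2⟩
        left_inv := fun l => by
          apply List.map_injective_iff.2 Subtype.val_injective
          simp [List.map_map, Function.comp_def]
        right_inv := fun l => by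
          apply Subtype.ext
          simp [List.map_map, Function.comp_def] }
  have h2 := isClub_closed_family (W := W) (D := fun b => {l : List W // ∀ c ∈ l, c ≤ b})
    (fun _ l => φ l.1)
  obtain ⟨w0⟩ := nonempty' W
  obtain ⟨w1, hw1⟩ := exists_lub (s := (∅ : Set W)) ⟨w0, by simp⟩
  have h3 := IsClub.inter' h2 (isClub_Ioi (max w1 (φ [])))
  constructor
  · intro d hd hne _ x hx
    obtain ⟨c, hc⟩ := hne
    refine ⟨?_, ?_⟩
    · obtain ⟨b, hb⟩ := (hd hc).1
      exact ⟨b, hb.trans_le (hx.1 hc)⟩
    · intro l hl
      -- the list is bounded by some element of `d`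
      have : ∃ c ∈ d, ∀ b ∈ l, b < c := by
        induction l with
        | nil => exact ⟨c, hc, by simp⟩
        | cons b l ih =>
          obtain ⟨c1, hc1, h1⟩ := ih fun b hb => hl b (by simp [hb])
          obtain ⟨c2, hc2, h2⟩ := (lt_isLUB_iff hx).1 (hl b (by simp))
          rcases le_total c1 c2 with h | h
          · exact ⟨c2, hc2, by
              intro e he
              rcases List.mem_cons.1 he with rfl | he
              · exact h2
              · exact (h1 e he).trans_le h⟩
          · exact ⟨c1, hc1, by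
              intro e he
              rcases List.mem_cons.1 he with rfl | he
              · exact h2.trans_le h
              · exact h1 e he⟩
      obtain ⟨c', hc', h'⟩ := this
      exact ((hd hc').2 l h').trans_le (hx.1 hc')
  · intro a
    obtain ⟨b, ⟨hb1, hb2⟩, hab⟩ := h3.isCofinal a
    refine ⟨b, ⟨⟨max w1 (φ []), hb2⟩, ?_⟩, hab⟩
    intro l hl
    by_cases hnil : l = []
    · subst hnil
      exact (le_max_right _ _).trans_lt hb2
    · -- the maximum of the list
      obtain ⟨m, hm, hmax⟩ : ∃ m ∈ l, ∀ c ∈ l, c ≤ m := by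
        clear hl
        induction l with
        | nil => exact absurd rfl hnil
        | cons x l ih =>
          by_cases hl : l = []
          · subst hl
            exact ⟨x, by simp, by simp⟩
          · obtain ⟨m, hm, h⟩ := ih hl
            rcases le_total x m with hx | hx
            · exact ⟨m, by simp [hm], by
                intro c hc
                rcases List.mem_cons.1 hc with rfl | hc
                · exact hx
                · exact h c hc⟩
            · exact ⟨x, by simp, by
                intro c hc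
                rcases List.mem_cons.1 hc with rfl | hc
                · exact le_rfl
                · exact (h c hc).trans hx⟩
      exact hb1 m (hl m hm) ⟨l, hmax⟩

/-- limit points -/
lemma isClub_limit : IsClub {a : W | (∃ b, b < a) ∧ ∀ b < a, ∃ c, b < c ∧ c < a} := by
  have hs : ∀ b : W, ∃ c, b < c := exists_gt
  choose f hf using hs
  obtain ⟨w0⟩ := nonempty' W
  have h := IsClub.inter' (isClub_closedPts f) (isClub_Ioi w0)
  constructor
  · intro d hd hne _ x hx
    obtain ⟨c, hc⟩ := hne
    refine ⟨?_, ?_⟩
    · obtain ⟨b, hb⟩ := (hd hc).1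
      exact ⟨b, hb.trans_le (hx.1 hc)⟩
    · intro b hb
      obtain ⟨c, hc, hbc⟩ := (lt_isLUB_iff hx).1 hb
      obtain ⟨e, h1, h2⟩ := (hd hc).2 b hbc
      exact ⟨e, h1, h2.trans_le (hx.1 hc)⟩
  · intro a
    obtain ⟨b, ⟨hb1, hb2⟩, hab⟩ := h.isCofinal a
    exact ⟨b, ⟨⟨w0, hb2⟩, fun c hc => ⟨f c, hf c, hb1 c hc⟩⟩, hab⟩

end basic

end Pool.Agent.Dia
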