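import Pool.Agent.Work.MP_89a7db_an.Dia.Defs

/-!
# M7: the transfinite choice of the data
-/

set_option autoImplicit false
set_option linter.unusedSectionVars false

namespace Pool.Agent.DIAM

open Set Filter Topology Pool.Agent.Dia
open scoped ENNReal

universe u v

/-- Recursion with choice (dependent form). `P a D d`: `d` is an admissible datum at `a` when the
data below `a` are `D`; `Q a D d`: it is moreover preferred. `P` and `Q` only depend on `D`
below `a`. -/
theorem exists_rec_dep {W : Type u} [LinearOrder W] [WellFoundedLT W] {T : W → Type v}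
    [∀ a, Nonempty (T a)] (P Q : ∀ a : W, (∀ a, T a) → T a → Prop)
    (hP : ∀ a D D' d, (∀ b < a, D b = D' b) → P a D d → P a D' d)
    (hQ : ∀ a D D' d, (∀ b < a, D b = D' b) → Q a D d → Q a D' d)
    (hex : ∀ a D, (∀ b < a, P b D (D b)) → ∃ d, P a D d) :
    ∃ D : ∀ a, T a, ∀ a, P a D (D a) ∧ ((∃ d, P a D d ∧ Q a D d) → Q a D (D a)) := by
  classical
  let ext : ∀ a : W, ((b : W) → b < a → T b) → ∀ b, T b := fun a f b =>
    if h : b < a then f b h else Classical.arbitrary (T b)
  let step : ∀ a : W, ((b : W) → b < a → T b) → T a := fun a f =>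
    if h : ∃ d, P a (ext a f) d ∧ Q a (ext a f) d then h.choose
    else if h' : ∃ d, P a (ext a f) d then h'.choose else Classical.arbitrary (T a)
  let D : ∀ a, T a := (wellFounded_lt (α := W)).fix step
  have hD : ∀ a, D a = step a fun b _ => D b := fun a => WellFounded.fix_eq _ _ _
  have hext : ∀ a, ∀ b < a, ext a (fun b _ => D b) b = D b := fun a b hb => dif_pos hb
  have hext' : ∀ a, ∀ b < a, D b = ext a (fun b _ => D b) b := fun a b hb => (hext a b hb).symm
  have key : ∀ a, P a D (D a) := by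
    intro a
    induction a using WellFoundedLT.induction with
    | ind a ih =>
      obtain ⟨d, hd⟩ := hex a D ih
      have h' : ∃ d, P a (ext a fun b _ => D b) d := ⟨d, hP _ _ _ _ (hext' a) hd⟩
      refine hP _ _ _ _ (hext a) ?_
      rw [hD a]
      by_cases h : ∃ d, P a (ext a fun b _ => D b) d ∧ Q a (ext a fun b _ => D b) d
      · have : (step a fun b _ => D b) = h.choose := dif_pos h
        rw [this]
        exact h.choose_spec.1
      · have : (step a fun b _ => D b) = h'.choose := by
          simp only [step]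
          rw [dif_neg h, dif_pos h']
        rw [this]
        exact h'.choose_spec
  refine ⟨D, fun a => ⟨key a, ?_⟩⟩
  rintro ⟨d, hd1, hd2⟩
  have h : ∃ d, P a (ext a fun b _ => D b) d ∧ Q a (ext a fun b _ => D b) d :=
    ⟨d, hP _ _ _ _ (hext' a) hd1, hQ _ _ _ _ (hext' a) hd2⟩
  refine hQ _ _ _ _ (hext a) ?_
  rw [hD a]
  have : (step a fun b _ => D b) = h.choose := dif_pos h
  rw [this]
  exact h.choose_spec.2

section congr

variable {W : Type} [LinearOrder W]
variable {Z : W × ℕ → Type} [∀ k, NormedAddCommGroup (Z k)] [∀ k, NormedSpace ℝ (Z k)]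
  [∀ k, CompleteSpace (Z k)]

theorem XS_congr {D D' : ∀ a, Datum Z a} {a : W} (h : ∀ b < a, D b = D' b) :
    XS D a = XS D' a := by
  have : {x | ∃ k : W × ℕ, k.1 < a ∧ ∃ z : Z k, x = J D k z} =
      {x | ∃ k : W × ℕ, k.1 < a ∧ ∃ z : Z k, x = J D' k z} := by
    ext x
    refine exists_congr fun k => and_congr_right fun hk => exists_congr fun z => ?_
    rw [J, J, h k.1 hk]
  rw [XS, XS, this]

theorem Adm_congr {fb : Fib Z} {gs : W → Lam Z} {D D' : ∀ a, Datum Z a} {a : W}
    (h : ∀ b < a, D b = D' b) {d : Datum Z a} (hd : Adm fb gs D a d) : Adm fb gs D' a d := by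
  have hX := XS_congr h
  refine ⟨?_, ?_, ?_, ?_, ?_⟩
  · intro m
    rw [← hX]
    exact hd.w0 m
  · intro b hb
    rw [← h b hb]
    exact hd.w3 b hb
  · intro y hy
    rw [← hX] at hy
    exact hd.w4 y hy
  · intro hb
    have := hd.t0 hb
    unfold CT0 at this ⊢
    rwa [← hX]
  · intro hl
    have := hd.t1 hl
    unfold CT1 at this ⊢
    rwa [← hX]

/-- M7: a full system of data exists if data exist at every stage. -/
theorem exists_sys [WellFoundedLT W] (fb : Fib Z) (gs : W → W → Lam Z)
    (lg : W → (ℕ → Lam Z) × ℝ)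
    (hex : ∀ (a : W) (D : ∀ a, Datum Z a), (∀ b < a, Adm fb (gs b) D b (D b)) →
      ∃ d, Adm fb (gs a) D a d) : Nonempty (Sys fb gs lg) := by
  have : ∀ a, Nonempty (Datum Z a) := fun a => ⟨Datum.triv a⟩
  obtain ⟨D, hD⟩ := exists_rec_dep (T := Datum Z) (fun a D d => Adm fb (gs a) D a d)
    (fun a _ d => IsLim a → Light (lg a).1 (lg a).2 d)
    (fun a D D' d h hd => Adm_congr h hd) (fun a D D' d _ hd => hd) hex
  exact ⟨⟨D, fun a => (hD a).1, fun a ha ⟨d, hd1, hd2⟩ => (hD a).2 ⟨d, hd1, fun _ => hd2⟩ ha⟩⟩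

end congr

end Pool.Agent.DIAM
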