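import Pool.Agent.Work.MP_89a7db_an.Dia.Sel
import Pool.Agent.Work.MP_89a7db_an.Dia.Omega

/-!
MP_89a7db_an, module M14: light extensions (S2), over explicit hypotheses.
-/

open Set Topology

noncomputable section

namespace Pool.Agent.Dia

section signs

variable {V : Type*} [AddCommGroup V] [Module ℝ V]

/-- All the sums `± v_1 ± ... ± v_l`. -/
def signSums : List V → List V
  | [] => [0]
  | v :: l => (signSums l).map (fun s => v + s) ++ (signSums l).map (fun s => -v + s)

/-- The sum of the absolute values of a functional over a list. -/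
def absSum (f : V →ₗ[ℝ] ℝ) (l : List V) : ℝ := (l.map fun v => |f v|).sum

@[simp] lemma absSum_nil (f : V →ₗ[ℝ] ℝ) : absSum f [] = 0 := rfl

@[simp] lemma absSum_cons (f : V →ₗ[ℝ] ℝ) (v : V) (l : List V) :
    absSum f (v :: l) = |f v| + absSum f l := by
  simp [absSum]

lemma absSum_neg (f : V →ₗ[ℝ] ℝ) (l : List V) : absSum (-f) l = absSum f l := by
  induction l with
  | nil => rfl
  | cons v l ih => rw [absSum_cons, absSum_cons, ih, LinearMap.neg_apply, abs_neg]

lemma le_absSum (f : V →ₗ[ℝ] ℝ) (l : List V) : ∀ s ∈ signSums l, f s ≤ absSum f l := by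
  induction l with
  | nil =>
    intro s hs
    simp only [signSums, List.mem_singleton] at hs
    simp [hs]
  | cons v l ih =>
    intro s hs
    simp only [signSums, List.mem_append, List.mem_map] at hs
    rw [absSum_cons]
    rcases hs with ⟨t, ht, rfl⟩ | ⟨t, ht, rfl⟩
    · rw [map_add]
      exact add_le_add (le_abs_self _) (ih t ht)
    · rw [map_add, map_neg]
      exact add_le_add (neg_le_abs _) (ih t ht)

lemma exists_absSum (f : V →ₗ[ℝ] ℝ) (l : List V) : ∃ s ∈ signSums l, f s = absSum f l := by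
  induction l with
  | nil => exact ⟨0, by simp [signSums], by simp⟩
  | cons v l ih =>
    obtain ⟨s, hs, h⟩ := ih
    rcases le_total 0 (f v) with hv | hv
    · refine ⟨v + s, ?_, ?_⟩
      · simp only [signSums, List.mem_append, List.mem_map]
        exact Or.inl ⟨s, hs, rfl⟩
      · rw [map_add, absSum_cons, h, abs_of_nonneg hv]
    · refine ⟨-v + s, ?_, ?_⟩
      · simp only [signSums, List.mem_append, List.mem_map]
        exact Or.inr ⟨s, hs, rfl⟩
      · rw [map_add, map_neg, absSum_cons, h, abs_of_nonpos hv]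

end signs

section S2

variable {W : Type*} {V : Type*} [NormedAddCommGroup V] [NormedSpace ℝ V]

/-- The functionals `lam` with `|lam x| + c |x|_a ≤ p x` for some stage `a` and all `x`. -/
def TTset (lat : W → V → ℝ) (p : V → ℝ) (c : ℝ) : Set (StrongDual ℝ V) :=
  {lam | ∃ a, ∀ x, |lam x| + c * lat a x ≤ p x}

/-- The condition `(L_del)` for a finite list of vectors. -/
def LDel (lat : W → V → ℝ) (p : V → ℝ) (del : ℝ) (l : List V) : Prop :=
  ∀ c, 0 ≤ c → ∀ rho ∈ TTset lat p c, absSum (rho : V →ₗ[ℝ] ℝ) l ≤ 1 + del - c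

lemma TTset_anti {lat : W → V → ℝ} (lat_nonneg : ∀ a x, 0 ≤ lat a x) {p : V → ℝ} {c c' : ℝ}
    (h : c' ≤ c) : TTset lat p c ⊆ TTset lat p c' := by
  rintro lam ⟨a, ha⟩
  refine ⟨a, fun x => le_trans ?_ (ha x)⟩
  have := mul_le_mul_of_nonneg_right h (lat_nonneg a x)
  linarith

lemma TTset_neg {lat : W → V → ℝ} {p : V → ℝ} {c : ℝ} {lam : StrongDual ℝ V}
    (h : lam ∈ TTset lat p c) : -lam ∈ TTset lat p c := by
  obtain ⟨a, ha⟩ := h
  refine ⟨a, fun x => ?_⟩
  rw [_root_.neg_apply, abs_neg]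
  exact ha x

/-- The set `TTset` (with `0` added) as a weak-star compact convex set. -/
lemma exists_KK {lat : W → V → ℝ} (lat_nonneg : ∀ a x, 0 ≤ lat a x) {p : V → ℝ} {M : ℝ}
    (hp : ∀ x, p x ≤ M * ‖x‖) {c : ℝ} (hc : 0 ≤ c)
    (hC4 : ∃ a, ∀ lam ∈ TTset lat p c, ∀ x, |lam x| + c * lat a x ≤ p x) :
    ∃ KK : Set (WeakDual ℝ V), IsCompact KK ∧ Convex ℝ KK ∧ 0 ∈ KK ∧
      (∀ lam ∈ KK, WeakDual.toStrongDual lam ∈ TTset lat p c ∨ lam = 0) ∧
      (∀ lam : StrongDual ℝ V, lam ∈ TTset lat p c → StrongDual.toWeakDual lam ∈ KK) := by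
  by_cases hne : (TTset lat p c).Nonempty
  · obtain ⟨a, ha⟩ := hC4
    refine ⟨{lam | ∀ x, |lam x| + c * lat a x ≤ p x}, ?_, ?_, ?_, ?_, ?_⟩
    · have h1 := WeakDual.isCompact_closedBall (0 : StrongDual ℝ V) (max M 0)
      refine h1.of_isClosed_subset ?_ ?_
      · have e : {lam : WeakDual ℝ V | ∀ x, |lam x| + c * lat a x ≤ p x} =
            ⋂ x, {lam | |lam x| + c * lat a x ≤ p x} := by
          ext lam
          simp only [Set.mem_iInter]
          rfl
        rw [e]
        exact isClosed_iInter fun z =>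
          isClosed_le ((WeakDual.eval_continuous z).abs.add continuous_const) continuous_const
      · intro lam hl
        change WeakDual.toStrongDual lam ∈ Metric.closedBall (0 : StrongDual ℝ V) (max M 0)
        rw [mem_closedBall_zero_iff]
        refine ContinuousLinearMap.opNorm_le_bound _ (le_max_right _ _) fun z => ?_
        rw [Real.norm_eq_abs]
        have h2 : |lam z| + c * lat a z ≤ p z := hl z
        have h3 := mul_nonneg hc (lat_nonneg a z)
        have h4 := mul_le_mul_of_nonneg_right (le_max_left M 0) (norm_nonneg z)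
        have h5 := hp z
        change |lam z| ≤ _
        linarith
    · intro l hl l' hl' s t hs ht hst x
      have h1 : |l x| + c * lat a x ≤ p x := hl x
      have h2 : |l' x| + c * lat a x ≤ p x := hl' x
      have h3 := mul_le_mul_of_nonneg_left h1 hs
      have h4 := mul_le_mul_of_nonneg_left h2 ht
      change |s * l x + t * l' x| + c * lat a x ≤ p x
      have h5 : |s * l x + t * l' x| ≤ s * |l x| + t * |l' x| := by
        refine (abs_add_le _ _).trans ?_
        rw [abs_mul, abs_mul, abs_of_nonneg hs, abs_of_nonneg ht]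
      have h6 : t = 1 - s := by linarith
      subst h6
      nlinarith
    · intro x
      obtain ⟨lam, hl⟩ := hne
      have h1 := ha lam hl x
      change |(0 : ℝ)| + c * lat a x ≤ p x
      rw [abs_zero]
      have := abs_nonneg (lam x)
      linarith
    · intro lam hl
      exact Or.inl ⟨a, hl⟩
    · intro lam hl x
      exact ha lam hl x
  · refine ⟨{0}, isCompact_singleton, convex_singleton 0, rfl, fun lam hl => Or.inr hl, ?_⟩
    intro lam hl
    exact absurd ⟨lam, hl⟩ hne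

variable [LinearOrder W] [OmegaOne W] {Z : W × ℕ → Type*} [∀ k, NormedAddCommGroup (Z k)]
  [∀ k, NormedSpace ℝ (Z k)]

/-- The light extension lemma S2. -/
theorem light_extension
    -- the structure
    (pi : ∀ k, V →L[ℝ] Z k) (hpi : ∀ k x, ‖pi k x‖ ≤ ‖x‖)
    (lat : W → V → ℝ) (lat_nonneg : ∀ a x, 0 ≤ lat a x) (lat_le : ∀ a x, lat a x ≤ ‖x‖)
    (tail : StrongDual ℝ V → W → ℝ) (tail_convex : ∀ b, ConvexOn ℝ Set.univ fun lam => tail lam b)
    (tail_nonneg : ∀ lam b, 0 ≤ tail lam b) (tail_le : ∀ lam b, tail lam b ≤ ‖lam‖)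
    (tail_anti : ∀ lam a b, a ≤ b → tail lam b ≤ tail lam a)
    (XX : W → Submodule ℝ V) (XX_closed : ∀ b, IsClosed (XX b : Set V))
    (XX_mono : ∀ a b, a ≤ b → XX a ≤ XX b) (XX_exh : ∀ x, ∃ b, x ∈ XX b)
    (XX_zero : ∀ b, ∀ y ∈ XX b, ∀ k : W × ℕ, b ≤ k.1 → pi k y = 0)
    (tail_XX : ∀ lam b, ∀ y ∈ XX b, lam y + tail lam b * ‖y‖ ≤ ‖lam‖ * ‖y‖)
    (tail_pi : ∀ (lam : StrongDual ℝ V) (h : W × ℕ) b, (∀ z, |lam z| ≤ ‖pi h z‖) → h.1 < b →
      tail lam b = 0)
    (XQ : Finset W → Submodule ℝ V) (XQ_closed : ∀ Q, IsClosed (XQ Q : Set V))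
    (F1 : ∀ (b : W) (Q : Finset W), (∀ q ∈ Q, q < b) → ∀ v0 ∈ XQ Q, ∀ lam : StrongDual ℝ V,
      (∀ y ∈ XX b ⊓ XQ Q, lam y = 0) → lam v0 ≤ lat b v0 * tail lam b)
    (interp : ∀ (b : W) (F : Finset (W × ℕ)) (u : ∀ k, Z k) (Q : Finset W) (e : ℝ), F.Nonempty →
      (∀ k ∈ F, b ≤ k.1) → (∀ q ∈ Q, q < b) → (∀ k ∈ F, ‖u k‖ ≤ 1) → 0 < e →
      ∃ x ∈ XQ Q, (∀ b', (∀ k ∈ F, k.1 < b') → x ∈ XX b') ∧ ‖x‖ ≤ 1 + e ∧
        ∀ k ∈ F, ‖pi k x - u k‖ ≤ e)
    -- the norm
    (p : V → ℝ) {M : ℝ} (hp : ∀ x, p x ≤ M * ‖x‖)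
    (hC4 : ∀ c, 0 ≤ c → ∃ a, ∀ lam ∈ TTset lat p c, ∀ x, |lam x| + c * lat a x ≤ p x)
    (hC4' : ∀ c, (TTset lat p c).Nonempty → c ≤ 1)
    -- the list
    (l : List V) {del del' : ℝ} (hdel0 : 0 ≤ del) (hdel : del < del')
    (hC5 : ∀ c, 0 ≤ c → ∀ e, 0 < e → ∃ b, ∀ rho ∈ TTset lat p c,
      absSum (rho : V →ₗ[ℝ] ℝ) l + tail rho b ≤ 1 + del - c + e)
    -- the data
    (Q : Finset W) (H : Finset (W × ℕ)) (yy : Finset V) {kap e : ℝ} (hkap0 : 0 < kap)
    (hkap1 : kap ≤ 1) (he : 0 < e) :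
    ∃ b : W, ∀ F : Finset (W × ℕ), F.Nonempty → (∀ k ∈ F, b ≤ k.1) → ∀ u : ∀ k, Z k,
      (∀ k ∈ F, ‖u k‖ ≤ kap) → ∀ eF, 0 < eF →
      ∃ v ∈ XQ Q, (∀ b', (∀ k ∈ F, k.1 < b') → v ∈ XX b') ∧
        LDel lat p del' (v :: l) ∧
        (∀ y ∈ yy, ‖y + v‖ ≤ max ‖y‖ kap + e ∧ ‖y - v‖ ≤ max ‖y‖ kap + e) ∧
        (∀ k ∈ F, ‖pi k v - u k‖ ≤ eF) ∧ (∀ h ∈ H, ‖pi h v‖ ≤ e) := by
  classical
  set th : ℝ := (del' - del) / 4 with hth
  have hth0 : 0 < th := by rw [hth]; linarith
  obtain ⟨n, hn⟩ := exists_nat_gt (1 / th)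
  have hnpos : (0 : ℝ) < n := lt_trans (by positivity) hn
  have hstep : 1 / (n : ℝ) ≤ th := by
    rw [div_le_iff₀ hnpos]
    rw [div_lt_iff₀ hth0] at hn
    linarith
  -- the mesh
  let cc : Fin (n + 1) → ℝ := fun j => (j : ℕ) / (n : ℝ)
  have hcc0 : ∀ j, 0 ≤ cc j := fun j => by positivity
  have hcc1 : ∀ j, cc j ≤ 1 := by
    intro j
    change ((j : ℕ) : ℝ) / (n : ℝ) ≤ 1
    rw [div_le_one hnpos]
    exact_mod_cast Nat.lt_succ_iff.1 j.2
  have hb1 : ∀ j, ∃ b, ∀ rho ∈ TTset lat p (cc j),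
      absSum (rho : V →ₗ[ℝ] ℝ) l + tail rho b ≤ 1 + del - cc j + th :=
    fun j => hC5 (cc j) (hcc0 j) th hth0
  choose bj hbj using hb1
  have hb2 : ∀ y : V, ∃ b, y ∈ XX b := XX_exh
  choose by' hby using hb2
  obtain ⟨b, hb⟩ := exists_gt_of_countable (W := W)
    (s := (Set.range bj) ∪ (by' '' (yy : Set V)) ∪ (Prod.fst '' (H : Set (W × ℕ))) ∪ (Q : Set W))
    (by
      refine Set.Countable.union (Set.Countable.union (Set.Countable.union ?_ ?_) ?_) ?_
      · exact Set.countable_range _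
      · exact (yy.finite_toSet.countable).image _
      · exact (H.finite_toSet.countable).image _
      · exact Q.finite_toSet.countable)
  have hbb : ∀ j, bj j ≤ b := fun j => (hb _ (Or.inl (Or.inl (Or.inl ⟨j, rfl⟩)))).le
  have hby2 : ∀ y ∈ yy, y ∈ XX b := fun y hy =>
    XX_mono _ _ (hb _ (Or.inl (Or.inl (Or.inr ⟨y, hy, rfl⟩)))).le (hby y)
  have hbH : ∀ h ∈ H, h.1 < b := fun h hh => hb _ (Or.inl (Or.inr ⟨h, hh, rfl⟩))
  have hbQ : ∀ q ∈ Q, q < b := fun q hq => hb _ (Or.inr hq)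
  refine ⟨b, fun F hFne hFb u hu eF heF => ?_⟩
  -- small number
  set M' : ℝ := max M 0 with hM'
  have hM'0 : 0 ≤ M' := le_max_right _ _
  obtain ⟨e1, he10, he11, he12, he13⟩ :
      ∃ e1 : ℝ, 0 < e1 ∧ e1 * (M' + 1) ≤ th ∧ e1 ≤ e / 2 ∧ e1 ≤ eF := by
    refine ⟨min (min (th / (M' + 1)) (e / 2)) eF, lt_min (lt_min (by positivity) (by positivity)) heF,
      ?_, (min_le_left _ _).trans (min_le_right _ _), min_le_right _ _⟩
    calc min (min (th / (M' + 1)) (e / 2)) eF * (M' + 1) ≤ th / (M' + 1) * (M' + 1) :=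
          mul_le_mul_of_nonneg_right ((min_le_left _ _).trans (min_le_left _ _)) (by positivity)
      _ = th := by field_simp
  -- interpolation
  obtain ⟨x', hx'Q, hx'X, hx'n, hx'F⟩ := interp b F (fun k => kap⁻¹ • u k) Q e1 hFne hFb hbQ
    (fun k hk => by
      rw [norm_smul, norm_inv, Real.norm_of_nonneg hkap0.le, inv_mul_le_iff₀ hkap0, mul_one]
      exact hu k hk) he10
  set v0 : V := kap • x' with hv0
  have hv0Q : v0 ∈ XQ Q := (XQ Q).smul_mem _ hx'Q
  have hv0n : ‖v0‖ ≤ kap * (1 + e1) := by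
    rw [hv0, norm_smul, Real.norm_of_nonneg hkap0.le]
    exact mul_le_mul_of_nonneg_left hx'n hkap0.le
  have hv0F : ∀ k ∈ F, ‖pi k v0 - u k‖ ≤ eF := by
    intro k hk
    have e2 : pi k v0 - u k = kap • (pi k x' - kap⁻¹ • u k) := by
      rw [hv0, map_smul, smul_sub, smul_smul, mul_inv_cancel₀ hkap0.ne', one_smul]
    rw [e2, norm_smul, Real.norm_of_nonneg hkap0.le]
    have h1 := hx'F k hk
    have h2 : kap * ‖pi k x' - kap⁻¹ • u k‖ ≤ 1 * e1 :=
      mul_le_mul hkap1 h1 (norm_nonneg _) zero_le_one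
    linarith
  set kp : ℝ := lat b v0 with hkp
  have hkp0 : 0 ≤ kp := lat_nonneg _ _
  have hkp1 : kp ≤ kap + e1 := by
    have h1 := (lat_le b v0).trans hv0n
    have h2 : kap * (1 + e1) ≤ kap + 1 * e1 := by
      have := mul_le_mul_of_nonneg_right hkap1 he10.le
      linarith
    rw [hkp]
    linarith
  -- the compact sets
  have hKK : ∀ j, ∃ KK : Set (WeakDual ℝ V), IsCompact KK ∧ Convex ℝ KK ∧ 0 ∈ KK ∧
      (∀ lam ∈ KK, WeakDual.toStrongDual lam ∈ TTset lat p (cc j) ∨ lam = 0) ∧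
      (∀ lam : StrongDual ℝ V, lam ∈ TTset lat p (cc j) → StrongDual.toWeakDual lam ∈ KK) :=
    fun j => exists_KK lat_nonneg hp (hcc0 j) (hC4 (cc j) (hcc0 j))
  choose KK hKK1 hKK2 hKK3 hKK4 hKK5 using hKK
  -- the ball
  set BB : Set (WeakDual ℝ V) := {lam | ∀ z, |lam z| ≤ normSeminorm ℝ V z} with hBB
  have hBBc : IsCompact BB := sel_isCompact (normSeminorm ℝ V) (C := 1)
    (fun z => by rw [one_mul]; exact le_rfl)
  have hconvq : ∀ q : Seminorm ℝ V, Convex ℝ {lam : WeakDual ℝ V | ∀ z, |lam z| ≤ q z} := by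
    intro q l1 hl l' hl' s t hs ht hst z
    change |s * l1 z + t * l' z| ≤ q z
    refine (abs_add_le _ _).trans ?_
    rw [abs_mul, abs_mul, abs_of_nonneg hs, abs_of_nonneg ht]
    calc s * |l1 z| + t * |l' z| ≤ s * q z + t * q z :=
          add_le_add (mul_le_mul_of_nonneg_left (hl z) hs) (mul_le_mul_of_nonneg_left (hl' z) ht)
      _ = q z := by rw [← add_mul, hst, one_mul]
  have hzeroq : ∀ q : Seminorm ℝ V, (0 : WeakDual ℝ V) ∈ {lam : WeakDual ℝ V | ∀ z, |lam z| ≤ q z} := by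
    intro q z
    change |(0 : ℝ)| ≤ q z
    rw [abs_zero]
    exact apply_nonneg q z
  -- the coordinate sets
  let qh : W × ℕ → Seminorm ℝ V := fun h => (normSeminorm ℝ (Z h)).comp (pi h : V →ₗ[ℝ] Z h)
  have hqh : ∀ h z, qh h z = ‖pi h z‖ := fun h z => rfl
  have hCBc : ∀ h, IsCompact {lam : WeakDual ℝ V | ∀ z, |lam z| ≤ qh h z} :=
    fun h => sel_isCompact (qh h) (C := 1) (fun z => by
      rw [one_mul, hqh]
      exact hpi h z)
  -- index type
  let I1 := Fin (n + 1) × {s : V // s ∈ (signSums l).toFinset}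
  let I2 := {y : V // y ∈ yy} × Bool
  let I3 := {h : W × ℕ // h ∈ H}
  let sg : Bool → V → V := fun t y => if t then y else -y
  have hsum : ∃ y ∈ XX b ⊓ XQ Q, ∀ i : I1 ⊕ (I2 ⊕ I3), ∀ lam ∈
      (Sum.elim (fun i : I1 => KK i.1) (Sum.elim (fun _ : I2 => BB)
        (fun h : I3 => {lam : WeakDual ℝ V | ∀ z, |lam z| ≤ qh h.1 z})) i : Set (WeakDual ℝ V)),
      lam (Sum.elim (fun i : I1 => i.2.1) (Sum.elim (fun i : I2 => sg i.2 i.1.1)
        (fun _ : I3 => (0 : V))) i) + lam (v0 - y) ≤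
      Sum.elim (fun i : I1 => 1 + del' - cc i.1 - 1 / n)
        (Sum.elim (fun i : I2 => max ‖i.1.1‖ kap + e) (fun _ : I3 => e)) i := by
    have : Nonempty (I1 ⊕ (I2 ⊕ I3)) := by
      obtain ⟨s, hs, _⟩ := exists_absSum (0 : V →ₗ[ℝ] ℝ) l
      exact ⟨Sum.inl (0, ⟨s, List.mem_toFinset.2 hs⟩)⟩
    refine selection _ ?_ ?_ ?_ _ _ (eta := min th (e / 2)) (lt_min hth0 (by positivity))
      (XX b ⊓ XQ Q) ?_ v0 (fun lam => kp * tail (WeakDual.toStrongDual lam) b) ?_ ?_ ?_
    · rintro (i | i | i)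
      · exact hKK1 i.1
      · exact hBBc
      · exact hCBc i.1
    · rintro (i | i | i)
      · exact hKK2 i.1
      · exact hconvq _
      · exact hconvq _
    · rintro (i | i | i)
      · exact hKK3 i.1
      · exact hzeroq _
      · exact hzeroq _
    · exact (XX_closed b).inter (XQ_closed Q)
    · refine ⟨convex_univ, ?_⟩
      intro l1 _ l2 _ s t hs ht hst
      have h1 := (tail_convex b).2 (Set.mem_univ (WeakDual.toStrongDual l1))
        (Set.mem_univ (WeakDual.toStrongDual l2)) hs ht hst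
      have h2 := mul_le_mul_of_nonneg_left h1 hkp0
      have h3 : kp * (s • tail (WeakDual.toStrongDual l1) b + t • tail (WeakDual.toStrongDual l2) b)
          = s • (kp * tail (WeakDual.toStrongDual l1) b) +
            t • (kp * tail (WeakDual.toStrongDual l2) b) := by
        simp only [smul_eq_mul]
        ring
      rw [h3] at h2
      exact h2
    · intro lam hl
      exact F1 b Q hbQ v0 hv0Q (WeakDual.toStrongDual lam) hl
    · rintro (i | i | i) lam hl
      · -- the sets `TT`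
        have hmin : min th (e / 2) ≤ th := min_le_left _ _
        rcases hKK4 i.1 lam hl with h | h
        · have h1 := hbj i.1 _ h
          have h2 := tail_anti (WeakDual.toStrongDual lam) (bj i.1) b (hbb i.1)
          have h3 : (WeakDual.toStrongDual lam) i.2.1 ≤
              absSum ((WeakDual.toStrongDual lam : StrongDual ℝ V) : V →ₗ[ℝ] ℝ) l :=
            le_absSum _ l _ (List.mem_toFinset.1 i.2.2)
          have h4 : ‖WeakDual.toStrongDual lam‖ ≤ M' := by
            refine ContinuousLinearMap.opNorm_le_bound _ hM'0 fun z => ?_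
            obtain ⟨a, ha⟩ := h
            have h5 := ha z
            have h6 := mul_nonneg (hcc0 i.1) (lat_nonneg a z)
            have h7 := hp z
            have h8 := mul_le_mul_of_nonneg_right (le_max_left M 0) (norm_nonneg z)
            rw [Real.norm_eq_abs]
            linarith
          have h5 := (tail_le (WeakDual.toStrongDual lam) b).trans h4
          have h6 := tail_nonneg (WeakDual.toStrongDual lam) b
          have h7 : kp * tail (WeakDual.toStrongDual lam) b ≤
              tail (WeakDual.toStrongDual lam) b + th := by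
            have h8 : kp * tail (WeakDual.toStrongDual lam) b ≤
                (1 + e1) * tail (WeakDual.toStrongDual lam) b :=
              mul_le_mul_of_nonneg_right (by linarith) h6
            have h9 : e1 * tail (WeakDual.toStrongDual lam) b ≤ e1 * (M' + 1) :=
              mul_le_mul_of_nonneg_left (by linarith) he10.le
            linarith
          change (WeakDual.toStrongDual lam) i.2.1 + kp * tail (WeakDual.toStrongDual lam) b ≤
            1 + del' - cc i.1 - 1 / n - min th (e / 2)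
          have h10 : del' - del = 4 * th := by rw [hth]; ring
          linarith
        · subst h
          have h1 : tail (WeakDual.toStrongDual (0 : WeakDual ℝ V)) b = 0 := by
            have h2 := tail_le (WeakDual.toStrongDual (0 : WeakDual ℝ V)) b
            have h3 := tail_nonneg (WeakDual.toStrongDual (0 : WeakDual ℝ V)) b
            rw [map_zero, norm_zero] at h2
            rw [map_zero] at h3 ⊢
            linarith
          change (0 : ℝ) + kp * tail (WeakDual.toStrongDual (0 : WeakDual ℝ V)) b ≤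
            1 + del' - cc i.1 - 1 / n - min th (e / 2)
          rw [h1]
          have h10 : del' - del = 4 * th := by rw [hth]; ring
          have h11 := hcc1 i.1
          linarith
      · -- the ball
        have hmin : min th (e / 2) ≤ e / 2 := min_le_right _ _
        have hy : sg i.2 i.1.1 ∈ XX b := by
          change (if i.2 then (i.1.1 : V) else -i.1.1) ∈ XX b
          split_ifs
          · exact hby2 _ i.1.2
          · exact (XX b).neg_mem (hby2 _ i.1.2)
        have hny : ‖sg i.2 i.1.1‖ = ‖(i.1.1 : V)‖ := by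
          change ‖(if i.2 then (i.1.1 : V) else -i.1.1)‖ = _
          split_ifs
          · rfl
          · exact norm_neg _
        have h1 := tail_XX (WeakDual.toStrongDual lam) b _ hy
        have h2 := tail_nonneg (WeakDual.toStrongDual lam) b
        have h3 := tail_le (WeakDual.toStrongDual lam) b
        have h4 : ‖WeakDual.toStrongDual lam‖ ≤ 1 := by
          refine ContinuousLinearMap.opNorm_le_bound _ zero_le_one fun z => ?_
          rw [Real.norm_eq_abs, one_mul]
          exact hl z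
        rw [hny] at h1
        change (WeakDual.toStrongDual lam) (sg i.2 i.1.1) + kp * tail (WeakDual.toStrongDual lam) b ≤
            max ‖(i.1.1 : V)‖ kap + e - min th (e / 2)
        set A : ℝ := max ‖(i.1.1 : V)‖ kap with hA
        have hA1 : ‖(i.1.1 : V)‖ ≤ A := le_max_left _ _
        have hA2 : kap ≤ A := le_max_right _ _
        have hA0 : 0 ≤ A := (norm_nonneg _).trans hA1
        have h5 : (‖WeakDual.toStrongDual lam‖ - tail (WeakDual.toStrongDual lam) b) *
            ‖(i.1.1 : V)‖ ≤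
            (‖WeakDual.toStrongDual lam‖ - tail (WeakDual.toStrongDual lam) b) * A :=
          mul_le_mul_of_nonneg_left hA1 (by linarith)
        have h6 : kp * tail (WeakDual.toStrongDual lam) b ≤
            (A + e1) * tail (WeakDual.toStrongDual lam) b :=
          mul_le_mul_of_nonneg_right (by linarith) h2
        have h7 : A * ‖WeakDual.toStrongDual lam‖ ≤ A * 1 := mul_le_mul_of_nonneg_left h4 hA0
        have h8 : e1 * tail (WeakDual.toStrongDual lam) b ≤ e1 * 1 :=
          mul_le_mul_of_nonneg_left (h3.trans h4) he10.le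
        nlinarith
      · -- the coordinates
        have hmin : min th (e / 2) ≤ e / 2 := min_le_right _ _
        have h1 := tail_pi (WeakDual.toStrongDual lam) i.1 b (fun z => hl z) (hbH _ i.2)
        change (WeakDual.toStrongDual lam) (0 : V) + kp * tail (WeakDual.toStrongDual lam) b ≤
            e - min th (e / 2)
        rw [h1, map_zero]
        linarith
  obtain ⟨y, hy, hyall⟩ := hsum
  refine ⟨v0 - y, (XQ Q).sub_mem hv0Q hy.2, ?_, ?_, ?_, ?_, ?_⟩
  · intro b' hb'
    refine (XX b').sub_mem ((XX b').smul_mem _ (hx'X b' hb')) ?_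
    obtain ⟨k, hk⟩ := hFne
    exact XX_mono _ _ ((hFb k hk).trans (hb' k hk).le) hy.1
  · -- lightness
    intro c hc rho hrho
    have hc1 : c ≤ 1 := hC4' c ⟨rho, hrho⟩
    have hfl : ⌊c * n⌋₊ < n + 1 := by
      have h1 : ⌊c * n⌋₊ ≤ n := by
        have h2 : c * n ≤ n := by
          have := mul_le_mul_of_nonneg_right hc1 hnpos.le
          linarith
        exact_mod_cast (Nat.floor_le_floor h2).trans (Nat.floor_natCast (R := ℝ) n).le
      omega
    set j : Fin (n + 1) := ⟨⌊c * n⌋₊, hfl⟩ with hj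
    have hj1 : cc j ≤ c := by
      change ((⌊c * n⌋₊ : ℕ) : ℝ) / n ≤ c
      rw [div_le_iff₀ hnpos]
      exact Nat.floor_le (mul_nonneg hc hnpos.le)
    have hj2 : c ≤ cc j + 1 / n := by
      change c ≤ ((⌊c * n⌋₊ : ℕ) : ℝ) / n + 1 / n
      rw [← add_div, le_div_iff₀ hnpos]
      exact (Nat.lt_floor_add_one (c * n)).le
    have key : ∀ rho' : StrongDual ℝ V, rho' ∈ TTset lat p c →
        absSum (rho' : V →ₗ[ℝ] ℝ) l + rho' (v0 - y) ≤ 1 + del' - c := by
      intro rho' hr
      obtain ⟨s, hs, hs2⟩ := exists_absSum (rho' : V →ₗ[ℝ] ℝ) l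
      have h1 := hyall (Sum.inl (j, ⟨s, List.mem_toFinset.2 hs⟩)) (StrongDual.toWeakDual rho')
        (hKK5 j rho' (TTset_anti lat_nonneg hj1 hr))
      change rho' s + rho' (v0 - y) ≤ 1 + del' - cc j - 1 / n at h1
      have h2 : rho' s = absSum (rho' : V →ₗ[ℝ] ℝ) l := hs2
      rw [h2] at h1
      linarith
    rw [absSum_cons]
    have h1 := key rho hrho
    have h2 := key (-rho) (TTset_neg hrho)
    have h3 : absSum ((-rho : StrongDual ℝ V) : V →ₗ[ℝ] ℝ) l = absSum (rho : V →ₗ[ℝ] ℝ) l :=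
      absSum_neg (rho : V →ₗ[ℝ] ℝ) l
    rw [h3, _root_.neg_apply] at h2
    change |rho (v0 - y)| + _ ≤ _
    rcases abs_cases (rho (v0 - y)) with h | h <;> rw [h.1] <;> linarith
  · intro z hz
    have key : ∀ t : Bool, ‖sg t z + (v0 - y)‖ ≤ max ‖z‖ kap + e := by
      intro t
      obtain ⟨lam, hl1, hl2⟩ := sel_attain (normSeminorm ℝ V) (C := 1)
        (fun z => by rw [one_mul]; exact le_rfl) (sg t z + (v0 - y))
      have h1 := hyall (Sum.inr (Sum.inl (⟨z, hz⟩, t))) (StrongDual.toWeakDual lam) hl1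
      change lam (sg t z) + lam (v0 - y) ≤ max ‖z‖ kap + e at h1
      rw [← map_add, hl2] at h1
      exact h1
    refine ⟨key true, ?_⟩
    have h1 := key false
    have h2 : z - (v0 - y) = -(sg false z + (v0 - y)) := by
      change z - (v0 - y) = -(-z + (v0 - y))
      abel
    rw [h2, norm_neg]
    exact h1
  · intro k hk
    rw [map_sub, XX_zero b y hy.1 k (hFb k hk), sub_zero]
    exact hv0F k hk
  · intro h hh
    obtain ⟨lam, hl1, hl2⟩ := sel_attain (qh h) (C := 1)
      (fun z => by rw [one_mul, hqh]; exact hpi h z) (v0 - y)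
    have h1 := hyall (Sum.inr (Sum.inr ⟨h, hh⟩)) (StrongDual.toWeakDual lam) hl1
    change lam (0 : V) + lam (v0 - y) ≤ e at h1
    rw [map_zero, zero_add, hl2, hqh] at h1
    exact h1

end S2

end Pool.Agent.Dia
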