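import Mathlib

/-!
# Selection lemma (Hahn-Banach with finitely many weak-star compact convex sets)

Given finitely many weak-star compact convex sets `KK j` of functionals containing `0`, points
`x j`, numbers `b j`, a closed subspace `Y`, a point `v0` and a convex function `tau` such that
`lam v0 ≤ tau lam` for every functional `lam` vanishing on `Y`, and
`lam (x j) + tau lam ≤ b j - eta` on `KK j`, there is `y ∈ Y` with
`lam (x j) + lam (v0 - y) ≤ b j` on `KK j` for all `j`.
-/

open Topology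

noncomputable section

namespace Pool.Agent.Dia

section Hull

variable {V : Type*} [AddCommGroup V] [Module ℝ V]
  {ι : Type*} [Fintype ι]

/-- All convex combinations `∑ j, μ j • g j` with `g j ∈ C j`. -/
def selHull (C : ι → Set V) : Set V :=
  {v | ∃ μ ∈ stdSimplex ℝ ι, ∃ g : ι → V, (∀ j, g j ∈ C j) ∧ v = ∑ j, μ j • g j}

theorem selHull_isCompact [TopologicalSpace V] [ContinuousAdd V] [ContinuousSMul ℝ V]
    (C : ι → Set V) (hC : ∀ j, IsCompact (C j)) : IsCompact (selHull C) := by
  have h1 : IsCompact ((stdSimplex ℝ ι) ×ˢ (Set.univ.pi C)) :=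
    (isCompact_stdSimplex ℝ ι).prod (isCompact_univ_pi hC)
  have h2 : Continuous fun p : (ι → ℝ) × (ι → V) => ∑ j, p.1 j • p.2 j := by
    refine continuous_finsetSum _ fun j _ => ?_
    exact ((continuous_apply j).comp continuous_fst).smul ((continuous_apply j).comp continuous_snd)
  have h3 := h1.image h2
  have h4 : selHull C =
      (fun p : (ι → ℝ) × (ι → V) => ∑ j, p.1 j • p.2 j) '' ((stdSimplex ℝ ι) ×ˢ (Set.univ.pi C)) := by
    ext v
    constructor
    · rintro ⟨μ, hμ, g, hg, rfl⟩
      exact ⟨(μ, g), ⟨hμ, fun j _ => hg j⟩, rfl⟩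
    · rintro ⟨⟨μ, g⟩, ⟨hμ, hg⟩, rfl⟩
      exact ⟨μ, hμ, g, fun j => hg j (Set.mem_univ j), rfl⟩
  rw [h4]
  exact h3

theorem selHull_convex (C : ι → Set V) (hC : ∀ j, Convex ℝ (C j)) : Convex ℝ (selHull C) := by
  rintro _ ⟨μ, hμ, g, hg, rfl⟩ _ ⟨μ', hμ', g', hg', rfl⟩ a c ha hc hac
  refine ⟨fun j => a * μ j + c * μ' j, ⟨fun j => ?_, ?_⟩, ?_⟩
  · exact add_nonneg (mul_nonneg ha (hμ.1 j)) (mul_nonneg hc (hμ'.1 j))
  · rw [Finset.sum_add_distrib, ← Finset.mul_sum, ← Finset.mul_sum, hμ.2, hμ'.2]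
    linarith
  · have key : ∀ j, ∃ h ∈ C j, (a * μ j + c * μ' j) • h = (a * μ j) • g j + (c * μ' j) • g' j := by
      intro j
      have h1 : 0 ≤ a * μ j := mul_nonneg ha (hμ.1 j)
      have h2 : 0 ≤ c * μ' j := mul_nonneg hc (hμ'.1 j)
      rcases (add_nonneg h1 h2).eq_or_lt with h0 | h0
      · have h3 : a * μ j = 0 := by linarith
        have h4 : c * μ' j = 0 := by linarith
        exact ⟨g j, hg j, by rw [h3, h4]; simp⟩
      · refine ⟨((a * μ j) / (a * μ j + c * μ' j)) • g j +
          ((c * μ' j) / (a * μ j + c * μ' j)) • g' j, ?_, ?_⟩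
        · refine hC j (hg j) (hg' j) (div_nonneg h1 h0.le) (div_nonneg h2 h0.le) ?_
          rw [← add_div, div_self h0.ne']
        · rw [smul_add, smul_smul, smul_smul, mul_div_cancel₀ _ h0.ne', mul_div_cancel₀ _ h0.ne']
    choose h hh1 hh2 using key
    refine ⟨h, hh1, ?_⟩
    rw [Finset.smul_sum, Finset.smul_sum, ← Finset.sum_add_distrib]
    refine Finset.sum_congr rfl fun j _ => ?_
    rw [hh2 j, smul_smul, smul_smul]

end Hull

section Sel

variable {E : Type*} [NormedAddCommGroup E] [NormedSpace ℝ E]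

theorem sel_locallyConvex : LocallyConvexSpace ℝ (WeakDual ℝ E) :=
  inferInstanceAs (LocallyConvexSpace ℝ (WeakBilin (topDualPairing ℝ E)))

/-- A continuous functional on the weak-star dual is the evaluation at a point. -/
theorem sel_eval (f : WeakDual ℝ E →L[ℝ] ℝ) : ∃ x : E, ∀ lam : WeakDual ℝ E, f lam = lam x := by
  obtain ⟨x, hx⟩ := LinearMap.dualEmbedding_surjective (topDualPairing ℝ E) f
  refine ⟨x, fun lam => ?_⟩
  rw [← hx]
  rfl

/-- A point outside of a closed subspace is separated by a functional vanishing on it. -/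
theorem sel_sep (Y : Submodule ℝ E) (hY : IsClosed (Y : Set E)) {x : E} (hx : x ∉ Y) :
    ∃ lam : WeakDual ℝ E, (∀ y ∈ Y, lam y = 0) ∧ lam x ≠ 0 := by
  obtain ⟨f, u, h1, h2⟩ := geometric_hahn_banach_closed_point Y.convex hY hx
  have hu : 0 < u := by
    have := h1 0 Y.zero_mem
    simpa using this
  have h0 : ∀ y ∈ Y, f y = 0 := by
    intro y hy
    by_contra hne
    have := h1 ((u / f y) • y) (Y.smul_mem _ hy)
    rw [map_smul, smul_eq_mul, div_mul_cancel₀ _ hne] at this
    exact lt_irrefl _ this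
  exact ⟨f, h0, (hu.trans h2).ne'⟩

theorem selection {ι : Type*} [Fintype ι] [Nonempty ι] (KK : ι → Set (WeakDual ℝ E))
    (hc : ∀ j, IsCompact (KK j)) (hconv : ∀ j, Convex ℝ (KK j)) (h0 : ∀ j, 0 ∈ KK j)
    (x : ι → E) (b : ι → ℝ) {eta : ℝ} (heta : 0 < eta)
    (Y : Submodule ℝ E) (hY : IsClosed (Y : Set E)) (v0 : E)
    (tau : WeakDual ℝ E → ℝ) (htau : ConvexOn ℝ Set.univ tau)
    (hF : ∀ lam : WeakDual ℝ E, (∀ y ∈ Y, lam y = 0) → lam v0 ≤ tau lam)
    (hb : ∀ j, ∀ lam ∈ KK j, lam (x j) + tau lam ≤ b j - eta) :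
    ∃ y ∈ Y, ∀ j, ∀ lam ∈ KK j, lam (x j) + lam (v0 - y) ≤ b j := by
  classical
  have : LocallyConvexSpace ℝ (WeakDual ℝ E) := sel_locallyConvex
  -- the compact convex set
  let C : ι → Set (WeakDual ℝ E × ℝ) := fun j => (fun lam => (lam, lam (x j) - b j)) '' KK j
  have hCc : ∀ j, IsCompact (C j) := fun j => (hc j).image
    (continuous_id.prodMk ((WeakDual.eval_continuous (x j)).sub continuous_const))
  have hCconv : ∀ j, Convex ℝ (C j) := by
    rintro j _ ⟨l, hl, rfl⟩ _ ⟨l', hl', rfl⟩ a c ha hc hac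
    refine ⟨a • l + c • l', hconv j hl hl' ha hc hac, ?_⟩
    refine Prod.ext rfl ?_
    · change a * l (x j) + c * l' (x j) - b j = a * (l (x j) - b j) + c * (l' (x j) - b j)
      have : b j = (a + c) * b j := by rw [hac, one_mul]
      linear_combination -this
  have hCk := selHull_isCompact C hCc
  have hCv := selHull_convex C hCconv
  -- the closed subspace
  let A : Submodule ℝ (WeakDual ℝ E × ℝ) :=
    { carrier := {p | (∀ y ∈ Y, p.1 y = 0) ∧ p.1 v0 + p.2 = 0}
      add_mem' := by
        rintro p q ⟨hp, hp'⟩ ⟨hq, hq'⟩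
        refine ⟨fun y hy => ?_, ?_⟩
        · change p.1 y + q.1 y = 0
          rw [hp y hy, hq y hy, add_zero]
        · change p.1 v0 + q.1 v0 + (p.2 + q.2) = 0
          linarith
      zero_mem' := ⟨fun y _ => rfl, by change (0 : ℝ) + 0 = 0; norm_num⟩
      smul_mem' := by
        rintro r p ⟨hp, hp'⟩
        refine ⟨fun y hy => ?_, ?_⟩
        · change r * p.1 y = 0
          rw [hp y hy, mul_zero]
        · change r * p.1 v0 + r * p.2 = 0
          rw [← mul_add, hp', mul_zero] }
  have hAcl : IsClosed (A : Set (WeakDual ℝ E × ℝ)) := by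
    have e : (A : Set (WeakDual ℝ E × ℝ)) =
        (⋂ y ∈ Y, {p : WeakDual ℝ E × ℝ | p.1 y = 0}) ∩ {p | p.1 v0 + p.2 = 0} := by
      ext p
      simp only [Set.mem_inter_iff, Set.mem_iInter, Set.mem_ofPred_eq]
      rfl
    rw [e]
    refine IsClosed.inter (isClosed_iInter fun y => isClosed_iInter fun _ => ?_) ?_
    · exact isClosed_eq ((WeakDual.eval_continuous y).comp continuous_fst) continuous_const
    · exact isClosed_eq (((WeakDual.eval_continuous v0).comp continuous_fst).add continuous_snd)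
        continuous_const
  by_cases hdis : Disjoint (selHull C) (A : Set (WeakDual ℝ E × ℝ))
  · obtain ⟨f, u, v, hfC, huv, hfA⟩ :=
      geometric_hahn_banach_compact_closed hCv hCk A.convex hAcl hdis
    have hv : v < 0 := by
      have := hfA 0 A.zero_mem
      simpa using this
    have hA0 : ∀ p ∈ A, f p = 0 := by
      intro p hp
      by_contra hne
      have := hfA ((v / f p) • p) (A.smul_mem _ hp)
      rw [map_smul, smul_eq_mul, div_mul_cancel₀ _ hne] at this
      exact lt_irrefl _ this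
    obtain ⟨w, hw⟩ := sel_eval (f.comp (ContinuousLinearMap.inl ℝ (WeakDual ℝ E) ℝ))
    set t : ℝ := f (0, 1) with ht
    have hf : ∀ (lam : WeakDual ℝ E) (s : ℝ), f (lam, s) = lam w + s * t := by
      intro lam s
      have e : ((lam, s) : WeakDual ℝ E × ℝ) = (lam, 0) + s • (0, 1) := by
        refine Prod.ext ?_ ?_
        · change lam = lam + s • (0 : WeakDual ℝ E)
          rw [smul_zero, add_zero]
        · change s = 0 + s * 1
          ring
      rw [e, map_add, map_smul, smul_eq_mul, ← ht]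
      congr 1
      rw [← hw lam]
      rfl
    have hCf : ∀ j, ∀ lam ∈ KK j, lam w + (lam (x j) - b j) * t < 0 := by
      intro j lam hl
      rw [← hf]
      refine (hfC _ ?_).trans (huv.trans hv)
      refine ⟨Pi.single j 1, ?_, fun i => if i = j then (lam, lam (x j) - b j) else (0, 0 - b i), ?_, ?_⟩
      · exact single_mem_stdSimplex ℝ j
      · intro i
        by_cases hij : i = j
        · subst hij
          simp only [if_true]
          exact ⟨lam, hl, rfl⟩
        · simp only [if_neg hij]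
          exact ⟨0, h0 i, rfl⟩
      · rw [Finset.sum_eq_single j]
        · simp
        · intro i _ hij
          simp [hij]
        · simp
    obtain ⟨j0⟩ := (inferInstance : Nonempty ι)
    have hb0 : 0 < b j0 := by
      have h1 := hb j0 0 (h0 j0)
      have h2 := hF 0 (fun y _ => rfl)
      have h3 : (0 : WeakDual ℝ E) (x j0) = 0 := rfl
      have h4 : (0 : WeakDual ℝ E) v0 = 0 := rfl
      rw [h3] at h1
      rw [h4] at h2
      linarith
    have htpos : 0 < t := by
      have h1 := hCf j0 0 (h0 j0)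
      have h3 : (0 : WeakDual ℝ E) (x j0) = 0 := rfl
      have h4 : (0 : WeakDual ℝ E) w = 0 := rfl
      rw [h3, h4] at h1
      by_contra hneg
      push Not at hneg
      nlinarith
    have hmem : w - t • v0 ∈ Y := by
      by_contra hnot
      obtain ⟨lam, hl1, hl2⟩ := sel_sep Y hY hnot
      have h1 : ((lam, - lam v0) : WeakDual ℝ E × ℝ) ∈ A := ⟨hl1, by
        change lam v0 + - lam v0 = 0
        ring⟩
      have h2 := hA0 _ h1
      rw [hf] at h2
      apply hl2
      rw [map_sub, map_smul, smul_eq_mul]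
      linarith
    refine ⟨v0 - t⁻¹ • w, ?_, fun j lam hl => ?_⟩
    · have e : v0 - t⁻¹ • w = -(t⁻¹ • (w - t • v0)) := by
        rw [smul_sub, smul_smul, inv_mul_cancel₀ htpos.ne', one_smul]
        abel
      rw [e]
      exact Y.neg_mem (Y.smul_mem _ hmem)
    · have h1 := hCf j lam hl
      rw [sub_sub_cancel, map_smul, smul_eq_mul]
      have h2 : t⁻¹ * (lam w + (lam (x j) - b j) * t) ≤ 0 :=
        mul_nonpos_of_nonneg_of_nonpos (inv_nonneg.2 htpos.le) h1.le
      have h3 : t⁻¹ * (lam w + (lam (x j) - b j) * t) = t⁻¹ * lam w + (lam (x j) - b j) := by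
        field_simp
      rw [h3] at h2
      linarith
  · exfalso
    rw [Set.not_disjoint_iff] at hdis
    obtain ⟨p, ⟨μ, hμ, g, hg, hp⟩, hpA⟩ := hdis
    choose l hl1 hl2 using hg
    obtain ⟨hA1, hA2⟩ := hpA
    have e1 : p.1 = ∑ j, μ j • l j := by
      rw [hp, Prod.fst_sum]
      refine Finset.sum_congr rfl fun j _ => ?_
      rw [← hl2 j]
      rfl
    have e2 : p.2 = ∑ j, μ j * (l j (x j) - b j) := by
      rw [hp, Prod.snd_sum]
      refine Finset.sum_congr rfl fun j _ => ?_
      rw [← hl2 j]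
      rfl
    have h1 : p.1 v0 ≤ tau p.1 := hF p.1 hA1
    have h2 : tau p.1 ≤ ∑ j, μ j * tau (l j) := by
      rw [e1]
      have := htau.map_sum_le (t := Finset.univ) (w := μ) (p := l) (fun j _ => hμ.1 j) hμ.2
        (fun j _ => Set.mem_univ _)
      simpa using this
    have h3 : ∑ j, μ j * tau (l j) ≤ ∑ j, μ j * (b j - eta - l j (x j)) :=
      Finset.sum_le_sum fun j _ => mul_le_mul_of_nonneg_left (by linarith [hb j (l j) (hl1 j)]) (hμ.1 j)
    have h4 : ∑ j, μ j * (b j - eta - l j (x j)) = - p.2 - eta := by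
      rw [e2, ← Finset.sum_neg_distrib]
      have h5 : eta = ∑ j, μ j * eta := by rw [← Finset.sum_mul, hμ.2, one_mul]
      nth_rewrite 2 [h5]
      rw [← Finset.sum_sub_distrib]
      refine Finset.sum_congr rfl fun j _ => ?_
      ring
    linarith

/-- The functionals dominated by a bounded seminorm form a weak-star compact set. -/
theorem sel_isCompact (q : Seminorm ℝ E) {C : ℝ} (hq : ∀ z, q z ≤ C * ‖z‖) :
    IsCompact {lam : WeakDual ℝ E | ∀ z, |lam z| ≤ q z} := by
  have h1 := WeakDual.isCompact_closedBall (0 : StrongDual ℝ E) (max C 0)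
  refine h1.of_isClosed_subset ?_ ?_
  · have e : {lam : WeakDual ℝ E | ∀ z, |lam z| ≤ q z} = ⋂ z, {lam | |lam z| ≤ q z} := by
      ext lam
      simp only [Set.mem_iInter]
      rfl
    rw [e]
    exact isClosed_iInter fun z =>
      isClosed_le (WeakDual.eval_continuous z).abs continuous_const
  · intro lam hl
    change WeakDual.toStrongDual lam ∈ Metric.closedBall (0 : StrongDual ℝ E) (max C 0)
    rw [mem_closedBall_zero_iff]
    refine ContinuousLinearMap.opNorm_le_bound _ (le_max_right _ _) fun z => ?_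
    rw [Real.norm_eq_abs]
    refine (hl z).trans ((hq z).trans ?_)
    exact mul_le_mul_of_nonneg_right (le_max_left _ _) (norm_nonneg z)

/-- A bounded seminorm is attained at each point by a dominated functional. -/
theorem sel_attain (q : Seminorm ℝ E) {C : ℝ} (hq : ∀ z, q z ≤ C * ‖z‖) (u : E) :
    ∃ lam : StrongDual ℝ E, (∀ z, |lam z| ≤ q z) ∧ lam u = q u := by
  obtain ⟨g, hg1, hg2⟩ : ∃ g : E →ₗ[ℝ] ℝ, (∀ z, g z ≤ q z) ∧ g u = q u := by
    by_cases hu : u = 0
    · exact ⟨0, fun z => apply_nonneg q z, by simp [hu]⟩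
    · let f : E →ₗ.[ℝ] ℝ := LinearPMap.mkSpanSingleton u (q u) hu
      obtain ⟨g, h1, h2⟩ := exists_extension_of_le_sublinear f q
        (fun c hc z => by rw [map_smul_eq_mul, Real.norm_of_nonneg hc.le])
        (fun z w => map_add_le_add q z w) (by
          rintro ⟨z, hz⟩
          obtain ⟨c, rfl⟩ := Submodule.mem_span_singleton.1 hz
          have e : f ⟨c • u, hz⟩ = c • q u := LinearPMap.mkSpanSingleton'_apply _ _ _ _ _
          rw [e, map_smul_eq_mul, smul_eq_mul]
          exact mul_le_mul_of_nonneg_right (le_abs_self c) (apply_nonneg q u))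
      refine ⟨g, h2, ?_⟩
      have := h1 ⟨u, Submodule.mem_span_singleton_self u⟩
      rw [this]
      exact LinearPMap.mkSpanSingleton_apply ℝ ℝ hu _
  have habs : ∀ z, |g z| ≤ q z := by
    intro z
    rw [abs_le]
    constructor
    · have := hg1 (-z)
      rw [map_neg, map_neg_eq_map] at this
      linarith
    · exact hg1 z
  refine ⟨LinearMap.mkContinuous g C fun z => ?_, habs, hg2⟩
  rw [Real.norm_eq_abs]
  exact (habs z).trans (hq z)

/-- Selection lemma in seminorm form. -/
theorem selection_seminorm {ι : Type*} [Fintype ι] [Nonempty ι] (q : ι → Seminorm ℝ E)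
    {C : ℝ} (hq : ∀ j z, q j z ≤ C * ‖z‖) (x : ι → E) (b : ι → ℝ) {eta : ℝ} (heta : 0 < eta)
    (Y : Submodule ℝ E) (hY : IsClosed (Y : Set E)) (v0 : E)
    (tau : StrongDual ℝ E → ℝ) (htau : ConvexOn ℝ Set.univ tau)
    (hF : ∀ lam : StrongDual ℝ E, (∀ y ∈ Y, lam y = 0) → lam v0 ≤ tau lam)
    (hb : ∀ j, ∀ lam : StrongDual ℝ E, (∀ z, |lam z| ≤ q j z) →
      lam (x j) + tau lam ≤ b j - eta) :
    ∃ y ∈ Y, ∀ j, q j (x j + (v0 - y)) ≤ b j := by
  obtain ⟨y, hy, h⟩ := selection (fun j => {lam : WeakDual ℝ E | ∀ z, |lam z| ≤ q j z})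
    (fun j => sel_isCompact (q j) (hq j))
    (fun j => by
      intro l hl l' hl' a c ha hc hac z
      change |a * l z + c * l' z| ≤ q j z
      refine (abs_add_le _ _).trans ?_
      rw [abs_mul, abs_mul, abs_of_nonneg ha, abs_of_nonneg hc]
      calc a * |l z| + c * |l' z| ≤ a * q j z + c * q j z :=
            add_le_add (mul_le_mul_of_nonneg_left (hl z) ha) (mul_le_mul_of_nonneg_left (hl' z) hc)
        _ = q j z := by rw [← add_mul, hac, one_mul])
    (fun j z => by
      change |(0 : ℝ)| ≤ q j z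
      rw [abs_zero]
      exact apply_nonneg (q j) z)
    x b heta Y hY v0 (fun lam => tau (WeakDual.toStrongDual lam))
    (by
      refine ⟨convex_univ, ?_⟩
      intro l _ l' _ a c ha hc hac
      exact htau.2 (Set.mem_univ _) (Set.mem_univ _) ha hc hac)
    (fun lam hl => hF (WeakDual.toStrongDual lam) hl)
    (fun j lam hl => hb j (WeakDual.toStrongDual lam) hl)
  refine ⟨y, hy, fun j => ?_⟩
  obtain ⟨lam, hl1, hl2⟩ := sel_attain (q j) (hq j) (x j + (v0 - y))
  rw [← hl2, map_add]
  exact h j (StrongDual.toWeakDual lam) hl1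

end Sel

end Pool.Agent.Dia
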