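import Pool.Agent.Work.MP_89a7db_an.Dia.Defs

/-!
# Cell DIAM (MP_89a7db_an), module M5, part 1: far elements at a successor stage (2.1)
-/

set_option autoImplicit false
set_option linter.unusedSectionVars false

namespace Pool.Agent.DIAM

open Set Filter Topology Pool.Agent.Dia
open scoped ENNReal

noncomputable section

namespace Succ

variable {W : Type} [LinearOrder W]
variable {Z : W × ℕ → Type} [∀ k, NormedAddCommGroup (Z k)] [∀ k, NormedSpace ℝ (Z k)]
  [∀ k, CompleteSpace (Z k)]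

theorem T_supp {a : W} (d : Datum Z a) (x : L Z) {k : W × ℕ} (h : a ≤ k.1) : d.T x k = 0 := by
  rw [Datum.T_apply]
  simp [d.supp _ k h]

theorem add_coord (x y : L Z) (k : W × ℕ) : (x + y) k = x k + y k := by
  rw [lp.coeFn_add]; rfl

theorem sub_coord (x y : L Z) (k : W × ℕ) : (x - y) k = x k - y k := by
  rw [lp.coeFn_sub]; rfl

theorem smul_coord (c : ℝ) (x : L Z) (k : W × ℕ) : (c • x) k = c • x k := by
  rw [lp.coeFn_smul]; rfl

theorem sum_coord (s : Finset ℕ) (w : ℕ → L Z) (k : W × ℕ) :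
    (∑ m ∈ s, w m : L Z) k = ∑ m ∈ s, w m k := by
  rw [lp.coeFn_sum, Finset.sum_apply]

theorem sum_smul_coord (s : Finset ℕ) (t : ℕ → ℝ) (w : ℕ → L Z) (k : W × ℕ) :
    (∑ m ∈ s, t m • w m : L Z) k = ∑ m ∈ s, t m • w m k := by
  rw [sum_coord]
  exact Finset.sum_congr rfl fun m _ => smul_coord _ _ _

theorem J_apply (D : ∀ a, Datum Z a) (k : W × ℕ) (z : Z k) :
    J D k z = sg k z + (D k.1).T (sg k z) := rfl

theorem J_mem (D : ∀ a, Datum Z a) {a : W} (k : W × ℕ) (h : k.1 < a) (z : Z k) :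
    J D k z ∈ XS D a :=
  Submodule.le_topologicalClosure _ (Submodule.subset_span ⟨k, h, z, rfl⟩)

theorem J_coord_self (D : ∀ a, Datum Z a) (k : W × ℕ) (z : Z k) : J D k z k = z := by
  rw [J_apply, add_coord, sg_self, T_supp _ _ le_rfl, add_zero]

theorem J_coord_ne (D : ∀ a, Datum Z a) (k : W × ℕ) (z : Z k) {j : W × ℕ} (hj : k.1 ≤ j.1)
    (h : j ≠ k) : J D k z j = 0 := by
  rw [J_apply, add_coord, sg_ne _ _ h, T_supp _ _ hj, add_zero]

/-- Elements of `X_a` vanish at the stages `≥ a`. -/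
theorem XS_supp (D : ∀ a, Datum Z a) {a : W} {x : L Z} (hx : x ∈ XS D a) {k : W × ℕ}
    (h : a ≤ k.1) : x k = 0 := by
  have h1 : XS D a ≤ LinearMap.ker ((pr k : L Z →L[ℝ] Z k) : L Z →ₗ[ℝ] Z k) := by
    refine Submodule.topologicalClosure_minimal _ ?_
      (ContinuousLinearMap.isClosed_ker (pr k : L Z →L[ℝ] Z k))
    rw [Submodule.span_le]
    rintro _ ⟨j, hj, z, rfl⟩
    show J D j z k = 0
    refine J_coord_ne D j z (hj.le.trans h) ?_
    rintro rfl
    exact absurd hj (not_lt.2 h)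
  exact h1 hx

/-- The dense set of elements of `X_a`, `a` a successor. -/
theorem span_rep (D : ∀ a, Datum Z a) {a' a : W} (hs : ∀ b < a, b ≤ a') {y : L Z}
    (hy : y ∈ Submodule.span ℝ {x | ∃ k : W × ℕ, k.1 < a ∧ ∃ z : Z k, x = J D k z}) :
    ∃ y0 ∈ XS D a', ∃ v : L Z, (∀ k : W × ℕ, k.1 ≠ a' → v k = 0) ∧
      (∃ n0, ∀ i ≥ n0, v (a', i) = 0) ∧ y = y0 + (v + (D a').T v) := by
  induction hy using Submodule.span_induction with
  | mem x hx =>
    obtain ⟨k, hk, z, rfl⟩ := hx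
    rcases (hs _ hk).lt_or_eq with h | h
    · exact ⟨J D k z, J_mem D k h z, 0, fun _ _ => rfl, ⟨0, fun _ _ => rfl⟩, by simp⟩
    · obtain ⟨b, i⟩ := k
      simp only at h
      subst h
      refine ⟨0, zero_mem _, sg (b, i) z, fun k hk => sg_ne _ _ ?_, ⟨i + 1, fun l hl => sg_ne _ _ ?_⟩,
        ?_⟩
      · rintro rfl
        exact hk rfl
      · intro h
        have := congrArg Prod.snd h
        simp only at this
        omega
      · rw [zero_add]; rfl
  | zero => exact ⟨0, zero_mem _, 0, fun _ _ => rfl, ⟨0, fun _ _ => rfl⟩, by simp⟩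
  | add x y _ _ hx hy =>
    obtain ⟨x0, hx0, v, hv, ⟨n, hn⟩, rfl⟩ := hx
    obtain ⟨y0, hy0, v', hv', ⟨n', hn'⟩, rfl⟩ := hy
    refine ⟨x0 + y0, add_mem hx0 hy0, v + v', fun k hk => ?_, ⟨max n n', fun i hi => ?_⟩, ?_⟩
    · rw [add_coord, hv k hk, hv' k hk, add_zero]
    · rw [add_coord, hn i ((le_max_left _ _).trans hi), hn' i ((le_max_right _ _).trans hi),
        add_zero]
    · rw [map_add]; abel
  | smul c x _ hx =>
    obtain ⟨x0, hx0, v, hv, ⟨n, hn⟩, rfl⟩ := hx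
    refine ⟨c • x0, Submodule.smul_mem _ c hx0, c • v, fun k hk => ?_, ⟨n, fun i hi => ?_⟩, ?_⟩
    · rw [smul_coord, hv k hk, smul_zero]
    · rw [smul_coord, hn i hi, smul_zero]
    · rw [map_smul, smul_add, smul_add]

theorem summable_smul {a : W} (d : Datum Z a) {t : ℕ → ℝ} {T : ℝ} (ht : ∀ m, |t m| ≤ T)
    (k : W × ℕ) : Summable fun m => t m • d.w m k := by
  refine Summable.of_norm_bounded ((d.w2 k).mul_left T) fun m => ?_
  rw [norm_smul]
  gcongr
  exact ht m

/-- Passage from the partial sums to the pointwise sum. -/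
theorem norm_lim_le {a : W} (d : Datum Z a) (y0 : L Z) {t : ℕ → ℝ} {T C : ℝ}
    (ht : ∀ m, |t m| ≤ T) (n : ℕ)
    (h : ∀ N ≥ n, ‖y0 + ∑ m ∈ Finset.range N, t m • d.w m‖ ≤ C) (k : W × ℕ) :
    ‖y0 k + ∑' m, t m • d.w m k‖ ≤ C := by
  have h1 : Tendsto (fun N => ‖y0 k + ∑ m ∈ Finset.range N, t m • d.w m k‖) atTop
      (𝓝 ‖y0 k + ∑' m, t m • d.w m k‖) :=
    (((summable_smul d ht k).hasSum.tendsto_sum_nat).const_add _).norm
  refine le_of_tendsto h1 ?_
  filter_upwards [eventually_ge_atTop n] with N hN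
  have h2 := (norm_coord_le (y0 + ∑ m ∈ Finset.range N, t m • d.w m : L Z) k).trans (h N hN)
  rwa [add_coord, sum_smul_coord] at h2

/-- 2.1, first step: the truncations of `y` are not much larger than `y`. -/
theorem trunc_le (D : ∀ a, Datum Z a) {a' : W} (hw4 : CW4 D a' (D a')) {y0 : L Z}
    (hy0 : y0 ∈ XS D a') {v : L Z} (hv : ∀ k : W × ℕ, k.1 ≠ a' → v k = 0) {ε : ℝ} (hε : 0 < ε) :
    ∃ n1, ∀ n ≥ n1, ‖y0 + ∑ m ∈ Finset.range n, (D a').th m v • (D a').w m‖ ≤
      ‖y0 + (v + (D a').T v)‖ + ε := by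
  set d := D a' with hd
  set y := y0 + (v + d.T v) with hy
  have hvy : ∀ k, ‖v k‖ ≤ ‖y‖ := by
    intro k
    by_cases hk : k.1 = a'
    · have h1 : y k = v k := by
        rw [hy, add_coord, add_coord, XS_supp D hy0 hk.ge, T_supp d v hk.ge, zero_add, add_zero]
      rw [← h1]
      exact norm_coord_le y k
    · rw [hv k hk, norm_zero]
      exact norm_nonneg _
  have hth : ∀ m, |d.th m v| ≤ ‖y‖ + ε := fun m =>
    ((d.abs_th_le m v).trans (hvy _)).trans (by linarith)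
  have hTpos : 0 < ‖y‖ + ε := by positivity
  obtain ⟨m0, hm0⟩ := hw4 y0 hy0 (‖y‖ + ε) hTpos ε hε
  refine ⟨m0, fun n hn => ?_⟩
  set yn := y0 + ∑ m ∈ Finset.range n, d.th m v • d.w m with hyn
  -- the reflected sequence
  set t' : ℕ → ℝ := fun m => if m < n then d.th m v else - d.th m v with ht'
  have ht'le : ∀ m, |t' m| ≤ ‖y‖ + ε := by
    intro m
    simp only [ht']
    split_ifs
    · exact hth m
    · rw [abs_neg]; exact hth m
  have hsum' : ∑ m ∈ Finset.range n, t' m • d.w m = ∑ m ∈ Finset.range n, d.th m v • d.w m := by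
    refine Finset.sum_congr rfl fun m hm => ?_
    simp only [ht', if_pos (Finset.mem_range.1 hm)]
  have h1 : ∀ N ≥ n, ‖y0 + ∑ m ∈ Finset.range N, t' m • d.w m‖ ≤ max ‖yn‖ (‖y‖ + ε) + ε := by
    intro N hN
    have := hm0 n hn N hN t' ht'le
    rwa [hsum'] at this
  have h2 : ∀ k, ‖yn k‖ ≤ (‖y‖ + (max ‖yn‖ (‖y‖ + ε) + ε)) / 2 := by
    intro k
    have h3 := norm_lim_le d y0 ht'le n h1 k
    by_cases hk : a' ≤ k.1
    · have h4 : yn k = 0 := by
        rw [hyn, add_coord, sum_smul_coord, XS_supp D hy0 hk, zero_add]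
        refine Finset.sum_eq_zero fun m _ => ?_
        rw [d.supp m k hk, smul_zero]
      rw [h4, norm_zero]
      have := le_max_right ‖yn‖ (‖y‖ + ε)
      linarith [norm_nonneg y]
    · have hvk : v k = 0 := hv k (fun h => hk h.ge)
      have h4 : y k = y0 k + ∑' m, d.th m v • d.w m k := by
        rw [hy, add_coord, add_coord, hvk, zero_add, Datum.T_apply]
      have h5 : ∑' m, d.th m v • d.w m k + ∑' m, t' m • d.w m k
          = (2 : ℝ) • ∑ m ∈ Finset.range n, d.th m v • d.w m k := by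
        rw [← (summable_smul d hth k).tsum_add (summable_smul d ht'le k)]
        rw [tsum_eq_sum (s := Finset.range n)]
        · rw [Finset.smul_sum]
          refine Finset.sum_congr rfl fun m hm => ?_
          simp only [ht', if_pos (Finset.mem_range.1 hm)]
          rw [two_smul]
        · intro m hm
          have : ¬ m < n := fun h => hm (Finset.mem_range.2 h)
          simp only [ht', if_neg this]
          rw [neg_smul, add_neg_cancel]
      have h6 : (2 : ℝ) • yn k = y k + (y0 k + ∑' m, t' m • d.w m k) := by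
        rw [h4, hyn, add_coord, sum_smul_coord, smul_add, ← h5, two_smul]
        abel
      have h7 : 2 * ‖yn k‖ ≤ ‖y‖ + (max ‖yn‖ (‖y‖ + ε) + ε) := by
        have h8 : ‖(2 : ℝ) • yn k‖ = 2 * ‖yn k‖ := by
          rw [norm_smul, Real.norm_of_nonneg (by norm_num)]
        rw [← h8, h6]
        exact (norm_add_le _ _).trans (add_le_add (norm_coord_le y k) h3)
      linarith
  have h9 : ‖yn‖ ≤ (‖y‖ + (max ‖yn‖ (‖y‖ + ε) + ε)) / 2 := by
    refine (norm_le_iff yn ?_).2 h2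
    have := le_max_right ‖yn‖ (‖y‖ + ε)
    linarith [norm_nonneg y]
  rcases le_total ‖yn‖ (‖y‖ + ε) with h | h
  · exact h
  · rw [max_eq_left h] at h9
    linarith

/-- 2.1 for the dense set. -/
theorem far_dense (D : ∀ a, Datum Z a) {a' : W} (hw4 : CW4 D a' (D a')) {y0 : L Z}
    (hy0 : y0 ∈ XS D a') {v : L Z} (hv : ∀ k : W × ℕ, k.1 ≠ a' → v k = 0) {n0 : ℕ}
    (hn0 : ∀ i ≥ n0, v (a', i) = 0) {κ : ℝ} (hκ : 0 ≤ κ) {ε : ℝ} (hε : 0 < ε) :
    ∃ j0, ∀ j ≥ j0, ∀ u : Z (a', j), ‖u‖ ≤ κ →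
      ‖(y0 + (v + (D a').T v)) + J D (a', j) u‖ ≤ max ‖y0 + (v + (D a').T v)‖ κ + 2 * ε := by
  set d := D a' with hd
  set y := y0 + (v + d.T v) with hy
  have hvy : ∀ k, ‖v k‖ ≤ ‖y‖ := by
    intro k
    by_cases hk : k.1 = a'
    · have h1 : y k = v k := by
        rw [hy, add_coord, add_coord, XS_supp D hy0 hk.ge, T_supp d v hk.ge, zero_add, add_zero]
      rw [← h1]
      exact norm_coord_le y k
    · rw [hv k hk, norm_zero]
      exact norm_nonneg _
  obtain ⟨n1, hn1⟩ := trunc_le D hw4 hy0 hv hε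
  have hTpos : 0 < max ‖y‖ κ + ε := by
    have := le_max_right ‖y‖ κ
    linarith
  obtain ⟨m0, hm0⟩ := hw4 y0 hy0 (max ‖y‖ κ + ε) hTpos ε hε
  set n := max n1 m0 with hn
  refine ⟨max n0 ((Finset.range n).sup d.i + 1), fun j hj u hu => ?_⟩
  have hj0 : n0 ≤ j := (le_max_left _ _).trans hj
  have hjn : ∀ m < n, d.i m ≠ j := by
    intro m hm h
    have h1 : d.i m ≤ (Finset.range n).sup d.i := Finset.le_sup (Finset.mem_range.2 hm)
    have h2 : (Finset.range n).sup d.i + 1 ≤ j := (le_max_right _ _).trans hj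
    omega
  set v' := v + sg (a', j) u with hv'
  have hv'k : ∀ k, ‖v' k‖ ≤ max ‖y‖ κ := by
    intro k
    rw [hv', add_coord]
    by_cases hk : k = (a', j)
    · subst hk
      rw [sg_self, hn0 j hj0, zero_add]
      exact hu.trans (le_max_right _ _)
    · rw [sg_ne _ _ hk, add_zero]
      exact (hvy k).trans (le_max_left _ _)
  have hth : ∀ m, |d.th m v'| ≤ max ‖y‖ κ + ε := fun m =>
    ((d.abs_th_le m v').trans (hv'k _)).trans (by linarith)
  have hsum : ∑ m ∈ Finset.range n, d.th m v' • d.w m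
      = ∑ m ∈ Finset.range n, d.th m v • d.w m := by
    refine Finset.sum_congr rfl fun m hm => ?_
    congr 1
    rw [d.th_apply, d.th_apply, hv', add_coord, sg_ne, add_zero]
    intro h
    exact hjn m (Finset.mem_range.1 hm) (congrArg Prod.snd h)
  have h1 : ∀ N ≥ n, ‖y0 + ∑ m ∈ Finset.range N, d.th m v' • d.w m‖ ≤ max ‖y‖ κ + 2 * ε := by
    intro N hN
    have h2 := hm0 n (le_max_right _ _) N hN (fun m => d.th m v') hth
    rw [hsum] at h2
    have h3 := hn1 n (le_max_left _ _)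
    refine h2.trans ?_
    have h4 : max ‖y0 + ∑ m ∈ Finset.range n, d.th m v • d.w m‖ (max ‖y‖ κ + ε)
        ≤ max ‖y‖ κ + ε := by
      refine max_le (h3.trans ?_) le_rfl
      have := le_max_left ‖y‖ κ
      linarith
    linarith
  have hyJ : y + J D (a', j) u = y0 + (v' + d.T v') := by
    rw [J_apply, hv', map_add, hy]
    show y0 + (v + d.T v) + (sg (a', j) u + (D a').T (sg (a', j) u)) = _
    rw [← hd]
    abel
  rw [hyJ]
  refine (norm_le_iff _ ?_).2 fun k => ?_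
  · linarith
  · by_cases hk : a' ≤ k.1
    · rw [add_coord, add_coord, XS_supp D hy0 hk, T_supp d v' hk, zero_add, add_zero]
      linarith [hv'k k]
    · have hv'0 : v' k = 0 := by
        rw [hv', add_coord, hv k (fun h => hk h.ge), sg_ne, add_zero]
        rintro rfl
        exact hk le_rfl
      rw [add_coord, add_coord, hv'0, zero_add, Datum.T_apply]
      exact norm_lim_le d y0 hth n h1 k

/-- 2.1: far elements at a successor stage. -/
theorem far (D : ∀ a, Datum Z a) {a' a : W} (hs : ∀ b < a, b ≤ a') (hw4 : CW4 D a' (D a'))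
    {y : L Z} (hy : y ∈ XS D a) {κ : ℝ} (hκ : 0 ≤ κ) {ε : ℝ} (hε : 0 < ε) :
    ∃ j0, ∀ j ≥ j0, ∀ u : Z (a', j), ‖u‖ ≤ κ → ‖y + J D (a', j) u‖ ≤ max ‖y‖ κ + ε := by
  have hy' : y ∈ closure ((Submodule.span ℝ
      {x | ∃ k : W × ℕ, k.1 < a ∧ ∃ z : Z k, x = J D k z} : Submodule ℝ (L Z)) : Set (L Z)) := hy
  obtain ⟨x, hx, hxy⟩ := Metric.mem_closure_iff.1 hy' (ε / 4) (by positivity)
  obtain ⟨y0, hy0, v, hv, ⟨n0, hn0⟩, rfl⟩ := span_rep D hs hx
  obtain ⟨j0, hj0⟩ := far_dense D hw4 hy0 hv hn0 hκ (ε := ε / 4) (by positivity)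
  refine ⟨j0, fun j hj u hu => ?_⟩
  have h1 := hj0 j hj u hu
  set x := y0 + (v + (D a').T v) with hxdef
  rw [dist_eq_norm] at hxy
  have h2 : ‖y + J D (a', j) u‖ ≤ ‖y - x‖ + ‖x + J D (a', j) u‖ := by
    have : y + J D (a', j) u = (y - x) + (x + J D (a', j) u) := by abel
    rw [this]
    exact norm_add_le _ _
  have h3 : ‖x‖ ≤ ‖y‖ + ‖y - x‖ := by
    have : x = y - (y - x) := by abel
    calc ‖x‖ = ‖y - (y - x)‖ := by rw [← this]
      _ ≤ ‖y‖ + ‖y - x‖ := norm_sub_le _ _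
  have h4 : max ‖x‖ κ ≤ max ‖y‖ κ + ε / 4 := by
    refine max_le ?_ ?_
    · have := le_max_left ‖y‖ κ
      linarith
    · have := le_max_right ‖y‖ κ
      linarith
  linarith

/-- The far elements tend to zero at each coordinate of stage `< a'`. -/
theorem far_small (D : ∀ a, Datum Z a) {a' : W} {k : W × ℕ} (hk : k.1 < a') {ε : ℝ} (hε : 0 < ε) :
    ∃ j0, ∀ j ≥ j0, ∀ u : Z (a', j), ‖u‖ ≤ 1 → ‖J D (a', j) u k‖ ≤ ε := by
  set d := D a' with hd
  have h1 : Tendsto (fun n => ∑' m, ‖d.w (m + n) k‖) atTop (𝓝 0) :=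
    tendsto_sum_nat_add (fun m => ‖d.w m k‖)
  obtain ⟨n, hn⟩ := (h1.eventually_le_const hε).exists
  refine ⟨(Finset.range n).sup d.i + 1, fun j hj u hu => ?_⟩
  have hjn : ∀ m < n, d.i m ≠ j := by
    intro m hm h
    have h1 : d.i m ≤ (Finset.range n).sup d.i := Finset.le_sup (Finset.mem_range.2 hm)
    omega
  rw [J_apply, add_coord, sg_ne, zero_add]
  swap
  · rintro rfl
    exact lt_irrefl _ hk
  show ‖d.T (sg (a', j) u) k‖ ≤ ε
  rw [Datum.T_apply]
  have hth0 : ∀ m < n, d.th m (sg (a', j) u) = 0 := by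
    intro m hm
    rw [d.th_apply, sg_ne, map_zero]
    intro h
    exact hjn m hm (congrArg Prod.snd h)
  have hth1 : ∀ m, |d.th m (sg (a', j) u)| ≤ 1 := by
    intro m
    refine (d.abs_th_le m _).trans ?_
    by_cases h : ((a', d.i m) : W × ℕ) = (a', j)
    · have h' : d.i m = j := congrArg Prod.snd h
      rw [h', sg_self]
      exact hu
    · rw [sg_ne _ _ h, norm_zero]
      exact zero_le_one
  have hs : Summable fun m => d.th m (sg (a', j) u) • d.w m k := summable_smul d hth1 k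
  have h2 := hs.sum_add_tsum_nat_add n
  have h3 : ∑ m ∈ Finset.range n, d.th m (sg (a', j) u) • d.w m k = 0 := by
    refine Finset.sum_eq_zero fun m hm => ?_
    rw [hth0 m (Finset.mem_range.1 hm), zero_smul]
  rw [h3, zero_add] at h2
  rw [← h2]
  refine (tsum_of_norm_bounded ((summable_nat_add_iff n).2 (d.w2 k)).hasSum fun m => ?_).trans hn
  rw [norm_smul]
  calc |d.th (m + n) (sg (a', j) u)| * ‖d.w (m + n) k‖ ≤ 1 * ‖d.w (m + n) k‖ := by
        gcongr
        exact hth1 _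
    _ = ‖d.w (m + n) k‖ := one_mul _

end Succ

end

end Pool.Agent.DIAM
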